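import Pool.Agent.Lib.H15P.TR3
import Pool.Agent.Lib.H92G.E4

/-!
# Chunk B4: `le_EP`, `EX_erase_mul_hit_le`, `cf_fiber` with first moments
-/

open Finset

namespace Pool.Agent.Lib.H57M

open Pool.Agent.Lib.H15P Pool.Agent.Lib.H92G

variable {J : Type} [Fintype J] [DecidableEq J]

/-- `step1` of the proof of `H15P.le_EP`. -/
theorem le_EP2 (P : Finset ℕ) (W K M : ℕ) (b : J → ℕ) (hF : Forms P W K M b)
    (F : (J → Finset {p // p ∈ P}) → ℝ) (h0 : ∀ S, 0 ≤ F S) :
    (1 - (K : ℝ) ^ 2 / W) * EX (qq P K) F - EX (qq P K) (fun S => F S * loss P K S)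
      ≤ EP P M b F := by
  classical
  have hK1 : (1 : ℝ) ≤ K := by exact_mod_cast hF.one_le
  have hW1 : 1 ≤ W := by
    have := hF.KW
    have := hF.one_le
    nlinarith
  have hWr : (1 : ℝ) ≤ W := by exact_mod_cast hW1
  have hpW : ∀ i : {p // p ∈ P}, (W : ℝ) ≤ i.1 := by
    intro i
    exact_mod_cast (hF.big i.1 i.2).le
  have hKW : 4 * (K : ℝ) ^ 2 ≤ W := by exact_mod_cast hF.KW
  have hp0 : ∀ i : {p // p ∈ P}, (0 : ℝ) < i.1 := fun i => by
    have := hpW i
    linarith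
  have hq0 : ∀ i, 0 ≤ qq P K i := qq_nonneg P K
  have hq1 : ∀ i, qq P K i ≤ 1 := by
    intro i
    refine (qq_le P W K hF.one_le hF.KW hF.big i).trans ?_
    rw [div_le_one (hp0 i)]
    have := hpW i
    nlinarith
  have hbw : ∀ S : J → Finset {p // p ∈ P}, 0 ≤ ∏ j, bw (qq P K) (S j) := fun S =>
    Finset.prod_nonneg fun j _ => bw_nonneg _ hq0 hq1 _
  -- step 1: the sum over the families
  have step1 : EX (qq P K) (fun S : J → Finset {p // p ∈ P} =>
      F S * ((1 - (K : ℝ) ^ 2 / W) - loss P K S)) ≤ EP P M b F := by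
    rw [EP_eq P W K M b hF F]
    have e1 : ∑ κ : {p // p ∈ P} → Option J,
        F (cfg κ) * ((1 - (K : ℝ) ^ 2 / W - ∑ j, ∑ p ∈ cfg κ j, 2 * (K : ℝ) / (p.1 : ℝ)) *
          ∏ j, bw (qq P K) (cfg κ j)) ≤
        ∑ κ : {p // p ∈ P} → Option J, F (cfg κ) * ∏ i, ww J i.1 (κ i) :=
      Finset.sum_le_sum fun κ _ => mul_le_mul_of_nonneg_left (prod_ww_ge P W K M b hF κ) (h0 _)
    refine le_trans ?_ e1
    set g : (J → Finset {p // p ∈ P}) → ℝ := fun S =>
      F S * ((1 - (K : ℝ) ^ 2 / W) - loss P K S) * ∏ j, bw (qq P K) (S j) with hg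
    have e2 : ∑ κ : {p // p ∈ P} → Option J, g (cfg κ) =
        ∑ S ∈ (univ : Finset ({p // p ∈ P} → Option J)).image cfg, g S :=
      (Finset.sum_image (fun a _ b _ h => tr3_cfg_inj h)).symm
    have e3 : ∑ κ : {p // p ∈ P} → Option J,
        F (cfg κ) * ((1 - (K : ℝ) ^ 2 / W - ∑ j, ∑ p ∈ cfg κ j, 2 * (K : ℝ) / (p.1 : ℝ)) *
          ∏ j, bw (qq P K) (cfg κ j)) = ∑ κ : {p // p ∈ P} → Option J, g (cfg κ) := by
      refine Finset.sum_congr rfl fun κ _ => ?_
      simp only [hg]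
      have : loss P K (cfg κ) = ∑ j, ∑ p ∈ cfg κ j, 2 * (K : ℝ) / (p.1 : ℝ) := by
        unfold loss
        rw [if_neg, zero_add]
        rintro ⟨j, j', hjj, hd⟩
        exact hd (tr3_cfg_disj κ j j' hjj)
      rw [this]
      ring
    rw [e3, e2]
    have e4 : EX (qq P K) (fun S : J → Finset {p // p ∈ P} =>
        F S * ((1 - (K : ℝ) ^ 2 / W) - loss P K S)) = ∑ S, g S := rfl
    rw [e4, ← Finset.sum_sdiff (Finset.subset_univ
      ((univ : Finset ({p // p ∈ P} → Option J)).image cfg))]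
    have e5 : ∑ S ∈ univ \ (univ : Finset ({p // p ∈ P} → Option J)).image cfg, g S ≤ 0 := by
      refine Finset.sum_nonpos fun S hS => ?_
      rw [Finset.mem_sdiff, Finset.mem_image] at hS
      have hex : ∃ j j', j ≠ j' ∧ ¬ Disjoint (S j) (S j') := by
        by_contra hcon
        push Not at hcon
        obtain ⟨κ, hκ⟩ := tr3_exists_cfg S hcon
        exact hS.2 ⟨κ, Finset.mem_univ _, hκ⟩
      have hl : 1 ≤ loss P K S := by
        unfold loss
        rw [if_pos hex]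
        have : 0 ≤ ∑ j, ∑ p ∈ S j, 2 * (K : ℝ) / (p.1 : ℝ) :=
          Finset.sum_nonneg fun j _ => Finset.sum_nonneg fun p _ => by positivity
        linarith
      have hKW0 : 0 ≤ (K : ℝ) ^ 2 / W := by positivity
      simp only [hg]
      refine mul_nonpos_of_nonpos_of_nonneg ?_ (hbw S)
      exact mul_nonpos_of_nonneg_of_nonpos (h0 S) (by linarith)
    linarith
  refine le_trans ?_ step1
  have e6 : EX (qq P K) (fun S : J → Finset {p // p ∈ P} =>
      F S * ((1 - (K : ℝ) ^ 2 / W) - loss P K S)) =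
      (1 - (K : ℝ) ^ 2 / W) * EX (qq P K) F - EX (qq P K) (fun S => F S * loss P K S) := by
    unfold EX
    rw [Finset.mul_sum, ← Finset.sum_sub_distrib]
    exact Finset.sum_congr rfl fun S _ => by ring
  rw [← e6]

/-- As `EX_erase_mul_hit_le`, without the last Cauchy-Schwarz inequality. -/
theorem EX_erase_mul_hit_le2 (P : Finset ℕ) (W K M : ℕ) (b : J → ℕ) (hF : Forms P W K M b)
    (F : (J → Finset {p // p ∈ P}) → ℝ) (h0 : ∀ S, 0 ≤ F S) (p : {p // p ∈ P}) :
    EX (qq P K) (fun S => F (fun j => (S j).erase p) * (if ∃ j, p ∈ S j then 1 else 0)) ≤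
      2 * EX (qq P K) F * (2 * K / W) := by
  obtain ⟨q0, q1, hh, hh0, hθ⟩ := e4_consts P W K M b hF p
  have h1 := e4_erase (J := J) (qq P K) p F
  set θ := (1 - qq P K p) ^ Fintype.card J with hθdef
  have h2 : EX (qq P K) (fun S : J → Finset {p // p ∈ P} =>
        F (fun j => (S j).erase p) * (if ∃ j, p ∈ S j then 1 else 0)) +
      EX (qq P K) (fun S => F S * (if ∃ j, p ∈ S j then 0 else 1)) =
      EX (qq P K) (fun S : J → Finset {p // p ∈ P} => F (fun j => (S j).erase p)) := by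
    rw [← e4_EX_add]
    congr 1
    funext S
    by_cases h : ∃ j, p ∈ S j
    · rw [if_pos h, if_pos h]; ring
    · rw [if_neg h, if_neg h, mul_zero, zero_add, mul_one]
      congr 1
      funext j
      push Not at h
      exact (Finset.erase_eq_of_notMem (h j)).symm
  have h3 : EX (qq P K) (fun S => F S * (if ∃ j, p ∈ S j then 0 else 1)) ≤ EX (qq P K) F := by
    refine EX_mono (qq P K) q0 q1 _ _ fun S => ?_
    split_ifs
    · rw [mul_zero]; exact h0 S
    · rw [mul_one]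
  have hE0 : 0 ≤ EX (qq P K) (fun S : J → Finset {p // p ∈ P} => F (fun j => (S j).erase p)) :=
    EX_nonneg (qq P K) q0 q1 _ fun S => h0 _
  set E1 := EX (qq P K) (fun S : J → Finset {p // p ∈ P} => F (fun j => (S j).erase p)) with hE1
  set E2 := EX (qq P K) (fun S : J → Finset {p // p ∈ P} =>
        F (fun j => (S j).erase p) * (if ∃ j, p ∈ S j then 1 else 0)) with hE2
  set E3 := EX (qq P K) (fun S => F S * (if ∃ j, p ∈ S j then 0 else 1)) with hE3
  set σ := EX (qq P K) F with hσ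
  -- E1 ≤ 2 σ
  have h5 : E1 ≤ 2 * σ := by
    have : (1 / 2) * E1 ≤ θ * E1 := mul_le_mul_of_nonneg_right (by linarith) hE0
    linarith
  have h6 : E2 = (1 - θ) * E1 := by linarith
  rw [h6]
  calc (1 - θ) * E1 ≤ (2 * K / W) * E1 := mul_le_mul_of_nonneg_right (by linarith) hE0
    _ ≤ (2 * K / W) * (2 * σ) := mul_le_mul_of_nonneg_left h5 hh0
    _ = 2 * σ * (2 * K / W) := by ring

theorem B4_fiber_aux (P : Finset ℕ) (W K M Q : ℕ) (hQ : Q = ∏ p ∈ P, p) [NeZero (Q * M)]
    (b : J → ℕ) (hF : Forms P W K M b) (F : (J → Finset {p // p ∈ P}) → ℝ) (h0 : ∀ S, 0 ≤ F S)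
    (j0 : J) (hb : (b j0).Coprime M) (δ E : ℝ)
    (hδ : ∀ p : {p // p ∈ P}, EX (qq P K) (fun S => F S * (if ∃ j, p ∈ S j then 1 else 0)) ≤ δ)
    (hE : EX (qq P K) F ≤ E) (χ : DirichletCharacter ℂ (Q * M))
    (hχ : ¬ χ.conductor ∣ M) :
    ‖cf Q M (b j0) (fun t => F (fun j => hit P (b j + M * t))) χ‖ ≤
      2 * (Q : ℝ) * (δ + 4 * K / W * E) := by
  classical
  have hQM : Q.Coprime M := by
    rw [hQ]
    exact Nat.Coprime.prod_left fun p hp =>
      (Nat.Prime.coprime_iff_not_dvd (hF.prime p hp)).mpr (hF.cop p hp)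
  obtain ⟨p, hpP, hpr⟩ := e4_prime P M χ.conductor hF.prime
    (by rw [← hQ]; exact χ.conductor_dvd_level) hχ
  set Q' := ∏ q ∈ P.erase p, q with hQ'
  have hQp : Q = p * Q' := hQ.trans (Finset.mul_prod_erase P (fun q => q) hpP).symm
  have hQ'Q : Q' ∣ Q := Dvd.intro_left _ hQp.symm
  set pp : {p // p ∈ P} := ⟨p, hpP⟩ with hpp
  -- the function without p
  have hper : Function.Periodic
      (fun t => F (fun j => (hit P (b j + M * t)).erase pp)) Q' := by
    intro t
    simp only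
    congr 1
    funext j
    ext x
    simp only [Finset.mem_erase]
    refine and_congr_right fun hx => ?_
    have hxQ : x.1 ∣ Q' := by
      refine Finset.dvd_prod_of_mem (fun q => q) ?_
      rw [Finset.mem_erase]
      refine ⟨?_, x.2⟩
      intro h
      exact hx (Subtype.ext h)
    unfold hit
    simp only [mem_filter, mem_univ, true_and]
    have e1 : b j + M * (t + Q') = (b j + M * t) + M * Q' := by ring
    rw [e1]
    exact (Nat.dvd_add_iff_left (hxQ.mul_left M)).symm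
  have hzero : cf Q M (b j0) (fun t => F (fun j => (hit P (b j + M * t)).erase pp)) χ = 0 := by
    by_contra hne
    have h1 := cf_conductor Q M (b j0) Q' hQM hb hQ'Q _ hper χ hne
    have h2 : p ∣ Q' * M := hpr.trans h1
    rcases (Nat.Prime.dvd_mul (hF.prime p hpP)).mp h2 with h3 | h3
    · rw [hQ', (Nat.Prime.prime (hF.prime p hpP)).dvd_finsetProd_iff] at h3
      obtain ⟨q, hq, hpq⟩ := h3
      rw [Finset.mem_erase] at hq
      exact hq.1 ((Nat.prime_dvd_prime_iff_eq (hF.prime p hpP) (hF.prime q hq.2)).mp hpq).symm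
    · exact hF.cop p hpP h3
  have hsplit : cf Q M (b j0) (fun t => F (fun j => hit P (b j + M * t))) χ =
      cf Q M (b j0) (fun t => F (fun j => hit P (b j + M * t)) -
        F (fun j => (hit P (b j + M * t)).erase pp)) χ := by
    have h1 := cf_add Q M (b j0) (fun t => F (fun j => hit P (b j + M * t)) -
        F (fun j => (hit P (b j + M * t)).erase pp))
        (fun t => F (fun j => (hit P (b j + M * t)).erase pp)) χ
    rw [hzero, add_zero] at h1
    rw [← h1]
    congr 1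
    funext t
    ring
  rw [hsplit]
  refine (norm_cf_le Q M (b j0) _ χ).trans ?_
  obtain ⟨q0, q1, hh, hh0, hθ⟩ := e4_consts P W K M b hF pp
  have hK1 : (1 : ℝ) ≤ K := by exact_mod_cast hF.one_le
  have hKW : 4 * (K : ℝ) ^ 2 ≤ W := by exact_mod_cast hF.KW
  have hW0 : (0 : ℝ) < W := by nlinarith
  have hQ0 : (0 : ℝ) < (Q : ℝ) := by
    have h1 : Q ≠ 0 := by
      rw [hQ]
      exact Finset.prod_ne_zero_iff.mpr fun p hp => (hF.prime p hp).ne_zero
    exact_mod_cast Nat.pos_of_ne_zero h1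
  set F1 : (J → Finset {p // p ∈ P}) → ℝ := fun S => F S * (if ∃ j, pp ∈ S j then 1 else 0)
    with hF1
  set F2 : (J → Finset {p // p ∈ P}) → ℝ := fun S =>
    F (fun j => (S j).erase pp) * (if ∃ j, pp ∈ S j then 1 else 0) with hF2
  have hF1n : ∀ S, 0 ≤ F1 S := fun S => mul_nonneg (h0 S) (by split_ifs <;> norm_num)
  have hF2n : ∀ S, 0 ≤ F2 S := fun S => mul_nonneg (h0 _) (by split_ifs <;> norm_num)
  have hterm : ∀ t, |F (fun j => hit P (b j + M * t)) -
      F (fun j => (hit P (b j + M * t)).erase pp)| ≤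
      F1 (fun j => hit P (b j + M * t)) + F2 (fun j => hit P (b j + M * t)) := by
    intro t
    by_cases h : ∃ j, pp ∈ hit P (b j + M * t)
    · simp only [hF1, hF2]
      rw [if_pos h, mul_one, mul_one]
      have h1 := h0 (fun j => hit P (b j + M * t))
      have h2 := h0 (fun j => (hit P (b j + M * t)).erase pp)
      rw [abs_le]
      constructor <;> linarith
    · simp only [hF1, hF2]
      rw [if_neg h, mul_zero, mul_zero, add_zero]
      push Not at h
      have h3 : (fun j => (hit P (b j + M * t)).erase pp) = fun j => hit P (b j + M * t) := by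
        funext j
        exact Finset.erase_eq_of_notMem (h j)
      rw [h3, sub_self, abs_zero]
  have hsum : ∑ t ∈ (range Q).filter (fun t => (b j0 + M * t).Coprime Q),
      |F (fun j => hit P (b j + M * t)) - F (fun j => (hit P (b j + M * t)).erase pp)| ≤
      (Q : ℝ) * (EP P M b F1 + EP P M b F2) := by
    have h1 : (Q : ℝ) * (EP P M b F1 + EP P M b F2) =
        ∑ t ∈ range Q, (F1 (fun j => hit P (b j + M * t)) + F2 (fun j => hit P (b j + M * t))) := by
      unfold EP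
      rw [← hQ, Finset.sum_add_distrib, ← add_div, mul_div_cancel₀ _ hQ0.ne']
    rw [h1]
    refine (Finset.sum_le_sum_of_subset_of_nonneg (Finset.filter_subset _ _)
      fun t _ _ => abs_nonneg _).trans (Finset.sum_le_sum fun t _ => hterm t)
  refine hsum.trans ?_
  have hE1 := EP_le P W K M b hF F1 hF1n
  have hE2 := EP_le P W K M b hF F2 hF2n
  have hX1' : EX (qq P K) F1 ≤ δ := hδ pp
  have hX2 := EX_erase_mul_hit_le2 P W K M b hF F h0 pp
  have hX2' : EX (qq P K) F2 ≤ 2 * EX (qq P K) F * (2 * K / W) := hX2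
  have hexp := e4_exp W K hF.one_le hF.KW
  have hX1n : 0 ≤ EX (qq P K) F1 := EX_nonneg (qq P K) q0 q1 _ hF1n
  have hX2n : 0 ≤ EX (qq P K) F2 := EX_nonneg (qq P K) q0 q1 _ hF2n
  have hB : EX (qq P K) F2 ≤ 4 * K / W * E := by
    refine hX2'.trans ?_
    have h1 : 2 * EX (qq P K) F * (2 * K / W) = 4 * K / W * EX (qq P K) F := by ring
    rw [h1]
    exact mul_le_mul_of_nonneg_left hE (by positivity)
  have hP1 : EP P M b F1 ≤ 2 * δ :=
    hE1.trans (mul_le_mul hexp hX1' hX1n (by norm_num))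
  have hP2 : EP P M b F2 ≤ 2 * (4 * K / W * E) :=
    hE2.trans (mul_le_mul hexp hB hX2n (by norm_num))
  calc (Q : ℝ) * (EP P M b F1 + EP P M b F2)
      ≤ (Q : ℝ) * (2 * δ + 2 * (4 * K / W * E)) := by gcongr
    _ = 2 * (Q : ℝ) * (δ + 4 * K / W * E) := by ring

/-- As `cf_fiber`, with first moments: `‖cf‖ ≤ Q (EP F1 + EP F2) ≤ Q (2 EX F1 + 2 EX F2)`. -/
theorem cf_fiber2 (P : Finset ℕ) (W K M : ℕ) [NeZero ((∏ p ∈ P, p) * M)] (b : J → ℕ)
    (hF : Forms P W K M b) (F : (J → Finset {p // p ∈ P}) → ℝ) (h0 : ∀ S, 0 ≤ F S) (j0 : J)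
    (hb : (b j0).Coprime M) (δ E : ℝ)
    (hδ : ∀ p : {p // p ∈ P}, EX (qq P K) (fun S => F S * (if ∃ j, p ∈ S j then 1 else 0)) ≤ δ)
    (hE : EX (qq P K) F ≤ E) (χ : DirichletCharacter ℂ ((∏ p ∈ P, p) * M))
    (hχ : ¬ χ.conductor ∣ M) :
    ‖cf (∏ p ∈ P, p) M (b j0) (fun t => F (fun j => hit P (b j + M * t))) χ‖ ≤
      2 * ((∏ p ∈ P, p : ℕ) : ℝ) * (δ + 4 * K / W * E) := by
  exact B4_fiber_aux P W K M _ rfl b hF F h0 j0 hb δ E hδ hE χ hχ

end Pool.Agent.Lib.H57M
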