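import Pool.Agent.Lib.H57M.B4
import Pool.Agent.Lib.H92G.E6

/-!
# Chunk B6: `EU_ge` with first moments
-/

open Finset

namespace Pool.Agent.Lib.H57M

open Pool.Agent.Lib.H15P Pool.Agent.Lib.H92G

variable {J : Type} [Fintype J] [DecidableEq J]

/-- Copy of the proof of `EU_ge` (`H92G/E6.lean`) with `le_EP2` instead of `le_EP`;
`EX (F 1[S j0 = ∅] loss) ≤ EX (F loss)` as `loss ≥ 0`. -/
theorem EU_ge2 (P : Finset ℕ) (W K M : ℕ) (b : J → ℕ) (hF : Forms P W K M b)
    (F : (J → Finset {p // p ∈ P}) → ℝ) (h0 : ∀ S, 0 ≤ F S) (j0 : J) :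
    (((∏ p ∈ P, p : ℕ) : ℝ) / ((∏ p ∈ P, p).totient : ℝ)) *
      ((1 - (K : ℝ) ^ 2 / W) * EX (qq P K) (fun S => F S * (if S j0 = ∅ then 1 else 0)) -
        EX (qq P K) (fun S => F S * loss P K S))
      ≤ EU P M (b j0) (fun t => F (fun j => hit P (b j + M * t))) := by
  have hq0 := qq_nonneg P K
  have hq1 := tr2_qq_le_one P W K hF.one_le hF.KW hF.big
  have hG0 : ∀ S, 0 ≤ F S * (if S j0 = ∅ then 1 else 0) := fun S =>
    mul_nonneg (h0 S) (by split_ifs <;> norm_num)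
  have h1 := le_EP2 P W K M b hF (fun S => F S * (if S j0 = ∅ then 1 else 0)) hG0
  have hl0 : ∀ S : J → Finset {p // p ∈ P}, 0 ≤ loss P K S := by
    intro S
    unfold loss
    refine add_nonneg (by split_ifs <;> norm_num) ?_
    exact Finset.sum_nonneg fun j _ => Finset.sum_nonneg fun p _ => by positivity
  have h2 : EX (qq P K) (fun S => (F S * (if S j0 = ∅ then 1 else 0)) * loss P K S)
      ≤ EX (qq P K) (fun S => F S * loss P K S) := by
    refine EX_mono _ hq0 hq1 _ _ fun S => ?_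
    refine mul_le_mul_of_nonneg_right ?_ (hl0 S)
    split_ifs
    · rw [mul_one]
    · rw [mul_zero]
      exact h0 S
  have hQ : 0 < ∏ p ∈ P, p := prod_pos fun p hp => (hF.prime p hp).pos
  have hQr : (0 : ℝ) < ((∏ p ∈ P, p : ℕ) : ℝ) := by exact_mod_cast hQ
  have hφ : (0 : ℝ) < ((∏ p ∈ P, p).totient : ℝ) := by exact_mod_cast Nat.totient_pos.2 hQ
  have h6 : (((∏ p ∈ P, p : ℕ) : ℝ) / ((∏ p ∈ P, p).totient : ℝ)) *
      EP P M b (fun S => F S * (if S j0 = ∅ then 1 else 0))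
      = EU P M (b j0) (fun t => F (fun j => hit P (b j + M * t))) := by
    unfold EP EU
    rw [div_mul_div_comm, mul_comm ((∏ p ∈ P, p).totient : ℝ), mul_div_mul_left _ _ hQr.ne',
      sum_filter]
    congr 1
    refine sum_congr rfl fun t _ => ?_
    have : hit P (b j0 + M * t) = ∅ ↔ (b j0 + M * t).Coprime (∏ p ∈ P, p) :=
      e6_hit P hF.prime _
    show F _ * (if hit P (b j0 + M * t) = ∅ then 1 else 0) = _
    by_cases h : hit P (b j0 + M * t) = ∅
    · rw [if_pos h, if_pos (this.1 h), mul_one]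
    · rw [if_neg h, if_neg (fun h' => h (this.2 h')), mul_zero]
  rw [← h6]
  refine mul_le_mul_of_nonneg_left ?_ (div_pos hQr hφ).le
  linarith

end Pool.Agent.Lib.H57M
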