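import Pool.Agent.Lib.H57M.Defs
import Pool.Agent.Lib.H15P.TR3

/-!
# Chunk B3: second moments of the weight function with prescribed prime divisors
-/

open Finset

namespace Pool.Agent.Lib.H57M

open Pool.Agent.Lib.H15P Pool.Agent.Lib.H92G

variable {K : ℕ} {J : Type} [Fintype J] [DecidableEq J]

/-- Cauchy-Schwarz over the labelings: `L^2 ≤ #(labelings) ∑_l ∏_j dg^2`, with at most
`(n + 1)^K` labelings (`sq_sum_le_card_mul_sum_sq`). Mean value of the product by `EX_prod`:
`∏_j ex (dg(l_j)^2 1[T_j ⊆ A])`, at most `Dt^|T_j| ∏_{T_j} q · (1 or s i)` for the label `none` or `i`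
(for `none`: `ex 1[T ⊆ A] = ∏_T q`, `tr3_ex_subset`; `Par.tilt`). Sum over all functions
`l : J → Option (Fin n)` = product over `j` of the sums, each at most
`(1 + ∑ s) Dt^|T_j| ∏ q ≤ 2 Dt^|T_j| ∏ q`. -/
theorem Par.EX_tilt (w : Par K) (hJ : Fintype.card J = K) (T : J → Finset {p // p ∈ w.P}) :
    EX (qq w.P K) (fun S : J → Finset {p // p ∈ w.P} =>
        w.L S ^ 2 * ∏ j, (if T j ⊆ S j then 1 else 0))
      ≤ w.CL * w.Dt ^ (∑ j, (T j).card) * ∏ j, ∏ p ∈ T j, qq w.P K p := by
  classical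
  have hq0 : ∀ i, 0 ≤ qq w.P K i := w.good.q0
  have hq1 : ∀ i, qq w.P K i ≤ 1 := w.good.q1
  set q := qq w.P K with hq
  set D : J → Fin w.n → Finset {p // p ∈ w.P} → ℝ := fun _ => w.D with hD
  have hDt0 : 0 ≤ w.Dt := zero_le_one.trans w.Dt1
  -- the cardinality of the set of the labelings
  have hcard : ((Fintype.card (J → Option (Fin w.n)) : ℕ) : ℝ) = ((w.n : ℝ) + 1) ^ K := by
    rw [Fintype.card_fun, Fintype.card_option, Fintype.card_fin, hJ]
    push_cast
    rfl
  -- pointwise bound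
  have hpt : ∀ S : J → Finset {p // p ∈ w.P},
      w.L S ^ 2 * ∏ j, (if T j ⊆ S j then (1 : ℝ) else 0) ≤
      ((w.n : ℝ) + 1) ^ K * ∑ l : J → Option (Fin w.n),
        ∏ j, (dg D j (l j) (S j) ^ 2 * (if T j ⊆ S j then (1 : ℝ) else 0)) := by
    intro S
    have h1 : w.L S = ∑ l ∈ adm (univ : Finset J) w.m, ∏ j, dg D j (l j) (S j) := by
      unfold Par.L LG LW
      simp only [one_mul, hD]
    have h2 : w.L S ^ 2 ≤ ((w.n : ℝ) + 1) ^ K * ∑ l : J → Option (Fin w.n),
        ∏ j, dg D j (l j) (S j) ^ 2 := by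
      rw [h1]
      refine (sq_sum_le_card_mul_sum_sq).trans ?_
      have h3 : ((adm (univ : Finset J) w.m).card : ℝ) ≤ ((w.n : ℝ) + 1) ^ K := by
        rw [← hcard]
        exact_mod_cast Finset.card_le_univ _
      have h4 : ∑ l ∈ adm (univ : Finset J) w.m, (∏ j, dg D j (l j) (S j)) ^ 2 ≤
          ∑ l : J → Option (Fin w.n), ∏ j, dg D j (l j) (S j) ^ 2 := by
        refine (Finset.sum_le_univ_sum_of_nonneg fun l => sq_nonneg _).trans (le_of_eq ?_)
        exact Finset.sum_congr rfl fun l _ => by rw [Finset.prod_pow]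
      exact mul_le_mul h3 h4 (Finset.sum_nonneg fun l _ => sq_nonneg _) (by positivity)
    have h5 : (0 : ℝ) ≤ ∏ j, (if T j ⊆ S j then (1 : ℝ) else 0) :=
      Finset.prod_nonneg fun j _ => by split_ifs <;> norm_num
    refine (mul_le_mul_of_nonneg_right h2 h5).trans (le_of_eq ?_)
    rw [mul_assoc, Finset.sum_mul]
    congr 1
    exact Finset.sum_congr rfl fun l _ => by rw [Finset.prod_mul_distrib]
  refine (EX_mono q hq0 hq1 _ _ hpt).trans ?_
  rw [EX_const_mul, EX_sum]
  -- each labeling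
  set B : J → ℝ := fun j => w.Dt ^ (T j).card * ∏ p ∈ T j, q p with hB
  have hB0 : ∀ j, 0 ≤ B j := fun j =>
    mul_nonneg (pow_nonneg hDt0 _) (Finset.prod_nonneg fun p _ => hq0 p)
  set σ : Option (Fin w.n) → ℝ := fun o => match o with
    | none => 1
    | some i => w.s i with hσ
  have hσ0 : ∀ o, 0 ≤ σ o := by
    rintro (_ | i)
    · exact zero_le_one
    · exact w.s0 i
  have hone : ∀ (j : J) (o : Option (Fin w.n)),
      ex q (fun A => dg D j o A ^ 2 * (if T j ⊆ A then (1 : ℝ) else 0)) ≤ B j * σ o := by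
    intro j o
    rcases o with _ | i
    · have e1 : (fun A => dg D j (none : Option (Fin w.n)) A ^ 2 * (if T j ⊆ A then (1 : ℝ) else 0)) =
          fun A => (if T j ⊆ A then (1 : ℝ) else 0) := by
        funext A
        simp only [dg, one_pow, one_mul]
      rw [e1, tr3_ex_subset]
      have h1 : (1 : ℝ) ≤ w.Dt ^ (T j).card := one_le_pow₀ w.Dt1
      have h2 : (0 : ℝ) ≤ ∏ p ∈ T j, q p := Finset.prod_nonneg fun p _ => hq0 p
      show ∏ p ∈ T j, q p ≤ w.Dt ^ (T j).card * (∏ p ∈ T j, q p) * 1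
      nlinarith
    · exact w.tilt i (T j)
  have hlab : ∀ l : J → Option (Fin w.n),
      EX q (fun S : J → Finset {p // p ∈ w.P} =>
        ∏ j, (dg D j (l j) (S j) ^ 2 * (if T j ⊆ S j then (1 : ℝ) else 0))) ≤
      ∏ j, (B j * σ (l j)) := by
    intro l
    rw [EX_prod q (fun j A => dg D j (l j) A ^ 2 * (if T j ⊆ A then (1 : ℝ) else 0))]
    refine Finset.prod_le_prod (fun j _ => ex_nonneg q hq0 hq1 _ fun A => ?_) fun j _ => hone j (l j)
    refine mul_nonneg (sq_nonneg _) ?_
    split_ifs <;> norm_num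
  have hsum : ∑ l : J → Option (Fin w.n),
      EX q (fun S : J → Finset {p // p ∈ w.P} =>
        ∏ j, (dg D j (l j) (S j) ^ 2 * (if T j ⊆ S j then (1 : ℝ) else 0))) ≤
      2 ^ K * ∏ j, B j := by
    refine (Finset.sum_le_sum fun l _ => hlab l).trans ?_
    have h1 := Finset.prod_univ_sum (fun _ : J => (univ : Finset (Option (Fin w.n))))
      (fun j o => B j * σ o)
    rw [Fintype.piFinset_univ] at h1
    rw [← h1]
    have h2 : ∀ j, ∑ o, B j * σ o ≤ 2 * B j := by
      intro j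
      rw [← Finset.mul_sum, Fintype.sum_option]
      have h3 : σ none + ∑ i, σ (some i) ≤ 2 := by
        show 1 + ∑ i, w.s i ≤ 2
        linarith [w.hs]
      nlinarith [hB0 j]
    refine (Finset.prod_le_prod (fun j _ => Finset.sum_nonneg fun o _ =>
      mul_nonneg (hB0 j) (hσ0 o)) fun j _ => h2 j).trans (le_of_eq ?_)
    rw [Finset.prod_mul_distrib, Finset.prod_const, Finset.card_univ, hJ]
  refine (mul_le_mul_of_nonneg_left hsum (by positivity)).trans (le_of_eq ?_)
  have h1 : ∏ j, B j = w.Dt ^ (∑ j, (T j).card) * ∏ j, ∏ p ∈ T j, q p := by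
    rw [hB, Finset.prod_mul_distrib, Finset.prod_pow_eq_pow_sum]
  rw [h1, Par.CL, mul_pow]
  ring

theorem B3_EX_add {ι : Type} [Fintype ι] [DecidableEq ι] (q : ι → ℝ) (F G : (J → Finset ι) → ℝ) :
    EX q (fun S => F S + G S) = EX q F + EX q G := by
  unfold EX
  rw [← Finset.sum_add_distrib]
  exact Finset.sum_congr rfl fun S _ => by rw [add_mul]

theorem B3_single (w : Par K) (hJ : Fintype.card J = K) (p : {p // p ∈ w.P}) (j : J) :
    EX (qq w.P K) (fun S : J → Finset {p // p ∈ w.P} =>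
        w.L S ^ 2 * (if p ∈ S j then 1 else 0)) ≤ w.CL * w.Dt * qq w.P K p := by
  have h := w.EX_tilt hJ (fun l => if l = j then {p} else ∅)
  have e1 : (fun S : J → Finset {p // p ∈ w.P} => w.L S ^ 2 *
      ∏ l, (if (if l = j then ({p} : Finset {p // p ∈ w.P}) else ∅) ⊆ S l then (1 : ℝ) else 0)) =
      (fun S : J → Finset {p // p ∈ w.P} => w.L S ^ 2 * (if p ∈ S j then 1 else 0)) := by
    funext S
    rw [Finset.prod_eq_single j]
    · rw [if_pos rfl]
      simp only [Finset.singleton_subset_iff]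
    · intro l _ hl
      rw [if_neg hl, if_pos (Finset.empty_subset _)]
    · intro h
      exact absurd (mem_univ j) h
  have e2 : ∑ l, (if l = j then ({p} : Finset {p // p ∈ w.P}) else ∅).card = 1 := by
    rw [Finset.sum_eq_single j]
    · rw [if_pos rfl, card_singleton]
    · intro l _ hl
      rw [if_neg hl, card_empty]
    · intro h
      exact absurd (mem_univ j) h
  have e3 : ∏ l, ∏ p' ∈ (if l = j then ({p} : Finset {p // p ∈ w.P}) else ∅), qq w.P K p' =
      qq w.P K p := by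
    rw [Finset.prod_eq_single j]
    · rw [if_pos rfl, prod_singleton]
    · intro l _ hl
      rw [if_neg hl, prod_empty]
    · intro h
      exact absurd (mem_univ j) h
  rw [e1, e2, e3, pow_one] at h
  exact h

theorem B3_pair (w : Par K) (hJ : Fintype.card J = K) (p : {p // p ∈ w.P}) (j j' : J) (hjj : j ≠ j') :
    EX (qq w.P K) (fun S : J → Finset {p // p ∈ w.P} =>
        w.L S ^ 2 * (tr3_ind S (j, p) * tr3_ind S (j', p))) ≤ w.CL * w.Dt ^ 2 * qq w.P K p ^ 2 := by
  have h := w.EX_tilt hJ (fun l => if l = j then {p} else if l = j' then {p} else ∅)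
  have e1 : (fun S : J → Finset {p // p ∈ w.P} => w.L S ^ 2 *
      ∏ l, (if (if l = j then ({p} : Finset {p // p ∈ w.P}) else if l = j' then {p} else ∅) ⊆ S l
        then (1 : ℝ) else 0)) =
      (fun S : J → Finset {p // p ∈ w.P} => w.L S ^ 2 * (tr3_ind S (j, p) * tr3_ind S (j', p))) := by
    funext S
    rw [← Finset.mul_prod_erase univ _ (Finset.mem_univ j), if_pos rfl,
      ← Finset.mul_prod_erase (univ.erase j) _
        (Finset.mem_erase.mpr ⟨hjj.symm, Finset.mem_univ j'⟩), if_neg hjj.symm, if_pos rfl]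
    rw [Finset.prod_eq_one, mul_one]
    · unfold tr3_ind
      simp only [Finset.singleton_subset_iff]
    · intro l hl
      have h2 := Finset.ne_of_mem_erase hl
      have h3 := Finset.ne_of_mem_erase (Finset.mem_of_mem_erase hl)
      rw [if_neg h3, if_neg h2, if_pos (Finset.empty_subset _)]
  have e2 : ∑ l, (if l = j then ({p} : Finset {p // p ∈ w.P}) else if l = j' then {p} else ∅).card = 2 := by
    rw [← Finset.add_sum_erase univ _ (Finset.mem_univ j), if_pos rfl,
      ← Finset.add_sum_erase (univ.erase j) _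
        (Finset.mem_erase.mpr ⟨hjj.symm, Finset.mem_univ j'⟩), if_neg hjj.symm, if_pos rfl]
    rw [Finset.sum_eq_zero]
    · simp
    · intro l hl
      have h2 := Finset.ne_of_mem_erase hl
      have h3 := Finset.ne_of_mem_erase (Finset.mem_of_mem_erase hl)
      rw [if_neg h3, if_neg h2, card_empty]
  have e3 : ∏ l, ∏ p' ∈ (if l = j then ({p} : Finset {p // p ∈ w.P}) else if l = j' then {p} else ∅),
      qq w.P K p' = qq w.P K p ^ 2 := by
    rw [← Finset.mul_prod_erase univ _ (Finset.mem_univ j), if_pos rfl,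
      ← Finset.mul_prod_erase (univ.erase j) _
        (Finset.mem_erase.mpr ⟨hjj.symm, Finset.mem_univ j'⟩), if_neg hjj.symm, if_pos rfl,
      prod_singleton]
    rw [Finset.prod_eq_one, mul_one, pow_two]
    intro l hl
    have h2 := Finset.ne_of_mem_erase hl
    have h3 := Finset.ne_of_mem_erase (Finset.mem_of_mem_erase hl)
    rw [if_neg h3, if_neg h2, prod_empty]
  rw [e1, e2, e3] at h
  exact h

/-- Union bound over `j`; `EX_tilt` with `T j = {p}` for one `j` and `∅` for the others. -/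
theorem Par.EX_hit (w : Par K) (hJ : Fintype.card J = K) (p : {p // p ∈ w.P}) :
    EX (qq w.P K) (fun S : J → Finset {p // p ∈ w.P} =>
        w.L S ^ 2 * (if ∃ j, p ∈ S j then 1 else 0))
      ≤ K * (w.CL * w.Dt * qq w.P K p) := by
  have hpt : ∀ S : J → Finset {p // p ∈ w.P}, w.L S ^ 2 * (if ∃ j, p ∈ S j then (1 : ℝ) else 0) ≤
      ∑ j, w.L S ^ 2 * (if p ∈ S j then (1 : ℝ) else 0) := by
    intro S
    rw [← Finset.mul_sum]
    refine mul_le_mul_of_nonneg_left ?_ (sq_nonneg _)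
    by_cases h : ∃ j, p ∈ S j
    · rw [if_pos h]
      obtain ⟨j, hj⟩ := h
      have h1 : (1 : ℝ) = if p ∈ S j then (1 : ℝ) else 0 := by rw [if_pos hj]
      exact h1.le.trans (Finset.single_le_sum (f := fun j => if p ∈ S j then (1 : ℝ) else 0)
        (fun j _ => by split_ifs <;> norm_num) (mem_univ j))
    · rw [if_neg h]
      exact Finset.sum_nonneg fun j _ => by split_ifs <;> norm_num
  refine (EX_mono _ w.good.q0 w.good.q1 _ _ hpt).trans ?_
  rw [EX_sum]
  refine (Finset.sum_le_sum fun j _ => B3_single w hJ p j).trans (le_of_eq ?_)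
  rw [Finset.sum_const, Finset.card_univ, hJ, nsmul_eq_mul]

/-- `loss ≤ ∑_{j ≠ j'} ∑_p 1[p ∈ S j] 1[p ∈ S j'] + ∑_j ∑_p (2K/p) 1[p ∈ S j]`; `EX_tilt` (two sets
`{p}`, resp. one), `qq ≤ 2/p` (`qq_le`), `∑ 1/p^2 ≤ 1/W` (`sum_inv_sq_le`): at most
`K^2 CL Dt^2 4/W + K CL Dt 4 K/W ≤ 8 K^2 CL Dt^2/W`. -/
theorem Par.EX_loss (w : Par K) (hJ : Fintype.card J = K) :
    EX (qq w.P K) (fun S : J → Finset {p // p ∈ w.P} => w.L S ^ 2 * loss w.P K S)
      ≤ 8 * (K : ℝ) ^ 2 * w.CL * w.Dt ^ 2 / w.W := by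
  classical
  have hK1 : (1 : ℝ) ≤ K := by exact_mod_cast w.Kpos
  have hW1 : 1 ≤ w.W := by
    have h1 := w.KW
    have h2 := w.Kpos
    nlinarith
  have hWr : (1 : ℝ) ≤ w.W := by exact_mod_cast hW1
  have hCL : 0 ≤ w.CL := by
    unfold Par.CL
    positivity
  have hDt : 1 ≤ w.Dt := w.Dt1
  have hp0 : ∀ i : {p // p ∈ w.P}, (0 : ℝ) < i.1 := fun i => by
    exact_mod_cast (w.prime i.1 i.2).pos
  have hq0 : ∀ i, 0 ≤ qq w.P K i := w.good.q0
  have hq2 : ∀ i, qq w.P K i ≤ 2 / (i.1 : ℝ) := qq_le w.P w.W K w.Kpos w.KW w.big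
  have hsq : ∑ i : {p // p ∈ w.P}, 1 / ((i.1 : ℕ) : ℝ) ^ 2 ≤ 1 / (w.W : ℝ) := by
    have h1 := sum_inv_sq_le w.P w.W hW1 w.big
    have h2 : ∑ i : {p // p ∈ w.P}, 1 / ((i.1 : ℕ) : ℝ) ^ 2 = ∑ p ∈ w.P, 1 / (p : ℝ) ^ 2 :=
      Finset.sum_coe_sort w.P (fun p => 1 / (p : ℝ) ^ 2)
    rw [h2]
    exact h1
  -- pointwise bound
  have hpt : ∀ S : J → Finset {p // p ∈ w.P}, w.L S ^ 2 * loss w.P K S ≤
      (∑ j : J, ∑ j' : J, ∑ i : {p // p ∈ w.P},
        w.L S ^ 2 * (if j = j' then 0 else tr3_ind S (j, i) * tr3_ind S (j', i))) +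
      (∑ j : J, ∑ i : {p // p ∈ w.P}, 2 * (K : ℝ) / (i.1 : ℝ) *
        (w.L S ^ 2 * (if i ∈ S j then 1 else 0))) := by
    intro S
    unfold loss
    rw [mul_add]
    refine add_le_add ?_ (le_of_eq ?_)
    · simp only [← Finset.mul_sum]
      refine mul_le_mul_of_nonneg_left ?_ (sq_nonneg _)
      have hn : ∀ (j j' : J) (i : {p // p ∈ w.P}),
          0 ≤ (if j = j' then (0 : ℝ) else tr3_ind S (j, i) * tr3_ind S (j', i)) := by
        intro j j' i
        unfold tr3_ind
        split_ifs <;> norm_num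
      by_cases h : ∃ j j', j ≠ j' ∧ ¬ Disjoint (S j) (S j')
      · rw [if_pos h]
        obtain ⟨j, j', hjj, hd⟩ := h
        rw [Finset.not_disjoint_iff] at hd
        obtain ⟨i, hi, hi'⟩ := hd
        have f1 : (1 : ℝ) = (if j = j' then (0 : ℝ) else tr3_ind S (j, i) * tr3_ind S (j', i)) := by
          rw [if_neg hjj]
          unfold tr3_ind
          simp [hi, hi']
        rw [f1]
        refine le_trans ?_ (Finset.single_le_sum
          (f := fun j : J => ∑ j' : J, ∑ i : {p // p ∈ w.P},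
            (if j = j' then (0 : ℝ) else tr3_ind S (j, i) * tr3_ind S (j', i)))
          (fun a _ => Finset.sum_nonneg fun a' _ => Finset.sum_nonneg fun i _ => hn a a' i)
          (Finset.mem_univ j))
        refine le_trans ?_ (Finset.single_le_sum
          (f := fun j' : J => ∑ i : {p // p ∈ w.P},
            (if j = j' then (0 : ℝ) else tr3_ind S (j, i) * tr3_ind S (j', i)))
          (fun a' _ => Finset.sum_nonneg fun i _ => hn j a' i)
          (Finset.mem_univ j'))
        exact Finset.single_le_sum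
          (f := fun i : {p // p ∈ w.P} =>
            (if j = j' then (0 : ℝ) else tr3_ind S (j, i) * tr3_ind S (j', i)))
          (fun i _ => hn j j' i) (Finset.mem_univ i)
      · rw [if_neg h]
        exact Finset.sum_nonneg fun a _ => Finset.sum_nonneg fun a' _ =>
          Finset.sum_nonneg fun i _ => hn a a' i
    · rw [Finset.mul_sum]
      refine Finset.sum_congr rfl fun j _ => ?_
      have h1 : ∑ p ∈ S j, 2 * (K : ℝ) / (p.1 : ℝ) =
          ∑ p : {p // p ∈ w.P}, 2 * (K : ℝ) / (p.1 : ℝ) * (if p ∈ S j then 1 else 0) := by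
        simp only [mul_ite, mul_one, mul_zero]
        rw [Finset.sum_ite_mem, Finset.univ_inter]
      rw [h1, Finset.mul_sum]
      exact Finset.sum_congr rfl fun i _ => by ring
  refine (EX_mono _ w.good.q0 w.good.q1 _ _ hpt).trans ?_
  rw [B3_EX_add]
  have hA : EX (qq w.P K) (fun S : J → Finset {p // p ∈ w.P} =>
      ∑ j : J, ∑ j' : J, ∑ i : {p // p ∈ w.P},
        w.L S ^ 2 * (if j = j' then 0 else tr3_ind S (j, i) * tr3_ind S (j', i))) ≤
      4 * (K : ℝ) ^ 2 * w.CL * w.Dt ^ 2 / w.W := by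
    rw [EX_sum]
    have h1 : ∀ j j' : J, EX (qq w.P K) (fun S : J → Finset {p // p ∈ w.P} =>
        ∑ i : {p // p ∈ w.P},
        w.L S ^ 2 * (if j = j' then 0 else tr3_ind S (j, i) * tr3_ind S (j', i))) ≤
        4 * w.CL * w.Dt ^ 2 / w.W := by
      intro j j'
      rw [EX_sum]
      have h2 : ∀ i : {p // p ∈ w.P}, EX (qq w.P K) (fun S : J → Finset {p // p ∈ w.P} =>
          w.L S ^ 2 * (if j = j' then 0 else tr3_ind S (j, i) * tr3_ind S (j', i))) ≤
          4 * w.CL * w.Dt ^ 2 * (1 / ((i.1 : ℕ) : ℝ) ^ 2) := by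
        intro i
        by_cases hjj : j = j'
        · have e : (fun S : J → Finset {p // p ∈ w.P} =>
              w.L S ^ 2 * (if j = j' then 0 else tr3_ind S (j, i) * tr3_ind S (j', i))) =
              fun S => 0 * (1 : ℝ) := by
            funext S
            rw [if_pos hjj, mul_zero, zero_mul]
          rw [e, EX_const_mul, zero_mul]
          positivity
        · have e : (fun S : J → Finset {p // p ∈ w.P} =>
              w.L S ^ 2 * (if j = j' then 0 else tr3_ind S (j, i) * tr3_ind S (j', i))) =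
              fun S => w.L S ^ 2 * (tr3_ind S (j, i) * tr3_ind S (j', i)) := by
            funext S
            rw [if_neg hjj]
          rw [e]
          refine (B3_pair w hJ i j j' hjj).trans ?_
          have h3 : qq w.P K i ^ 2 ≤ 4 * (1 / ((i.1 : ℕ) : ℝ) ^ 2) := by
            refine (pow_le_pow_left₀ (hq0 i) (hq2 i) 2).trans (le_of_eq ?_)
            rw [div_pow]
            ring
          have h4 : 0 ≤ w.CL * w.Dt ^ 2 := by positivity
          nlinarith [mul_le_mul_of_nonneg_left h3 h4]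
      refine (Finset.sum_le_sum fun i _ => h2 i).trans ?_
      rw [← Finset.mul_sum]
      have h4 : 0 ≤ 4 * w.CL * w.Dt ^ 2 := by positivity
      refine (mul_le_mul_of_nonneg_left hsq h4).trans (le_of_eq ?_)
      ring
    have h5 : ∀ j : J, EX (qq w.P K) (fun S : J → Finset {p // p ∈ w.P} =>
        ∑ j' : J, ∑ i : {p // p ∈ w.P},
        w.L S ^ 2 * (if j = j' then 0 else tr3_ind S (j, i) * tr3_ind S (j', i))) ≤
        K * (4 * w.CL * w.Dt ^ 2 / w.W) := by
      intro j
      rw [EX_sum]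
      refine (Finset.sum_le_sum fun j' _ => h1 j j').trans (le_of_eq ?_)
      rw [Finset.sum_const, Finset.card_univ, hJ, nsmul_eq_mul]
    refine (Finset.sum_le_sum fun j _ => h5 j).trans (le_of_eq ?_)
    rw [Finset.sum_const, Finset.card_univ, hJ, nsmul_eq_mul]
    ring
  have hB : EX (qq w.P K) (fun S : J → Finset {p // p ∈ w.P} =>
      ∑ j : J, ∑ i : {p // p ∈ w.P}, 2 * (K : ℝ) / (i.1 : ℝ) *
        (w.L S ^ 2 * (if i ∈ S j then 1 else 0))) ≤
      4 * (K : ℝ) ^ 2 * w.CL * w.Dt / w.W := by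
    rw [EX_sum]
    have h1 : ∀ j : J, EX (qq w.P K) (fun S : J → Finset {p // p ∈ w.P} =>
        ∑ i : {p // p ∈ w.P}, 2 * (K : ℝ) / (i.1 : ℝ) *
        (w.L S ^ 2 * (if i ∈ S j then 1 else 0))) ≤ 4 * K * w.CL * w.Dt / w.W := by
      intro j
      rw [EX_sum]
      have h2 : ∀ i : {p // p ∈ w.P}, EX (qq w.P K) (fun S : J → Finset {p // p ∈ w.P} =>
          2 * (K : ℝ) / (i.1 : ℝ) * (w.L S ^ 2 * (if i ∈ S j then 1 else 0))) ≤
          4 * K * w.CL * w.Dt * (1 / ((i.1 : ℕ) : ℝ) ^ 2) := by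
        intro i
        rw [EX_const_mul]
        have h3 := B3_single w hJ i j
        have h4 : w.CL * w.Dt * qq w.P K i ≤ w.CL * w.Dt * (2 / (i.1 : ℝ)) :=
          mul_le_mul_of_nonneg_left (hq2 i) (by positivity)
        have h5 : (0 : ℝ) ≤ 2 * (K : ℝ) / (i.1 : ℝ) := by
          have := hp0 i
          positivity
        refine (mul_le_mul_of_nonneg_left (h3.trans h4) h5).trans (le_of_eq ?_)
        have := (hp0 i).ne'
        field_simp
        ring
      refine (Finset.sum_le_sum fun i _ => h2 i).trans ?_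
      rw [← Finset.mul_sum]
      have h4 : 0 ≤ 4 * K * w.CL * w.Dt := by positivity
      refine (mul_le_mul_of_nonneg_left hsq h4).trans (le_of_eq ?_)
      ring
    refine (Finset.sum_le_sum fun j _ => h1 j).trans (le_of_eq ?_)
    rw [Finset.sum_const, Finset.card_univ, hJ, nsmul_eq_mul]
    ring
  have hB' : 4 * (K : ℝ) ^ 2 * w.CL * w.Dt / w.W ≤ 4 * (K : ℝ) ^ 2 * w.CL * w.Dt ^ 2 / w.W := by
    refine div_le_div_of_nonneg_right ?_ (by positivity)
    refine mul_le_mul_of_nonneg_left ?_ (by positivity)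
    nlinarith
  refine (add_le_add hA (hB.trans hB')).trans (le_of_eq ?_)
  ring

end Pool.Agent.Lib.H57M
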