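import Pool.Agent.Lib.H57M.Defs
import Pool.Agent.Lib.H15P.TR2
import Pool.Agent.Lib.H15P.LV1

/-!
# Chunk B7: sums over a full period, in a residue class modulo a divisor of `∏ P`
-/

open Finset

namespace Pool.Agent.Lib.H57M

open Pool.Agent.Lib.H15P Pool.Agent.Lib.H92G

variable {J : Type} [Fintype J] [DecidableEq J]

theorem B7_dvd (P : Finset ℕ) (hP : ∀ p ∈ P, p.Prime) (q : ℕ) (hq : q ∣ ∏ p ∈ P, p) (N : ℕ) :
    q ∣ N ↔ ∀ p ∈ P, p ∣ q → p ∣ N := by
  constructor
  · intro h p _ hp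
    exact hp.trans h
  · intro h
    have hsq : Squarefree (∏ p ∈ P, p) := by
      refine Finset.squarefree_prod_of_pairwise_isCoprime ?_ fun p hp => (hP p hp).prime.squarefree
      intro p hp p' hp' hne
      exact (Nat.coprime_iff_isRelPrime).mp ((Nat.coprime_primes (hP p hp) (hP p' hp')).mpr hne)
    have h1 : q = ∏ p ∈ q.primeFactors, p :=
      (Nat.prod_primeFactors_of_squarefree (hsq.squarefree_of_dvd hq)).symm
    rw [h1]
    refine Finset.prod_primes_dvd N (fun p hp => (Nat.prime_of_mem_primeFactors hp).prime) ?_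
    intro p hp
    have hpq := Nat.dvd_of_mem_primeFactors hp
    have hpp := Nat.prime_of_mem_primeFactors hp
    obtain ⟨p', hp', h2⟩ := (Prime.dvd_finsetProd_iff hpp.prime _).mp (hpq.trans hq)
    have h3 : p = p' := (Nat.prime_dvd_prime_iff_eq hpp (hP p' hp')).mp h2
    exact h p (h3 ▸ hp') hpq

theorem B7_modEq (P : Finset ℕ) (hP : ∀ p ∈ P, p.Prime) (q : ℕ) (hq : q ∣ ∏ p ∈ P, p) (t c : ℕ) :
    t ≡ c [MOD q] ↔ ∀ p ∈ P, p ∣ q → t ≡ c [MOD p] := by
  have h1 : ∀ n : ℕ, t ≡ c [MOD n] ↔ n ∣ ((c : ℤ) - t).natAbs := by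
    intro n
    rw [Nat.modEq_iff_dvd, Int.natCast_dvd]
  rw [h1, B7_dvd P hP q hq]
  exact forall₂_congr fun p _ => by rw [h1]

theorem B7_ind_nonneg {P : Finset ℕ} {W K M : ℕ} {b : J → ℕ} (hF : Forms P W K M b)
    {p : ℕ} (hp : p ∈ P) (t : ℕ) (o : Option J) : 0 ≤ tr1_ind M b p t o := by
  rcases o with _ | j
  · by_cases h : ∃ j, p ∣ b j + M * t
    · obtain ⟨j, hj⟩ := h
      unfold tr1_ind
      simp only
      rw [tr1_sum_one hF hp t hj]
      norm_num
    · push Not at h
      unfold tr1_ind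
      simp only
      rw [Finset.sum_eq_zero fun j _ => if_neg (h j)]
      norm_num
  · unfold tr1_ind
    simp only
    split_ifs <;> norm_num

theorem B7_one (p c : ℕ) (hp : 0 < p) (g : ℕ → ℝ) (hg : Function.Periodic g p) :
    ∑ t ∈ range p, g t * (if t ≡ c [MOD p] then (1 : ℝ) else 0) = g c := by
  rw [Finset.sum_eq_single (c % p)]
  · rw [if_pos (Nat.mod_modEq c p), mul_one, hg.map_mod_nat]
  · intro t ht hne
    rw [if_neg, mul_zero]
    intro h
    apply hne
    have h1 : t % p = c % p := h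
    rw [← h1, Nat.mod_eq_of_lt (mem_range.mp ht)]
  · intro h
    exact absurd (mem_range.mpr (Nat.mod_lt c hp)) h

/-- the factor of one prime -/
theorem B7_factor {P : Finset ℕ} {W K M : ℕ} {b : J → ℕ} (hF : Forms P W K M b)
    {p : ℕ} (hp : p ∈ P) (q c : ℕ) (o : Option J) :
    ∑ t ∈ range p, tr1_ind M b p t o *
        (if p ∣ q then (if t ≡ c [MOD p] then (1 : ℝ) else 0) else 1) ≤
      p * (ww J p o * (if p ∣ q ∧ ∀ j, ¬ p ∣ b j + M * c then (2 / (p : ℝ)) else 1) *
        ∏ j, (if p ∣ q ∧ p ∣ b j + M * c then (if o = some j then (1 : ℝ) else 0) else 1)) := by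
  have hp1 : 4 * K ^ 2 < p := lt_of_le_of_lt hF.KW (hF.big p hp)
  have hp0 : (0 : ℝ) < p := by exact_mod_cast (hF.prime p hp).pos
  have hJ : (Fintype.card J : ℝ) / p ≤ 1 / 2 := by
    rw [div_le_div_iff₀ hp0 (by norm_num)]
    have h1 := hF.card
    have h2 := hF.one_le
    have h3 : 2 * Fintype.card J ≤ p := by nlinarith
    have h4 : (2 : ℝ) * Fintype.card J ≤ p := by exact_mod_cast h3
    linarith
  by_cases hq : p ∣ q
  · simp only [hq, if_true, true_and]
    rw [B7_one p c (hF.prime p hp).pos (fun t => tr1_ind M b p t o) (tr1_periodic M b p o)]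
    by_cases hj : ∃ j, p ∣ b j + M * c
    · obtain ⟨j0, hj0⟩ := hj
      rw [if_neg (fun h => h j0 hj0), mul_one]
      have h1 : ∏ j, (if p ∣ b j + M * c then (if o = some j then (1 : ℝ) else 0) else 1) =
          if o = some j0 then 1 else 0 := by
        rw [Finset.prod_eq_single j0]
        · rw [if_pos hj0]
        · intro j _ hne
          rw [if_neg]
          intro h
          exact hne (tr1_unique hF hp c h hj0)
        · intro h
          exact absurd (mem_univ j0) h
      rw [h1]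
      rcases o with _ | j
      · rw [if_neg (by simp), mul_zero, mul_zero]
        unfold tr1_ind
        simp only
        rw [tr1_sum_one hF hp c hj0]
        norm_num
      · by_cases hjj : j = j0
        · rw [hjj, if_pos rfl]
          unfold tr1_ind ww
          simp only
          rw [if_pos hj0]
          field_simp
          exact le_refl _
        · rw [if_neg (fun h => hjj (Option.some_inj.mp h)), mul_zero, mul_zero]
          unfold tr1_ind
          simp only
          rw [if_neg]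
          intro h
          exact hjj (tr1_unique hF hp c h hj0)
    · push Not at hj
      rw [if_pos hj]
      have h1 : ∏ j, (if p ∣ b j + M * c then (if o = some j then (1 : ℝ) else 0) else 1) = 1 :=
        Finset.prod_eq_one fun j _ => if_neg (hj j)
      rw [h1, mul_one]
      rcases o with _ | j
      · unfold tr1_ind ww
        simp only
        rw [Finset.sum_eq_zero fun j _ => if_neg (hj j)]
        have e : (p : ℝ) * ((1 - (Fintype.card J : ℝ) / p) * (2 / p)) =
            2 * (1 - (Fintype.card J : ℝ) / p) := by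
          field_simp
        rw [e]
        linarith
      · unfold tr1_ind ww
        simp only
        rw [if_neg (hj j)]
        positivity
  · simp only [hq, if_false, false_and, mul_one, Finset.prod_const_one]
    rw [tr1_sum_period hF hp o]

/-- Let `U_j` be the set of the `p ∈ P` with `p ∣ q`, `p ∣ b j + M c` (each `p ∣ q` is in at most
one `U_j`, `tr1_unique`), and `V` the `p ∣ q` which are in no `U_j`. As in `EP_eq` (`H15P/TR1.lean`):
expand `F(hits) = ∑_κ F(cfg κ) ∏_p 1[state of p at t is κ p]` (`tr1_expand`) and sum over the `t` of a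
full period with `t ≡ c mod q` (product over the primes, `H56G.sum_range_prod`, of
the functions `1[state κ p] · 1[p ∤ q or t ≡ c mod p]`): the factor of `p ∤ q` is `p ww(κ p)`
(`tr1_sum_period`), the factor of `p ∣ q` is `1[κ p = state at c]`. Divided by `∏ P`:
`ww(κ p)` resp. `(1/p) 1[..]`. For `p ∈ U_j`: `1/p = ww (some j)`; for `p ∈ V`: `1/p ≤ (2/p) ww none`
(`ww none = 1 - |J|/p ≥ 1/2`). So the sum is at most
`∏_V (2/p) ∑_κ F(cfg κ) ∏_j 1[U_j ⊆ (cfg κ)_j] ∏ ww`, which is the right side by `EP_eq`. -/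
theorem EP_class (P : Finset ℕ) (W K M : ℕ) (b : J → ℕ) (hF : Forms P W K M b)
    (F : (J → Finset {p // p ∈ P}) → ℝ) (h0 : ∀ S, 0 ≤ F S) (q c : ℕ) (hq : q ∣ ∏ p ∈ P, p) :
    (∑ t ∈ (range (∏ p ∈ P, p)).filter (fun t => t ≡ c [MOD q]),
        F (fun j => hit P (b j + M * t))) / ((∏ p ∈ P, p : ℕ) : ℝ) ≤
      (∏ p ∈ P.filter (fun p => p ∣ q ∧ ∀ j, ¬ p ∣ b j + M * c), (2 / (p : ℝ))) *
        EP P M b (fun S => F S * ∏ j, (if (univ.filter
          (fun p : {p // p ∈ P} => p.1 ∣ q ∧ p.1 ∣ b j + M * c)) ⊆ S j then 1 else 0)) := by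
  classical
  have hprod : (∏ p ∈ P, p) = ∏ i : {p // p ∈ P}, i.1 := by
    rw [← Finset.prod_coe_sort P (fun p => p)]
  have hpos : (0 : ℝ) < ((∏ p ∈ P, p : ℕ) : ℝ) := by
    have : 0 < ∏ p ∈ P, p := Finset.prod_pos (fun p hp => (hF.prime p hp).pos)
    exact_mod_cast this
  -- the indicator of the class as a product
  have hind : ∀ t : ℕ, (if t ≡ c [MOD q] then (1 : ℝ) else 0) =
      ∏ i : {p // p ∈ P}, (if i.1 ∣ q then (if t ≡ c [MOD i.1] then (1 : ℝ) else 0) else 1) := by
    intro t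
    by_cases ht : t ≡ c [MOD q]
    · rw [if_pos ht]
      have h1 := (B7_modEq P hF.prime q hq t c).mp ht
      refine (Finset.prod_eq_one fun i _ => ?_).symm
      by_cases hi : i.1 ∣ q
      · rw [if_pos hi, if_pos (h1 i.1 i.2 hi)]
      · rw [if_neg hi]
    · rw [if_neg ht]
      have h1 : ∃ p ∈ P, p ∣ q ∧ ¬ t ≡ c [MOD p] := by
        by_contra hcon
        push Not at hcon
        exact ht ((B7_modEq P hF.prime q hq t c).mpr hcon)
      obtain ⟨p, hp, hpq, hpt⟩ := h1
      refine (Finset.prod_eq_zero (mem_univ (⟨p, hp⟩ : {p // p ∈ P})) ?_).symm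
      rw [if_pos hpq, if_neg hpt]
  -- left side
  have hL : ∑ t ∈ (range (∏ p ∈ P, p)).filter (fun t => t ≡ c [MOD q]),
        F (fun j => hit P (b j + M * t)) =
      ∑ κ : {p // p ∈ P} → Option J, F (cfg κ) * ∏ i : {p // p ∈ P},
        ∑ t ∈ range i.1, tr1_ind M b i.1 t (κ i) *
          (if i.1 ∣ q then (if t ≡ c [MOD i.1] then (1 : ℝ) else 0) else 1) := by
    rw [Finset.sum_filter]
    have h1 : ∀ t ∈ range (∏ p ∈ P, p),
        (if t ≡ c [MOD q] then F (fun j => hit P (b j + M * t)) else 0) =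
        ∑ κ : {p // p ∈ P} → Option J, F (cfg κ) * ∏ i : {p // p ∈ P}, (tr1_ind M b i.1 t (κ i) *
          (if i.1 ∣ q then (if t ≡ c [MOD i.1] then (1 : ℝ) else 0) else 1)) := by
      intro t _
      have h2 : (if t ≡ c [MOD q] then F (fun j => hit P (b j + M * t)) else 0) =
          F (fun j => hit P (b j + M * t)) * (if t ≡ c [MOD q] then (1 : ℝ) else 0) := by
        split_ifs
        · rw [mul_one]
        · rw [mul_zero]
      rw [h2, hind t, tr1_expand hF F t, Finset.sum_mul]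
      refine Finset.sum_congr rfl fun κ _ => ?_
      rw [Finset.prod_mul_distrib, mul_assoc]
    rw [Finset.sum_congr rfl h1, Finset.sum_comm]
    refine Finset.sum_congr rfl fun κ _ => ?_
    rw [← Finset.mul_sum]
    congr 1
    rw [hprod, H56G.sum_range_prod (fun i : {p // p ∈ P} => i.1) (fun i => hF.prime i.1 i.2)
      Subtype.val_injective univ (fun i t => tr1_ind M b i.1 t (κ i) *
          (if i.1 ∣ q then (if t ≡ c [MOD i.1] then (1 : ℝ) else 0) else 1))
      (fun i => ?_)]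
    intro t
    have h3 := tr1_periodic M b i.1 (κ i) t
    simp only at h3
    have h4 : (t + i.1 ≡ c [MOD i.1]) ↔ (t ≡ c [MOD i.1]) := by
      unfold Nat.ModEq
      rw [Nat.add_mod_right]
    simp only [h3, h4]
  rw [hL, EP_eq P W K M b hF, Finset.mul_sum, Finset.sum_div]
  refine Finset.sum_le_sum fun κ _ => ?_
  rw [div_le_iff₀ hpos]
  have hfac : ∏ i : {p // p ∈ P}, ∑ t ∈ range i.1, tr1_ind M b i.1 t (κ i) *
          (if i.1 ∣ q then (if t ≡ c [MOD i.1] then (1 : ℝ) else 0) else 1) ≤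
      ∏ i : {p // p ∈ P}, ((i.1 : ℝ) * (ww J i.1 (κ i) *
        (if i.1 ∣ q ∧ ∀ j, ¬ i.1 ∣ b j + M * c then (2 / (i.1 : ℝ)) else 1) *
        ∏ j, (if i.1 ∣ q ∧ i.1 ∣ b j + M * c then (if κ i = some j then (1 : ℝ) else 0) else 1))) := by
    refine Finset.prod_le_prod (fun i _ => ?_) fun i _ => B7_factor hF i.2 q c (κ i)
    refine Finset.sum_nonneg fun t _ => mul_nonneg (B7_ind_nonneg hF i.2 t _) ?_
    split_ifs <;> norm_num
  refine (mul_le_mul_of_nonneg_left hfac (h0 _)).trans (le_of_eq ?_)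
  rw [Finset.prod_mul_distrib, Finset.prod_mul_distrib, Finset.prod_mul_distrib, Finset.prod_comm]
  have e1 : ∏ i : {p // p ∈ P}, (i.1 : ℝ) = ((∏ p ∈ P, p : ℕ) : ℝ) := by
    rw [hprod, Nat.cast_prod]
  have e2 : ∏ i : {p // p ∈ P}, (if i.1 ∣ q ∧ ∀ j, ¬ i.1 ∣ b j + M * c then (2 / (i.1 : ℝ)) else 1) =
      ∏ p ∈ P.filter (fun p => p ∣ q ∧ ∀ j, ¬ p ∣ b j + M * c), (2 / (p : ℝ)) := by
    rw [Finset.prod_filter, ← Finset.prod_coe_sort P
      (fun p => if p ∣ q ∧ ∀ j, ¬ p ∣ b j + M * c then (2 / (p : ℝ)) else 1)]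
  have e3 : ∀ j : J, ∏ i : {p // p ∈ P}, (if i.1 ∣ q ∧ i.1 ∣ b j + M * c then
        (if κ i = some j then (1 : ℝ) else 0) else 1) =
      (if (univ.filter (fun p : {p // p ∈ P} => p.1 ∣ q ∧ p.1 ∣ b j + M * c)) ⊆ cfg κ j
        then 1 else 0) := by
    intro j
    by_cases hs : (univ.filter (fun p : {p // p ∈ P} => p.1 ∣ q ∧ p.1 ∣ b j + M * c)) ⊆ cfg κ j
    · rw [if_pos hs]
      refine Finset.prod_eq_one fun i _ => ?_
      by_cases hi : i.1 ∣ q ∧ i.1 ∣ b j + M * c
      · rw [if_pos hi]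
        have h1 := hs (mem_filter.mpr ⟨mem_univ i, hi⟩)
        unfold cfg at h1
        rw [mem_filter] at h1
        rw [if_pos h1.2]
      · rw [if_neg hi]
    · rw [if_neg hs]
      obtain ⟨i, hi1, hi2⟩ := Finset.not_subset.mp hs
      rw [mem_filter] at hi1
      refine Finset.prod_eq_zero (mem_univ i) ?_
      rw [if_pos hi1.2, if_neg]
      intro h
      apply hi2
      unfold cfg
      exact mem_filter.mpr ⟨mem_univ i, h⟩
  rw [e1, e2, Finset.prod_congr rfl (fun j _ => e3 j)]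
  ring

end Pool.Agent.Lib.H57M
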