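import Pool.Agent.Lib.H57M.B2
import Pool.Agent.Lib.H57M.B3
import Pool.Agent.Lib.H57M.B7
import Pool.Agent.Lib.H92G.G5

/-!
# Chunk B8: the weight in intervals and residue classes: upper bounds
-/

open Finset

namespace Pool.Agent.Lib.H57M

open Pool.Agent.Lib.H15P Pool.Agent.Lib.H92G

variable {K : ℕ} {J : Type} [Fintype J] [DecidableEq J]

theorem B8_sq (w : Par K) (i : Fin w.n) :
    0 ≤ ex (qq w.P K) (fun A => w.D i A ^ 2) ∧ ex (qq w.P K) (fun A => w.D i A ^ 2) ≤ w.s i := by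
  refine ⟨ex_nonneg _ w.good.q0 w.good.q1 _ fun A => sq_nonneg _, ?_⟩
  have h := w.tilt i ∅
  simpa using h

theorem Par.z_bounds (w : Par K) : 1 ≤ w.z ∧ w.z ≤ 2 := by
  unfold Par.z
  have h1 : 0 ≤ ∑ i, ex (qq w.P K) (fun A => w.D i A ^ 2) :=
    Finset.sum_nonneg fun i _ => (B8_sq w i).1
  have h2 : ∑ i, ex (qq w.P K) (fun A => w.D i A ^ 2) ≤ ∑ i, w.s i :=
    Finset.sum_le_sum fun i _ => (B8_sq w i).2
  have h3 := w.hs
  constructor <;> linarith

omit [DecidableEq J] in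
theorem B8_ZG (w : Par K) (hJ : Fintype.card J = K) :
    ZG (qq w.P K) (fun _ : J => w.D) univ = w.z ^ K := by
  unfold ZG Par.z GJ
  rw [Finset.prod_const, Finset.card_univ, hJ]

theorem B8_Qpos (w : Par K) : 0 < ∏ p ∈ w.P, p :=
  Finset.prod_pos fun p hp => (w.prime p hp).pos

theorem B8_exp (w : Par K) (hKW : 200 * K ^ 2 ≤ w.W) :
    Real.exp (2 * (K : ℝ) ^ 2 / w.W) ≤ 11 / 10 := by
  have hK : (1 : ℝ) ≤ K := by exact_mod_cast w.Kpos
  have hKW' : 200 * (K : ℝ) ^ 2 ≤ w.W := by exact_mod_cast hKW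
  have hW : (0 : ℝ) < w.W := by nlinarith
  have h1 : 2 * (K : ℝ) ^ 2 / w.W ≤ 1 / 100 := by
    rw [div_le_iff₀ hW]
    linarith
  refine (Real.exp_le_exp.2 h1).trans ?_
  have h2 := Real.exp_bound' (x := 1 / 100) (by norm_num) (by norm_num) (n := 1) (by norm_num)
  norm_num [Finset.sum_range_succ] at h2
  linarith

/-- `Lev.avg` and `EP_le`. -/
theorem B8_avg (w : Par K) (M : ℕ) (b : J → ℕ) (hF : Forms w.P w.W K M b)
    (F : (J → Finset {p // p ∈ w.P}) → ℝ) (h0 : ∀ S, 0 ≤ F S) (L : ℝ)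
    (hL : Lev (∏ p ∈ w.P, p) (fun t => F (fun j => hit w.P (b j + M * t))) L) (Y : ℕ) :
    ∑ t ∈ range Y, F (fun j => hit w.P (b j + M * t)) ≤
      Y * (Real.exp (2 * (K : ℝ) ^ 2 / w.W) * EX (qq w.P K) F) + 2 * L := by
  have h1 := Lev.avg (B8_Qpos w) hL 0 Y
  rw [zero_add, ← Finset.range_eq_Ico] at h1
  have h2 : EP w.P M b F ≤ Real.exp (2 * (K : ℝ) ^ 2 / w.W) * EX (qq w.P K) F :=
    EP_le w.P w.W K M _ hF F h0
  have h3 := mul_le_mul_of_nonneg_left h2 (Nat.cast_nonneg Y : (0 : ℝ) ≤ Y)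
  have h4 : |∑ t ∈ range Y, F (fun j => hit w.P (b j + M * t)) - Y * EP w.P M b F| ≤ 2 * L := h1
  rw [abs_le] at h4
  linarith [h4.2]

theorem B8_lev (w : Par K) (hJ : Fintype.card J = K) (M : ℕ) (b : J → ℕ) (k : ℕ) :
    Lev (∏ p ∈ w.P, p) (fun t => w.L (fun j => hit w.P (b j + M * t)) ^ k) (w.lv ^ k) :=
  Lev.pow (B8_Qpos w) (w.lev J M b hJ) k

/-- The weight on an interval. `Lev.avg` for `L^2` (level `lv^2`, `Lev.pow`), `EP_le`,
`EX_LG_sq_le` (`ZG = z^K` for `B = univ`), `exp (2K^2/W) ≤ exp (1/100) ≤ 11/10`. -/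
theorem Par.mean_le (w : Par K) (hJ : Fintype.card J = K) (M : ℕ) (b : J → ℕ)
    (hF : Forms w.P w.W K M b) (hKW : 200 * K ^ 2 ≤ w.W) (Y : ℕ) :
    ∑ t ∈ range Y, w.L (fun j => hit w.P (b j + M * t)) ^ 2 ≤
      11 / 10 * w.z ^ K * Y + 2 * w.lv ^ 2 := by
  have h1 := B8_avg w M b hF (fun S => w.L S ^ 2) (fun S => sq_nonneg _) _
    (B8_lev w hJ M b 2) Y
  have h2 : EX (qq w.P K) (fun S : J → Finset {p // p ∈ w.P} => w.L S ^ 2) ≤ w.z ^ K := by
    rw [← B8_ZG (J := J) w hJ]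
    exact EX_LG_sq_le _ _ _ (w.goodJ J) w.m univ
  have h3 : 0 ≤ EX (qq w.P K) (fun S : J → Finset {p // p ∈ w.P} => w.L S ^ 2) :=
    EX_nonneg _ w.good.q0 w.good.q1 _ fun S => sq_nonneg _
  have h4 : Real.exp (2 * (K : ℝ) ^ 2 / w.W) *
      EX (qq w.P K) (fun S : J → Finset {p // p ∈ w.P} => w.L S ^ 2) ≤ 11 / 10 * w.z ^ K :=
    mul_le_mul (B8_exp w hKW) h2 h3 (by norm_num)
  have h5 := mul_le_mul_of_nonneg_left h4 (Nat.cast_nonneg Y : (0 : ℝ) ≤ Y)
  linarith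

/-- `Lev.avg` for `L^4`, `EP_le`, `EX_LG_four_le2`. -/
theorem Par.four_le (w : Par K) (hJ : Fintype.card J = K) (M : ℕ) (b : J → ℕ)
    (hF : Forms w.P w.W K M b) (hKW : 200 * K ^ 2 ≤ w.W) (Y : ℕ) :
    ∑ t ∈ range Y, w.L (fun j => hit w.P (b j + M * t)) ^ 4 ≤
      2 * (((w.n : ℝ) + 1) ^ 4 * (1 + w.h)) ^ K * Y + 2 * w.lv ^ 4 := by
  have h1 := B8_avg w M b hF (fun S => w.L S ^ 4) (fun S => by positivity) _
    (B8_lev w hJ M b 4) Y
  have h2 : EX (qq w.P K) (fun S : J → Finset {p // p ∈ w.P} => w.L S ^ 4) ≤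
      (((w.n : ℝ) + 1) ^ 4 * (1 + w.h)) ^ K := by
    have h := EX_LG_four_le2 (qq w.P K) (fun _ : J => w.D) w.h (w.goodJ J) w.h0 w.m
    rw [Fintype.card_fin, hJ] at h
    exact h
  have h3 : 0 ≤ EX (qq w.P K) (fun S : J → Finset {p // p ∈ w.P} => w.L S ^ 4) :=
    EX_nonneg _ w.good.q0 w.good.q1 _ fun S => by positivity
  have h4 : Real.exp (2 * (K : ℝ) ^ 2 / w.W) *
      EX (qq w.P K) (fun S : J → Finset {p // p ∈ w.P} => w.L S ^ 4) ≤
      2 * (((w.n : ℝ) + 1) ^ 4 * (1 + w.h)) ^ K :=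
    mul_le_mul ((B8_exp w hKW).trans (by norm_num)) h2 h3 (by norm_num)
  have h5 := mul_le_mul_of_nonneg_left h4 (Nat.cast_nonneg Y : (0 : ℝ) ≤ Y)
  linarith

theorem B8_CL (w : Par K) : 0 < w.CL := by
  unfold Par.CL
  positivity

theorem B8_primeFactors (w : Par K) (q : ℕ) (hq : q ∣ ∏ p ∈ w.P, p) :
    w.P.filter (fun p => p ∣ q) = q.primeFactors := by
  have hq0 : q ≠ 0 := by
    rintro rfl
    exact (B8_Qpos w).ne' (Nat.eq_zero_of_zero_dvd hq)
  ext p
  rw [Finset.mem_filter, Nat.mem_primeFactors]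
  constructor
  · rintro ⟨h1, h2⟩
    exact ⟨w.prime p h1, h2, hq0⟩
  · rintro ⟨h1, h2, -⟩
    refine ⟨?_, h2⟩
    obtain ⟨p', hp', hd⟩ := (h1.prime.dvd_finsetProd_iff _).1 (h2.trans hq)
    have := (Nat.prime_dvd_prime_iff_eq h1 (w.prime p' hp')).1 hd
    rw [this]
    exact hp'

theorem B8_sqf (w : Par K) : Squarefree (∏ p ∈ w.P, p) := by
  refine Finset.squarefree_prod_of_pairwise_isCoprime ?_ ?_
  · intro p hp q hq hpq
    exact Nat.coprime_iff_isRelPrime.1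
      ((Nat.coprime_primes (w.prime p (Finset.mem_coe.1 hp)) (w.prime q (Finset.mem_coe.1 hq))).2 hpq)
  · intro p hp
    exact (w.prime p hp).squarefree

/-- A residue class modulo a divisor of `∏ P`, full period: `EP_class`, `EP_le`
(`exp ≤ 2`), `Par.EX_tilt`, `qq ≤ 2/p` (`qq_le`); every prime `p ∣ q` contributes a factor
`≤ 2 Dt/p`. -/
theorem Par.class_period (w : Par K) (hJ : Fintype.card J = K) (M : ℕ) (b : J → ℕ)
    (hF : Forms w.P w.W K M b) (q c : ℕ) (hq : q ∣ ∏ p ∈ w.P, p) :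
    (∑ t ∈ (range (∏ p ∈ w.P, p)).filter (fun t => t ≡ c [MOD q]),
        w.L (fun j => hit w.P (b j + M * t)) ^ 2) / ((∏ p ∈ w.P, p : ℕ) : ℝ) ≤
      2 * w.CL * (2 * w.Dt) ^ q.primeFactors.card / q := by
  classical
  have hK : (1 : ℝ) ≤ K := by exact_mod_cast w.Kpos
  have hKW : 4 * (K : ℝ) ^ 2 ≤ w.W := by exact_mod_cast w.KW
  have hW : (0 : ℝ) < w.W := by nlinarith
  have hexp : Real.exp (2 * (K : ℝ) ^ 2 / w.W) ≤ 2 := by
    have h1 : 2 * (K : ℝ) ^ 2 / w.W ≤ 1 / 2 := by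
      rw [div_le_iff₀ hW]
      linarith
    refine (Real.exp_le_exp.2 h1).trans ?_
    have h2 := Real.exp_bound' (x := 1 / 2) (by norm_num) (by norm_num) (n := 2) (by norm_num)
    norm_num [Finset.sum_range_succ] at h2
    linarith
  set U : J → Finset {p // p ∈ w.P} := fun j => univ.filter
    (fun p : {p // p ∈ w.P} => p.1 ∣ q ∧ p.1 ∣ b j + M * c) with hU
  set Vp : ℝ := ∏ p ∈ w.P.filter (fun p => p ∣ q ∧ ∀ j, ¬ p ∣ b j + M * c), (2 / (p : ℝ)) with hVp
  have hVp0 : 0 ≤ Vp := Finset.prod_nonneg fun p _ => by positivity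
  have h1 := EP_class w.P w.W K M b hF (fun S => w.L S ^ 2) (fun S => sq_nonneg _) q c hq
  have h2 : EP w.P M b (fun S => w.L S ^ 2 * ∏ j, (if U j ⊆ S j then (1 : ℝ) else 0)) ≤
      2 * (w.CL * w.Dt ^ (∑ j, (U j).card) * ∏ j, ∏ p ∈ U j, qq w.P K p) := by
    have hnn : ∀ S : J → Finset {p // p ∈ w.P},
        0 ≤ w.L S ^ 2 * ∏ j, (if U j ⊆ S j then (1 : ℝ) else 0) := fun S =>
      mul_nonneg (sq_nonneg _) (Finset.prod_nonneg fun j _ => by split_ifs <;> norm_num)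
    refine (EP_le w.P w.W K M b hF _ hnn).trans ?_
    exact mul_le_mul hexp (w.EX_tilt hJ U)
      (EX_nonneg _ w.good.q0 w.good.q1 _ hnn) (by norm_num)
  have hdis : ∀ j ∈ (univ : Finset J), ∀ j' ∈ (univ : Finset J), j ≠ j' → Disjoint (U j) (U j') := by
    intro j _ j' _ hjj
    rw [Finset.disjoint_left]
    intro p hp hp'
    exact hjj (tr1_unique hF p.2 c (Finset.mem_filter.1 hp).2.2 (Finset.mem_filter.1 hp').2.2)
  have hbU : univ.biUnion U = univ.filter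
      (fun p : {p // p ∈ w.P} => p.1 ∣ q ∧ ∃ j, p.1 ∣ b j + M * c) := by
    ext p
    simp only [hU, Finset.mem_biUnion, Finset.mem_univ, true_and, Finset.mem_filter]
    constructor
    · rintro ⟨j, h1, h2⟩
      exact ⟨h1, j, h2⟩
    · rintro ⟨h1, j, h2⟩
      exact ⟨j, h1, h2⟩
  have hprodU : ∏ j, ∏ p ∈ U j, qq w.P K p ≤
      ∏ p ∈ w.P.filter (fun p => p ∣ q ∧ ∃ j, p ∣ b j + M * c), (2 / (p : ℝ)) := by
    rw [← Finset.prod_biUnion hdis, hbU,
      ← NT1_prod_coe w.P (fun p => 2 / (p : ℝ)) (fun p => p ∣ q ∧ ∃ j, p ∣ b j + M * c)]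
    exact Finset.prod_le_prod (fun p _ => w.good.q0 p) fun p _ =>
      qq_le w.P w.W K w.Kpos w.KW w.big p
  have hcardU : ∑ j, (U j).card ≤ q.primeFactors.card := by
    rw [← Finset.card_biUnion hdis, hbU, ← B8_primeFactors w q hq]
    refine Finset.card_le_card_of_injOn (fun p => p.1) ?_ ?_
    · intro p hp
      rw [Finset.mem_coe, Finset.mem_filter] at hp
      rw [Finset.mem_coe, Finset.mem_filter]
      exact ⟨p.2, hp.2.1⟩
    · intro a _ b _ hab
      exact Subtype.ext hab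
  have hsplit : Vp * ∏ p ∈ w.P.filter (fun p => p ∣ q ∧ ∃ j, p ∣ b j + M * c), (2 / (p : ℝ)) =
      2 ^ q.primeFactors.card / q := by
    have e1 : w.P.filter (fun p => p ∣ q ∧ ∃ j, p ∣ b j + M * c) =
        (w.P.filter (fun p => p ∣ q)).filter (fun p => ∃ j, p ∣ b j + M * c) := by
      rw [Finset.filter_filter]
    have e2 : w.P.filter (fun p => p ∣ q ∧ ∀ j, ¬ p ∣ b j + M * c) =
        (w.P.filter (fun p => p ∣ q)).filter (fun p => ¬ ∃ j, p ∣ b j + M * c) := by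
      rw [Finset.filter_filter]
      refine Finset.filter_congr fun p _ => ?_
      simp
    rw [hVp, e1, e2, mul_comm, Finset.prod_filter_mul_prod_filter_not, B8_primeFactors w q hq,
      Finset.prod_div_distrib, Finset.prod_const]
    congr 1
    have hsq : Squarefree q := (B8_sqf w).squarefree_of_dvd hq
    rw [← Nat.cast_prod, Nat.prod_primeFactors_of_squarefree hsq]
  have hDt0 : 0 ≤ w.Dt := zero_le_one.trans w.Dt1
  have hCL := B8_CL w
  calc _ ≤ Vp * EP w.P M b (fun S => w.L S ^ 2 * ∏ j, (if U j ⊆ S j then (1 : ℝ) else 0)) := h1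
    _ ≤ Vp * (2 * (w.CL * w.Dt ^ (∑ j, (U j).card) * ∏ j, ∏ p ∈ U j, qq w.P K p)) :=
        mul_le_mul_of_nonneg_left h2 hVp0
    _ ≤ Vp * (2 * (w.CL * w.Dt ^ q.primeFactors.card *
          ∏ p ∈ w.P.filter (fun p => p ∣ q ∧ ∃ j, p ∣ b j + M * c), (2 / (p : ℝ)))) := by
        apply mul_le_mul_of_nonneg_left _ hVp0
        apply mul_le_mul_of_nonneg_left _ (by norm_num)
        apply mul_le_mul _ hprodU
          (Finset.prod_nonneg fun j _ => Finset.prod_nonneg fun p _ => w.good.q0 p) (by positivity)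
        exact mul_le_mul_of_nonneg_left (pow_le_pow_right₀ w.Dt1 hcardU) hCL.le
    _ = 2 * w.CL * w.Dt ^ q.primeFactors.card *
          (Vp * ∏ p ∈ w.P.filter (fun p => p ∣ q ∧ ∃ j, p ∣ b j + M * c), (2 / (p : ℝ))) := by ring
    _ = 2 * w.CL * (2 * w.Dt) ^ q.primeFactors.card / q := by
        rw [hsplit, mul_pow]
        ring

/-- A residue class modulo a squarefree `q` prime to `M`, in an interval. -/
theorem Par.class_le (w : Par K) (hJ : Fintype.card J = K) (M : ℕ) (b : J → ℕ)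
    (hF : Forms w.P w.W K M b) (q c : ℕ) (hq : Squarefree q) (hqM : q.Coprime M) (Y : ℕ) :
    ∑ t ∈ (range Y).filter (fun t => t ≡ c [MOD q]), w.L (fun j => hit w.P (b j + M * t)) ^ 2 ≤
      ((Y : ℝ) / q + 1) * (2 * w.CL * (2 * w.Dt) ^ q.primeFactors.card) +
        2 * w.lv ^ 2 * q := by
  classical
  set Q := ∏ p ∈ w.P, p with hQ
  have hQ0 : 0 < Q := B8_Qpos w
  have hq0 : 0 < q := Nat.pos_of_ne_zero hq.ne_zero
  set q2 := Nat.gcd q Q with hq2
  have hq2q : q2 ∣ q := Nat.gcd_dvd_left _ _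
  have hq2Q : q2 ∣ Q := Nat.gcd_dvd_right _ _
  have hq20 : 0 < q2 := Nat.pos_of_dvd_of_pos hq2q hq0
  obtain ⟨q3, hq3⟩ := hq2q
  have hq30 : 0 < q3 := Nat.pos_of_ne_zero (by
    rintro rfl
    rw [mul_zero] at hq3
    omega)
  have hcop23 : q2.Coprime q3 := by
    rw [hq3] at hq
    exact Nat.coprime_of_squarefree_mul hq
  have hq3P : ∀ p ∈ w.P, ¬ p ∣ q3 := by
    intro p hp hd
    have hpp := w.prime p hp
    have h1 : p ∣ q := by rw [hq3]; exact hd.mul_left _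
    have h2 : p ∣ Q := Finset.dvd_prod_of_mem _ hp
    have h3 : p ∣ q2 := Nat.dvd_gcd h1 h2
    have h4 : p ∣ Nat.gcd q2 q3 := Nat.dvd_gcd h3 hd
    rw [Nat.Coprime.gcd_eq_one hcop23] at h4
    exact hpp.one_lt.ne' (Nat.dvd_one.1 h4)
  set c3 := c % q3 with hc3
  -- the class of s modulo q2
  obtain ⟨c', hc'⟩ : ∃ c' : ℕ, c3 + q3 * c' ≡ c [MOD q2] := by
    obtain ⟨x, hx1, hx2⟩ := Nat.chineseRemainder hcop23 c c3
    -- x ≡ c mod q2, x ≡ c3 mod q3, choose x ≥ c3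
    have hx3 : x % q3 = c3 % q3 := hx2
    have hc3lt : c3 < q3 := Nat.mod_lt _ hq30
    rw [Nat.mod_eq_of_lt hc3lt] at hx3
    refine ⟨x / q3, ?_⟩
    have : c3 + q3 * (x / q3) = x := by
      rw [← hx3]
      exact Nat.mod_add_div x q3
    rw [this]
    exact hx1
  set b' : J → ℕ := fun j => b j + M * c3 with hb'
  set M' := M * q3 with hM'
  have hF' : Forms w.P w.W K M' b' := by
    refine ⟨hF.prime, hF.big, ?_, ?_, hF.one_le, hF.card, hF.KW⟩
    · intro p hp hd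
      rcases (hF.prime p hp).dvd_mul.1 hd with h | h
      · exact hF.cop p hp h
      · exact hq3P p hp h
    · intro p hp j j' hjj hm
      exact hF.dist p hp j j' hjj (Nat.ModEq.add_right_cancel' _ hm)
  have hform : ∀ (j : J) (s : ℕ), b j + M * (c3 + q3 * s) = b' j + M' * s := by
    intro j s
    simp only [hb', hM']
    ring
  set G : ℕ → ℝ := fun s => w.L (fun j => hit w.P (b' j + M' * s)) ^ 2 *
    (if s ≡ c' [MOD q2] then (1 : ℝ) else 0) with hG
  have hG0 : ∀ s, 0 ≤ G s := fun s => mul_nonneg (sq_nonneg _) (by split_ifs <;> norm_num)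
  set Y' := Y / q3 + 1 with hY'
  -- the sum over t is at most the sum over s
  have hsum : ∑ t ∈ (range Y).filter (fun t => t ≡ c [MOD q]),
      w.L (fun j => hit w.P (b j + M * t)) ^ 2 ≤ ∑ s ∈ range Y', G s := by
    have hmaps : ∀ t ∈ (range Y).filter (fun t => t ≡ c [MOD q]), t / q3 ∈ range Y' ∧
        t = c3 + q3 * (t / q3) ∧ t / q3 ≡ c' [MOD q2] := by
      intro t ht
      rw [Finset.mem_filter, Finset.mem_range] at ht
      have h1 : t ≡ c [MOD q3] := ht.2.of_dvd (by rw [hq3]; exact Dvd.intro_left _ rfl)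
      have h2 : t ≡ c [MOD q2] := ht.2.of_dvd (by rw [hq3]; exact Dvd.intro _ rfl)
      have h3 : t % q3 = c3 := h1
      have h4 : t = c3 + q3 * (t / q3) := by
        rw [← h3]
        exact (Nat.mod_add_div t q3).symm
      refine ⟨?_, h4, ?_⟩
      · rw [Finset.mem_range]
        exact Nat.lt_succ_of_le (Nat.div_le_div_right ht.1.le)
      · have h5 : c3 + q3 * (t / q3) ≡ c3 + q3 * c' [MOD q2] := by
          rw [← h4]
          exact h2.trans hc'.symm
        have h6 := Nat.ModEq.add_left_cancel' _ h5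
        exact Nat.ModEq.cancel_left_of_coprime hcop23 h6
    have hinj : Set.InjOn (fun t => t / q3) ((range Y).filter (fun t => t ≡ c [MOD q]) : Set ℕ) := by
      intro t ht t' ht' h
      have h1 := (hmaps t (Finset.mem_coe.1 ht)).2.1
      have h2 := (hmaps t' (Finset.mem_coe.1 ht')).2.1
      have h3 : t / q3 = t' / q3 := h
      rw [h1, h2, h3]
    have hterm : ∀ t ∈ (range Y).filter (fun t => t ≡ c [MOD q]),
        w.L (fun j => hit w.P (b j + M * t)) ^ 2 = G (t / q3) := by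
      intro t ht
      obtain ⟨-, h1, h2⟩ := hmaps t ht
      simp only [hG]
      rw [if_pos h2, mul_one]
      have : (fun j => hit w.P (b j + M * t)) = fun j => hit w.P (b' j + M' * (t / q3)) := by
        funext j
        rw [← hform j (t / q3), ← h1]
      rw [this]
    rw [Finset.sum_congr rfl hterm, ← Finset.sum_image (f := G) (g := fun t => t / q3)
      (fun a ha b hb hab => hinj (Finset.mem_coe.2 ha) (Finset.mem_coe.2 hb) hab)]
    refine Finset.sum_le_sum_of_subset_of_nonneg ?_ fun s _ _ => hG0 s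
    intro s hs
    obtain ⟨t, ht, rfl⟩ := Finset.mem_image.1 hs
    exact (hmaps t ht).1
  -- level of G
  have hlev : Lev Q G (w.lv ^ 2 * q2) := by
    have h1 := B8_lev w hJ M' b' 2
    have h2 : Lev Q (fun s : ℕ => if s ≡ c' [MOD q2] then (1 : ℝ) else 0) ((q2 : ℝ) * 1) := by
      refine Lev.base _ q2 1 hq20 hq2Q ?_ ?_
      · intro s
        have : (s + q2 ≡ c' [MOD q2]) ↔ (s ≡ c' [MOD q2]) := by
          unfold Nat.ModEq
          rw [Nat.add_mod_right]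
        simp only [this]
      · intro s
        split_ifs <;> norm_num
    rw [mul_one] at h2
    exact Lev.mul hQ0 h1 h2
  have havg := Lev.avg hQ0 hlev 0 Y'
  rw [zero_add, ← Finset.range_eq_Ico, abs_le] at havg
  have hmean : (∑ s ∈ range Q, G s) / (Q : ℝ) ≤
      2 * w.CL * (2 * w.Dt) ^ q2.primeFactors.card / q2 := by
    have h1 := w.class_period hJ M' b' hF' q2 c' hq2Q
    have h2 : ∑ s ∈ range Q, G s = ∑ t ∈ (range Q).filter (fun t => t ≡ c' [MOD q2]),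
        w.L (fun j => hit w.P (b' j + M' * t)) ^ 2 := by
      rw [Finset.sum_filter]
      refine Finset.sum_congr rfl fun s _ => ?_
      simp only [hG]
      split_ifs <;> simp
    rw [h2]
    exact h1
  have hY'r : (Y' : ℝ) ≤ (Y : ℝ) / q3 + 1 := by
    rw [hY']
    push_cast
    have := @Nat.cast_div_le ℝ _ _ _ Y q3
    linarith
  have hq2r : (0 : ℝ) < q2 := by exact_mod_cast hq20
  have hq3r : (0 : ℝ) < q3 := by exact_mod_cast hq30
  have hqr : (q : ℝ) = q2 * q3 := by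
    rw [← Nat.cast_mul]
    exact_mod_cast hq3
  have hCL := B8_CL w
  have hDt := w.Dt1
  have h2Dt : 1 ≤ 2 * w.Dt := by linarith
  have hcard : q2.primeFactors.card ≤ q.primeFactors.card :=
    Finset.card_le_card (Nat.primeFactors_mono (by rw [hq3]; exact Dvd.intro _ rfl) hq0.ne')
  set B2 := 2 * w.CL * (2 * w.Dt) ^ q2.primeFactors.card with hB2
  set B := 2 * w.CL * (2 * w.Dt) ^ q.primeFactors.card with hB
  have hB2B : B2 ≤ B := mul_le_mul_of_nonneg_left (pow_le_pow_right₀ h2Dt hcard) (by positivity)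
  have hB20 : 0 ≤ B2 := by positivity
  have hlv : 0 ≤ w.lv ^ 2 := sq_nonneg _
  have hstep : (Y' : ℝ) * ((∑ s ∈ range Q, G s) / (Q : ℝ)) ≤ ((Y : ℝ) / q + 1) * B := by
    calc (Y' : ℝ) * ((∑ s ∈ range Q, G s) / (Q : ℝ)) ≤ ((Y : ℝ) / q3 + 1) * (B2 / q2) := by
          apply mul_le_mul hY'r hmean _ (by positivity)
          exact div_nonneg (Finset.sum_nonneg fun s _ => hG0 s) (Nat.cast_nonneg _)
      _ = ((Y : ℝ) / q + 1 / q2) * B2 := by
          rw [hqr]
          field_simp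
      _ ≤ ((Y : ℝ) / q + 1) * B := by
          apply mul_le_mul _ hB2B hB20 (by positivity)
          have : 1 / (q2 : ℝ) ≤ 1 := by
            rw [div_le_one hq2r]
            exact_mod_cast hq20
          linarith
  have hq2le : (q2 : ℝ) ≤ q := by exact_mod_cast Nat.le_of_dvd hq0 (by rw [hq3]; exact Dvd.intro _ rfl)
  have hlast : 2 * (w.lv ^ 2 * q2) ≤ 2 * w.lv ^ 2 * q := by nlinarith
  linarith [havg.2]

end Pool.Agent.Lib.H57M
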