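import Pool.Agent.Lib.H57M.B3
import Pool.Agent.Lib.H57M.B4
import Pool.Agent.Lib.H57M.B5
import Pool.Agent.Lib.H57M.B6
import Pool.Agent.Lib.H57M.B8
import Pool.Agent.Lib.H92G.G5

/-!
# Chunk B9: the weight summed over the primes of one form: lower bound
-/

open Finset

namespace Pool.Agent.Lib.H57M

open Pool.Agent.Lib.H15P Pool.Agent.Lib.H92G

variable {K : ℕ} {J : Type} [Fintype J] [DecidableEq J]

/-- `EX_hit` with `qq ≤ 2/p ≤ 2/W`. -/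
theorem B9_hit (w : Par K) (hJ : Fintype.card J = K) (p : {p // p ∈ w.P}) :
    EX (qq w.P K) (fun S : J → Finset {p // p ∈ w.P} =>
        w.L S ^ 2 * (if ∃ j, p ∈ S j then 1 else 0))
      ≤ K * (w.CL * w.Dt * (2 / w.W)) := by
  have hK1 : (1 : ℝ) ≤ K := by exact_mod_cast w.Kpos
  have hKW : 4 * (K : ℝ) ^ 2 ≤ w.W := by exact_mod_cast w.KW
  have hW : (0 : ℝ) < w.W := by nlinarith
  refine (w.EX_hit hJ p).trans ?_
  have h1 : qq w.P K p ≤ 2 / (p.1 : ℝ) := qq_le w.P w.W K w.Kpos w.KW w.big p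
  have h2 : (w.W : ℝ) ≤ p.1 := by exact_mod_cast (w.big p.1 p.2).le
  have h3 : 2 / (p.1 : ℝ) ≤ 2 / w.W := div_le_div_of_nonneg_left (by norm_num) hW h2
  have h4 : 0 ≤ w.CL * w.Dt := mul_nonneg (B8_CL w).le (zero_le_one.trans w.Dt1)
  exact mul_le_mul_of_nonneg_left (mul_le_mul_of_nonneg_left (h1.trans h3) h4) (by linarith)

/-- The second moment of the weight. -/
theorem B9_sq (w : Par K) (hJ : Fintype.card J = K) :
    EX (qq w.P K) (fun S : J → Finset {p // p ∈ w.P} => w.L S ^ 2) ≤ 2 ^ K := by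
  have h1 : EX (qq w.P K) (fun S : J → Finset {p // p ∈ w.P} => w.L S ^ 2) ≤ w.z ^ K := by
    rw [← B8_ZG (J := J) w hJ]
    exact EX_LG_sq_le _ _ _ (w.goodJ J) w.m univ
  exact h1.trans (pow_le_pow_left₀ (zero_le_one.trans w.z_bounds.1) w.z_bounds.2 K)

/-- The main term. -/
theorem B9_main (w : Par K) (hJ : Fintype.card J = K) (M : ℕ) (b : J → ℕ)
    (hF : Forms w.P w.W K M b) (j0 : J)
    (n1 : 400 * (K : ℝ) ^ 2 ≤ w.W)
    (n2 : (((∏ p ∈ w.P, p : ℕ) : ℝ) / ((∏ p ∈ w.P, p).totient : ℝ)) *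
      (8 * (K : ℝ) ^ 2 * w.CL * w.Dt ^ 2 / w.W) ≤ 1 / 100) :
    36 / 100 * (w.z ^ K * (1 + w.n * w.c) ^ 2) ≤
      EU w.P M (b j0) (fun t => w.L (fun j => hit w.P (b j + M * t)) ^ 2) := by
  classical
  have hK1 : (1 : ℝ) ≤ K := by exact_mod_cast w.Kpos
  have hW : (0 : ℝ) < w.W := by nlinarith
  obtain ⟨hz1, hz2⟩ := w.z_bounds
  have h1 := EU_ge2 w.P w.W K M b hF (fun S => w.L S ^ 2) (fun S => sq_nonneg _) j0
  have h2 := w.EX_loss (J := J) hJ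
  set RQ : ℝ := ((∏ p ∈ w.P, p : ℕ) : ℝ) / ((∏ p ∈ w.P, p).totient : ℝ) with hRQ
  have hRQ0 : 0 ≤ RQ := by positivity
  set E1 := EX (qq w.P K) (fun S : J → Finset {p // p ∈ w.P} =>
    w.L S ^ 2 * (if S j0 = ∅ then 1 else 0)) with hE1
  set EL := EX (qq w.P K) (fun S : J → Finset {p // p ∈ w.P} =>
    w.L S ^ 2 * loss w.P K S) with hEL
  set ZZ := ZG (qq w.P K) (fun _ : J => w.D) (univ.erase j0) with hZZ
  set Pi := ∏ i, (1 - qq w.P K i) with hPi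
  have h3 := EX_prime_ge (qq w.P K) (fun _ : J => w.D) w.h (w.goodJ J) w.m univ w.R
    (by
      intro i
      have e1 : ∑ j ∈ (univ : Finset J), GJ (qq w.P K) (fun _ : J => w.D) j (some i) =
          K * ex (qq w.P K) (fun A => w.D i A ^ 2) := by
        unfold GJ
        rw [Finset.sum_const, Finset.card_univ, hJ, nsmul_eq_mul]
      rw [e1]
      have e2 := (B8_sq w i).2
      have e3 := mul_le_mul_of_nonneg_left e2 (by linarith : (0 : ℝ) ≤ K)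
      linarith [w.hm i]) j0 (Finset.mem_univ _)
    (by
      intro i
      show 0 ≤ w.D i ∅
      rw [w.emp i]
      exact w.c0)
  have h4 : ∑ i, w.D i ∅ = w.n * w.c := by
    rw [Finset.sum_congr rfl fun i _ => w.emp i, Finset.sum_const, Finset.card_univ,
      Fintype.card_fin, nsmul_eq_mul]
  have h3' : (1 + w.n * w.c) ^ 2 * (1 - ∑ i, Real.exp (-w.R i)) * ZZ * Pi ≤ E1 := by
    rw [← h4]
    exact h3
  have hZ : w.z ^ K = w.z * ZZ := by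
    rw [← B8_ZG (J := J) w hJ]
    unfold ZG at hZZ ⊢
    rw [hZZ, ← Finset.mul_prod_erase univ _ (Finset.mem_univ j0)]
    rfl
  have hzK : 1 ≤ w.z ^ K := one_le_pow₀ hz1
  have hZZ0 : w.z ^ K / 2 ≤ ZZ := by
    have : 0 ≤ ZZ := by
      by_contra hc
      push Not at hc
      nlinarith
    nlinarith
  have hV : 1 ≤ (1 + w.n * w.c) ^ 2 := by
    have : 0 ≤ (w.n : ℝ) * w.c := mul_nonneg (Nat.cast_nonneg _) w.c0
    nlinarith
  have hP := p_empty_ge w.P w.W K w.prime w.Kpos w.KW w.big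
  have hKW2 : 2 * (K : ℝ) / w.W ≤ 1 / 200 := by
    rw [div_le_iff₀ hW]
    nlinarith
  have hKW1 : (K : ℝ) ^ 2 / w.W ≤ 1 / 400 := by
    rw [div_le_iff₀ hW]
    nlinarith
  have hR := w.hR
  set V := (1 + (w.n : ℝ) * w.c) ^ 2 with hVd
  have hVZ : 0 ≤ V * ZZ := mul_nonneg (by linarith) (by linarith)
  have hPi0 : 0 ≤ RQ * Pi := by linarith
  have h5 : V * (3 / 4) * ZZ * (199 / 200) ≤ RQ * E1 := by
    calc V * (3 / 4) * ZZ * (199 / 200) ≤ V * (3 / 4) * ZZ * (RQ * Pi) := by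
          apply mul_le_mul_of_nonneg_left _ (by nlinarith)
          linarith
      _ ≤ V * (1 - ∑ i, Real.exp (-w.R i)) * ZZ * (RQ * Pi) := by
          apply mul_le_mul_of_nonneg_right _ hPi0
          have := mul_le_mul_of_nonneg_left
            (show (3 / 4 : ℝ) ≤ 1 - ∑ i, Real.exp (-w.R i) by linarith) hVZ
          linarith
      _ = RQ * (V * (1 - ∑ i, Real.exp (-w.R i)) * ZZ * Pi) := by ring
      _ ≤ RQ * E1 := mul_le_mul_of_nonneg_left h3' hRQ0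
  have h6 : RQ * EL ≤ 1 / 100 := (mul_le_mul_of_nonneg_left h2 hRQ0).trans n2
  have h7 : 399 / 400 * (RQ * E1) ≤ (1 - (K : ℝ) ^ 2 / w.W) * (RQ * E1) := by
    apply mul_le_mul_of_nonneg_right _ ((by nlinarith : (0 : ℝ) ≤ V * (3 / 4) * ZZ * (199 / 200)).trans h5)
    linarith
  have h8 : V * (w.z ^ K / 2) ≤ V * ZZ := mul_le_mul_of_nonneg_left hZZ0 (by linarith)
  have h9 : 1 ≤ V * w.z ^ K := one_le_mul_of_one_le_of_one_le hV hzK
  refine le_trans ?_ h1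
  have h10 : RQ * ((1 - (K : ℝ) ^ 2 / w.W) * E1 - EL) =
      (1 - (K : ℝ) ^ 2 / w.W) * (RQ * E1) - RQ * EL := by ring
  rw [h10]
  nlinarith

/-- `F = L^2`. Coefficients of the characters: `cf_fiber2` with `δ = K CL Dt (2/W)`
(`Par.EX_hit`, `qq ≤ 2/p ≤ 2/W`) and `E = 2^K` (`EX_LG_sq_le`: `EX L^2 ≤ ZG = z^K ≤ 2^K`).
Main term: `EU_ge2` with `Par.EX_loss`, `EX_prime_ge` (`∑ e^(-R) ≤ 1/4`, `ZG (univ.erase j0) =
z^(K-1) ≥ z^K/2`, `1 + ∑ D ∅ = 1 + n c`) and `p_empty_ge`: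
`EU ≥ (199/200) (199/200) (3/4) (1 + n c)^2 z^K/2 - 1/100 ≥ (36/100) (1 + n c)^2 z^K`.
Level of `L^2`: `lv^2`. Then `prime_sum2`:
`sum ≥ (1/φ(M)) ((49/100)(36/100) (1 + n c)^2 z^K - 1/100 - 1/100) - 10 lv^2/D`, and
`10 lv^2/D ≤ 10 M (lv^2/D)/φ(M) ≤ (1/100)/φ(M)`. -/
theorem Par.prime_ge (w : Par K) (hJ : Fintype.card J = K) (M X Y Q' D : ℕ) (b : J → ℕ)
    (hF : Forms w.P w.W K M b) (j0 : J) (hM : 0 < M) (hb : (b j0).Coprime M)
    (hbX : 8 * b j0 ≤ X) (hX : 0 < X) (hPX : ∀ p ∈ w.P, 8 * p < X) (hMX : 8 * M < X)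
    (hY : 60 * X < M * Y) (A0 A1 : ℝ) (hD : 1 ≤ D) (hDM : D * M ≤ Q')
    (hA0 : A0s Q' X ≤ A0) (hA1 : A1s M X ≤ A1) (hA1' : A1 ≤ 1 / 100)
    (hm1 : 1 / 2 ≤ ∑ m ∈ (Icc 1 (60 * X)).filter Nat.Prime, Real.log m * H68T.v X m / m)
    (hm2 : ∑ m ∈ (Icc 1 (60 * X)).filter Nat.Prime, Real.log m * H68T.v X m / m ≤ 10)
    (n1 : 400 * (K : ℝ) ^ 2 ≤ w.W)
    (n2 : (((∏ p ∈ w.P, p : ℕ) : ℝ) / ((∏ p ∈ w.P, p).totient : ℝ)) *
      (8 * (K : ℝ) ^ 2 * w.CL * w.Dt ^ 2 / w.W) ≤ 1 / 100)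
    (n4 : w.lv ^ 2 / D * (10 + A0 + A1 + 10 * M) ≤ 1 / 100)
    (n5 : 2 * (K * (w.CL * w.Dt * (2 / w.W)) + 4 * K / w.W * 2 ^ K) *
      (((∏ p ∈ w.P, p : ℕ) : ℝ) / ((∏ p ∈ w.P, p).totient : ℝ)) * A0 ≤ 1 / 100) :
    w.z ^ K * (1 + w.n * w.c) ^ 2 / (16 * (M.totient : ℝ)) ≤
      ∑ t ∈ range Y, w.L (fun j => hit w.P (b j + M * t)) ^ 2 * lpv X (b j0 + M * t) := by
  classical
  have hK1 : (1 : ℝ) ≤ K := by exact_mod_cast w.Kpos
  have hW : (0 : ℝ) < w.W := by nlinarith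
  have hCL := B8_CL w
  have hDt0 : 0 ≤ w.Dt := zero_le_one.trans w.Dt1
  set δ : ℝ := 2 * (K * (w.CL * w.Dt * (2 / w.W)) + 4 * K / w.W * 2 ^ K) with hδ
  have hδ0 : 0 ≤ δ := by positivity
  have h1 := prime_sum2 w.P w.W K M X Y Q' D b hF (fun S => w.L S ^ 2) (fun S => sq_nonneg _) j0
    hM hb hbX hX hPX hMX hY (w.lv ^ 2) δ A0 A1 (B8_lev w hJ M b 2) hD hDM hδ0
    (by
      intro _ χ hχ
      have h := cf_fiber2 w.P w.W K M b hF (fun S => w.L S ^ 2) (fun S => sq_nonneg _) j0 hb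
        (K * (w.CL * w.Dt * (2 / w.W))) (2 ^ K) (fun p => B9_hit w hJ p) (B9_sq w hJ) χ hχ
      refine h.trans (le_of_eq ?_)
      rw [hδ]
      ring) hA0 hA1 hm1 hm2
  have h2 := B9_main w hJ M b hF j0 n1 n2
  refine le_trans ?_ h1
  obtain ⟨hz1, hz2⟩ := w.z_bounds
  have hzK : 1 ≤ w.z ^ K := one_le_pow₀ hz1
  have hV : 1 ≤ (1 + w.n * w.c) ^ 2 := by
    have : 0 ≤ (w.n : ℝ) * w.c := mul_nonneg (Nat.cast_nonneg _) w.c0
    nlinarith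
  set EUv := EU w.P M (b j0) (fun t => w.L (fun j => hit w.P (b j + M * t)) ^ 2) with hEUv
  set A := w.z ^ K * (1 + w.n * w.c) ^ 2 with hA
  have hA1 : 1 ≤ A := one_le_mul_of_one_le_of_one_le hzK hV
  have hφ : (0 : ℝ) < (M.totient : ℝ) := by exact_mod_cast Nat.totient_pos.2 hM
  have hφM : (M.totient : ℝ) ≤ M := by exact_mod_cast Nat.totient_le M
  have hlD : 0 ≤ w.lv ^ 2 / (D : ℝ) := by positivity
  have h3 : 49 / 100 * EUv ≤ (1 / 2 - A1) * EUv := by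
    apply mul_le_mul_of_nonneg_right _ (by linarith)
    linarith
  rw [div_le_iff₀ (by positivity)]
  have h4 : ((1 / (M.totient : ℝ)) * ((1 / 2 - A1) * EUv - w.lv ^ 2 / D * (10 + A0 + A1) -
        δ * (((∏ p ∈ w.P, p : ℕ) : ℝ) / ((∏ p ∈ w.P, p).totient : ℝ)) * A0) -
        10 * w.lv ^ 2 / D) * (16 * (M.totient : ℝ)) =
      16 * ((1 / 2 - A1) * EUv - w.lv ^ 2 / D * (10 + A0 + A1) -
        δ * (((∏ p ∈ w.P, p : ℕ) : ℝ) / ((∏ p ∈ w.P, p).totient : ℝ)) * A0) -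
        160 * (w.lv ^ 2 / D * M.totient) := by
    have hD' : (D : ℝ) ≠ 0 := by
      have : (1 : ℝ) ≤ D := by exact_mod_cast hD
      positivity
    field_simp
    ring
  rw [h4]
  have h5 : w.lv ^ 2 / D * (M.totient : ℝ) ≤ w.lv ^ 2 / D * M :=
    mul_le_mul_of_nonneg_left hφM hlD
  have h6 : w.lv ^ 2 / D * (10 + A0 + A1 + 10 * M) =
      w.lv ^ 2 / D * (10 + A0 + A1) + 10 * (w.lv ^ 2 / D * M) := by ring
  linarith

end Pool.Agent.Lib.H57M
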