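import Pool.Agent.Lib.H15P.BH4
import Pool.Agent.Lib.H15P.TR3

/-!
# Chunk B1: the one form functions of Brun-Hooley, with prescribed prime divisors
-/

open Finset

namespace Pool.Agent.Lib.H57M

open Pool.Agent.Lib.H15P

theorem B1_ex_prod {ι : Type} [Fintype ι] [DecidableEq ι] (q u v : ι → ℝ) :
    ex q (fun A => ∏ i, if i ∈ A then u i else v i) = ∏ i, (u i * q i + v i * (1 - q i)) := by
  have h := Finset.prod_add (fun i => u i * q i) (fun i => v i * (1 - q i)) (univ : Finset ι)
  rw [h, powerset_univ]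
  unfold ex bw
  refine sum_congr rfl fun A _ => ?_
  rw [← Finset.prod_mul_distrib, ← Finset.prod_sdiff (Finset.subset_univ A), mul_comm]
  congr 1
  · exact prod_congr rfl fun i hi => by rw [if_pos hi, if_pos hi]
  · refine prod_congr rfl fun i hi => ?_
    have := (mem_sdiff.1 hi).2
    rw [if_neg this, if_neg this]

/-- the block with prescribed elements -/
theorem B1_block {ι : Type} [Fintype ι] [DecidableEq ι] (q : ι → ℝ) (blk : ι → ℕ) (σ : ℝ)
    (q0 : ∀ i, 0 ≤ q i) (q1 : ∀ i, q i ≤ 1 / 2) (b : ℕ)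
    (hσ : ∑ i ∈ univ.filter (fun i => blk i = b), q i / (1 - q i) ≤ σ)
    (T : Finset ι) (hT : ∀ i ∈ T, blk i = b) :
    ex q (fun A => (4 : ℝ) ^ (AB blk b A).card * (if T ⊆ AB blk b A then 1 else 0)) ≤
      8 ^ T.card * Real.exp (4 * σ) * (∏ i ∈ T, q i) * p0 q blk b := by
  have hfun : (fun A => (4 : ℝ) ^ (AB blk b A).card * (if T ⊆ AB blk b A then 1 else 0)) =
      fun A => ∏ i, if i ∈ A then (if blk i = b then (4 : ℝ) else 1)
        else (if i ∈ T then 0 else 1) := by
    funext A
    have e1 : (4 : ℝ) ^ (AB blk b A).card = ∏ i ∈ A, (if blk i = b then (4 : ℝ) else 1) := by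
      rw [Finset.prod_ite, Finset.prod_const, Finset.prod_const_one, mul_one]
      rfl
    have e2 : (if T ⊆ AB blk b A then (1 : ℝ) else 0) =
        ∏ i ∈ univ \ A, (if i ∈ T then (0 : ℝ) else 1) := by
      by_cases hTA : T ⊆ AB blk b A
      · rw [if_pos hTA]
        symm
        refine Finset.prod_eq_one fun i hi => ?_
        rw [if_neg]
        intro hiT
        have := hTA hiT
        unfold AB at this
        exact (mem_sdiff.1 hi).2 (Finset.mem_filter.1 this).1
      · rw [if_neg hTA]
        obtain ⟨i, hi, hiA⟩ := Finset.not_subset.1 hTA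
        symm
        refine Finset.prod_eq_zero (i := i) ?_ ?_
        · rw [mem_sdiff]
          refine ⟨mem_univ _, fun hA => hiA ?_⟩
          unfold AB
          exact Finset.mem_filter.2 ⟨hA, hT i hi⟩
        · rw [if_pos hi]
    rw [e1, e2]
    rw [← Finset.prod_sdiff (Finset.subset_univ A), mul_comm]
    congr 1
    · refine prod_congr rfl fun i hi => ?_
      rw [if_neg (mem_sdiff.1 hi).2]
    · exact prod_congr rfl fun i hi => by rw [if_pos hi]
  rw [hfun, B1_ex_prod]
  set B := univ.filter (fun i => blk i = b) with hB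
  have hq : ∀ i, 0 < 1 - q i := fun i => by linarith [q1 i]
  have h1 : ∏ i, ((if blk i = b then (4 : ℝ) else 1) * q i +
      (if i ∈ T then 0 else 1) * (1 - q i)) =
      ∏ i ∈ B, (4 * q i + (if i ∈ T then 0 else 1) * (1 - q i)) := by
    rw [hB, Finset.prod_filter]
    refine prod_congr rfl fun i _ => ?_
    by_cases hi : blk i = b
    · rw [if_pos hi, if_pos hi]
    · rw [if_neg hi, if_neg hi, if_neg (fun h => hi (hT i h))]
      ring
  rw [h1]
  have h2 : ∏ i ∈ B, (4 * q i + (if i ∈ T then 0 else 1) * (1 - q i)) ≤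
      ∏ i ∈ B, ((if i ∈ T then 8 * q i else 1) *
        ((1 - q i) * Real.exp (4 * (q i / (1 - q i))))) := by
    refine Finset.prod_le_prod (fun i _ => ?_) (fun i _ => ?_)
    · have := q0 i
      have := hq i
      split_ifs <;> linarith
    · have h0 := q0 i
      have h3 := hq i
      have h4 : 0 ≤ q i / (1 - q i) := div_nonneg h0 h3.le
      have h5 : 1 + 4 * (q i / (1 - q i)) ≤ Real.exp (4 * (q i / (1 - q i))) := by
        have := Real.add_one_le_exp (4 * (q i / (1 - q i)))
        linarith
      by_cases hi : i ∈ T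
      · rw [if_pos hi, if_pos hi]
        have h6 : 1 / 2 ≤ (1 - q i) * Real.exp (4 * (q i / (1 - q i))) := by
          have h7 : 1 / 2 ≤ 1 - q i := by linarith [q1 i]
          nlinarith
        nlinarith
      · rw [if_neg hi, if_neg hi, one_mul, one_mul]
        have h6 : (1 - q i) * (1 + 4 * (q i / (1 - q i))) = 4 * q i + (1 - q i) := by
          field_simp
          ring
        rw [← h6]
        exact mul_le_mul_of_nonneg_left h5 h3.le
  refine h2.trans (le_of_eq_of_le (by rw [Finset.prod_mul_distrib, Finset.prod_mul_distrib]) ?_)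
  have h3 : ∏ i ∈ B, (if i ∈ T then 8 * q i else 1) = 8 ^ T.card * ∏ i ∈ T, q i := by
    rw [Finset.prod_ite_mem]
    have : B ∩ T = T := by
      rw [Finset.inter_eq_right]
      intro i hi
      rw [hB]
      exact Finset.mem_filter.2 ⟨mem_univ _, hT i hi⟩
    rw [this, Finset.prod_mul_distrib, Finset.prod_const]
  have h4 : ∏ i ∈ B, (1 - q i) = p0 q blk b := rfl
  have h5 : ∏ i ∈ B, Real.exp (4 * (q i / (1 - q i))) ≤ Real.exp (4 * σ) := by
    rw [← Real.exp_sum, ← Finset.mul_sum]
    apply Real.exp_le_exp.2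
    linarith
  rw [h3, h4]
  have h6 : 0 ≤ 8 ^ T.card * ∏ i ∈ T, q i := by
    have := Finset.prod_nonneg (fun i (_ : i ∈ T) => q0 i)
    positivity
  have h7 : 0 ≤ p0 q blk b := Finset.prod_nonneg (fun i _ => (hq i).le)
  calc 8 ^ T.card * (∏ i ∈ T, q i) * (p0 q blk b * ∏ i ∈ B, Real.exp (4 * (q i / (1 - q i))))
      ≤ 8 ^ T.card * (∏ i ∈ T, q i) * (p0 q blk b * Real.exp (4 * σ)) := by gcongr
    _ = _ := by ring

/-- powers of `TT` with prescribed elements -/
theorem B1_TT {ι : Type} [Fintype ι] [DecidableEq ι] (q : ι → ℝ) (blk : ι → ℕ) (σ : ℝ)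
    (q0 : ∀ i, 0 ≤ q i) (q1 : ∀ i, q i ≤ 1 / 2) (b r : ℕ)
    (hσ : ∑ i ∈ univ.filter (fun i => blk i = b), q i / (1 - q i) ≤ σ)
    (T : Finset ι) (hT : ∀ i ∈ T, blk i = b) (hT1 : 1 ≤ T.card) :
    ex q (fun A => TT r (AB blk b A).card ^ 2 * (if T ⊆ AB blk b A then 1 else 0)) ≤
      (8 * Real.exp (4 * σ)) ^ T.card * (∏ i ∈ T, q i) * p0 q blk b := by
  have hq : ∀ i, 0 < 1 - q i := fun i => by linarith [q1 i]
  have hσ0 : 0 ≤ σ := le_trans (Finset.sum_nonneg fun i _ => div_nonneg (q0 i) (hq i).le) hσ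
  have h1 : ex q (fun A => TT r (AB blk b A).card ^ 2 * (if T ⊆ AB blk b A then 1 else 0)) ≤
      ex q (fun A => (4 : ℝ) ^ (AB blk b A).card * (if T ⊆ AB blk b A then 1 else 0)) := by
    refine ex_mono q q0 (fun i => by linarith [q1 i]) _ _ fun A => ?_
    have h2 := TT_le r (AB blk b A).card
    have h3 := TT_nonneg r (AB blk b A).card
    have h4 : TT r (AB blk b A).card ^ 2 ≤ (4 : ℝ) ^ (AB blk b A).card := by
      calc TT r (AB blk b A).card ^ 2 ≤ ((2 : ℝ) ^ (AB blk b A).card) ^ 2 :=
            pow_le_pow_left₀ h3 h2 2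
        _ = (4 : ℝ) ^ (AB blk b A).card := by
            rw [← pow_mul, mul_comm, pow_mul]
            norm_num
    split_ifs <;> linarith
  refine h1.trans ((B1_block q blk σ q0 q1 b hσ T hT).trans ?_)
  have h6 : 0 ≤ ∏ i ∈ T, q i := Finset.prod_nonneg (fun i _ => q0 i)
  have h7 : 0 ≤ p0 q blk b := Finset.prod_nonneg (fun i _ => (hq i).le)
  have h8 : Real.exp (4 * σ) ≤ Real.exp (4 * σ) ^ T.card := by
    calc Real.exp (4 * σ) = Real.exp (4 * σ) ^ 1 := (pow_one _).symm
      _ ≤ Real.exp (4 * σ) ^ T.card :=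
        pow_le_pow_right₀ (Real.one_le_exp (by positivity)) hT1
  rw [mul_pow]
  gcongr

theorem B1_sq (q : ℝ) (τ x : ℝ) (hx : 0 ≤ x) (ht0 : 0 ≤ τ) (ht1 : τ ≤ 1 / 2) (_hq : q = q) :
    ((x - τ) / (1 - τ)) ^ 2 ≤ 4 * x ^ 2 + 1 := by
  rw [div_pow, div_le_iff₀ (by nlinarith)]
  have h1 : (x - τ) ^ 2 ≤ x ^ 2 + 1 / 4 := by nlinarith [mul_nonneg hx ht0]
  have h2 : 1 / 4 ≤ (1 - τ) ^ 2 := by nlinarith
  nlinarith [sq_nonneg x]

/-- As `ex_DB_sq_le` in `H15P/BH4.lean`, with the extra condition `T ⊆ A`.
Factorise over the blocks (`ex_prod_blocks`; `T ⊆ A` iff `AB blk b T ⊆ AB blk b A` for all blocks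
`b` of `T`). Write `t_b = |T_b|`, `T_b = AB blk b T`, `E_b = 8 e^(4σ)`.
* Block `b > i`, `b < N`, `T_b = ∅`: `bh4_pow_le`, factor `p0 b (1 + 4^(-(b-i+1)))`.
* Block `b`, `T_b ≠ ∅`: `TT^2 ≤ 4^|A_b|` (`TT_le`), and `E [4^|A_b| 1[T_b ⊆ A_b]]
  = ∏_{T_b} (4 q) ∏_{block ∖ T_b} (1 + 3 q)`, `1 + 3 q = (1 - q)(1 + 4 q/(1-q))`,
  `∏ (1 + 4 q/(1-q)) ≤ e^(4σ)` (hypothesis `sum`), `∏_{block ∖ T_b} (1 - q) ≤ 2^t_b p0 b`:
  at most `(8 e^(4σ))^t_b (∏_{T_b} q) p0 b` (`t_b ≥ 1`, `σ ≥ 0`).
* Block `i`: `((TT - τ)/(1 - τ))^2 ≤ 4 (TT^2 + 1/4)` (`tau_le`); if `T_i = ∅` the mean value is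
  `≤ 2` as in `ex_DB_sq_le`, otherwise `≤ (∏_{T_i} q)(4 (8 e^(4σ))^t_i + 1) ≤
  2 (32 e^(4σ))^t_i ∏_{T_i} q`.
* Other blocks: `∏_{T_b} q`.
Total: `2 · 2 ∏_{b > i} p0 · (32 e^(4σ))^|T| ∏_T q` (`bh4_prod_le'`). -/
theorem ex_DB_tilt {ι : Type} [Fintype ι] [DecidableEq ι] (q : ι → ℝ) (blk : ι → ℕ) (σ : ℝ)
    (r0 n N : ℕ) (h : Blocks q blk σ r0 n N) (i : ℕ) (hi : i < n) (T : Finset ι) :
    ex q (fun A => DB q blk r0 N i A ^ 2 * (if T ⊆ A then 1 else 0)) ≤
      (32 * Real.exp (4 * σ)) ^ T.card * (∏ p ∈ T, q p) *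
        (4 * ∏ b ∈ Ico (i + 1) N, p0 q blk b) := by
  classical
  obtain ⟨ht0, ht1⟩ := tau_le q blk σ r0 n N h i hi
  have q0 := h.q0
  have q1 := bh4_q1 h
  have hq : ∀ j, 0 < 1 - q j := fun j => by linarith [h.q1 j]
  have hσ0 : 0 ≤ σ :=
    le_trans (Finset.sum_nonneg fun j _ => div_nonneg (q0 j) (hq j).le) (h.sum i)
  have hex1 : 1 ≤ Real.exp (4 * σ) := Real.one_le_exp (by positivity)
  set τ := tau q blk r0 i with hτ
  set E := 32 * Real.exp (4 * σ) with hE
  have hE1 : 1 ≤ E := by rw [hE]; linarith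
  set S := insert i (Ico (i + 1) N) ∪ T.image blk with hS
  -- the factors
  set F : ℕ → Finset ι → ℝ := fun b A' =>
    (if b = i then ((TT r0 A'.card - τ) / (1 - τ)) ^ 2
      else if b ∈ Ico (i + 1) N then TT (r0 + (b - i)) A'.card ^ 2 else 1) *
      (if AB blk b T ⊆ A' then 1 else 0) with hF
  have hfac : (fun A => DB q blk r0 N i A ^ 2 * (if T ⊆ A then 1 else 0)) =
      fun A => ∏ b ∈ S, F b (AB blk b A) := by
    funext A
    simp only [hF]
    rw [Finset.prod_mul_distrib]
    congr 1
    · have hni : i ∉ Ico (i + 1) N := by simp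
      have hsub : insert i (Ico (i + 1) N) ⊆ S := Finset.subset_union_left
      rw [← Finset.prod_subset hsub]
      · rw [Finset.prod_insert hni, if_pos rfl]
        unfold DB
        rw [mul_pow, mul_comm, ← Finset.prod_pow]
        congr 1
        refine Finset.prod_congr rfl fun b hb => ?_
        have hb' : b ≠ i := by
          rw [Finset.mem_Ico] at hb
          omega
        rw [if_neg hb', if_pos hb]
      · intro b _ hb
        rw [Finset.mem_insert, not_or] at hb
        rw [if_neg hb.1, if_neg hb.2]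
    · by_cases hTA : T ⊆ A
      · rw [if_pos hTA]
        symm
        refine Finset.prod_eq_one fun b _ => ?_
        rw [if_pos]
        unfold AB
        exact Finset.filter_subset_filter _ hTA
      · rw [if_neg hTA]
        obtain ⟨j, hj, hjA⟩ := Finset.not_subset.1 hTA
        symm
        refine Finset.prod_eq_zero (i := blk j) ?_ ?_
        · rw [hS]
          exact Finset.mem_union_right _ (Finset.mem_image_of_mem _ hj)
        · rw [if_neg]
          intro hsub
          have : j ∈ AB blk (blk j) A := hsub (by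
            unfold AB
            exact Finset.mem_filter.2 ⟨hj, rfl⟩)
          unfold AB at this
          exact hjA (Finset.mem_filter.1 this).1
  rw [hfac, ex_prod_blocks]
  -- bounds for the factors
  set g : ℕ → ℝ := fun b =>
    if b = i then 2 else if b ∈ Ico (i + 1) N then p0 q blk b * (1 + (1 / 4) ^ (b - i + 1)) else 1
    with hg
  have hQ0 : ∀ b, 0 ≤ ∏ p ∈ AB blk b T, q p := fun b => Finset.prod_nonneg fun p _ => q0 p
  have hTb : ∀ b, ∀ p ∈ AB blk b T, blk p = b := by
    intro b p hp
    unfold AB at hp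
    exact (Finset.mem_filter.1 hp).2
  have hfb : ∀ b ∈ S, ex q (fun A => F b (AB blk b A)) ≤
      E ^ (AB blk b T).card * (∏ p ∈ AB blk b T, q p) * g b := by
    intro b _
    by_cases hbi : b = i
    · -- the block `i`
      subst hbi
      have e1 : (fun A => F b (AB blk b A)) = fun A =>
          ((TT r0 (AB blk b A).card - τ) / (1 - τ)) ^ 2 *
            (if AB blk b T ⊆ AB blk b A then 1 else 0) := by
        funext A
        simp only [hF, if_true]
      have e2 : g b = 2 := by simp only [hg, if_true]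
      rw [e1, e2]
      rcases Nat.eq_zero_or_pos (AB blk b T).card with hc | hc
      · have hc' : AB blk b T = ∅ := Finset.card_eq_zero.1 hc
        simp only [hc', Finset.empty_subset, if_true, mul_one, Finset.card_empty, pow_zero,
          Finset.prod_empty, one_mul]
        have e3 : (fun A => ((TT r0 (AB blk b A).card - τ) / (1 - τ)) ^ 2)
            = fun A => (1 / (1 - τ) ^ 2) * (TT r0 (AB blk b A).card ^ 2
              + ((-2 * τ) * TT r0 (AB blk b A).card + τ ^ 2 * 1)) := by
          funext A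
          have : (1 - τ) ≠ 0 := by intro h0; linarith
          field_simp
          ring
        rw [e3, ex_const_mul, ex_add, ex_add, ex_const_mul, ex_const_mul, ex_one]
        have e4 : ex q (fun A => TT r0 (AB blk b A).card) = τ := rfl
        rw [e4]
        have h2 := bh4_pow_le q blk σ r0 n N h b 0 2 (by norm_num) (by norm_num)
        simp only [add_zero, zero_add, pow_one] at h2
        have h3 := h.small b hi
        have h4 := bh4_p0_nonneg h b
        have h5 : ex q (fun A => TT r0 (AB blk b A).card ^ 2) ≤ 5 / 16 := by linarith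
        have h6 : ex q (fun A => TT r0 (AB blk b A).card ^ 2) + (-2 * τ * τ + τ ^ 2 * 1) ≤
            5 / 16 := by nlinarith
        have h7 : 1 / (1 - τ) ^ 2 ≤ 4 := by
          rw [div_le_iff₀ (by nlinarith)]
          nlinarith
        have h8 : 0 ≤ 1 / (1 - τ) ^ 2 := by positivity
        nlinarith
      · have h1 : ex q (fun A => ((TT r0 (AB blk b A).card - τ) / (1 - τ)) ^ 2 *
            (if AB blk b T ⊆ AB blk b A then 1 else 0)) ≤
            ex q (fun A => 4 * (TT r0 (AB blk b A).card ^ 2 *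
              (if AB blk b T ⊆ AB blk b A then 1 else 0)) +
              (if AB blk b T ⊆ A then 1 else 0)) := by
          refine ex_mono q q0 q1 _ _ fun A => ?_
          have h2 := B1_sq 0 τ (TT r0 (AB blk b A).card) (TT_nonneg _ _) ht0 ht1 rfl
          by_cases hA : AB blk b T ⊆ AB blk b A
          · have hA' : AB blk b T ⊆ A := hA.trans (by unfold AB; exact Finset.filter_subset _ _)
            rw [if_pos hA, if_pos hA']
            linarith
          · rw [if_neg hA, mul_zero, mul_zero, mul_zero, zero_add]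
            split_ifs <;> norm_num
        refine h1.trans ?_
        rw [ex_add, ex_const_mul, tr3_ex_subset]
        have h2 := B1_TT q blk σ q0 h.q1 b r0 (h.sum b) (AB blk b T) (hTb b) hc
        have h3 : p0 q blk b ≤ 1 := bh4_p0_le_one h b
        have h4 := hQ0 b
        have h5 : 0 < (8 * Real.exp (4 * σ)) ^ (AB blk b T).card := by positivity
        have h6 : (8 * Real.exp (4 * σ)) ^ (AB blk b T).card * (∏ p ∈ AB blk b T, q p) *
            p0 q blk b ≤ (8 * Real.exp (4 * σ)) ^ (AB blk b T).card *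
              (∏ p ∈ AB blk b T, q p) := by
          have : 0 ≤ (8 * Real.exp (4 * σ)) ^ (AB blk b T).card * (∏ p ∈ AB blk b T, q p) := by
            positivity
          nlinarith
        have h7 : 4 * (8 * Real.exp (4 * σ)) ^ (AB blk b T).card ≤ E ^ (AB blk b T).card := by
          have e3 : E = 4 * (8 * Real.exp (4 * σ)) := by rw [hE]; ring
          rw [e3, mul_pow 4 (8 * Real.exp (4 * σ))]
          have : (4 : ℝ) ≤ 4 ^ (AB blk b T).card := by
            calc (4 : ℝ) = 4 ^ 1 := (pow_one _).symm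
              _ ≤ 4 ^ (AB blk b T).card := pow_le_pow_right₀ (by norm_num) hc
          exact mul_le_mul_of_nonneg_right this h5.le
        have h8 : 1 ≤ E ^ (AB blk b T).card := one_le_pow₀ hE1
        have h9 : 4 * ((8 * Real.exp (4 * σ)) ^ (AB blk b T).card * (∏ p ∈ AB blk b T, q p)) ≤
            E ^ (AB blk b T).card * (∏ p ∈ AB blk b T, q p) := by
          calc 4 * ((8 * Real.exp (4 * σ)) ^ (AB blk b T).card * (∏ p ∈ AB blk b T, q p))
              = (4 * (8 * Real.exp (4 * σ)) ^ (AB blk b T).card) * (∏ p ∈ AB blk b T, q p) := by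
                ring
            _ ≤ _ := mul_le_mul_of_nonneg_right h7 h4
        have h10 : (∏ p ∈ AB blk b T, q p) ≤
            E ^ (AB blk b T).card * (∏ p ∈ AB blk b T, q p) := by
          nlinarith
        linarith
    · by_cases hbN : b ∈ Ico (i + 1) N
      · have e1 : (fun A => F b (AB blk b A)) = fun A =>
            TT (r0 + (b - i)) (AB blk b A).card ^ 2 *
              (if AB blk b T ⊆ AB blk b A then 1 else 0) := by
          funext A
          simp only [hF, if_neg hbi, if_pos hbN]
        have e2 : g b = p0 q blk b * (1 + (1 / 4) ^ (b - i + 1)) := by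
          simp only [hg, if_neg hbi, if_pos hbN]
        rw [e1, e2]
        have h4 := bh4_p0_nonneg h b
        have h45 : (0 : ℝ) ≤ (1 / 4) ^ (b - i + 1) := by positivity
        rcases Nat.eq_zero_or_pos (AB blk b T).card with hc | hc
        · have hc' : AB blk b T = ∅ := Finset.card_eq_zero.1 hc
          simp only [hc', Finset.empty_subset, if_true, mul_one, Finset.card_empty, pow_zero,
            Finset.prod_empty, one_mul]
          exact bh4_pow_le q blk σ r0 n N h b (b - i) 2 (by norm_num) (by norm_num)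
        · refine (B1_TT q blk σ q0 h.q1 b (r0 + (b - i)) (h.sum b) (AB blk b T) (hTb b) hc).trans ?_
          have h5 := hQ0 b
          have h6 : (8 * Real.exp (4 * σ)) ^ (AB blk b T).card ≤ E ^ (AB blk b T).card := by
            apply pow_le_pow_left₀ (by positivity)
            rw [hE]
            linarith
          have h7 : p0 q blk b ≤ p0 q blk b * (1 + (1 / 4) ^ (b - i + 1)) := by nlinarith
          have hE0 : 0 ≤ E ^ (AB blk b T).card := by positivity
          exact mul_le_mul (mul_le_mul_of_nonneg_right h6 h5) h7 h4 (mul_nonneg hE0 h5)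
      · have e1 : (fun A => F b (AB blk b A)) = fun A =>
            (if AB blk b T ⊆ A then (1 : ℝ) else 0) := by
          funext A
          simp only [hF, if_neg hbi, if_neg hbN, one_mul]
          have : AB blk b T ⊆ AB blk b A ↔ AB blk b T ⊆ A := by
            constructor
            · intro hA
              exact hA.trans (by unfold AB; exact Finset.filter_subset _ _)
            · intro hA x hx
              unfold AB
              rw [Finset.mem_filter]
              exact ⟨hA hx, hTb b x hx⟩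
          by_cases hA : AB blk b T ⊆ A
          · rw [if_pos hA, if_pos (this.2 hA)]
          · rw [if_neg hA, if_neg (fun h' => hA (this.1 h'))]
        have e2 : g b = 1 := by
          simp only [hg, if_neg hbi, if_neg hbN]
        rw [e1, e2, tr3_ex_subset, mul_one]
        have h8 : 1 ≤ E ^ (AB blk b T).card := one_le_pow₀ hE1
        have := hQ0 b
        nlinarith
  have hnn : ∀ b ∈ S, 0 ≤ ex q (fun A => F b (AB blk b A)) := by
    intro b _
    refine ex_nonneg q q0 q1 _ fun A => ?_
    simp only [hF]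
    refine mul_nonneg ?_ (by split_ifs <;> norm_num)
    split_ifs
    · positivity
    · positivity
    · norm_num
  refine (Finset.prod_le_prod hnn hfb).trans ?_
  rw [Finset.prod_mul_distrib, Finset.prod_mul_distrib]
  -- the three products
  have hmaps : ∀ p ∈ T, blk p ∈ S := fun p hp => by
    rw [hS]
    exact Finset.mem_union_right _ (Finset.mem_image_of_mem _ hp)
  have p1 : ∏ b ∈ S, E ^ (AB blk b T).card = E ^ T.card := by
    rw [Finset.prod_pow_eq_pow_sum]
    congr 1
    exact (Finset.card_eq_sum_card_fiberwise hmaps).symm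
  have p2 : ∏ b ∈ S, ∏ p ∈ AB blk b T, q p = ∏ p ∈ T, q p :=
    Finset.prod_fiberwise_of_maps_to hmaps q
  have p3 : ∏ b ∈ S, g b ≤ 4 * ∏ b ∈ Ico (i + 1) N, p0 q blk b := by
    have hni : i ∉ Ico (i + 1) N := by simp
    have hsub : insert i (Ico (i + 1) N) ⊆ S := Finset.subset_union_left
    rw [← Finset.prod_subset hsub]
    · rw [Finset.prod_insert hni]
      have e1 : g i = 2 := by simp only [hg, if_true]
      have e2 : ∏ b ∈ Ico (i + 1) N, g b ≤ 2 * ∏ b ∈ Ico (i + 1) N, p0 q blk b := by
        calc ∏ b ∈ Ico (i + 1) N, g b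
            ≤ ∏ b ∈ Ico (i + 1) N, (p0 q blk b * (1 + (1 / 4 : ℝ) ^ (b - (i + 1) + 1))) := by
              refine Finset.prod_le_prod (fun b hb => ?_) (fun b hb => ?_)
              · have hb' : b ≠ i := by
                  rw [Finset.mem_Ico] at hb
                  omega
                simp only [hg, if_neg hb', if_pos hb]
                have := bh4_p0_nonneg h b
                positivity
              · have hb' : b ≠ i := by
                  rw [Finset.mem_Ico] at hb
                  omega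
                simp only [hg, if_neg hb', if_pos hb]
                apply mul_le_mul_of_nonneg_left _ (bh4_p0_nonneg h b)
                have : (1 / 4 : ℝ) ^ (b - i + 1) ≤ (1 / 4) ^ (b - (i + 1) + 1) :=
                  pow_le_pow_of_le_one (by norm_num) (by norm_num) (by omega)
                linarith
          _ = (∏ b ∈ Ico (i + 1) N, p0 q blk b) *
                ∏ b ∈ Ico (i + 1) N, (1 + (1 / 4 : ℝ) ^ (b - (i + 1) + 1)) :=
              Finset.prod_mul_distrib
          _ ≤ (∏ b ∈ Ico (i + 1) N, p0 q blk b) * 2 :=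
              mul_le_mul_of_nonneg_left (bh4_prod_le' (i + 1) N)
                (Finset.prod_nonneg (fun b _ => bh4_p0_nonneg h b))
          _ = _ := mul_comm _ _
      rw [e1]
      linarith
    · intro b _ hb
      rw [Finset.mem_insert, not_or] at hb
      simp only [hg, if_neg hb.1, if_neg hb.2]
  rw [p1, p2]
  have h6 : 0 ≤ ∏ p ∈ T, q p := Finset.prod_nonneg (fun p _ => q0 p)
  exact mul_le_mul_of_nonneg_left p3 (by positivity)

end Pool.Agent.Lib.H57M
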