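import Pool.Agent.Lib.H92G.G2

/-!
# Chunk B2: the fourth moment for a bounded number of forms
-/

open Finset

namespace Pool.Agent.Lib.H57M

open Pool.Agent.Lib.H15P Pool.Agent.Lib.H92G

/-- Copy of the proof of `EX_LG_four_le` (`H92G/G2.lean`), stopping at the product
`(1 + ((|I|+1)^4 - 1) h)^|B|` with `B = univ`; and `1 + (a - 1) h ≤ a (1 + h)` for `a ≥ 1`. -/
theorem EX_LG_four_le2 {ι J I : Type} [Fintype ι] [DecidableEq ι] [Fintype J] [DecidableEq J]
    [Fintype I] [DecidableEq I] (q : ι → ℝ) (D : J → I → Finset ι → ℝ) (h : ℝ)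
    (hg : GoodJ q D h) (hh : 0 ≤ h) (m : I → ℕ) :
    EX q (fun S : J → Finset ι => LG D m univ S ^ 4)
      ≤ (((Fintype.card I : ℝ) + 1) ^ 4 * (1 + h)) ^ Fintype.card J := by
  classical
  obtain ⟨B, hB⟩ : ∃ B : Finset J, B = univ := ⟨_, rfl⟩
  rw [← hB]
  set E : (Fin 4 → Option I) → ℝ := fun o => if o = (fun _ => none) then 1 else h with hE
  have hE0 : ∀ o, 0 ≤ E o := by
    intro o
    simp only [hE]
    split_ifs
    · exact zero_le_one
    · exact hh
  have h4 : ∀ S : J → Finset ι, LG D m B S ^ 4 =
      ∑ x ∈ Fintype.piFinset (fun _ : Fin 4 => adm B m), ∏ j, ∏ k, dg D j (x k j) (S j) := by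
    intro S
    have e1 : LG D m B S ^ 4 = ∏ _k : Fin 4, ∑ l ∈ adm B m, ∏ j, dg D j (l j) (S j) := by
      rw [Finset.prod_const, Finset.card_univ, Fintype.card_fin]
      unfold LG LW
      simp only [one_mul]
    rw [e1, Finset.prod_univ_sum]
    refine Finset.sum_congr rfl (fun x _ => ?_)
    rw [Finset.prod_comm]
  have h5 : EX q (fun S : J → Finset ι => LG D m B S ^ 4) =
      ∑ x ∈ Fintype.piFinset (fun _ : Fin 4 => adm B m),
        ∏ j, ex q (fun A => ∏ k, dg D j (x k j) A) := by
    have e2 : (fun S : J → Finset ι => LG D m B S ^ 4) = (fun S : J → Finset ι =>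
        ∑ x ∈ Fintype.piFinset (fun _ : Fin 4 => adm B m), ∏ j, ∏ k, dg D j (x k j) (S j)) :=
      funext h4
    rw [e2, EX_sum]
    refine Finset.sum_congr rfl (fun x _ => ?_)
    exact EX_prod q (fun j A => ∏ k, dg D j (x k j) A)
  have h6 : ∀ (j : J) (o : Fin 4 → Option I), |ex q (fun A => ∏ k, dg D j (o k) A)| ≤ E o := by
    intro j o
    by_cases ho : o = (fun _ => none)
    · subst ho
      simp only [hE, if_true, dg, Finset.prod_const_one]
      rw [ex_one, abs_one]
    · have ho' : ∃ k, o k ≠ none := by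
        by_contra hcon
        push Not at hcon
        exact ho (funext hcon)
      simp only [hE, if_neg ho]
      exact abs_ex_four_leJ q D h hg hh j o ho'
  have hinj : Function.Injective
      (fun (x : Fin 4 → J → Option I) (j : J) (k : Fin 4) => x k j) := by
    intro x y hxy
    funext k j
    exact congrFun (congrFun hxy j) k
  have hcard : ∑ ω, E ω ≤ 1 + ((Fintype.card I : ℝ) + 1) ^ 4 * h := by
    rw [← Finset.add_sum_erase univ E (Finset.mem_univ (fun _ => none))]
    have e3 : E (fun _ => none) = 1 := by simp only [hE, if_true]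
    have e4 : ∑ ω ∈ univ.erase (fun _ : Fin 4 => (none : Option I)), E ω
        = ∑ ω ∈ univ.erase (fun _ : Fin 4 => (none : Option I)), h := by
      refine Finset.sum_congr rfl (fun ω hω => ?_)
      simp only [hE, if_neg (Finset.ne_of_mem_erase hω)]
    rw [e3, e4, Finset.sum_const, nsmul_eq_mul]
    have e5 : ((univ.erase (fun _ : Fin 4 => (none : Option I))).card : ℝ)
        ≤ ((Fintype.card I : ℝ) + 1) ^ 4 := by
      have : (univ.erase (fun _ : Fin 4 => (none : Option I))).card
          ≤ (Fintype.card I + 1) ^ 4 := by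
        refine (Finset.card_erase_le).trans ?_
        rw [Finset.card_univ, Fintype.card_fun, Fintype.card_option, Fintype.card_fin]
      exact_mod_cast this
    have := mul_le_mul_of_nonneg_right e5 hh
    linarith
  rw [h5]
  calc ∑ x ∈ Fintype.piFinset (fun _ : Fin 4 => adm B m),
        ∏ j, ex q (fun A => ∏ k, dg D j (x k j) A)
      ≤ ∑ x ∈ Fintype.piFinset (fun _ : Fin 4 => adm B m), ∏ j, E (fun k => x k j) := by
        apply Finset.sum_le_sum
        intro x _
        refine (le_abs_self _).trans ?_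
        rw [Finset.abs_prod]
        exact Finset.prod_le_prod (fun j _ => abs_nonneg _) (fun j _ => h6 j _)
    _ = ∑ y ∈ (Fintype.piFinset (fun _ : Fin 4 => adm B m)).image
          (fun (x : Fin 4 → J → Option I) (j : J) (k : Fin 4) => x k j), ∏ j, E (y j) := by
        rw [Finset.sum_image (fun a _ b _ hab => hinj hab)]
    _ ≤ ∑ y ∈ univ.filter (fun y : J → (Fin 4 → Option I) => ∀ j, j ∉ B → y j = fun _ => none),
          ∏ j, E (y j) := by
        apply Finset.sum_le_sum_of_subset_of_nonneg
        · intro y hy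
          obtain ⟨x, hx, rfl⟩ := Finset.mem_image.1 hy
          refine Finset.mem_filter.2 ⟨Finset.mem_univ _, ?_⟩
          intro j hj
          funext k
          have h7 := (Fintype.mem_piFinset.1 hx) k
          unfold adm at h7
          exact (Finset.mem_filter.1 h7).2.1 j hj
        · intro y _ _
          exact Finset.prod_nonneg (fun j _ => hE0 _)
    _ = (∑ ω, E ω) ^ B.card :=
        sum_supp (fun _ : Fin 4 => (none : Option I)) E (by simp only [hE, if_true]) B
    _ ≤ (((Fintype.card I : ℝ) + 1) ^ 4 * (1 + h)) ^ B.card := by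
        apply pow_le_pow_left₀ (Finset.sum_nonneg (fun ω _ => hE0 ω))
        refine hcard.trans ?_
        have h8 : (1 : ℝ) ≤ ((Fintype.card I : ℝ) + 1) ^ 4 := by
          apply one_le_pow₀
          have : (0 : ℝ) ≤ (Fintype.card I : ℝ) := Nat.cast_nonneg _
          linarith
        nlinarith
    _ = (((Fintype.card I : ℝ) + 1) ^ 4 * (1 + h)) ^ Fintype.card J := by
        rw [hB, Finset.card_univ]

end Pool.Agent.Lib.H57M
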