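import Pool.Agent.Lib.H92G.CDefs
import Pool.Agent.Lib.H92G.W1
import Pool.Agent.Lib.H92G.E6

/-!
# Project H57M (MP_0bf1d2_nt): Maynard-Tao for Schinzel's hypothesis. Definitions

See `PROOF.md` in this folder.
-/

open Finset

namespace Pool.Agent.Lib.H57M

open Pool.Agent.Lib.H15P Pool.Agent.Lib.H92G

/-! ## The weights -/

/-- The data of the weight for one scale; `K` = number of the forms. `D i` = one form function of
the label `i`, `c` = its value at `∅`, `s i` = bound for its second moment, `m i` = bound for the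
number of the forms with label `i`. -/
structure Par (K : ℕ) where
  P : Finset ℕ
  W : ℕ
  n : ℕ
  D : Fin n → Finset {p // p ∈ P} → ℝ
  m : Fin n → ℕ
  R : Fin n → ℝ
  s : Fin n → ℝ
  c : ℝ
  h : ℝ
  Dt : ℝ
  lv : ℝ
  prime : ∀ p ∈ P, p.Prime
  big : ∀ p ∈ P, W < p
  Kpos : 1 ≤ K
  KW : 4 * K ^ 2 ≤ W
  c0 : 0 ≤ c
  good : GoodJ (qq P K) (fun _ : Unit => D) h
  h0 : 0 ≤ h
  emp : ∀ i, D i ∅ = c
  s0 : ∀ i, 0 ≤ s i
  hs : ∑ i, s i ≤ 1
  hm : ∀ i, 2 * (K * s i) + R i ≤ m i
  hR : ∑ i, Real.exp (-R i) ≤ 1 / 4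
  Dt1 : 1 ≤ Dt
  tilt : ∀ i (T : Finset {p // p ∈ P}),
    ex (qq P K) (fun A => D i A ^ 2 * (if T ⊆ A then 1 else 0)) ≤
      Dt ^ T.card * (∏ p ∈ T, qq P K p) * s i
  lv1 : 1 ≤ lv
  lev : ∀ (J : Type) [Fintype J] [DecidableEq J] (M : ℕ) (b : J → ℕ), Fintype.card J = K →
    Lev (∏ p ∈ P, p) (fun t => LG (fun _ : J => D) m univ (fun j => hit P (b j + M * t))) lv

/-- The one form functions are good for every set of forms. -/
theorem Par.goodJ {K : ℕ} (w : Par K) (J : Type) : GoodJ (qq w.P K) (fun _ : J => w.D) w.h where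
  q0 := w.good.q0
  q1 := w.good.q1
  mean := fun _ i => w.good.mean () i
  orth := fun _ i i' hi => w.good.orth () i i' hi
  sq := fun _ i => w.good.sq () i
  fourth := fun _ i => w.good.fourth () i

/-- The weight function before squaring, as a function of the configuration. -/
noncomputable def Par.L {K : ℕ} (w : Par K) {J : Type} [Fintype J] [DecidableEq J]
    (S : J → Finset {p // p ∈ w.P}) : ℝ := LG (fun _ : J => w.D) w.m univ S

/-- `1 + ∑ E D_i^2` -/
noncomputable def Par.z {K : ℕ} (w : Par K) : ℝ :=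
  1 + ∑ i, ex (qq w.P K) (fun A => w.D i A ^ 2)

/-- The constant `(2 (n + 1))^K`. -/
noncomputable def Par.CL {K : ℕ} (w : Par K) : ℝ := (2 * ((w.n : ℝ) + 1)) ^ K

/-- The weight of the integer `n` (the forms are `n + h`, `h ∈ H`). -/
noncomputable def Par.nu {K : ℕ} (w : Par K) (H : Finset ℕ) (n : ℕ) : ℝ :=
  w.L (fun h : {h // h ∈ H} => hit w.P (n + h.1)) ^ 2 / w.z ^ K

/-! ## Residues -/

/-- The residues `v` modulo `P` for which all `v + h`, `h ∈ H`, are prime to `P`. -/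
def cF (H : Finset ℕ) (P : ℕ) : Finset ℕ :=
  (range P).filter (fun v => (∏ h ∈ H, (v + h)).Coprime P)

/-- `H` is admissible: the product of the `x + h` has no fixed prime divisor. -/
def Adm (H : Finset ℕ) : Prop := ∀ p : ℕ, p.Prime → ∃ v : ℕ, ¬ p ∣ ∏ h ∈ H, (v + h)

/-- The number of the `h ∈ H` for which `n + h` is prime. -/
def npr (H : Finset ℕ) (n : ℕ) : ℕ := (H.filter (fun h => (n + h).Prime)).card

end Pool.Agent.Lib.H57M
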