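import Pool.Agent.Lib.H57M.P1
import Pool.Agent.Lib.H56G.Crt

/-!
# Chunk P2: the singular factor is bounded below for almost all `N`
-/

open Finset Polynomial

namespace Pool.Agent.Lib.H57M

theorem P2_cF_card (H : Finset ℕ) (P : ℕ) (hP : Squarefree P) :
    (cF H P).card = ∏ p ∈ P.primeFactors, (cF H p).card := by
  classical
  have h := P1_sum P hP (fun p t => if (∏ h ∈ H, (t + h)).Coprime p then 1 else 0) (by
    intro p _ t
    simp only [P1_cop_periodic])
  have e1 : ∀ q : ℕ, ((cF H q).card : ℝ) =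
      ∑ t ∈ range q, if (∏ h ∈ H, (t + h)).Coprime q then (1 : ℝ) else 0 := by
    intro q
    rw [cF, Finset.sum_boole]
  have e2 : ((cF H P).card : ℝ) = ((∏ p ∈ P.primeFactors, (cF H p).card : ℕ) : ℝ) := by
    rw [Nat.cast_prod, Finset.prod_congr rfl (fun p _ => e1 p), ← h, e1]
    refine Finset.sum_congr rfl fun t _ => ?_
    rw [Finset.prod_boole]
    have hiff : (∏ h ∈ H, (t + h)).Coprime P ↔
        ∀ p ∈ P.primeFactors, (∏ h ∈ H, (t + h)).Coprime p := by
      constructor
      · intro h1 p hp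
        exact h1.coprime_dvd_right (Nat.dvd_of_mem_primeFactors hp)
      · intro h1
        rw [← Nat.prod_primeFactors_of_squarefree hP]
        exact Nat.Coprime.prod_right h1
    by_cases hg : (∏ h ∈ H, (t + h)).Coprime P
    · rw [if_pos hg, if_pos (hiff.1 hg)]
    · rw [if_neg hg, if_neg (fun hh => hg (hiff.2 hh))]
  exact_mod_cast e2

theorem P2_sp_periodic (H : Finset ℕ) (G : ℤ[X]) (p : ℕ) : Function.Periodic (sp H G p) p := by
  intro N
  have e : aN H G (N + p) p = aN H G N p := by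
    unfold aN
    refine Finset.filter_congr fun v _ => ?_
    have : ((N + p : ℕ) : ℤ) - G.eval (v : ℤ) = (N : ℤ) - G.eval (v : ℤ) + (p : ℤ) * 1 := by
      push_cast
      ring
    rw [this, IsCoprime.add_mul_left_left_iff]
  unfold sp
  rw [e]

theorem P2_totient (P : ℕ) (hP : Squarefree P) :
    (P.totient : ℝ) = ∏ p ∈ P.primeFactors, ((p : ℝ) - 1) := by
  have h := Nat.totient_mul_prod_primeFactors P
  rw [Nat.prod_primeFactors_of_squarefree hP, mul_comm] at h
  have hP0 : 0 < P := Nat.pos_of_ne_zero hP.ne_zero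
  have h2 := Nat.eq_of_mul_eq_mul_left hP0 h
  rw [h2, Nat.cast_prod]
  refine Finset.prod_congr rfl fun p hp => ?_
  rw [Nat.cast_sub (Nat.prime_of_mem_primeFactors hp).one_lt.le, Nat.cast_one]

theorem P2_prod_sp (H : Finset ℕ) (G : ℤ[X]) (N P : ℕ) (hP : Squarefree P)
    (h0 : 0 < (aN H G N P).card) :
    ∏ p ∈ P.primeFactors, sp H G p N =
      (P.totient : ℝ) * (cF H P).card / (P * (aN H G N P).card) := by
  have hne : ∀ p ∈ P.primeFactors, (aN H G N p).card ≠ 0 := by
    intro p hp hz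
    rw [aN_card H G N P hP, Finset.prod_eq_zero hp hz] at h0
    exact lt_irrefl _ h0
  have h1 : ∏ p ∈ P.primeFactors, sp H G p N =
      ∏ p ∈ P.primeFactors, ((((p : ℝ) - 1) * (cF H p).card) / ((p : ℝ) * (aN H G N p).card)) :=
    Finset.prod_congr rfl fun p hp => if_neg (hne p hp)
  have h2 : (P : ℝ) = ∏ p ∈ P.primeFactors, (p : ℝ) := by
    rw [← Nat.cast_prod, Nat.prod_primeFactors_of_squarefree hP]
  rw [h1, Finset.prod_div_distrib, Finset.prod_mul_distrib, Finset.prod_mul_distrib,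
    P2_totient P hP, P2_cF_card H P hP, aN_card H G N P hP, Nat.cast_prod, Nat.cast_prod, ← h2]

theorem P2_bound (H : Finset ℕ) (G : ℤ[X]) (hG : 1 ≤ G.natDegree) :
    ∃ C : ℝ, 0 < C ∧ ∀ P : ℕ, Squarefree P →
      ∑ N ∈ range P, ∏ p ∈ P.primeFactors, sp H G p N ≤ C * P := by
  obtain ⟨p0, C, hC, hm⟩ := sp_mean H G hG
  have hsum : Summable (fun n : ℕ => 1 / (n : ℝ) ^ 2) :=
    Real.summable_one_div_nat_pow.2 one_lt_two
  set Z : ℝ := ∑' n : ℕ, 1 / (n : ℝ) ^ 2 with hZ
  refine ⟨((p0 : ℝ) + 1) ^ (p0 + 1) * Real.exp (C * Z), by positivity, fun P hP => ?_⟩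
  rw [P1_sum P hP (fun p N => sp H G p N) (fun p _ => P2_sp_periodic H G p)]
  have h1 : ∀ p ∈ P.primeFactors, 0 ≤ ∑ N ∈ range p, sp H G p N ∧
      ∑ N ∈ range p, sp H G p N ≤ (p : ℝ) * ((if p < p0 then (p : ℝ) else 1) *
        Real.exp (C * (1 / (p : ℝ) ^ 2))) := by
    intro p hp
    have hpp := Nat.prime_of_mem_primeFactors hp
    refine ⟨Finset.sum_nonneg fun N _ => (sp_le H G p N hpp).1, ?_⟩
    have he : 1 + C * (1 / (p : ℝ) ^ 2) ≤ Real.exp (C * (1 / (p : ℝ) ^ 2)) := by
      have := Real.add_one_le_exp (C * (1 / (p : ℝ) ^ 2))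
      linarith
    have hx0 : 0 ≤ C * (1 / (p : ℝ) ^ 2) := by positivity
    split_ifs with hlt
    · have h2 : ∑ N ∈ range p, sp H G p N ≤ ∑ N ∈ range p, (p : ℝ) :=
        Finset.sum_le_sum fun N _ => (sp_le H G p N hpp).2
      rw [Finset.sum_const, Finset.card_range, nsmul_eq_mul] at h2
      refine h2.trans ?_
      apply mul_le_mul_of_nonneg_left _ (Nat.cast_nonneg _)
      have h3 : (0 : ℝ) ≤ p := Nat.cast_nonneg _
      nlinarith
    · refine (hm p hpp (not_lt.1 hlt)).trans ?_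
      apply mul_le_mul_of_nonneg_left _ (Nat.cast_nonneg _)
      rw [one_mul]
      have h4 : C / (p : ℝ) ^ 2 = C * (1 / (p : ℝ) ^ 2) := by ring
      rw [h4]
      exact he
  refine (Finset.prod_le_prod (fun p hp => (h1 p hp).1) (fun p hp => (h1 p hp).2)).trans ?_
  rw [Finset.prod_mul_distrib, Finset.prod_mul_distrib, ← Real.exp_sum, ← Finset.mul_sum]
  have e1 : ∏ p ∈ P.primeFactors, (p : ℝ) = P := by
    rw [← Nat.cast_prod, Nat.prod_primeFactors_of_squarefree hP]
  rw [e1]
  have h2 : ∑ p ∈ P.primeFactors, 1 / (p : ℝ) ^ 2 ≤ Z :=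
    hsum.sum_le_tsum _ (fun n _ => by positivity)
  have h3 : Real.exp (C * ∑ p ∈ P.primeFactors, 1 / (p : ℝ) ^ 2) ≤ Real.exp (C * Z) :=
    Real.exp_le_exp.2 (mul_le_mul_of_nonneg_left h2 hC)
  have h4 : ∏ p ∈ P.primeFactors, (if p < p0 then (p : ℝ) else 1) ≤ ((p0 : ℝ) + 1) ^ (p0 + 1) := by
    rw [← Finset.prod_filter]
    calc ∏ p ∈ P.primeFactors.filter (fun p => p < p0), (p : ℝ)
        ≤ ∏ p ∈ P.primeFactors.filter (fun p => p < p0), ((p0 : ℝ) + 1) := by
          refine Finset.prod_le_prod (fun _ _ => Nat.cast_nonneg _) fun p hp => ?_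
          have : (p : ℝ) < p0 := by exact_mod_cast (Finset.mem_filter.1 hp).2
          linarith
      _ = ((p0 : ℝ) + 1) ^ (P.primeFactors.filter (fun p => p < p0)).card := by
          rw [Finset.prod_const]
      _ ≤ ((p0 : ℝ) + 1) ^ (p0 + 1) := by
          apply pow_le_pow_right₀
          · have : (0 : ℝ) ≤ p0 := Nat.cast_nonneg _
            linarith
          · have : (P.primeFactors.filter (fun p => p < p0)).card ≤ (range p0).card :=
              Finset.card_le_card fun p hp => Finset.mem_range.2 (Finset.mem_filter.1 hp).2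
            rw [Finset.card_range] at this
            omega
  have h5 : (0 : ℝ) ≤ ∏ p ∈ P.primeFactors, (if p < p0 then (p : ℝ) else 1) :=
    Finset.prod_nonneg fun p _ => by split_ifs <;> positivity
  calc (P : ℝ) * ((∏ p ∈ P.primeFactors, if p < p0 then (p : ℝ) else 1) *
        Real.exp (C * ∑ p ∈ P.primeFactors, 1 / (p : ℝ) ^ 2))
      ≤ (P : ℝ) * (((p0 : ℝ) + 1) ^ (p0 + 1) * Real.exp (C * Z)) := by
        apply mul_le_mul_of_nonneg_left _ (Nat.cast_nonneg _)
        exact mul_le_mul h4 h3 (Real.exp_pos _).le (by positivity)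
    _ = _ := by ring

theorem P2_primorial_sqf (w : ℕ) : Squarefree (primorial w) := by
  unfold primorial
  refine Finset.squarefree_prod_of_pairwise_isCoprime ?_ ?_
  · intro p hp q hq hpq
    have hp' := (Finset.mem_filter.1 (Finset.mem_coe.1 hp)).2
    have hq' := (Finset.mem_filter.1 (Finset.mem_coe.1 hq)).2
    exact Nat.coprime_iff_isRelPrime.1 ((Nat.coprime_primes hp' hq').2 hpq)
  · intro p hp
    exact (Finset.mem_filter.1 hp).2.squarefree

theorem local_avg (H : Finset ℕ) (G : ℤ[X]) (hG : 1 ≤ G.natDegree) (η : ℝ) (hη : 0 < η) :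
    ∃ σ0 : ℝ, 0 < σ0 ∧ ∀ w : ℕ,
      (((range (primorial w)).filter (fun N => 0 < (aN H G N (primorial w)).card ∧
        (primorial w : ℝ) * (aN H G N (primorial w)).card <
          σ0 * ((primorial w).totient * (cF H (primorial w)).card))).card : ℝ) ≤
        η * primorial w := by
  obtain ⟨C, hC, hb⟩ := P2_bound H G hG
  refine ⟨η / C, div_pos hη hC, fun w => ?_⟩
  have hP : Squarefree (primorial w) := P2_primorial_sqf w
  set P := primorial w with hPdef
  have hP0 : (0 : ℝ) < P := by exact_mod_cast Nat.pos_of_ne_zero hP.ne_zero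
  set T := (range P).filter (fun N => 0 < (aN H G N P).card ∧
        (P : ℝ) * (aN H G N P).card < η / C * (P.totient * (cF H P).card)) with hT
  have h1 : ∀ N ∈ T, C / η ≤ ∏ p ∈ P.primeFactors, sp H G p N := by
    intro N hN
    obtain ⟨-, h0, hlt⟩ := Finset.mem_filter.1 hN
    rw [P2_prod_sp H G N P hP h0]
    have h0' : (0 : ℝ) < (aN H G N P).card := by exact_mod_cast h0
    rw [le_div_iff₀ (mul_pos hP0 h0')]
    have : C / η * ((P : ℝ) * (aN H G N P).card) ≤
        C / η * (η / C * (P.totient * (cF H P).card)) :=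
      mul_le_mul_of_nonneg_left hlt.le (div_pos hC hη).le
    refine this.trans (le_of_eq ?_)
    field_simp
  have h2 : (T.card : ℝ) * (C / η) ≤ C * P := by
    calc (T.card : ℝ) * (C / η) = ∑ N ∈ T, C / η := by
          rw [Finset.sum_const, nsmul_eq_mul]
      _ ≤ ∑ N ∈ T, ∏ p ∈ P.primeFactors, sp H G p N := Finset.sum_le_sum h1
      _ ≤ ∑ N ∈ range P, ∏ p ∈ P.primeFactors, sp H G p N := by
          refine Finset.sum_le_sum_of_subset_of_nonneg (Finset.filter_subset _ _) ?_
          intro N _ _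
          exact Finset.prod_nonneg fun p hp =>
            (sp_le H G p N (Nat.prime_of_mem_primeFactors hp)).1
      _ ≤ C * P := hb P hP
  have h3 : (T.card : ℝ) * (C / η) * (η / C) ≤ C * P * (η / C) :=
    mul_le_mul_of_nonneg_right h2 (div_pos hη hC).le
  have e1 : (T.card : ℝ) * (C / η) * (η / C) = T.card := by field_simp
  have e2 : C * P * (η / C) = η * P := by field_simp
  rw [e1, e2] at h3
  exact h3

end Pool.Agent.Lib.H57M
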