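import Pool.Agent.Lib.H57M.N4
import Pool.Agent.Lib.H57M.P2
import Pool.Agent.Lib.H59.SchinzelDefs
import Pool.Agent.Lib.H68T.Defs

/-!
# The statement of the engine (project H33B, helper33), in the form which is used here
-/

open Finset Polynomial

namespace Pool.Agent.Lib.H57M

open Pool.Agent.Lib.H59

/-- `Λ_w(m) = (P/φ(P)) 1[(m, P) = 1]`, `P = ∏_{p ≤ w} p`. -/
noncomputable def Lam (w : ℕ) (m : ℤ) : ℝ :=
  open Classical in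
  if IsCoprime m (primorial w : ℤ) then (primorial w : ℝ) / ((primorial w).totient : ℝ) else 0

/-- The engine for the polynomial `G`. -/
def Engine (G : ℤ[X]) : Prop :=
  ∀ C D : ℝ, 1 ≤ C → 1 ≤ D → ∃ K' : ℝ, ∀ ε : ℝ, 0 < ε → ∃ w0 : ℕ, ∀ w : ℕ, w0 ≤ w → ∃ Y0 : ℕ,
    ∀ Y : ℕ, Y0 ≤ Y → ∀ (f : ℕ → ℝ) (S : ℝ), (∀ n, 0 ≤ f n) → (∀ n, f n ≤ Real.log Y ^ C) →
      (argCount G Y : ℝ) ≤ S * Real.log Y ^ C →
      (∀ q b : ℕ, Squarefree q → (q : ℝ) ≤ Real.log Y ^ K' →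
        ∑ n ∈ (Icc 1 (argCount G Y)).filter (fun n => n ≡ b [MOD q]), f n ≤
          D ^ q.primeFactors.card * S / q) →
      ∑ N ∈ Icc 1 Y, |∑ n ∈ (Icc 1 (argCount G Y)).filter (fun n : ℕ => G.eval (n : ℤ) < N),
          f n * (H68T.lp ((N : ℤ) - G.eval (n : ℤ)) - Lam w ((N : ℤ) - G.eval (n : ℤ)))| ≤
        ε * Y * S

end Pool.Agent.Lib.H57M
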