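import Pool.Agent.Lib.H33B.ENG
import Pool.Agent.Lib.H57M.Eng

/-!
# The engine of project H33B in the form used here
-/

open Finset Polynomial

namespace Pool.Agent.Lib.H57M

open Pool.Agent.Lib.H59

theorem EngA_Lam (w : ℕ) (m : ℤ) : Lam w m = H33B.Lw (w + 1) m := by
  have h : H33B.PW (w + 1) = primorial w := rfl
  unfold Lam H33B.Lw H33B.Lq
  rw [h]

/-- The engine holds for every polynomial. -/
theorem engine_all (G : ℤ[X]) (hk : 1 ≤ G.natDegree) (hl : 0 < G.leadingCoeff) : Engine G := by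
  intro C D hC hD
  obtain ⟨K, hK0, hK⟩ := H33B.engine G hk hl ⌈D⌉₊ C
  refine ⟨K, fun ε hε => ?_⟩
  obtain ⟨w0, hw0⟩ := hK ε hε
  refine ⟨w0, fun w hw => ?_⟩
  obtain ⟨Y0, hY0⟩ := hw0 (w + 1) (by omega)
  refine ⟨max Y0 3, fun Y hY f S hf0 hfle hX hcls => ?_⟩
  have hSnn : 0 ≤ S := by
    have h1 := hcls 1 0 squarefree_one ?_
    · have h2 : 0 ≤ ∑ n ∈ (Icc 1 (argCount G Y)).filter (fun n => n ≡ 0 [MOD 1]), f n :=
        Finset.sum_nonneg fun n _ => hf0 n
      have h3 : D ^ (1 : ℕ).primeFactors.card * S / ((1 : ℕ) : ℝ) = S := by simp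
      rw [h3] at h1
      linarith
    · have h3 : (3 : ℝ) ≤ Y := by exact_mod_cast le_trans (le_max_right _ _) hY
      have h4 : 1 ≤ Real.log Y := by
        rw [Real.le_log_iff_exp_le (by linarith)]
        linarith [Real.exp_one_lt_d9]
      simpa using Real.one_le_rpow h4 hK0
  have key : H33B.SieveWt ⌈D⌉₊ C K Y (argCount G Y) S f := by
    refine ⟨fun n _ => hf0 n, fun n _ => hfle n, fun q b hq hqK => ?_, hX⟩
    refine (hcls q b hq hqK).trans ?_
    have h1 : D ≤ (⌈D⌉₊ : ℝ) := Nat.le_ceil D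
    gcongr
  have := hY0 Y (le_trans (le_max_left _ _) hY) f S key
  refine le_trans (le_of_eq ?_) this
  refine Finset.sum_congr rfl fun N _ => ?_
  congr 1

end Pool.Agent.Lib.H57M
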