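import Pool.Agent.Lib.H57M.Defs

/-!
# The local problem: definitions
-/

open Finset Polynomial

namespace Pool.Agent.Lib.H57M

/-- The residues `v` modulo `P` for which all `v + h` and `N - G(v)` are prime to `P`. -/
def aN (H : Finset ℕ) (G : ℤ[X]) (N P : ℕ) : Finset ℕ :=
  (cF H P).filter (fun v => IsCoprime ((N : ℤ) - G.eval (v : ℤ)) (P : ℤ))

/-- The inverse of the local factor at `p`; `0` if there is no good residue. -/
noncomputable def sp (H : Finset ℕ) (G : ℤ[X]) (p N : ℕ) : ℝ :=
  if (aN H G N p).card = 0 then 0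
  else (((p : ℝ) - 1) * (cF H p).card) / ((p : ℝ) * (aN H G N p).card)

end Pool.Agent.Lib.H57M
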