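import Pool.Agent.Lib.H57M.Defs

/-!
# Chunk N1: counting residues
-/

open Finset

namespace Pool.Agent.Lib.H57M

theorem N1_cong {H : Finset ℕ} {P v v' : ℕ} (h : v ≡ v' [MOD P]) :
    (∏ h ∈ H, (v + h)).Coprime P ↔ (∏ h ∈ H, (v' + h)).Coprime P := by
  have h1 : ∏ h ∈ H, (v + h) ≡ ∏ h ∈ H, (v' + h) [MOD P] :=
    Nat.ModEq.prod fun x _ => h.add_right x
  unfold Nat.Coprime
  rw [h1.gcd_eq]

theorem N1_mem {H : Finset ℕ} {P v : ℕ} : v ∈ cF H P ↔ v < P ∧ (∏ h ∈ H, (v + h)).Coprime P := by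
  unfold cF
  rw [mem_filter, mem_range]

/-- The residues modulo `a b` above a given good residue `v0` modulo `a`, `a`, `b` coprime. -/
theorem N1_above (H : Finset ℕ) (a b v0 : ℕ) (hab : a.Coprime b) (ha : a ≠ 0) (hb : b ≠ 0)
    (hv : (∏ h ∈ H, (v0 + h)).Coprime a) :
    ((cF H (a * b)).filter (fun v => v ≡ v0 [MOD a])).card = (cF H b).card := by
  refine Finset.card_bij (fun v _ => v % b) ?_ ?_ ?_
  · intro v hv1
    rw [mem_filter, N1_mem] at hv1
    rw [N1_mem]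
    refine ⟨Nat.mod_lt _ (Nat.pos_of_ne_zero hb), ?_⟩
    rw [N1_cong (Nat.mod_modEq v b)]
    exact (Nat.coprime_mul_iff_right.mp hv1.1.2).2
  · intro v hv1 v' hv2 h
    rw [mem_filter, N1_mem] at hv1 hv2
    have h1 : v ≡ v' [MOD a] := hv1.2.trans hv2.2.symm
    have h2 : v ≡ v' [MOD b] := h
    have h3 : v ≡ v' [MOD a * b] := (Nat.modEq_and_modEq_iff_modEq_mul hab).mp ⟨h1, h2⟩
    exact Nat.ModEq.eq_of_lt_of_lt h3 hv1.1.1 hv2.1.1
  · intro y hy
    rw [N1_mem] at hy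
    obtain ⟨k, hk1, hk2⟩ := Nat.chineseRemainder hab v0 y
    have e1 : k % (a * b) ≡ v0 [MOD a] :=
      ((Nat.mod_modEq k (a * b)).of_dvd (Dvd.intro _ rfl)).trans hk1
    have e2 : k % (a * b) ≡ y [MOD b] :=
      ((Nat.mod_modEq k (a * b)).of_dvd (Dvd.intro_left _ rfl)).trans hk2
    refine ⟨k % (a * b), ?_, ?_⟩
    · rw [mem_filter, N1_mem]
      refine ⟨⟨Nat.mod_lt _ (Nat.pos_of_ne_zero (Nat.mul_ne_zero ha hb)), ?_⟩, e1⟩
      rw [Nat.coprime_mul_iff_right, N1_cong e1, N1_cong e2]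
      exact ⟨hv, hy.2⟩
    · have h3 : k % (a * b) % b = y % b := e2
      show k % (a * b) % b = y
      rw [h3, Nat.mod_eq_of_lt hy.1]

/-- Chinese remainder theorem (`Nat.chineseRemainder`, or `ZMod.chineseRemainder`); the condition
`(∏ (v + h)).Coprime P` only depends on `v` modulo `P`, and for `P = a b` it is the conjunction of the
conditions for `a` and `b`. -/
theorem cF_card_mul (H : Finset ℕ) (a b : ℕ) (hab : a.Coprime b) :
    (cF H (a * b)).card = (cF H a).card * (cF H b).card := by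
  rcases Nat.eq_zero_or_pos a with ha | ha
  · rw [ha, zero_mul]
    have : (cF H 0).card = 0 := by simp [cF]
    rw [this, zero_mul]
  rcases Nat.eq_zero_or_pos b with hb | hb
  · rw [hb, mul_zero]
    have : (cF H 0).card = 0 := by simp [cF]
    rw [this, mul_zero]
  have hmaps : ∀ v ∈ cF H (a * b), v % a ∈ cF H a := by
    intro v hv
    rw [N1_mem] at hv ⊢
    refine ⟨Nat.mod_lt _ ha, ?_⟩
    rw [N1_cong (Nat.mod_modEq v a)]
    exact (Nat.coprime_mul_iff_right.mp hv.2).1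
  rw [Finset.card_eq_sum_card_fiberwise hmaps, Finset.sum_const_nat (m := (cF H b).card)]
  intro x hx
  rw [N1_mem] at hx
  rw [← N1_above H a b x hab ha.ne' hb.ne' hx.2]
  refine congrArg Finset.card (Finset.filter_congr fun v _ => ?_)
  constructor
  · intro h
    show v % a = x % a
    rw [h, Nat.mod_eq_of_lt hx.1]
  · intro h
    have h1 : v % a = x % a := h
    rw [h1, Nat.mod_eq_of_lt hx.1]

/-- The residues modulo `M` above a given good residue `v0` modulo `P`, `P ∣ M`, `M` squarefree: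
with `M = P P'` they correspond to `cF H P'` (Chinese remainder theorem). -/
theorem cF_above (H : Finset ℕ) (P M v0 : ℕ) (hM : Squarefree M) (hP : P ∣ M)
    (hv : (∏ h ∈ H, (v0 + h)).Coprime P) :
    ((cF H M).filter (fun v => v ≡ v0 [MOD P])).card * (cF H P).card = (cF H M).card := by
  obtain ⟨Q, rfl⟩ := hP
  have h1 : P * Q ≠ 0 := hM.ne_zero
  obtain ⟨hc, _, _⟩ := Nat.squarefree_mul_iff.mp hM
  rw [N1_above H P Q v0 hc (left_ne_zero_of_mul h1) (right_ne_zero_of_mul h1) hv,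
    cF_card_mul H P Q hc, mul_comm]

/-- For an admissible `H` there is a good residue modulo every prime. -/
theorem N1_pos (H : Finset ℕ) (hH : Adm H) (p : ℕ) (hp : p.Prime) : 1 ≤ (cF H p).card := by
  obtain ⟨v, hv⟩ := hH p hp
  rw [Nat.one_le_iff_ne_zero, Finset.card_ne_zero]
  refine ⟨v % p, ?_⟩
  rw [N1_mem]
  refine ⟨Nat.mod_lt _ hp.pos, ?_⟩
  rw [N1_cong (Nat.mod_modEq v p)]
  exact ((Nat.Prime.coprime_iff_not_dvd hp).mpr hv).symm

theorem N1_large (H : Finset ℕ) (p : ℕ) (hp : p.Prime) : p ≤ (cF H p).card + H.card := by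
  have h1 : (range p).filter (fun v => ¬ (∏ h ∈ H, (v + h)).Coprime p) ⊆
      H.image (fun h => (p - h % p) % p) := by
    intro v hv
    rw [mem_filter, mem_range] at hv
    obtain ⟨hv1, hv2⟩ := hv
    have h2 : p ∣ ∏ h ∈ H, (v + h) := by
      by_contra hcon
      exact hv2 ((Nat.Prime.coprime_iff_not_dvd hp).mpr hcon).symm
    obtain ⟨h, hh, h3⟩ := (Prime.dvd_finsetProd_iff hp.prime _).mp h2
    rw [mem_image]
    refine ⟨h, hh, ?_⟩
    have h4 : h % p < p := Nat.mod_lt _ hp.pos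
    have h5 : p ∣ v + h % p := by
      rw [Nat.dvd_iff_mod_eq_zero] at h3 ⊢
      rw [Nat.add_mod, Nat.mod_mod, ← Nat.add_mod]; exact h3
    obtain ⟨k, hk⟩ := h5
    have hk2 : k < 2 := by
      by_contra hcon
      have : p * 2 ≤ p * k := Nat.mul_le_mul_left p (by omega)
      omega
    interval_cases k
    · have : v = 0 ∧ h % p = 0 := by omega
      rw [this.2, this.1, Nat.sub_zero, Nat.mod_self]
    · have : p - h % p = v := by omega
      rw [this, Nat.mod_eq_of_lt hv1]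
  have h2 := (Finset.card_le_card h1).trans Finset.card_image_le
  have h3 := Finset.card_filter_add_card_filter_not (s := range p)
    (fun v => (∏ h ∈ H, (v + h)).Coprime p)
  rw [card_range] at h3
  unfold cF
  omega

/-- For a prime `p` and admissible `H`, `p ≤ (|H| + 1) #(cF H p)`: `#(cF H p) ≥ 1`, and
`#(cF H p) ≥ p - |H|` (at most one residue is excluded by each `h`). For `p ≤ |H| + 1` clear, for
`p > |H| + 1`: `(|H| + 1)(p - |H|) ≥ p`. -/
theorem cF_prime (H : Finset ℕ) (hH : Adm H) (p : ℕ) (hp : p.Prime) :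
    p ≤ (H.card + 1) * (cF H p).card := by
  have h1 := N1_pos H hH p hp
  have h2 := N1_large H p hp
  rcases le_or_gt p (H.card + 1) with h3 | h3
  · calc p ≤ (H.card + 1) * 1 := by omega
      _ ≤ _ := Nat.mul_le_mul_left _ h1
  · nlinarith

theorem N1_prod (H : Finset ℕ) (q : ℕ) (hq : Squarefree q) :
    (cF H q).card = ∏ p ∈ q.primeFactors, (cF H p).card := by
  induction q using Nat.recOnPosPrimePosCoprime with
  | prime_pow p n hp hn =>
    have h1 : n = 1 := by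
      by_contra hcon
      have h2 : 2 ≤ n := by omega
      have h3 : p * p ∣ p ^ n := by
        rw [← pow_two]; exact pow_dvd_pow p h2
      exact hp.not_isUnit (hq p h3)
    rw [h1, pow_one, hp.primeFactors, prod_singleton]
  | zero => exact absurd hq not_squarefree_zero
  | one =>
    rw [Nat.primeFactors_one, prod_empty]
    have : cF H 1 = {0} := by
      ext v
      rw [N1_mem, mem_singleton]
      constructor
      · intro h; omega
      · rintro rfl; exact ⟨by norm_num, Nat.coprime_one_right _⟩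
    rw [this, card_singleton]
  | coprime a b ha hb hab iha ihb =>
    obtain ⟨_, h1, h2⟩ := Nat.squarefree_mul_iff.mp hq
    rw [cF_card_mul H a b hab, iha h1, ihb h2, hab.primeFactors_mul,
      prod_union hab.disjoint_primeFactors]

/-- `cF_prime` for all `p ∣ q` and `cF_card_mul`. -/
theorem cF_sqf (H : Finset ℕ) (hH : Adm H) (q : ℕ) (hq : Squarefree q) :
    (q : ℝ) ≤ ((H.card : ℝ) + 1) ^ q.primeFactors.card * (cF H q).card := by
  have h1 : q ≤ (H.card + 1) ^ q.primeFactors.card * (cF H q).card := by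
    rw [N1_prod H q hq, ← Finset.prod_const, ← Finset.prod_mul_distrib]
    calc q = ∏ p ∈ q.primeFactors, p := (Nat.prod_primeFactors_of_squarefree hq).symm
      _ ≤ _ := Finset.prod_le_prod (fun _ _ => Nat.zero_le _)
        fun p hp => cF_prime H hH p (Nat.prime_of_mem_primeFactors hp)
  exact_mod_cast h1

/-- The good residues modulo `M` in a class modulo `q ∣ M`: either none of them, or (`cF_above`)
`#(cF H M)/#(cF H q)`, and `cF_sqf`. -/
theorem cF_class (H : Finset ℕ) (hH : Adm H) (q M v0 : ℕ) (hM : Squarefree M) (hq : q ∣ M) :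
    (((cF H M).filter (fun v => v ≡ v0 [MOD q])).card : ℝ) ≤
      ((H.card : ℝ) + 1) ^ q.primeFactors.card * (cF H M).card / q := by
  have hq0 : 0 < q := Nat.pos_of_dvd_of_pos hq (Nat.pos_of_ne_zero hM.ne_zero)
  have hqR : (0 : ℝ) < q := by exact_mod_cast hq0
  by_cases hv : (∏ h ∈ H, (v0 + h)).Coprime q
  · have h1 := cF_above H q M v0 hM hq hv
    have h2 := cF_sqf H hH q (hM.squarefree_of_dvd hq)
    rw [le_div_iff₀ hqR, ← h1]
    push_cast
    have h3 : (0 : ℝ) ≤ (((cF H M).filter (fun v => v ≡ v0 [MOD q])).card : ℝ) := Nat.cast_nonneg _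
    nlinarith [mul_le_mul_of_nonneg_left h2 h3]
  · have h1 : (cF H M).filter (fun v => v ≡ v0 [MOD q]) = ∅ := by
      rw [Finset.filter_eq_empty_iff]
      intro v hv1 hv2
      rw [N1_mem] at hv1
      exact hv ((N1_cong hv2).mp (Nat.Coprime.coprime_dvd_right hq hv1.2))
    rw [h1, card_empty, Nat.cast_zero]
    positivity

/-- one prime -/
theorem N1_dens_prime (H : Finset ℕ) (hH : Adm H) (p : ℕ) (hp : p.Prime) :
    (p : ℝ) ≤ (cF H p).card * ((p : ℝ) / ((p : ℝ) - 1)) ^ ((H.card + 1) ^ 2) := by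
  have h1 := N1_pos H hH p hp
  have h2 := N1_large H p hp
  have hp2 : (2 : ℝ) ≤ p := by exact_mod_cast hp.two_le
  have hp1 : (0 : ℝ) < (p : ℝ) - 1 := by linarith
  have h3 : 1 + (((H.card + 1) ^ 2 : ℕ) : ℝ) * (1 / ((p : ℝ) - 1)) ≤
      ((p : ℝ) / ((p : ℝ) - 1)) ^ ((H.card + 1) ^ 2) := by
    have h4 : (p : ℝ) / ((p : ℝ) - 1) = 1 + 1 / ((p : ℝ) - 1) := by
      field_simp
      ring
    rw [h4]
    refine one_add_mul_le_pow ?_ _
    have : 0 ≤ 1 / ((p : ℝ) - 1) := by positivity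
    linarith
  have hK : (0 : ℝ) ≤ (H.card : ℝ) := Nat.cast_nonneg _
  refine le_trans ?_ (mul_le_mul_of_nonneg_left h3 (Nat.cast_nonneg _))
  push_cast
  set K : ℝ := (H.card : ℝ) with hKdef
  have h1' : (1 : ℝ) ≤ ((cF H p).card : ℝ) := by exact_mod_cast h1
  have h2' : (p : ℝ) ≤ ((cF H p).card : ℝ) + K := by rw [hKdef]; exact_mod_cast h2
  have e1 : (1 + (K + 1) ^ 2 * (1 / ((p : ℝ) - 1))) = ((p : ℝ) - 1 + (K + 1) ^ 2) / ((p : ℝ) - 1) := by
    field_simp
  rw [e1, mul_div_assoc', le_div_iff₀ hp1]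
  rcases le_or_gt p (H.card + 1) with h5 | h5
  · have h5' : (p : ℝ) ≤ K + 1 := by rw [hKdef]; exact_mod_cast h5
    have h6 : (p : ℝ) * ((p : ℝ) - 1) ≤ 1 * ((p : ℝ) - 1 + (K + 1) ^ 2) := by nlinarith
    refine h6.trans (mul_le_mul_of_nonneg_right h1' ?_)
    positivity
  · have h5' : K + 2 ≤ (p : ℝ) := by
      rw [hKdef]; exact_mod_cast h5
    have h6 : (p : ℝ) * ((p : ℝ) - 1) ≤ ((p : ℝ) - K) * ((p : ℝ) - 1 + (K + 1) ^ 2) := by
      nlinarith [mul_nonneg (sub_nonneg.mpr h5') (show (0 : ℝ) ≤ (K + 1) ^ 2 - K by nlinarith)]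
    refine h6.trans (mul_le_mul_of_nonneg_right (by linarith) ?_)
    positivity

theorem N1_tele (y : ℕ) (hy : 1 ≤ y) : ∏ m ∈ Icc 2 y, ((m : ℝ) / ((m : ℝ) - 1)) = y := by
  induction y, hy using Nat.le_induction with
  | base => simp
  | succ n hn ih =>
    rw [Finset.prod_Icc_succ_top (by omega), ih]
    have : (n : ℝ) ≠ 0 := by
      have : (1 : ℝ) ≤ n := by exact_mod_cast hn
      linarith
    push_cast
    rw [add_sub_cancel_right]
    field_simp

/-- Lower bound for the density, for a squarefree `M` all of whose prime factors are `≤ y`: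
for every prime `p ∣ M`: `#(cF H p)/p ≥ (1 - 1/p)^(K1)`, `K1 = (|H| + 1)^2`. (For `p ≤ |H| + 1`:
`(1 - 1/p)^K1 ≤ e^(-K1/p) ≤ e^(-(|H|+1)) ≤ 1/(|H|+1) ≤ 1/p`. For `p ≥ |H| + 2`:
`1 - |H|/p ≥ exp (-|H|/(p - |H|)) ≥ exp (-K1/p) ≥ (1 - 1/p)^K1`, as `K1 (p - |H|) ≥ |H| p`.) And
`∏_{p ∣ M} (1 - 1/p) ≥ ∏_{2 ≤ m ≤ y} (1 - 1/m) = 1/y`. -/
theorem cF_density (H : Finset ℕ) (hH : Adm H) (y M : ℕ) (hy : 2 ≤ y) (hM : Squarefree M)
    (hMy : ∀ p : ℕ, p.Prime → p ∣ M → p ≤ y) :
    (M : ℝ) ≤ (cF H M).card * (y : ℝ) ^ ((H.card + 1) ^ 2) := by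
  have hge : ∀ m : ℕ, 2 ≤ m → (1 : ℝ) ≤ (m : ℝ) / ((m : ℝ) - 1) := by
    intro m hm
    have h1 : (2 : ℝ) ≤ m := by exact_mod_cast hm
    rw [le_div_iff₀ (by linarith)]
    linarith
  have h1 : (M : ℝ) = ∏ p ∈ M.primeFactors, (p : ℝ) := by
    rw [← Nat.cast_prod, Nat.prod_primeFactors_of_squarefree hM]
  have h2 : ∏ p ∈ M.primeFactors, (p : ℝ) ≤
      ∏ p ∈ M.primeFactors, (((cF H p).card : ℝ) * ((p : ℝ) / ((p : ℝ) - 1)) ^ ((H.card + 1) ^ 2)) :=
    Finset.prod_le_prod (fun _ _ => Nat.cast_nonneg _)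
      fun p hp => N1_dens_prime H hH p (Nat.prime_of_mem_primeFactors hp)
  have h2' : ∏ p ∈ M.primeFactors, ((cF H p).card : ℝ) = ((cF H M).card : ℝ) := by
    rw [N1_prod H M hM, Nat.cast_prod]
  rw [Finset.prod_mul_distrib, Finset.prod_pow, h2'] at h2
  rw [h1]
  refine h2.trans (mul_le_mul_of_nonneg_left ?_ (Nat.cast_nonneg _))
  have hsub : M.primeFactors ⊆ Icc 2 y := by
    intro p hp
    rw [mem_Icc]
    exact ⟨(Nat.prime_of_mem_primeFactors hp).two_le,
      hMy p (Nat.prime_of_mem_primeFactors hp) (Nat.dvd_of_mem_primeFactors hp)⟩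
  have h3 : ∏ p ∈ M.primeFactors, ((p : ℝ) / ((p : ℝ) - 1)) ≤ y := by
    rw [← N1_tele y (by omega), ← Finset.prod_sdiff hsub]
    have h4 : (1 : ℝ) ≤ ∏ m ∈ Icc 2 y \ M.primeFactors, ((m : ℝ) / ((m : ℝ) - 1)) := by
      calc (1 : ℝ) = ∏ m ∈ Icc 2 y \ M.primeFactors, (1 : ℝ) := by rw [Finset.prod_const_one]
        _ ≤ _ := Finset.prod_le_prod (fun _ _ => zero_le_one) fun m hm => by
          rw [mem_sdiff, mem_Icc] at hm
          exact hge m hm.1.1
    have h5 : (0 : ℝ) ≤ ∏ p ∈ M.primeFactors, ((p : ℝ) / ((p : ℝ) - 1)) :=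
      Finset.prod_nonneg fun p hp => by
        have := hge p (Nat.prime_of_mem_primeFactors hp).two_le
        linarith
    nlinarith
  refine pow_le_pow_left₀ ?_ h3 _
  exact Finset.prod_nonneg fun p hp => by
    have := hge p (Nat.prime_of_mem_primeFactors hp).two_le
    linarith

end Pool.Agent.Lib.H57M
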