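import Pool.Agent.Lib.H57M.Sc
import Pool.Agent.Lib.H57M.B8
import Pool.Agent.Lib.H92G.E5

/-!
# Chunk N2: lower bound for the weight in the good residue classes modulo `M`
-/

open Finset

namespace Pool.Agent.Lib.H57M

open Pool.Agent.Lib.H15P Pool.Agent.Lib.H92G

/-- a sum over a progression in an interval -/
theorem N2_sub (X M v : ℕ) (hM : 0 < M) (hv : v < M) (F : ℕ → ℝ) (hF : ∀ n, 0 ≤ F n) :
    ∑ n ∈ (Icc 1 (60 * X)).filter (fun n => n ≡ v [MOD M]), F n ≤
      ∑ t ∈ range (60 * X / M + 1), F (v + M * t) := by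
  classical
  have h1 : ∑ t ∈ range (60 * X / M + 1), F (v + M * t) =
      ∑ m ∈ (range (60 * X / M + 1)).image (fun t => v + M * t), F m := by
    rw [sum_image]
    intro t _ t' _ h
    have : M * t = M * t' := by simpa using h
    exact Nat.eq_of_mul_eq_mul_left hM this
  rw [h1]
  refine sum_le_sum_of_subset_of_nonneg ?_ (fun m _ _ => hF m)
  intro n hn
  rw [mem_filter, mem_Icc] at hn
  rw [mem_image]
  have h2 : n % M = v := by
    have h3 : n % M = v % M := hn.2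
    rw [h3, Nat.mod_eq_of_lt hv]
  refine ⟨n / M, ?_, ?_⟩
  · rw [mem_range]
    have := Nat.div_le_div_right (c := M) hn.1.2
    omega
  · rw [← h2]
    exact Nat.mod_add_div n M

theorem N2_nu_nonneg {K : ℕ} (w : Par K) (H : Finset ℕ) (n : ℕ) : 0 ≤ w.nu H n := by
  have h1 := w.z_bounds.1
  unfold Par.nu
  positivity

theorem N2_prime {K : ℕ} (w : Par K) (H : Finset ℕ) (M X g : ℕ) (hS : Sc w H M X g) (v : ℕ)
    (h0 : ℕ) (hh0 : h0 ∈ H) :
    ∑ t ∈ range (60 * X / M + 1), w.nu H (v + M * t) * lpv X (v + h0 + M * t) ≤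
      (8 * Real.log (60 * X) / X) * ∑ n ∈ (Icc 1 (60 * X)).filter (fun n => n ≡ v [MOD M]),
        w.nu H n * (if (n + h0).Prime then 1 else 0) := by
  classical
  have hM := hS.M0
  have hX := hS.X0
  have h1 : ∑ t ∈ range (60 * X / M + 1), w.nu H (v + M * t) * lpv X (v + h0 + M * t) =
      ∑ m ∈ (range (60 * X / M + 1)).image (fun t => v + M * t),
        w.nu H m * lpv X (m + h0) := by
    rw [sum_image]
    · refine sum_congr rfl fun t _ => ?_
      have : v + h0 + M * t = v + M * t + h0 := by ring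
      rw [this]
    · intro t _ t' _ h
      have : M * t = M * t' := by simpa using h
      exact Nat.eq_of_mul_eq_mul_left hM this
  rw [h1, ← sum_filter_ne_zero, mul_sum]
  have hlpv := fun m => lpv_nonneg X m
  have hsub : ((range (60 * X / M + 1)).image (fun t => v + M * t)).filter
      (fun m => w.nu H m * lpv X (m + h0) ≠ 0) ⊆
      (Icc 1 (60 * X)).filter (fun n => n ≡ v [MOD M]) := by
    intro m hm
    rw [mem_filter, mem_image] at hm
    obtain ⟨⟨t, -, rfl⟩, hne⟩ := hm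
    obtain ⟨-, h2, h3⟩ := e5_lpv_ne X _ hX (right_ne_zero_of_mul hne)
    have h4 := hS.HX h0 hh0
    rw [mem_filter, mem_Icc]
    have h5 : M ≤ v + M * t := by
      have h6 : (8 * (M + h0) : ℝ) ≤ X := by exact_mod_cast h4
      have h7 : (X : ℝ) ≤ 8 * (v + M * t + h0 : ℕ) := by linarith
      have h8 : X ≤ 8 * (v + M * t + h0) := by exact_mod_cast h7
      omega
    refine ⟨⟨by omega, by omega⟩, ?_⟩
    show (v + M * t) % M = v % M
    rw [Nat.add_mul_mod_self_left]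
  refine (sum_le_sum_of_subset_of_nonneg hsub (fun m _ _ =>
    mul_nonneg (N2_nu_nonneg w H m) (hlpv _))).trans ?_
  refine sum_le_sum fun m _ => ?_
  have h2 := mul_le_mul_of_nonneg_left (lpv_le X (m + h0) hX) (N2_nu_nonneg w H m)
  refine h2.trans (le_of_eq ?_)
  ring

theorem N2_npr (H : Finset ℕ) (n : ℕ) :
    (npr H n : ℝ) = ∑ h ∈ H, (if (n + h).Prime then 1 else 0) := by
  unfold npr
  rw [Finset.card_filter]
  push_cast
  rfl

/-- the four estimates, in terms of `x = X/M` -/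
theorem N2_all {K : ℕ} (w : Par K) (H : Finset ℕ) (M X g : ℕ) (hS : Sc w H M X g) (v : ℕ)
    (hv : v ∈ cF H M) :
    700 * g * ((X : ℝ) / M) ≤ ∑ n ∈ (Icc 1 (60 * X)).filter (fun n => n ≡ v [MOD M]),
        w.nu H n * npr H n ∧
    ∑ n ∈ (Icc 1 (60 * X)).filter (fun n => n ≡ v [MOD M]), w.nu H n ≤ 70 * ((X : ℝ) / M) ∧
    K * ∑ n ∈ (Icc 1 (60 * X)).filter (fun n => n ≡ v [MOD M]), w.nu H n ^ 2 ≤
      62 * (2 * K * (((w.n : ℝ) + 1) ^ 4 * (1 + w.h)) ^ K) * ((X : ℝ) / M) := by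
  classical
  have hM := hS.M0
  have hX := hS.X0
  have hMR : (0 : ℝ) < M := by exact_mod_cast hM
  have hXR : (0 : ℝ) < X := by exact_mod_cast hX
  have hX1 : (1 : ℝ) ≤ X := by exact_mod_cast hX
  have hK1 : (1 : ℝ) ≤ K := by exact_mod_cast w.Kpos
  have hz1 := w.z_bounds.1
  have hzK : (1 : ℝ) ≤ w.z ^ K := one_le_pow₀ hz1
  have hzK0 : (0 : ℝ) < w.z ^ K := by linarith
  have hvM : v < M := by
    unfold cF at hv
    rw [mem_filter, mem_range] at hv
    exact hv.1
  have hlv1 := w.lv1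
  have hlv4 : (1 : ℝ) ≤ w.lv ^ 4 := one_le_pow₀ hlv1
  have hlv24 : w.lv ^ 2 ≤ w.lv ^ 4 := pow_le_pow_right₀ hlv1 (by norm_num)
  set x : ℝ := (X : ℝ) / M with hx
  have hx0 : 0 < x := div_pos hXR hMR
  -- the level
  have hexp : (1 : ℝ) ≤ Real.exp (2 * Real.sqrt (Real.log X)) := by
    apply Real.one_le_exp
    positivity
  have hlong : 100 * K * w.lv ^ 4 ≤ x := by
    rw [hx, le_div_iff₀ hMR]
    refine le_trans ?_ hS.long
    have h1 : (0 : ℝ) ≤ 100 * K * w.lv ^ 4 * M := by positivity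
    nlinarith
  have hlv4x : 100 * w.lv ^ 4 ≤ x := by
    have : 100 * w.lv ^ 4 ≤ 100 * K * w.lv ^ 4 := by nlinarith
    linarith
  have hx100 : 100 ≤ x := by linarith
  -- the length
  have hY : ((60 * X / M + 1 : ℕ) : ℝ) ≤ 61 * x := by
    have h1 : ((60 * X / M : ℕ) : ℝ) ≤ ((60 * X : ℕ) : ℝ) / M := Nat.cast_div_le
    push_cast at h1 ⊢
    have h2 : 60 * (X : ℝ) / M = 60 * x := by rw [hx]; ring
    rw [h2] at h1
    linarith
  have hforms := hS.forms v
  have hcard := hS.card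
  have hKW : 200 * K ^ 2 ≤ w.W := by
    have := hS.KW
    omega
  have hnu : ∀ t, w.nu H (v + M * t) =
      w.L (fun h : {h // h ∈ H} => hit w.P (v + h.1 + M * t)) ^ 2 / w.z ^ K := fun t =>
    nu_eq w H M v t
  refine ⟨?_, ?_, ?_⟩
  · -- (i)
    have hlg : 0 < Real.log (60 * X) := Real.log_pos (by linarith)
    have hphi : (0 : ℝ) < M.totient := by exact_mod_cast Nat.totient_pos.2 hM
    set lg := Real.log (60 * X) with hlgdef
    set R : ℝ := (1 + w.n * w.c) ^ 2 with hR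
    have h1 : ∀ h0 ∈ H, R / (16 * (M.totient : ℝ)) ≤
        (8 * lg / X) * ∑ n ∈ (Icc 1 (60 * X)).filter (fun n => n ≡ v [MOD M]),
        w.nu H n * (if (n + h0).Prime then 1 else 0) := by
      intro h0 hh0
      refine le_trans ?_ (N2_prime w H M X g hS v h0 hh0)
      have h2 := hS.prime v hv h0 hh0
      have h3 : ∑ t ∈ range (60 * X / M + 1), w.nu H (v + M * t) * lpv X (v + h0 + M * t) =
          (∑ t ∈ range (60 * X / M + 1),
            w.L (fun h : {h // h ∈ H} => hit w.P (v + h.1 + M * t)) ^ 2 *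
              lpv X (v + h0 + M * t)) / w.z ^ K := by
        rw [sum_div]
        refine sum_congr rfl fun t _ => ?_
        rw [hnu]
        ring
      rw [h3, le_div_iff₀ hzK0]
      refine le_trans (le_of_eq ?_) h2
      ring
    have h2 : K * (R / (16 * (M.totient : ℝ))) ≤
        (8 * lg / X) * ∑ n ∈ (Icc 1 (60 * X)).filter (fun n => n ≡ v [MOD M]),
          w.nu H n * npr H n := by
      have h3 : ∑ h0 ∈ H, R / (16 * (M.totient : ℝ)) ≤ ∑ h0 ∈ H,
          (8 * lg / X) * ∑ n ∈ (Icc 1 (60 * X)).filter (fun n => n ≡ v [MOD M]),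
          w.nu H n * (if (n + h0).Prime then 1 else 0) := sum_le_sum h1
      rw [sum_const, hS.cardH, nsmul_eq_mul, ← mul_sum, sum_comm] at h3
      refine h3.trans (le_of_eq ?_)
      congr 1
      refine sum_congr rfl fun n _ => ?_
      rw [N2_npr, mul_sum]
    set Q : ℝ := ∑ n ∈ (Icc 1 (60 * X)).filter (fun n => n ≡ v [MOD M]),
          w.nu H n * npr H n with hQ
    have h3 := hS.gain
    rw [← hR, ← hlgdef] at h3
    have h4 : K * R ≤ 128 * M.totient * lg * Q / X := by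
      have h5 : K * (R / (16 * (M.totient : ℝ))) = K * R / (16 * M.totient) := by ring
      rw [h5, div_le_iff₀ (by positivity)] at h2
      refine h2.trans (le_of_eq ?_)
      ring
    have h5 : 10 ^ 5 * g * lg * M.totient ≤ 128 * M.totient * lg * Q / X * M :=
      h3.trans (mul_le_mul_of_nonneg_right h4 hMR.le)
    have h6 : 128 * M.totient * lg * Q / X * M = (lg * M.totient) * (128 * Q / x) := by
      rw [hx]
      field_simp
    have h7 : (lg * M.totient) * (10 ^ 5 * g) ≤ (lg * M.totient) * (128 * Q / x) := by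
      rw [← h6]
      refine le_trans (le_of_eq ?_) h5
      ring
    have h8 := le_of_mul_le_mul_left h7 (mul_pos hlg hphi)
    rw [le_div_iff₀ hx0] at h8
    have h9 : (0 : ℝ) ≤ g * x := by positivity
    linarith
  · -- (ii)
    have h1 := w.mean_le hcard M _ hforms hKW (60 * X / M + 1)
    refine (N2_sub X M v hM hvM _ (N2_nu_nonneg w H)).trans ?_
    have h2 : ∑ t ∈ range (60 * X / M + 1), w.nu H (v + M * t) =
        (∑ t ∈ range (60 * X / M + 1),
          w.L (fun h : {h // h ∈ H} => hit w.P (v + h.1 + M * t)) ^ 2) / w.z ^ K := by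
      rw [sum_div]
      exact sum_congr rfl fun t _ => hnu t
    rw [h2, div_le_iff₀ hzK0]
    refine h1.trans ?_
    have h3 : 11 / 10 * w.z ^ K * ((60 * X / M + 1 : ℕ) : ℝ) ≤ 11 / 10 * w.z ^ K * (61 * x) :=
      mul_le_mul_of_nonneg_left hY (by positivity)
    have h4 : 2 * w.lv ^ 2 ≤ x := by linarith
    have h5 : x ≤ w.z ^ K * x := by nlinarith
    nlinarith
  · -- (iv)
    have h1 := w.four_le hcard M _ hforms hKW (60 * X / M + 1)
    have h2 : ∑ n ∈ (Icc 1 (60 * X)).filter (fun n => n ≡ v [MOD M]), w.nu H n ^ 2 ≤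
        ∑ t ∈ range (60 * X / M + 1),
          w.L (fun h : {h // h ∈ H} => hit w.P (v + h.1 + M * t)) ^ 4 := by
      refine (N2_sub X M v hM hvM (fun n => w.nu H n ^ 2) (fun n => sq_nonneg _)).trans ?_
      refine sum_le_sum fun t _ => ?_
      rw [hnu, div_pow, ← pow_mul]
      apply div_le_self
      · exact Even.pow_nonneg (by decide) _
      · exact one_le_pow₀ hzK
    set E : ℝ := (((w.n : ℝ) + 1) ^ 4 * (1 + w.h)) ^ K with hE
    have hE1 : 1 ≤ E := by
      apply one_le_pow₀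
      have h3 : (1 : ℝ) ≤ ((w.n : ℝ) + 1) ^ 4 := by
        apply one_le_pow₀
        have : (0 : ℝ) ≤ w.n := Nat.cast_nonneg _
        linarith
      have h4 := w.h0
      nlinarith
    have hE0 : 0 < E := by linarith
    have h3 : 2 * E * ((60 * X / M + 1 : ℕ) : ℝ) ≤ 2 * E * (61 * x) :=
      mul_le_mul_of_nonneg_left hY (by positivity)
    have h4 : ∑ n ∈ (Icc 1 (60 * X)).filter (fun n => n ≡ v [MOD M]), w.nu H n ^ 2 ≤
        124 * E * x := by
      refine h2.trans (h1.trans ?_)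
      have h5 : 2 * w.lv ^ 4 ≤ x := by linarith
      have h6 : x ≤ E * x := by nlinarith
      linarith
    calc _ ≤ (K : ℝ) * (124 * E * x) := mul_le_mul_of_nonneg_left h4 (by positivity)
      _ = _ := by ring

/-- `Y0 = 60 X/M + 1` (`≤ 61 X/M`), `n = v + M t`, `t < Y0`; `nu_eq`; `lg = log (60 X) ≥ 1`.
(i) For `h0 ∈ H`: `lpv X (n + h0) ≤ 1[n + h0 prime] 8 lg/X` (`lpv_le`), and `lpv X (n + h0) ≠ 0` implies
`X/8 ≤ n + h0 ≤ 60 X` (`v_supp`), so `1 ≤ n ≤ 60 X` (`HX`, `M ≥ 1`). By `Sc.prime` (divided by `z^K`):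
`∑_{1 ≤ n ≤ 60 X, n ≡ v} nu(n) 1[n + h0 prime] ≥ X (1 + n c)^2/(128 lg φ(M))`; sum over `h0 ∈ H` and `gain`:
`∑ nu(n) npr(n) ≥ (10^5/128) g X/M ≥ 700 g X/M`.
(ii) `∑_{t < Y0} nu ≤ (11/10) Y0 + 2 lv^2 ≤ 70 X/M` (`Par.mean_le`, `z ≥ 1`, `long`).
(iii) `npr ≤ (g - 1) + K 1[g ≤ npr]`, so `K ∑ nu 1[g ≤ npr] ≥ 700 g X/M - (g - 1) 70 X/M ≥ 600 X/M`.
(iv) `∑ nu 1[nu > T0] ≤ ∑ nu^2/T0 ≤ (2 ((n+1)^4 (1+h))^K Y0 + 2 lv^4)/T0 ≤ 130 X/(2 K M)`
(`Par.four_le`, `hT0`, `long`).
(v) `∏ (n + h)` is prime to `M` as `∏ (v + h)` is (`n ≡ v mod M`). -/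
theorem wf_lower {K : ℕ} (w : Par K) (H : Finset ℕ) (M X g : ℕ) (hS : Sc w H M X g) (T0 : ℝ)
    (hT0 : 2 * K * (((w.n : ℝ) + 1) ^ 4 * (1 + w.h)) ^ K ≤ T0) (v : ℕ) (hv : v ∈ cF H M) :
    (X : ℝ) ≤ K * M * ∑ n ∈ (Icc 1 (60 * X)).filter (fun n => n ≡ v [MOD M]),
      wf w H M X g T0 n := by
  classical
  obtain ⟨h1, h2, h3⟩ := N2_all w H M X g hS v hv
  have hM := hS.M0
  have hX := hS.X0
  have hMR : (0 : ℝ) < M := by exact_mod_cast hM
  have hXR : (0 : ℝ) < X := by exact_mod_cast hX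
  have hK1 : (1 : ℝ) ≤ K := by exact_mod_cast w.Kpos
  have hg1 : (1 : ℝ) ≤ g := by exact_mod_cast hS.g1
  have hvc : (∏ h ∈ H, (v + h)).Coprime M := by
    unfold cF at hv
    rw [mem_filter] at hv
    exact hv.2
  have hE1 : 1 ≤ (((w.n : ℝ) + 1) ^ 4 * (1 + w.h)) ^ K := by
    apply one_le_pow₀
    have h3 : (1 : ℝ) ≤ ((w.n : ℝ) + 1) ^ 4 := by
      apply one_le_pow₀
      have : (0 : ℝ) ≤ w.n := Nat.cast_nonneg _
      linarith
    have h4 := w.h0
    nlinarith
  set x : ℝ := (X : ℝ) / M with hx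
  have hx0 : 0 < x := div_pos hXR hMR
  set E : ℝ := (((w.n : ℝ) + 1) ^ 4 * (1 + w.h)) ^ K with hE
  have hE0 : 0 < E := by linarith
  have hK0 : (0 : ℝ) < K := by linarith
  have hT00 : 0 < T0 := by
    have : 0 < 2 * K * E := by positivity
    linarith
  set A := (Icc 1 (60 * X)).filter (fun n => n ≡ v [MOD M]) with hA
  have hnn := N2_nu_nonneg w H
  -- pointwise
  have hpt : ∀ n ∈ A, w.nu H n * npr H n ≤ ((g : ℝ) - 1) * w.nu H n +
      K * (wf w H M X g T0 n + w.nu H n ^ 2 / T0) := by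
    intro n hn
    rw [hA, mem_filter, mem_Icc] at hn
    have hnc : (∏ h ∈ H, (n + h)).Coprime M := by
      have h4 : ∏ h ∈ H, (n + h) ≡ ∏ h ∈ H, (v + h) [MOD M] :=
        Nat.ModEq.prod fun y _ => hn.2.add_right y
      unfold Nat.Coprime
      rw [h4.gcd_eq]
      exact hvc
    have hnK : (npr H n : ℝ) ≤ K := by
      have h4 : npr H n ≤ K := by
        rw [← hS.cardH]
        exact card_filter_le _ _
      exact_mod_cast h4
    have hsq : 0 ≤ w.nu H n ^ 2 / T0 := by positivity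
    have hwf0 : 0 ≤ wf w H M X g T0 n := by
      unfold wf
      split_ifs
      · exact hnn n
      · exact le_rfl
    have h0 := hnn n
    by_cases hgn : g ≤ npr H n
    · by_cases hT : w.nu H n ≤ T0
      · have h4 : wf w H M X g T0 n = w.nu H n := if_pos ⟨hn.1.2, hnc, hgn, hT⟩
        rw [h4]
        have h5 : w.nu H n * npr H n ≤ w.nu H n * K := mul_le_mul_of_nonneg_left hnK h0
        have h6 : 0 ≤ ((g : ℝ) - 1) * w.nu H n := mul_nonneg (by linarith) h0
        have h7 : 0 ≤ (K : ℝ) * (w.nu H n ^ 2 / T0) := by positivity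
        linarith
      · have h4 : w.nu H n ≤ w.nu H n ^ 2 / T0 := by
          rw [le_div_iff₀ hT00]
          nlinarith
        have h5 : w.nu H n * npr H n ≤ w.nu H n * K := mul_le_mul_of_nonneg_left hnK h0
        have h6 : 0 ≤ ((g : ℝ) - 1) * w.nu H n := mul_nonneg (by linarith) h0
        have h7 : (K : ℝ) * w.nu H n ≤ K * (w.nu H n ^ 2 / T0) :=
          mul_le_mul_of_nonneg_left h4 (by positivity)
        have h8 : 0 ≤ (K : ℝ) * wf w H M X g T0 n := by positivity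
        linarith
    · have h4 : (npr H n : ℝ) ≤ (g : ℝ) - 1 := by
        have h5 : npr H n + 1 ≤ g := by omega
        have h6 : ((npr H n + 1 : ℕ) : ℝ) ≤ g := by exact_mod_cast h5
        push_cast at h6
        linarith
      have h5 : w.nu H n * npr H n ≤ w.nu H n * ((g : ℝ) - 1) := mul_le_mul_of_nonneg_left h4 h0
      have h6 : 0 ≤ (K : ℝ) * (wf w H M X g T0 n + w.nu H n ^ 2 / T0) := by positivity
      linarith
  have hsum := sum_le_sum hpt
  rw [sum_add_distrib, ← mul_sum, ← mul_sum, sum_add_distrib, ← sum_div] at hsum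
  have h4 : K * ((∑ n ∈ A, w.nu H n ^ 2) / T0) ≤ 62 * x := by
    have h5 : K * ((∑ n ∈ A, w.nu H n ^ 2) / T0) = (K * ∑ n ∈ A, w.nu H n ^ 2) / T0 := by ring
    rw [h5, div_le_iff₀ hT00]
    refine h3.trans ?_
    have h6 : 62 * (2 * K * E) * x ≤ 62 * T0 * x := by
      apply mul_le_mul_of_nonneg_right _ hx0.le
      linarith
    linarith
  have h5 : ((g : ℝ) - 1) * ∑ n ∈ A, w.nu H n ≤ ((g : ℝ) - 1) * (70 * x) :=
    mul_le_mul_of_nonneg_left h2 (by linarith)
  have h6 : x ≤ K * ∑ n ∈ A, wf w H M X g T0 n := by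
    have h7 : x ≤ g * x := by nlinarith
    nlinarith
  have h7 : (X : ℝ) = M * x := by
    rw [hx]
    field_simp
  rw [h7]
  calc M * x ≤ M * (K * ∑ n ∈ A, wf w H M X g T0 n) := mul_le_mul_of_nonneg_left h6 hMR.le
    _ = _ := by ring

end Pool.Agent.Lib.H57M
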