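import Pool.Agent.Lib.H57M.Sc
import Pool.Agent.Lib.H57M.B8
import Pool.Agent.Lib.H57M.N1

/-!
# Chunk N3: upper bound for the weight in residue classes
-/

open Finset

namespace Pool.Agent.Lib.H57M

open Pool.Agent.Lib.H15P Pool.Agent.Lib.H92G

theorem N3_nu_nonneg {K : ℕ} (w : Par K) (H : Finset ℕ) (n : ℕ) : 0 ≤ w.nu H n := by
  have h1 := w.z_bounds.1
  unfold Par.nu
  positivity

theorem N3_arith {a a' d d' c q1 q2 : ℝ} (ha : 0 ≤ a) (haa : a ≤ a') (hd : 0 ≤ d)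
    (hdd : d ≤ d') (hc : 0 ≤ c) {CL x : ℝ} (hy : 0 ≤ CL * x) (h1 : 0 < q1) (h2 : 0 < q2) :
    a * c / q1 * (125 * CL * x / q2 * d) ≤ a' * d' * (200 * CL * x * c) / (q1 * q2) := by
  have h3 : a * c / q1 * (125 * CL * x / q2 * d) = (a * d) * (125 * (CL * x) * c / (q1 * q2)) := by
    field_simp
  have h4 : a' * d' * (200 * CL * x * c) / (q1 * q2) =
      (a' * d') * (200 * (CL * x) * c / (q1 * q2)) := by
    field_simp
  rw [h3, h4]
  apply mul_le_mul
  · exact mul_le_mul haa hdd hd (ha.trans haa)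
  · apply div_le_div_of_nonneg_right _ (by positivity)
    apply mul_le_mul_of_nonneg_right _ hc
    apply mul_le_mul_of_nonneg_right _ hy
    norm_num
  · positivity
  · exact mul_nonneg (ha.trans haa) (hd.trans hdd)

theorem N3_wf_nonneg {K : ℕ} (w : Par K) (H : Finset ℕ) (M X g : ℕ) (T0 : ℝ) (n : ℕ) :
    0 ≤ wf w H M X g T0 n := by
  unfold wf
  split_ifs
  · exact N3_nu_nonneg w H n
  · exact le_rfl

theorem N3_wf_le {K : ℕ} (w : Par K) (H : Finset ℕ) (M X g : ℕ) (T0 : ℝ) (v t : ℕ) :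
    wf w H M X g T0 (v + M * t) ≤
      w.L (fun h : {h // h ∈ H} => hit w.P (v + h.1 + M * t)) ^ 2 := by
  have h0 : wf w H M X g T0 (v + M * t) ≤ w.nu H (v + M * t) := by
    unfold wf
    split_ifs
    · exact le_rfl
    · exact N3_nu_nonneg w H _
  refine h0.trans ?_
  rw [nu_eq]
  apply div_le_self
  · exact sq_nonneg _
  · exact one_le_pow₀ w.z_bounds.1

theorem N3_inner {K : ℕ} (w : Par K) (H : Finset ℕ) (M X g : ℕ) (hS : Sc w H M X g) (T0 : ℝ)
    (q b q' : ℕ) (hqq : q' ∣ q) (hc : q'.Coprime M) (hsq : Squarefree q') (v : ℕ) (S : Finset ℕ)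
    (hS1 : ∀ n ∈ S, n ≤ 60 * X ∧ n ≡ b [MOD q]) :
    ∑ n ∈ S.filter (fun n => n % M = v), wf w H M X g T0 n ≤
      (((60 * X / M + 1 : ℕ) : ℝ) / q' + 1) * (2 * w.CL * (2 * w.Dt) ^ q'.primeFactors.card) +
        2 * w.lv ^ 2 * q' := by
  classical
  have hM := hS.M0
  have hDt := w.Dt1
  have hCL : 0 ≤ w.CL := by
    unfold Par.CL
    positivity
  have hlv := w.lv1
  rcases (S.filter (fun n => n % M = v)).eq_empty_or_nonempty with hE | ⟨n0, hn0⟩
  · rw [hE, sum_empty]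
    positivity
  rw [mem_filter] at hn0
  have hKW : 200 * K ^ 2 ≤ w.W := by
    have := hS.KW
    omega
  have h1 := w.class_le hS.card M _ (hS.forms v) q' (n0 / M) hsq hc (60 * X / M + 1)
  refine le_trans ?_ h1
  have hdec : ∀ n, n % M = v → v + M * (n / M) = n := fun n hn => by
    rw [← hn]
    exact Nat.mod_add_div n M
  have h2 : ∑ n ∈ S.filter (fun n => n % M = v), wf w H M X g T0 n ≤
      ∑ n ∈ S.filter (fun n => n % M = v),
        w.L (fun h : {h // h ∈ H} => hit w.P (v + h.1 + M * (n / M))) ^ 2 := by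
    refine sum_le_sum fun n hn => ?_
    rw [mem_filter] at hn
    conv_lhs => rw [← hdec n hn.2]
    exact N3_wf_le w H M X g T0 v (n / M)
  refine h2.trans ?_
  have hinj : Set.InjOn (fun n => n / M) ((S.filter (fun n => n % M = v) : Finset ℕ) : Set ℕ) := by
    intro n hn n' hn' h
    rw [mem_coe, mem_filter] at hn hn'
    have h : n / M = n' / M := h
    rw [← hdec n hn.2, ← hdec n' hn'.2, h]
  rw [← sum_image (f := fun t => w.L (fun h : {h // h ∈ H} =>
    hit w.P (v + h.1 + M * t)) ^ 2) hinj]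
  refine sum_le_sum_of_subset_of_nonneg ?_ (fun t _ _ => sq_nonneg _)
  intro t ht
  rw [mem_image] at ht
  obtain ⟨n, hn, rfl⟩ := ht
  rw [mem_filter] at hn
  rw [mem_filter, mem_range]
  obtain ⟨h3, h4⟩ := hS1 n hn.1
  refine ⟨?_, ?_⟩
  · have := Nat.div_le_div_right (c := M) h3
    omega
  · have h5 : n ≡ n0 [MOD q'] := (h4.trans (hS1 n0 hn0.1).2.symm).of_dvd hqq
    rw [← hdec n hn.2, ← hdec n0 hn0.2] at h5
    have h6 : M * (n / M) ≡ M * (n0 / M) [MOD q'] := Nat.ModEq.add_left_cancel' v h5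
    exact Nat.ModEq.cancel_left_of_coprime hc h6

/-- Let `q1 = gcd q M`, `q' = q/q1` (prime to `M`, as `q` is squarefree), `Y0 = 60 X/M + 1`. The `n ≤ 60 X`
with `n ≡ b mod q` and `wf n ≠ 0` are `n = v + M t`, `v = n % M ∈ cF H M`, `v ≡ b mod q1`, `t < Y0`, and
for given `v` they satisfy `M t ≡ b - v mod q'`, one class modulo `q'` (or none) for `t`; `wf ≤ nu ≤ L^2`
(`z ≥ 1`, `nu_eq`). By `Par.class_le` the sum for given `v` is at most
`(Y0/q' + 1) 2 CL (2 Dt)^ω(q') + 2 lv^2 q' ≤ (62 X/(M q')) 2 CL (2 Dt)^ω(q') + X/(M q')`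
(`long`: `lv^2 q'^2 M ≤ X`). The number of the `v` is at most `(K+1)^ω(q1) #(cF H M)/q1` (`cF_class`), and
`ω(q1) + ω(q') = ω(q)`, `CL ≥ 1`, `Dt ≥ 1`. -/
theorem wf_class_le {K : ℕ} (w : Par K) (H : Finset ℕ) (M X g : ℕ) (hS : Sc w H M X g)
    (hH : Adm H) (T0 : ℝ) (q b : ℕ) (hq : Squarefree q)
    (hq2 : (q : ℝ) ≤ Real.exp (Real.sqrt (Real.log X))) :
    ∑ n ∈ (Icc 1 (60 * X)).filter (fun n => n ≡ b [MOD q]), wf w H M X g T0 n ≤
      (2 * w.Dt * (K + 1)) ^ q.primeFactors.card *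
        (200 * w.CL * ((X : ℝ) / M) * (cF H M).card) / q := by
  classical
  have hM := hS.M0
  have hX := hS.X0
  have hMR : (0 : ℝ) < M := by exact_mod_cast hM
  have hXR : (0 : ℝ) < X := by exact_mod_cast hX
  have hK1 : (1 : ℝ) ≤ K := by exact_mod_cast w.Kpos
  have hK0 : (0 : ℝ) < K := by linarith
  have hDt := w.Dt1
  have hCL1 : 1 ≤ w.CL := by
    unfold Par.CL
    apply one_le_pow₀
    have : (0 : ℝ) ≤ w.n := Nat.cast_nonneg _
    linarith
  have hCL0 : 0 < w.CL := by linarith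
  have hlv := w.lv1
  have hlv24 : w.lv ^ 2 ≤ w.lv ^ 4 := pow_le_pow_right₀ hlv (by norm_num)
  have hlv4 : (1 : ℝ) ≤ w.lv ^ 4 := one_le_pow₀ hlv
  have hq0 : 0 < q := Nat.pos_of_ne_zero hq.ne_zero
  -- the two parts of the modulus
  obtain ⟨q', hq'⟩ : q.gcd M ∣ q := Nat.gcd_dvd_left q M
  set q1 := q.gcd M with hq1
  have hsq := hq
  rw [hq'] at hsq
  obtain ⟨hc1, hsq1, hsq'⟩ := Nat.squarefree_mul_iff.mp hsq
  have hq'0 : 0 < q' := Nat.pos_of_ne_zero hsq'.ne_zero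
  have hq10 : 0 < q1 := Nat.pos_of_ne_zero hsq1.ne_zero
  have hq1M : q1 ∣ M := Nat.gcd_dvd_right q M
  have hq'q : q' ∣ q := by
    rw [hq']
    exact Dvd.intro_left _ rfl
  have hq1q : q1 ∣ q := Nat.gcd_dvd_left q M
  have hc : q'.Coprime M := by
    have h1 : q'.gcd M ∣ q1 := Nat.dvd_gcd ((Nat.gcd_dvd_left q' M).trans hq'q)
      (Nat.gcd_dvd_right q' M)
    have h2 : q'.gcd M ∣ q1.gcd q' := Nat.dvd_gcd h1 (Nat.gcd_dvd_left q' M)
    rw [Nat.Coprime] at hc1 ⊢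
    rw [hc1] at h2
    exact Nat.dvd_one.1 h2
  have hom : q.primeFactors.card = q1.primeFactors.card + q'.primeFactors.card := by
    rw [hq', hc1.primeFactors_mul, card_union_of_disjoint hc1.disjoint_primeFactors]
  set x : ℝ := (X : ℝ) / M with hx
  have hx0 : 0 < x := div_pos hXR hMR
  -- the level
  have hq'R : (1 : ℝ) ≤ q' := by exact_mod_cast hq'0
  have hq'0R : (0 : ℝ) < q' := by linarith
  have hq10R : (0 : ℝ) < q1 := by exact_mod_cast hq10
  have hq'e : (q' : ℝ) ≤ Real.exp (Real.sqrt (Real.log X)) := by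
    refine le_trans ?_ hq2
    exact_mod_cast Nat.le_of_dvd hq0 hq'q
  have hexp : (q' : ℝ) ^ 2 ≤ Real.exp (2 * Real.sqrt (Real.log X)) := by
    have h1 : Real.exp (2 * Real.sqrt (Real.log X)) = Real.exp (Real.sqrt (Real.log X)) ^ 2 := by
      rw [← Real.exp_nat_mul]
      norm_num
    rw [h1]
    exact pow_le_pow_left₀ hq'0R.le hq'e 2
  have hlong : 100 * w.lv ^ 4 * (q' : ℝ) ^ 2 ≤ x := by
    rw [hx, le_div_iff₀ hMR]
    refine le_trans ?_ hS.long
    have h1 : 100 * w.lv ^ 4 * (q' : ℝ) ^ 2 * M ≤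
        100 * w.lv ^ 4 * Real.exp (2 * Real.sqrt (Real.log X)) * M := by gcongr
    have h2 : 0 ≤ 100 * w.lv ^ 4 * Real.exp (2 * Real.sqrt (Real.log X)) * M := by positivity
    refine h1.trans ((le_mul_of_one_le_left h2 hK1).trans (le_of_eq ?_))
    ring
  have hx1 : 1 ≤ x / q' := by
    rw [le_div_iff₀ hq'0R]
    have h1 : (q' : ℝ) ≤ (q' : ℝ) ^ 2 := by nlinarith only [hq'R]
    have h2 : (q' : ℝ) ^ 2 ≤ 100 * w.lv ^ 4 * (q' : ℝ) ^ 2 :=
      le_mul_of_one_le_left (sq_nonneg _) (by linarith)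
    linarith
  have hx2 : 2 * w.lv ^ 2 * q' ≤ x / q' := by
    rw [le_div_iff₀ hq'0R]
    have h1 : 2 * w.lv ^ 2 * q' * q' = 2 * w.lv ^ 2 * (q' : ℝ) ^ 2 := by ring
    rw [h1]
    refine le_trans ?_ hlong
    gcongr
    linarith
  have hY : ((60 * X / M + 1 : ℕ) : ℝ) ≤ 61 * x := by
    have h1 : ((60 * X / M : ℕ) : ℝ) ≤ ((60 * X : ℕ) : ℝ) / M := Nat.cast_div_le
    push_cast at h1 ⊢
    have h2 : 60 * (X : ℝ) / M = 60 * x := by rw [hx]; ring
    rw [h2] at h1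
    have h3 : 1 ≤ x := by
      rw [le_div_iff₀ hq'0R] at hx1
      linarith
    linarith
  -- the bound for one residue
  have hin : (((60 * X / M + 1 : ℕ) : ℝ) / q' + 1) *
      (2 * w.CL * (2 * w.Dt) ^ q'.primeFactors.card) + 2 * w.lv ^ 2 * q' ≤
      125 * w.CL * x / q' * (2 * w.Dt) ^ q'.primeFactors.card := by
    have h1 : ((60 * X / M + 1 : ℕ) : ℝ) / q' + 1 ≤ 62 * (x / q') := by
      have h2 : ((60 * X / M + 1 : ℕ) : ℝ) / q' ≤ 61 * x / q' := by gcongr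
      have h3 : 61 * x / q' = 61 * (x / q') := by ring
      linarith
    have h2 : (1 : ℝ) ≤ (2 * w.Dt) ^ q'.primeFactors.card := one_le_pow₀ (by linarith)
    have h3 : x / q' ≤ w.CL * (x / q') * (2 * w.Dt) ^ q'.primeFactors.card := by
      have h4 : x / q' ≤ w.CL * (x / q') := le_mul_of_one_le_left (by linarith) hCL1
      have h5 : w.CL * (x / q') ≤ w.CL * (x / q') * (2 * w.Dt) ^ q'.primeFactors.card :=
        le_mul_of_one_le_right (by linarith) h2
      linarith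
    have h4 : (((60 * X / M + 1 : ℕ) : ℝ) / q' + 1) *
        (2 * w.CL * (2 * w.Dt) ^ q'.primeFactors.card) ≤ 62 * (x / q') *
        (2 * w.CL * (2 * w.Dt) ^ q'.primeFactors.card) := by gcongr
    have h5 : 125 * w.CL * x / q' * (2 * w.Dt) ^ q'.primeFactors.card =
        62 * (x / q') * (2 * w.CL * (2 * w.Dt) ^ q'.primeFactors.card) +
        w.CL * (x / q') * (2 * w.Dt) ^ q'.primeFactors.card := by ring
    rw [h5]
    linarith
  -- the decomposition
  set S : Finset ℕ := ((Icc 1 (60 * X)).filter (fun n => n ≡ b [MOD q])).filter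
    (fun n => wf w H M X g T0 n ≠ 0) with hSdef
  have hsum : ∑ n ∈ (Icc 1 (60 * X)).filter (fun n => n ≡ b [MOD q]), wf w H M X g T0 n =
      ∑ n ∈ S, wf w H M X g T0 n := (sum_filter_ne_zero _).symm
  have hS1 : ∀ n ∈ S, n ≤ 60 * X ∧ n ≡ b [MOD q] := by
    intro n hn
    rw [hSdef, mem_filter, mem_filter, mem_Icc] at hn
    exact ⟨hn.1.1.2, hn.1.2⟩
  have hmaps : ∀ n ∈ S, n % M ∈ (cF H M).filter (fun v => v ≡ b [MOD q1]) := by
    intro n hn
    have hn' := hn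
    rw [hSdef, mem_filter] at hn'
    have h1 : (∏ h ∈ H, (n + h)).Coprime M := by
      by_contra hcon
      apply hn'.2
      unfold wf
      rw [if_neg]
      rintro ⟨-, h, -⟩
      exact hcon h
    rw [mem_filter]
    constructor
    · rw [N1_mem]
      exact ⟨Nat.mod_lt _ hM, (N1_cong (Nat.mod_modEq n M)).2 h1⟩
    · exact ((Nat.mod_modEq n M).of_dvd hq1M).trans ((hS1 n hn).2.of_dvd hq1q)
  rw [hsum, ← sum_fiberwise_of_maps_to hmaps]
  have h0 : ∀ v, ∑ n ∈ S.filter (fun n => n % M = v), wf w H M X g T0 n ≤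
      125 * w.CL * x / q' * (2 * w.Dt) ^ q'.primeFactors.card := by
    intro v
    have h00 := N3_inner w H M X g hS T0 q b q' hq'q hc hsq' v S hS1
    exact h00.trans hin
  have h1 : ∑ v ∈ (cF H M).filter (fun v => v ≡ b [MOD q1]),
      ∑ n ∈ S.filter (fun n => n % M = v), wf w H M X g T0 n ≤
      ∑ v ∈ (cF H M).filter (fun v => v ≡ b [MOD q1]),
        125 * w.CL * x / q' * (2 * w.Dt) ^ q'.primeFactors.card := by
    apply sum_le_sum
    intro v _
    exact h0 v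
  refine h1.trans ?_
  rw [sum_const, nsmul_eq_mul]
  have h2 := cF_class H hH q1 M b hS.sqf hq1M
  rw [hS.cardH] at h2
  have h3 : (0 : ℝ) ≤ 125 * w.CL * x / q' * (2 * w.Dt) ^ q'.primeFactors.card := by positivity
  refine (mul_le_mul_of_nonneg_right h2 h3).trans ?_
  have h4 : ((K : ℝ) + 1) ^ q1.primeFactors.card ≤
      (2 * w.Dt * (K + 1)) ^ q1.primeFactors.card :=
    pow_le_pow_left₀ (by linarith) (le_mul_of_one_le_left (by linarith) (by linarith)) _
  have h5 : (2 * w.Dt) ^ q'.primeFactors.card ≤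
      (2 * w.Dt * (K + 1)) ^ q'.primeFactors.card :=
    pow_le_pow_left₀ (by linarith) (le_mul_of_one_le_right (by linarith) (by linarith)) _
  have hqR : (q : ℝ) = q1 * q' := by
    rw [← Nat.cast_mul, ← hq']
  rw [hom, pow_add, hqR]
  have hP1 : (0 : ℝ) ≤ ((K : ℝ) + 1) ^ q1.primeFactors.card := by positivity
  have hP2 : (0 : ℝ) ≤ (2 * w.Dt) ^ q'.primeFactors.card := by positivity
  have hP3 : (0 : ℝ) ≤ w.CL * x := by positivity
  exact N3_arith hP1 h4 hP2 h5 (Nat.cast_nonneg _) hP3 hq10R hq'0R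

end Pool.Agent.Lib.H57M
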