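import Pool.Agent.Lib.H92G.AN
import Pool.Agent.Lib.H68T.MS
import Pool.Agent.Lib.H57S.S5

/-!
# Chunk R2: characters modulo a small squarefree modulus prime to one large exceptional prime
-/

open Finset

namespace Pool.Agent.Lib.H57M

open Pool.Agent.Lib.H15P Pool.Agent.Lib.H92G Pool.Agent.Lib.H68T Pool.Agent.Lib.H5C

theorem R2_asym (K : ℝ) : ∃ L0 : ℝ, 1 ≤ L0 ∧ ∀ L : ℝ, L0 ≤ L →
    K ≤ Real.log L ∧ K * (Real.sqrt L * Real.log L) ≤ L := by
  have h1 : Filter.Tendsto Real.log Filter.atTop Filter.atTop := Real.tendsto_log_atTop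
  have h2 := (isLittleO_log_rpow_atTop (show (0 : ℝ) < 1 / 2 by norm_num)).bound
    (show (0 : ℝ) < 1 / (|K| + 1) by positivity)
  obtain ⟨L1, hL1⟩ := Filter.eventually_atTop.1
    ((h1.eventually_ge_atTop K).and (h2.and (Filter.eventually_ge_atTop 1)))
  refine ⟨max L1 1, le_max_right _ _, fun L hL => ?_⟩
  obtain ⟨a1, a2, a3⟩ := hL1 L ((le_max_left _ _).trans hL)
  refine ⟨a1, ?_⟩
  have hlog : 0 ≤ Real.log L := Real.log_nonneg a3
  have hs : L ^ (1 / 2 : ℝ) = Real.sqrt L := (Real.sqrt_eq_rpow L).symm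
  rw [Real.norm_of_nonneg hlog, hs, Real.norm_of_nonneg (Real.sqrt_nonneg L)] at a2
  have hK : K ≤ |K| + 1 := by linarith [le_abs_self K]
  have hsq : Real.sqrt L * Real.sqrt L = L := Real.mul_self_sqrt (by linarith)
  have hs0 := Real.sqrt_nonneg L
  calc K * (Real.sqrt L * Real.log L) ≤ (|K| + 1) * (Real.sqrt L * Real.log L) := by
        apply mul_le_mul_of_nonneg_right hK (mul_nonneg hs0 hlog)
    _ ≤ (|K| + 1) * (Real.sqrt L * (1 / (|K| + 1) * Real.sqrt L)) := by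
        have : (0 : ℝ) ≤ |K| + 1 := by positivity
        gcongr
    _ = Real.sqrt L * Real.sqrt L := by
        have : (|K| + 1 : ℝ) ≠ 0 := by positivity
        field_simp
    _ = L := hsq

/-- Characters of bounded conductor are not bad. -/
theorem R2_notBad (N : ℕ) : ∃ X0 : ℕ, ∀ X : ℕ, X0 ≤ X → ∀ (Q : ℕ) (p : PCh), p.1 ≤ N →
    p ∉ Bad Q X := by
  classical
  obtain ⟨c, hc, hgl⟩ := H57S.good_level
  obtain ⟨K, hK⟩ := Mu_small c hc 10
  obtain ⟨Y0, hY0⟩ := hgl (|K| + 1)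
  obtain ⟨L0, hL01, hL0⟩ := R2_asym K
  have h1 : Filter.Tendsto (fun X : ℕ => Real.log X) Filter.atTop Filter.atTop :=
    Real.tendsto_log_atTop.comp tendsto_natCast_atTop_atTop
  obtain ⟨X1, hX1⟩ := Filter.eventually_atTop.mp (h1.eventually_ge_atTop (max L0 (max N 3)))
  refine ⟨X1 + ⌈Y0⌉₊ + 1, fun X hX Q p hpN hb => ?_⟩
  have hL := hX1 X (by omega)
  set L := Real.log X with hLdef
  have hLL0 : L0 ≤ L := (le_max_left _ _).trans hL
  have hLN : (N : ℝ) ≤ L := ((le_max_left _ _).trans (le_max_right _ _)).trans hL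
  have hL3 : 3 ≤ L := ((le_max_right _ _).trans (le_max_right _ _)).trans hL
  have hYX : Y0 ≤ (X : ℝ) := by
    have h2 : (⌈Y0⌉₊ : ℝ) ≤ X := by
      have : ⌈Y0⌉₊ ≤ X := by omega
      exact_mod_cast this
    exact (Nat.le_ceil Y0).trans h2
  obtain ⟨Q', hQ1, hQ2, hQ3⟩ := hY0 X hYX
  obtain ⟨a1, a2⟩ := hL0 L hLL0
  have hLpos : 0 < L := by linarith
  have hloglog : 0 ≤ Real.log L := Real.log_nonneg (by linarith)
  have hLQ : L ≤ Q' := by
    calc L = L ^ (1 : ℝ) := (Real.rpow_one L).symm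
      _ ≤ L ^ (|K| + 1) := Real.rpow_le_rpow_of_exponent_le (by linarith)
          (by linarith [abs_nonneg K])
      _ ≤ Q' := hQ1
  have hQ'pos : (0 : ℝ) < Q' := by linarith
  have hlogQ : (|K| + 1) * Real.log L ≤ Real.log Q' := by
    calc (|K| + 1) * Real.log L = Real.log (L ^ (|K| + 1)) := (Real.log_rpow hLpos _).symm
      _ ≤ Real.log Q' := Real.log_le_log (Real.rpow_pos_of_pos hLpos _) hQ1
  have hlogQ2 : Real.log Q' ≤ Real.sqrt L := by
    calc Real.log Q' ≤ Real.log (Real.exp (Real.sqrt L)) := Real.log_le_log hQ'pos hQ2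
      _ = Real.sqrt L := Real.log_exp _
  have hlogQ0 : 0 ≤ Real.log Q' := Real.log_nonneg (by linarith)
  have hReg : Reg K Q' X := by
    refine ⟨a1, ?_, ?_⟩
    · refine le_trans ?_ hlogQ
      apply mul_le_mul_of_nonneg_right _ hloglog
      linarith [le_abs_self K]
    · rcases le_or_gt K 0 with hK0 | hK0
      · have : K * (Real.log Q' * Real.log L) ≤ 0 :=
          mul_nonpos_of_nonpos_of_nonneg hK0 (mul_nonneg hlogQ0 hloglog)
        linarith
      · refine le_trans ?_ a2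
        gcongr
  unfold Bad at hb
  rw [mem_filter] at hb
  obtain ⟨hb1, t, ht1, ht2⟩ := hb
  unfold PC1 at hb1
  rw [mem_filter, Pool.Agent.Lib.H68T.mem_PC] at hb1
  have hpQ' : p ∈ PC Q' := by
    rw [Pool.Agent.Lib.H68T.mem_PC]
    refine ⟨hb1.1.1, ?_, hb1.1.2.2⟩
    have h2 : (p.1 : ℝ) ≤ N := by exact_mod_cast hpN
    have h3 : (p.1 : ℝ) ≤ Q' := by linarith
    exact_mod_cast h3
  have ht : |t| ≤ (Q' : ℝ) ^ 11 := by
    refine ht1.trans ?_
    calc L ^ 10 ≤ L ^ 11 := pow_le_pow_right₀ (by linarith) (by norm_num)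
      _ ≤ (Q' : ℝ) ^ 11 := pow_le_pow_left₀ hLpos.le hLQ 11
  have h4 := hK Q' X hReg hQ3 p hpQ' t ht
  have h5 : Real.log X ^ (-10 : ℝ) = (Real.log X ^ 10)⁻¹ := by
    rw [Real.rpow_neg hLpos.le]
    congr 1
    exact_mod_cast Real.rpow_natCast (Real.log X) 10
  rw [h5] at h4
  linarith

/-- A squarefree number with all prime factors `≤ w` divides `primorial w`. -/
theorem R2_dvd (w n : ℕ) (hn : Squarefree n) (h : ∀ p : ℕ, p.Prime → p ∣ n → p ≤ w) :
    n ∣ primorial w := by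
  rw [← Nat.prod_primeFactors_of_squarefree hn]
  unfold primorial
  apply Finset.prod_dvd_prod_of_subset
  intro p hp
  rw [Nat.mem_primeFactors] at hp
  rw [Finset.mem_filter, Finset.mem_range]
  exact ⟨by have := h p hp.1 hp.2.1; omega, hp.1⟩

/-- Copy of the proof of `an_small` (`H92G/AN.lean`) with another choice of `p1`. Let `pe` be the
exceptional character of `H5C.small_cond`. Take `c` from `H57S.good_level`, `K'` from `Mu_small c 11`
(`H68T/MS.lean`), and for large `X` a good level `Q'`, `(log X)^(K'+1) ≤ Q' ≤ exp (√(log X))`, `Reg K' Q' X`;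
so no character of conductor `≤ Q'` (`≠ p0`) is in `Bad Q X`, for any `Q`. If `pe.1` has a prime factor
`> w0`, let `p1` be this prime factor. Otherwise let `p1` be any prime `> w0`: if `M` is squarefree and
`pe.1 ∣ M`, then `pe.1 ≤ primorial w0 ≤ Q'` for large `X`, so `pe` is not bad. The rest is unchanged. -/
theorem an_small2 (w0 : ℕ) : ∃ X0 : ℕ, ∀ X : ℕ, X0 ≤ X → ∃ p1 : ℕ, p1.Prime ∧ w0 < p1 ∧
    ∀ M : ℕ, 0 < M → Squarefree M → (M : ℝ) ≤ Real.exp (Real.log X ^ (1 / 10 : ℝ)) → ¬ p1 ∣ M →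
      A1s M X ≤ 1 / Real.log X := by
  classical
  obtain ⟨K, hK, hgood⟩ := an_good
  obtain ⟨K1, hK1, X1, hsmall⟩ := H5C.small_cond
  obtain ⟨L0, hasym⟩ := an_asym K K1 hK hK1
  obtain ⟨X2, hsum⟩ := an_sum_le
  obtain ⟨X4, hnb⟩ := R2_notBad (primorial w0)
  have h1 : Filter.Tendsto (fun X : ℕ => Real.log X) Filter.atTop Filter.atTop :=
    Real.tendsto_log_atTop.comp tendsto_natCast_atTop_atTop
  obtain ⟨X3, hX3⟩ := Filter.eventually_atTop.mp (h1.eventually_ge_atTop L0)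
  refine ⟨X1 + X2 + X3 + X4 + 1, fun X hX => ?_⟩
  obtain ⟨a0, a1, a2, a3, a4, a5, a6⟩ := hasym _ (hX3 X (by omega))
  obtain ⟨pe, hpe, hpe2⟩ := hsmall X (by omega)
  have hXpos : (0 : ℝ) < X := by
    have : 0 < X := by omega
    exact_mod_cast this
  set L := Real.log X with hL
  have hL0 : 0 < L := by linarith
  have hL1 : 1 ≤ L := by linarith
  -- the prime `p1`
  obtain ⟨p1, hp1, hp1w, hp1d⟩ : ∃ p1 : ℕ, p1.Prime ∧ w0 < p1 ∧
      (p1 ∣ pe.1 ∨ ∀ p : ℕ, p.Prime → p ∣ pe.1 → p ≤ w0) := by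
    by_cases h : ∃ p : ℕ, p.Prime ∧ p ∣ pe.1 ∧ w0 < p
    · obtain ⟨p, h1, h2, h3⟩ := h
      exact ⟨p, h1, h3, Or.inl h2⟩
    · push Not at h
      obtain ⟨p, h1, h2⟩ := Nat.exists_infinite_primes (w0 + 1)
      exact ⟨p, h2, by omega, Or.inr fun q hq1 hq2 => h q hq1 hq2⟩
  refine ⟨p1, hp1, hp1w, fun M hM hMsq hMle hMp => ?_⟩
  set Q := ⌊Real.exp (L / (2 * K))⌋₊ with hQ
  have hK0 : 0 < K := by linarith
  have hQle : (Q : ℝ) ≤ Real.exp (L / (2 * K)) := Nat.floor_le (Real.exp_pos _).le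
  have hQge : Real.exp (L / (2 * K)) / 2 ≤ Q := by
    have := Nat.lt_floor_add_one (Real.exp (L / (2 * K)))
    rw [← hQ] at this
    linarith
  have hQpos : (0 : ℝ) < Q := lt_of_lt_of_le (by positivity) hQge
  have hlogQ : Real.log Q ≤ L / (2 * K) := by
    calc Real.log Q ≤ Real.log (Real.exp (L / (2 * K))) := Real.log_le_log hQpos hQle
      _ = _ := Real.log_exp _
  have hlogQ2 : L / (2 * K) - 1 ≤ Real.log Q := by
    have h4 : Real.log (Real.exp (L / (2 * K)) / 2) ≤ Real.log Q :=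
      Real.log_le_log (by positivity) hQge
    rw [Real.log_div (Real.exp_pos _).ne' (by norm_num), Real.log_exp] at h4
    have := Real.log_two_lt_d9
    linarith
  have hR : H5C.RegP K Q X := by
    refine ⟨a1, by linarith, ?_⟩
    calc K * Real.log Q ≤ K * (L / (2 * K)) := mul_le_mul_of_nonneg_left hlogQ hK0.le
      _ = L / 2 := by field_simp
      _ ≤ L := by linarith
  have hMQ : M ≤ Q := by
    apply Nat.le_floor
    exact hMle.trans (Real.exp_le_exp.mpr a4)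
  set S : Finset PCh := ((PC M).erase H68T.p0).filter (fun p => p.1 ∣ M) with hS
  have hS1 : S ⊆ PC1 M := by
    intro p hp
    rw [hS, mem_filter, mem_erase] at hp
    unfold PC1
    rw [mem_filter]
    exact ⟨hp.1.2, hp.1.1⟩
  have hSQ : S ⊆ PC1 Q := by
    intro p hp
    have h2 := hS1 hp
    unfold PC1 at h2 ⊢
    rw [mem_filter, Pool.Agent.Lib.H68T.mem_PC] at h2 ⊢
    exact ⟨⟨h2.1.1, h2.1.2.1.trans hMQ, h2.1.2.2⟩, h2.2⟩
  have hMpos : (0 : ℝ) < M := by exact_mod_cast hM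
  have hbad : ∀ p ∈ S, p ∉ Bad Q X := by
    intro p hp hb
    have hp' := hp
    rw [hS, mem_filter, mem_erase] at hp'
    by_cases hpp : p = pe
    · subst hpp
      rcases hp1d with h1 | h1
      · exact hMp (h1.trans hp'.2)
      · refine hnb X (by omega) Q p ?_ hb
        exact Nat.le_of_dvd (primorial_pos w0)
          (R2_dvd w0 p.1 (hMsq.squarefree_of_dvd hp'.2) h1)
    · have h2 := hpe2 Q p hb hpp
      have h3 : (p.1 : ℝ) ≤ M := by
        exact_mod_cast Nat.le_of_dvd hM hp'.2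
      have h4 : Real.exp (L ^ (1 / 10 : ℝ)) < Real.exp (L / (K1 * Real.log L)) :=
        Real.exp_lt_exp.mpr a3
      linarith
  have e1 := hgood Q X hR S hSQ hbad
  have e2 := hsum X (by omega) M S hS1
  have e3 : A1s M X = ∑ p ∈ S, ‖thP X (fun m => p.2 (m : ZMod p.1))‖ := by
    unfold A1s
    rw [hS]
  rw [e3]
  have e4 : (M : ℝ) ^ 2 * (X : ℝ) ^ (-(1 / 3) : ℝ) ≤ (L ^ 2)⁻¹ := by
    calc (M : ℝ) ^ 2 * (X : ℝ) ^ (-(1 / 3) : ℝ)
        ≤ Real.exp (L ^ (1 / 10 : ℝ)) ^ 2 * (X : ℝ) ^ (-(1 / 3) : ℝ) := by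
          apply mul_le_mul_of_nonneg_right _ (Real.rpow_nonneg hXpos.le _)
          exact pow_le_pow_left₀ hMpos.le hMle 2
      _ = Real.exp (2 * L ^ (1 / 10 : ℝ) - L / 3) := by
          rw [Real.rpow_def_of_pos hXpos, ← Real.exp_nat_mul, ← Real.exp_add]
          congr 1
          push_cast
          ring
      _ ≤ Real.exp (-(2 * Real.log L)) := Real.exp_le_exp.mpr a6
      _ = (L ^ 2)⁻¹ := by
          rw [Real.exp_neg, two_mul, Real.exp_add, Real.exp_log hL0, pow_two]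
  have e5 : 2 * (L ^ 2)⁻¹ ≤ 1 / L := by
    rw [← div_eq_mul_inv, div_le_div_iff₀ (by positivity) hL0]
    nlinarith
  linarith

end Pool.Agent.Lib.H57M
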