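import Pool.Agent.Lib.H57M.Sc
import Pool.Agent.Lib.H57M.B9
import Pool.Agent.Lib.H57M.R1
import Pool.Agent.Lib.H57M.R2
import Pool.Agent.Lib.H92G.N5

/-!
# Chunk R3: choice of the parameters
-/

open Finset

namespace Pool.Agent.Lib.H57M

open Pool.Agent.Lib.H15P Pool.Agent.Lib.H92G

/-- Everything that is needed for large `L`. -/
theorem R3_large (B : ℕ) (k c2 hm w0 : ℝ) :
    ∃ L0 : ℝ, ∀ L : ℝ, L0 ≤ L → ((B : ℝ) + 1) * Real.log L ≤ Real.sqrt L ∧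
      400 * k ^ 2 ≤ L ∧ hm ≤ L ∧ 100 * c2 ≤ L ∧ w0 + 3 ≤ L ^ (1 / 100 : ℝ) ∧
      100 * k ≤ Real.exp (L / 8) ∧ 256 ≤ L ∧ 16 * hm + 16 ≤ Real.exp (L / 2) := by
  have a1 : ∀ᶠ L : ℝ in Filter.atTop, Real.log L ≤ 1 / ((B : ℝ) + 1) * Real.sqrt L := by
    have h2 := (isLittleO_log_rpow_atTop (show (0 : ℝ) < 1 / 2 by norm_num)).bound
      (show (0 : ℝ) < 1 / ((B : ℝ) + 1) by positivity)
    filter_upwards [h2, Filter.eventually_ge_atTop 1] with L h3 h4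
    have hlog : 0 ≤ Real.log L := Real.log_nonneg h4
    have hs : L ^ (1 / 2 : ℝ) = Real.sqrt L := (Real.sqrt_eq_rpow L).symm
    rwa [Real.norm_of_nonneg hlog, hs, Real.norm_of_nonneg (Real.sqrt_nonneg L)] at h3
  have a2 : ∀ᶠ L : ℝ in Filter.atTop, 400 * k ^ 2 ≤ L := Filter.eventually_ge_atTop _
  have a3 : ∀ᶠ L : ℝ in Filter.atTop, hm ≤ L := Filter.eventually_ge_atTop _
  have a4 : ∀ᶠ L : ℝ in Filter.atTop, 100 * c2 ≤ L := Filter.eventually_ge_atTop _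
  have a5 : ∀ᶠ L : ℝ in Filter.atTop, w0 + 3 ≤ L ^ (1 / 100 : ℝ) :=
    (tendsto_rpow_atTop (by norm_num : (0 : ℝ) < 1 / 100)).eventually_ge_atTop _
  have a6 : ∀ᶠ L : ℝ in Filter.atTop, 8 * (100 * k) ≤ L := Filter.eventually_ge_atTop _
  have a7 : ∀ᶠ L : ℝ in Filter.atTop, 256 ≤ L := Filter.eventually_ge_atTop _
  have a8 : ∀ᶠ L : ℝ in Filter.atTop, 2 * (16 * hm + 16) ≤ L := Filter.eventually_ge_atTop _
  obtain ⟨L0, hL0⟩ := Filter.eventually_atTop.1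
    (a1.and (a2.and (a3.and (a4.and (a5.and (a6.and (a7.and a8)))))))
  refine ⟨L0, fun L hL => ?_⟩
  obtain ⟨h1, h2, h3, h4, h5, h6, h7, h8⟩ := hL0 L hL
  refine ⟨?_, h2, h3, h4, h5, ?_, h7, ?_⟩
  · have : (0 : ℝ) < (B : ℝ) + 1 := by positivity
    calc ((B : ℝ) + 1) * Real.log L ≤ ((B : ℝ) + 1) * (1 / ((B : ℝ) + 1) * Real.sqrt L) := by
          gcongr
      _ = Real.sqrt L := by field_simp
  · have := Real.add_one_le_exp (L / 8)
    linarith
  · have := Real.add_one_le_exp (L / 2)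
    linarith

theorem R3_u (u X : ℝ) (hu : 100000 ≤ u) (h : u ^ 4 = X) : 100000 * u ≤ X := by
  rw [← h]
  have e1 : 100000 * u ≤ u * u := by gcongr
  have e2 : u * u ≤ u ^ 4 := by
    calc u * u = u ^ 2 := by ring
      _ ≤ u ^ 4 := pow_le_pow_right₀ (by linarith) (by norm_num)
  linarith

theorem R3_T (κ θ n L : ℝ) (hκ0 : 0 < κ) (hκ : κ ≤ 1 / 100) (hθ0 : 0 < θ) (hθ : θ ≤ 1 / 64)
    (hn : 1 ≤ n) (hL : 0 < L) : κ * θ / n * L ≤ L / 4 := by
  have h1 : κ * θ ≤ 1 / 4 := by nlinarith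
  have h2 : κ * θ / n ≤ 1 / 4 := by
    rw [div_le_iff₀ (by linarith)]
    nlinarith
  nlinarith

theorem R3_sq (L : ℝ) (hL : 1 ≤ L) : L * L ≤ L ^ 3 := by
  have h : L ^ 3 = L * L * L := by ring
  rw [h]
  have : 0 < L * L := by positivity
  nlinarith

theorem R3_th (θ L : ℝ) (hθ : θ ≤ 1 / 64) (hL : 0 < L) : 4 * θ * L ≤ L / 16 := by nlinarith

theorem R3_root (L : ℝ) (hL : 256 ≤ L) : 2 * Real.sqrt L ≤ L / 8 := by
  have h16 : 16 ≤ Real.sqrt L := by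
    apply Real.le_sqrt_of_sq_le
    linarith
  have hs : Real.sqrt L * Real.sqrt L = L := Real.mul_self_sqrt (by linarith)
  nlinarith

theorem R3_n2 (a L W : ℝ) (ha : 100 * a ≤ L) (hL : 0 < L) (hW : L * L ≤ W) : a * L / W ≤ 1 / 100 := by
  have hW0 : 0 < W := lt_of_lt_of_le (by positivity) hW
  rw [div_le_div_iff₀ hW0 (by norm_num)]
  nlinarith

theorem R3_n5 (a L A W : ℝ) (ha : 100 * a ≤ L) (hL : 0 < L) (hA : 0 < A) (hW : A * (L * L) ≤ W) :
    a * (L * A) / W ≤ 1 / 100 := by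
  have hW0 : 0 < W := lt_of_lt_of_le (by positivity) hW
  rw [div_le_div_iff₀ hW0 (by norm_num)]
  have h8 : 0 ≤ L * A := by positivity
  nlinarith [mul_le_mul_of_nonneg_right ha h8]

theorem R3_gain (κ θ n g B L l φ : ℝ) (hg : 0 ≤ g) (hB : 0 ≤ B) (hL : 0 < L) (hl : 0 < l)
    (hφ : 0 ≤ φ) (h : 10 ^ 12 * g * (B + 1) ≤ n * (κ * θ)) :
    10 ^ 5 * g * (2 * L) * φ ≤
      (κ * θ * n * L / (8000 * ((B + 1) * l))) * (φ * l / 400) := by
  have h3 : (κ * θ * n * L / (8000 * ((B + 1) * l))) * (φ * l / 400) =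
      (n * (κ * θ)) * (L * φ) / (3200000 * (B + 1)) := by
    field_simp
    ring
  rw [h3, le_div_iff₀ (by positivity)]
  have h4 : 0 ≤ L * φ := by positivity
  have h5 := mul_le_mul_of_nonneg_right h h4
  have h6 : 0 ≤ g * (B + 1) * (L * φ) := by positivity
  calc 10 ^ 5 * g * (2 * L) * φ * (3200000 * (B + 1))
      = 64 * 10 ^ 10 * (g * (B + 1) * (L * φ)) := by ring
    _ ≤ 10 ^ 12 * (g * (B + 1) * (L * φ)) := by linarith
    _ = 10 ^ 12 * g * (B + 1) * (L * φ) := by ring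
    _ ≤ _ := h5

theorem R3_tot (φ l M : ℝ) (hl : 0 < l) (h : φ ≤ 400 / l * M) : φ * l / 400 ≤ M := by
  have h1 : φ * l ≤ 400 / l * M * l := mul_le_mul_of_nonneg_right h hl.le
  have h2 : 400 / l * M * l = 400 * M := by
    field_simp
  linarith

theorem R3_log (X L : ℝ) (hX : 0 < X) (hL : L = Real.log X) (h : 256 ≤ L) :
    Real.log (60 * X) ≤ 2 * L := by
  rw [Real.log_mul (by norm_num) hX.ne', ← hL]
  have h2 : Real.log 60 ≤ 5 := by
    rw [Real.log_le_iff_le_exp (by norm_num)]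
    have h3 : (60 : ℝ) ≤ 2.7 ^ 5 := by norm_num
    have h4 : (2.7 : ℝ) ^ 5 ≤ Real.exp 1 ^ 5 := by
      have := Real.exp_one_gt_d9
      gcongr
      linarith
    have h5 : Real.exp 1 ^ 5 = Real.exp 5 := by
      rw [← Real.exp_nat_mul]
      norm_num
    linarith
  linarith

theorem R3_long (k a M s L : ℝ) (hk : 0 ≤ k) (ha : 0 ≤ a) (hM : 0 ≤ M) (hs : 0 ≤ s) (hL : 0 ≤ L)
    (h1 : 100 * k ≤ Real.exp (L / 8)) (h2 : a ≤ Real.exp (L / 16)) (h3 : M ≤ Real.exp (L / 8))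
    (h4 : s ≤ Real.exp (L / 8)) : 100 * k * a * M * s ≤ Real.exp L := by
  have e1 : 100 * k * a ≤ Real.exp (L / 8) * Real.exp (L / 16) :=
    mul_le_mul h1 h2 ha (Real.exp_pos _).le
  have e2 : 100 * k * a * M ≤ Real.exp (L / 8) * Real.exp (L / 16) * Real.exp (L / 8) :=
    mul_le_mul e1 h3 hM (by positivity)
  have e3 : 100 * k * a * M * s ≤
      Real.exp (L / 8) * Real.exp (L / 16) * Real.exp (L / 8) * Real.exp (L / 8) :=
    mul_le_mul e2 h4 hs (by positivity)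
  refine e3.trans ?_
  rw [← Real.exp_add, ← Real.exp_add, ← Real.exp_add]
  apply Real.exp_le_exp.2
  linarith

/-- Constants: `CA, KA` from `an_all`, `CQ` from `Q_div_totient_le`, `κ0, Dt` from `mkPar`;
`θ = 1/(32 KA)`, `B = ⌈CA⌉₊ + 3`, `n ≥ 10^12 g (B + 1)/(κ0 θ)`, `K = 4000^n`, `C0 = Dt`.
For large `X`, `L = log X`: `y = ⌊L^(1/20)⌋₊`, `p1` from `an_small2 w0`, `M = pM y p1`, `W = ⌈L^B⌉₊`,
`w` from `mkPar`, `Q' = ⌊exp (L/(2 KA))⌋₊`, `D = Q'/M`, `A0 = L^CA`, `A1 = 1/L`.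
* `M` is squarefree, `primorial w0 ∣ M` (`w0 ≤ y`, `w0 < p1`), `M ≤ primorial y ≤ 4^y ≤
  exp (2 L^(1/20)) ≤ exp (L^(1/10))`, `p1 ∤ M`, `p ∤ M` for `p > y`.
* `M/φ(M) ≥ (1/2) ∏_{p ≤ y} (1 - 1/p)^(-1) ≥ (1/2) log y ≥ (1/60) log L` (`Sieve.prod_one_sub_inv_le`).
* `log W ≤ (B + 1) log L ≤ √L`, `4 K^2 ≤ W`, `400 K^2 ≤ W`.
* `RegP KA Q' X` (as in the proof of `an_small`); `D ≥ exp (L/(2 KA))/(4 M)`, `lv^2 ≤ exp (2 θ L) = exp (L/(16 KA))`: `n4`.
* `Q/φ(Q) ≤ CQ T ≤ CQ L` and `W ≥ L^B`: `n2`, `n5` (`CL`, `Dt`, `K` only depend on `g`).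
* primes of `P` are `≤ exp (κ0 θ L/n) ≤ exp (L/100) < X/8`.
* `prime`: `Par.prime_ge` with `J = {h // h ∈ H}`, `b h = v + h`, `Y = 60 X/M + 1`; `an_main`;
  `v + h0` is prime to `M` since `v ∈ cF H M`. (The forms: as in `Sc.forms`.)
* `gain`: `K (1 + n c)^2 M/φ(M) ≥ κ0 θ n L/(8000 (B+1) log L) · (1/60) log L ≥ 2·10^5 g L ≥ 10^5 g log (60 X)`.
* `long`: `lv^4 ≤ exp (4 θ L) ≤ exp (L/8)`. -/
theorem regime (g : ℕ) (hg : 1 ≤ g) : ∃ n : ℕ, 1 ≤ n ∧ ∃ C0 : ℝ, 1 ≤ C0 ∧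
    ∀ H : Finset ℕ, H.card = 4000 ^ n → ∀ w0 : ℕ, ∃ X0 : ℕ, ∀ X : ℕ, X0 ≤ X →
      ∃ (w : Par (4000 ^ n)) (M y : ℕ), Sc w H M X g ∧ primorial w0 ∣ M ∧ 2 ≤ y ∧
        (y : ℝ) ≤ Real.log X ∧ (∀ p : ℕ, p.Prime → p ∣ M → p ≤ y) ∧ w.n = n ∧ w.Dt ≤ C0 ∧
        w.h ≤ Real.log X ^ 3 := by
  obtain ⟨CA, KA, hCA, hKA, hall⟩ := an_all
  obtain ⟨CQ, hCQ, hQt⟩ := Q_div_totient_le
  obtain ⟨κ0, Dt, hκ0, hκ1, hDt, hmk⟩ := mkPar
  obtain ⟨η, hη⟩ : ∃ η : ℝ, η = 1 / (4 * KA) := ⟨_, rfl⟩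
  have hη0 : 0 < η := by rw [hη]; positivity
  have hη1 : η ≤ 1 / 4 := by
    rw [hη, div_le_div_iff₀ (by positivity) (by norm_num)]
    linarith
  obtain ⟨θ, hθ⟩ : ∃ θ : ℝ, θ = η / 16 := ⟨_, rfl⟩
  have hθ0 : 0 < θ := by rw [hθ]; positivity
  have hθ1 : θ ≤ 1 / 64 := by rw [hθ]; linarith
  obtain ⟨B, hB3, hBC⟩ : ∃ B : ℕ, 3 ≤ B ∧ 2 * CA + 6 ≤ B := by
    refine ⟨max 3 ⌈2 * CA + 6⌉₊, le_max_left _ _, ?_⟩
    refine (Nat.le_ceil _).trans ?_
    exact_mod_cast le_max_right _ _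
  obtain ⟨n, hn⟩ : ∃ n : ℕ, n = ⌈10 ^ 12 * g * ((B : ℝ) + 1) / (κ0 * θ)⌉₊ := ⟨_, rfl⟩
  have hg0 : (1 : ℝ) ≤ g := by exact_mod_cast hg
  have hBr : (0 : ℝ) ≤ B := Nat.cast_nonneg B
  have hnge : 10 ^ 12 * g * ((B : ℝ) + 1) / (κ0 * θ) ≤ n := by rw [hn]; exact Nat.le_ceil _
  have hn0 : (0 : ℝ) < n := lt_of_lt_of_le (by positivity) hnge
  have hn1 : 1 ≤ n := by exact_mod_cast hn0
  have hnr1 : (1 : ℝ) ≤ n := by exact_mod_cast hn1
  refine ⟨n, hn1, Dt, hDt, fun H hH w0 => ?_⟩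
  obtain ⟨Lm, hLm⟩ := hmk n hn1 θ hθ0 (by linarith)
  obtain ⟨XS, hXS⟩ := an_small2 w0
  obtain ⟨XM, hXM⟩ := an_main
  obtain ⟨LM, hLM⟩ := modulus (1 / 8) (by norm_num)
  obtain ⟨K, hK⟩ : ∃ K : ℕ, K = 4000 ^ n := ⟨_, rfl⟩
  have hK1 : 1 ≤ K := by rw [hK]; exact Nat.one_le_pow _ _ (by norm_num)
  have hKr1 : (1 : ℝ) ≤ K := by exact_mod_cast hK1
  obtain ⟨CL, hCL⟩ : ∃ CL : ℝ, CL = (2 * ((n : ℝ) + 1)) ^ K := ⟨_, rfl⟩
  have hCL0 : 0 < CL := by rw [hCL]; positivity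
  obtain ⟨LA, hLA1, hLA⟩ := asym_list η 1 1 CA 1 1 B hη0 one_pos one_pos hCA.le le_rfl one_pos hBC
  obtain ⟨LE, hLE⟩ := n5_large 1 KA η (κ0 * θ / n) 1 1 (max (max Lm LM) LA) one_pos one_pos hη0
    (by positivity) hKA one_pos
  obtain ⟨LF, hLF⟩ := R3_large B K (CQ * (8 * (K : ℝ) ^ 2 * CL * Dt ^ 2 +
    2 * (K * (CL * Dt * 2) + 4 * K * 2 ^ K))) (H.sup id : ℕ) w0
  have h1 : Filter.Tendsto (fun X : ℕ => Real.log X) Filter.atTop Filter.atTop :=
    Real.tendsto_log_atTop.comp tendsto_natCast_atTop_atTop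
  obtain ⟨XL, hXL⟩ := Filter.eventually_atTop.mp (h1.eventually_ge_atTop (max LE LF))
  refine ⟨XS + XM + XL + 1, fun X hX => ?_⟩
  have hL' := hXL X (by omega)
  obtain ⟨L, hL⟩ : ∃ L : ℝ, L = Real.log X := ⟨_, rfl⟩
  rw [← hL] at hL' ⊢
  obtain ⟨b1, b2, b3, b4, b5, b6, b7, b8, b9, b10, b11⟩ := hLE L ((le_max_left _ _).trans hL')
  obtain ⟨f1, f2, f3, f4, f5, f6, f7, f8⟩ := hLF L ((le_max_right _ _).trans hL')
  have bLm : Lm ≤ L := (le_max_left _ _).trans ((le_max_left _ _).trans b1)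
  have bM : LM ≤ L := (le_max_right _ _).trans ((le_max_left _ _).trans b1)
  have bA : LA ≤ L := (le_max_right _ _).trans b1
  have hLpos : 0 < L := by linarith
  have hXpos : 0 < X := by omega
  have hXr : (0 : ℝ) < X := by exact_mod_cast hXpos
  have hXL' : Real.exp L = X := by rw [hL, Real.exp_log hXr]
  have hlogL1 : 1 ≤ Real.log L := by
    rw [Real.le_log_iff_exp_le hLpos]
    have := Real.exp_one_lt_d9
    linarith
  -- the modulus
  obtain ⟨p1, hp1, hp1w, hp1'⟩ := hXS X (by omega)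
  obtain ⟨hm1, hm2⟩ := hXM X (by omega)
  obtain ⟨m1, m2, m3, m4, m5⟩ := hLM L bM p1 hp1
  obtain ⟨y, hy⟩ : ∃ y : ℕ, y = ⌊L ^ (1 / 100 : ℝ)⌋₊ := ⟨_, rfl⟩
  rw [← hy] at m1 m2 m3 m4
  obtain ⟨M, hM⟩ : ∃ M : ℕ, M = pM y p1 := ⟨_, rfl⟩
  rw [← hM] at m1 m2 m3
  have hMpos : 0 < M := by rw [hM]; exact pM_pos _ _
  have hMr : (1 : ℝ) ≤ M := by exact_mod_cast hMpos
  have hMsq : Squarefree M := by rw [hM]; exact pM_squarefree _ _
  have hyw : w0 + 2 ≤ y := by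
    rw [hy]
    apply Nat.le_floor
    push_cast
    linarith
  have hpM : ∀ p : ℕ, p.Prime → p ∣ M → p ≤ y := by
    intro p hp hpd
    rw [hM, prime_dvd_pM y p1 p hp] at hpd
    exact hpd.1
  have hprim : primorial w0 ∣ M := by
    rw [hM]
    unfold primorial pM
    apply Finset.prod_dvd_prod_of_subset
    intro p hp
    rw [Finset.mem_filter, Finset.mem_range] at hp
    rw [Finset.mem_filter, Finset.mem_Icc]
    exact ⟨⟨hp.2.one_lt.le, by omega⟩, hp.2, by omega⟩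
  -- `W`
  obtain ⟨W, hW⟩ : ∃ W : ℕ, W = ⌈L ^ B⌉₊ := ⟨_, rfl⟩
  have hWL : L ^ B ≤ (W : ℝ) := by rw [hW]; exact Nat.le_ceil _
  have hlogW : Real.log W ≤ ((B : ℝ) + 1) * Real.log L := by
    rw [hW]
    exact n5_logW B L (by linarith)
  have hL3 : L ^ 3 ≤ L ^ B := pow_le_pow_right₀ (by linarith) hB3
  have hLL : L ≤ L ^ 3 := by
    calc L = L ^ 1 := (pow_one L).symm
      _ ≤ L ^ 3 := pow_le_pow_right₀ (by linarith) (by norm_num)
  have hWge : L ≤ W := by linarith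
  have hWpos : (0 : ℝ) < W := by linarith
  have hKW400 : 400 * K ^ 2 ≤ W := by
    have : (400 : ℝ) * K ^ 2 ≤ W := by linarith
    exact_mod_cast this
  have hKW4 : 4 * (4000 ^ n) ^ 2 ≤ W := by
    rw [← hK]
    omega
  obtain ⟨w, wn, wW, wP, wDt, wlv, wh, wc⟩ := hLm L bLm W hKW4 (hlogW.trans f1)
  have wCL : w.CL = CL := by
    unfold Par.CL
    rw [wn, hCL, hK]
  -- the period bound
  obtain ⟨D, hD⟩ : ∃ D : ℕ, D = ⌊Real.exp (η * L)⌋₊ := ⟨_, rfl⟩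
  have hexp1 : 1 ≤ Real.exp (η * L) := Real.one_le_exp (by positivity)
  have hD1 : 1 ≤ D := by rw [hD]; exact Nat.le_floor (by exact_mod_cast hexp1)
  have hD2 : (D : ℝ) ≤ Real.exp (η * L) := by rw [hD]; exact Nat.floor_le (Real.exp_pos _).le
  have hD3 : Real.exp (η * L) / 2 ≤ D := by
    have h1 := Nat.lt_floor_add_one (Real.exp (η * L))
    rw [← hD] at h1
    have h2 : (1 : ℝ) ≤ D := by exact_mod_cast hD1
    linarith
  have hReg : RegP KA (D * M) X :=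
    n5_RegP hKA hη.le hD1 hMpos hD3 hD2 m1 b2 b7 b8 b9 (by rw [← hL]; linarith) hL.symm.le
  have hA0 := hall (D * M) X hReg
  rw [← hL] at hA0
  have hexp10 : Real.exp (2 * L ^ (1 / 100 : ℝ)) ≤ Real.exp (L ^ (1 / 10 : ℝ)) := by
    refine m5.trans (Real.exp_le_exp.2 ?_)
    exact Real.rpow_le_rpow (by linarith) (by linarith) (by norm_num)
  have hp1M : ¬ p1 ∣ M := by
    rw [hM, prime_dvd_pM y p1 p1 hp1]
    exact fun h => h.2 rfl
  have hA1 := hp1' M hMpos hMsq (by rw [← hL]; exact m1.trans hexp10) hp1M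
  rw [← hL] at hA1
  have hA1' : 1 / L ≤ 1 / 100 := one_div_le_one_div_of_le (by norm_num) (by linarith)
  have hA0pos : 0 ≤ L ^ CA := Real.rpow_nonneg hLpos.le _
  obtain ⟨-, -, n4, -⟩ := hLA L bA 1 W M D (L ^ CA) zero_le_one (by linarith) hWL hMr m1 hD3
    hA0pos le_rfl
  -- powers
  have hu4 : Real.exp (L / 4) ^ 4 = X := by
    rw [← Real.exp_nat_mul, ← hXL']
    congr 1
    push_cast
    ring
  obtain ⟨u, hu⟩ : ∃ u : ℝ, u = Real.exp (L / 4) := ⟨_, rfl⟩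
  rw [← hu] at hu4 b10
  have hupos : 0 < u := by rw [hu]; exact Real.exp_pos _
  have hu2X : 100000 * u ≤ X := R3_u u X b10 hu4
  have hMu : (M : ℝ) ≤ u := by
    rw [hu]
    refine m2.trans (Real.exp_le_exp.2 ?_)
    linarith
  have hT : κ0 * θ * L / n = κ0 * θ / n * L := by ring
  have hTle : κ0 * θ * L / n ≤ L / 4 := by
    rw [hT]
    exact R3_T κ0 θ n L hκ0 hκ1 hθ0 hθ1 hnr1 hLpos
  have hPle : ∀ p ∈ w.P, W < p ∧ (p : ℝ) ≤ u := by
    intro p hp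
    rw [wP] at hp
    unfold PP at hp
    obtain ⟨h1, h2⟩ := mem_filter.1 hp
    obtain ⟨h3, h4⟩ := mem_Ioc.1 h1
    refine ⟨h3, ?_⟩
    have h6 : ((⌊Real.exp (κ0 * θ * L / n)⌋₊ : ℕ) : ℝ) ≤ Real.exp (κ0 * θ * L / n) :=
      Nat.floor_le (Real.exp_pos _).le
    have h7 : (p : ℝ) ≤ ((⌊Real.exp (κ0 * θ * L / n)⌋₊ : ℕ) : ℝ) := by exact_mod_cast h4
    have h8 : Real.exp (κ0 * θ * L / n) ≤ u := by
      rw [hu]
      exact Real.exp_le_exp.2 hTle
    linarith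
  have hyL : (y : ℝ) ≤ L := m4
  have hcop : ∀ p ∈ w.P, ¬ p ∣ M := by
    intro p hp hd
    have h1 := hpM p (w.prime p hp) hd
    have h2 := (hPle p hp).1
    have h3 : (W : ℝ) < p := by exact_mod_cast h2
    have h4 : (p : ℝ) ≤ y := by exact_mod_cast h1
    linarith
  have hHle : ∀ h ∈ H, (h : ℝ) ≤ (H.sup id : ℕ) := by
    intro h hh
    have : h ≤ H.sup id := Finset.le_sup (f := id) hh
    exact_mod_cast this
  have hHW : ∀ h ∈ H, h ≤ w.W := by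
    intro h hh
    rw [wW]
    have h1 := hHle h hh
    have : (h : ℝ) ≤ W := by linarith
    exact_mod_cast this
  have hu2 : Real.exp (L / 2) = u ^ 2 := by
    rw [hu, ← Real.exp_nat_mul]
    congr 1
    push_cast
    ring
  have hHX : ∀ h ∈ H, 8 * (M + h) ≤ X := by
    intro h hh
    have h1 := hHle h hh
    rw [hu2] at f8
    have h2 : u ^ 2 ≤ X := by
      rw [← hu4]
      exact pow_le_pow_right₀ (by linarith) (by norm_num)
    have h3 : (8 : ℝ) * (M + h) ≤ X := by linarith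
    exact_mod_cast h3
  have hcardJ : Fintype.card {h // h ∈ H} = 4000 ^ n := by
    rw [Fintype.card_coe, hH]
  have hforms : ∀ v : ℕ, Forms w.P w.W (4000 ^ n) M (fun h : {h // h ∈ H} => v + h.1) := by
    intro v
    refine ⟨w.prime, w.big, hcop, ?_, w.Kpos, ?_, w.KW⟩
    · intro p hp j j' hne hm
      apply hne
      apply Subtype.ext
      have h1 := hHW j.1 j.2
      have h2 := hHW j'.1 j'.2
      have h3 := w.big p hp
      have h4 : j.1 ≡ j'.1 [MOD p] := Nat.ModEq.add_left_cancel' v hm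
      have h5 : j.1 % p = j.1 := Nat.mod_eq_of_lt (by omega)
      have h6 : j'.1 % p = j'.1 := Nat.mod_eq_of_lt (by omega)
      unfold Nat.ModEq at h4
      omega
    · rw [hcardJ]
  have hT1 : 1 ≤ κ0 * θ * L / n := by rw [hT]; exact b6
  have hTL : κ0 * θ * L / n ≤ L := by linarith
  have hQ1 : ((∏ p ∈ w.P, p : ℕ) : ℝ) / ((∏ p ∈ w.P, p).totient : ℝ) ≤ CQ * L := by
    rw [wP]
    exact (hQt W _ hT1).trans (mul_le_mul_of_nonneg_left hTL hCQ.le)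
  have hlv0 : 0 ≤ w.lv := by linarith [w.lv1]
  have hDr : (0 : ℝ) < D := by exact_mod_cast hD1
  have hLC : L ^ CA * L ^ 3 ≤ L ^ B := by
    rw [← Real.rpow_natCast L 3, ← Real.rpow_natCast L B, ← Real.rpow_add hLpos]
    apply Real.rpow_le_rpow_of_exponent_le (by linarith)
    push_cast
    linarith
  have hCLD : 0 < CQ * (8 * (K : ℝ) ^ 2 * CL * Dt ^ 2) := by positivity
  have hCLD2 : 0 < CQ * (2 * (K * (CL * Dt * 2) + 4 * K * 2 ^ K)) := by positivity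
  have hexpand : CQ * (8 * (K : ℝ) ^ 2 * CL * Dt ^ 2 +
      2 * (K * (CL * Dt * 2) + 4 * K * 2 ^ K)) = CQ * (8 * (K : ℝ) ^ 2 * CL * Dt ^ 2) +
        CQ * (2 * (K * (CL * Dt * 2) + 4 * K * 2 ^ K)) := by ring
  rw [hexpand] at f4
  have hL1 : 1 ≤ L := by linarith
  have hLsq : L * L ≤ L ^ 3 := R3_sq L hL1
  have hKr : ((4000 ^ n : ℕ) : ℝ) = K := by rw [hK]
  refine ⟨w, M, y, ?_, hprim, by omega, hyL, hpM, wn, wDt.le, wh⟩
  refine
    { cardH := hH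
      g1 := hg
      M0 := hMpos
      X0 := hXpos
      sqf := hMsq
      cop := hcop
      HW := hHW
      HX := hHX
      KW := by rw [wW, ← hK]; exact hKW400
      long := ?_
      prime := ?_
      gain := ?_ }
  · -- long
    rw [← hL, hKr]
    have e1 : w.lv ^ 4 ≤ Real.exp (L / 16) := by
      calc w.lv ^ 4 ≤ Real.exp (θ * L) ^ 4 := pow_le_pow_left₀ hlv0 wlv 4
        _ = Real.exp (4 * θ * L) := by
            rw [← Real.exp_nat_mul]
            congr 1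
            push_cast
            ring
        _ ≤ Real.exp (L / 16) := by
            apply Real.exp_le_exp.2
            exact R3_th θ L hθ1 hLpos
    have e2 : (M : ℝ) ≤ Real.exp (L / 8) := by
      refine m2.trans (le_of_eq ?_)
      congr 1
      ring
    have e3 : Real.exp (2 * Real.sqrt L) ≤ Real.exp (L / 8) := by
      exact Real.exp_le_exp.2 (R3_root L f7)
    rw [← hXL']
    exact R3_long K (w.lv ^ 4) M _ L (by linarith) (pow_nonneg hlv0 4) (by linarith)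
      (Real.exp_pos _).le hLpos.le f6 e1 e2 e3
  · -- prime
    intro v hv h0 hh0
    unfold cF at hv
    rw [Finset.mem_filter, Finset.mem_range] at hv
    have hcopv : (v + h0).Coprime M := by
      refine Nat.Coprime.coprime_dvd_left ?_ hv.2
      exact Finset.dvd_prod_of_mem (fun h => v + h) hh0
    have h8M : 8 * M < X := by
      have h3 : (8 : ℝ) * M < X := by
        have : (0 : ℝ) < u := hupos
        linarith
      exact_mod_cast h3
    have hY : 60 * X < M * (60 * X / M + 1) := by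
      have := Nat.lt_mul_div_succ (60 * X) hMpos
      simpa using this
    have hkey := w.prime_ge hcardJ M X (60 * X / M + 1) (D * M) D
      (fun h : {h // h ∈ H} => v + h.1) (hforms v) ⟨h0, hh0⟩ hMpos hcopv
      (by
        have := hHX h0 hh0
        show 8 * (v + h0) ≤ X
        omega) hXpos
      (by
        intro p hp
        have h1 := (hPle p hp).2
        have h3 : (8 : ℝ) * p < X := by linarith
        exact_mod_cast h3) h8M hY (L ^ CA) (1 / L) hD1 le_rfl hA0 hA1 hA1' hm1 hm2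
      (by
        rw [hKr, wW]
        exact_mod_cast hKW400)
      (by
        rw [hKr, wW, wCL, wDt]
        have e0 : 0 ≤ 8 * (K : ℝ) ^ 2 * CL * Dt ^ 2 / W := by positivity
        calc _ ≤ CQ * L * (8 * (K : ℝ) ^ 2 * CL * Dt ^ 2 / W) := by
              exact mul_le_mul_of_nonneg_right hQ1 e0
          _ = CQ * (8 * (K : ℝ) ^ 2 * CL * Dt ^ 2) * L / W := by ring
          _ ≤ 1 / 100 := R3_n2 _ L W (by linarith) hLpos (hLsq.trans (hL3.trans hWL)))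
      (by
        have hle : w.lv ^ 2 ≤ Real.exp (η / 16 * L) ^ 2 := by
          apply pow_le_pow_left₀ hlv0
          rw [← hθ]
          exact wlv
        refine le_trans ?_ n4
        have hM0 : (0 : ℝ) ≤ M := by linarith
        have hnn : 0 ≤ 10 + L ^ CA + 1 / L + 10 * (M : ℝ) := by positivity
        have h1L : 10 + L ^ CA + 1 / L + 10 * (M : ℝ) ≤ 10 + L ^ CA + 1 / 100 + 10 * M := by
          linarith
        have h2L : w.lv ^ 2 / D ≤ Real.exp (η / 16 * L) ^ 2 / D := by gcongr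
        exact mul_le_mul h2L h1L hnn (by positivity))
      (by
        rw [hKr, wW, wCL, wDt]
        have e0 : 0 ≤ 2 * ((K : ℝ) * (CL * Dt * (2 / W)) + 4 * K / W * 2 ^ (4000 ^ n)) := by
          positivity
        calc _ ≤ 2 * ((K : ℝ) * (CL * Dt * (2 / W)) + 4 * K / W * 2 ^ (4000 ^ n)) * (CQ * L) *
                L ^ CA := by
              gcongr
          _ = (CQ * (2 * (K * (CL * Dt * 2) + 4 * K * 2 ^ K))) * (L * L ^ CA) / W := by
              rw [← hK]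
              field_simp
          _ ≤ 1 / 100 := R3_n5 _ L (L ^ CA) W (by linarith) hLpos
              (Real.rpow_pos_of_pos hLpos _)
              ((mul_le_mul_of_nonneg_left hLsq (Real.rpow_nonneg hLpos.le _)).trans
                (hLC.trans hWL)))
    exact hkey
  · -- gain
    rw [hKr]
    have hX60 : Real.log (60 * X) ≤ 2 * L := R3_log X L hXr hL f7
    have hφ0 : (0 : ℝ) ≤ M.totient := Nat.cast_nonneg _
    have hlogW0 : 0 < Real.log W := by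
      apply Real.log_pos
      linarith
    have hKc : κ0 * θ * n * L / (8000 * (((B : ℝ) + 1) * Real.log L)) ≤
        (K : ℝ) * (1 + w.n * w.c) ^ 2 := by
      have h1 : (K : ℝ) = 4000 ^ n := by rw [hK]; push_cast; ring
      rw [h1, wn]
      refine le_trans ?_ wc
      have h2 : 0 ≤ κ0 * θ * n * L := by positivity
      apply div_le_div_of_nonneg_left h2 (by positivity)
      linarith
    have hMφ : (M.totient : ℝ) * Real.log L / 400 ≤ M :=
      R3_tot _ _ _ (by linarith) m3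
    have hng : 10 ^ 12 * g * ((B : ℝ) + 1) ≤ n * (κ0 * θ) := by
      rwa [div_le_iff₀ (by positivity)] at hnge
    calc 10 ^ 5 * (g : ℝ) * Real.log (60 * X) * M.totient
        ≤ 10 ^ 5 * (g : ℝ) * (2 * L) * M.totient := by gcongr
      _ ≤ (κ0 * θ * n * L / (8000 * (((B : ℝ) + 1) * Real.log L))) *
          ((M.totient : ℝ) * Real.log L / 400) :=
          R3_gain κ0 θ n g B L (Real.log L) M.totient (by linarith) hBr hLpos (by linarith) hφ0 hng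
      _ ≤ (K : ℝ) * (1 + w.n * w.c) ^ 2 * M := by
          have h5 : 0 ≤ (K : ℝ) * (1 + w.n * w.c) ^ 2 := by positivity
          apply mul_le_mul hKc hMφ (by positivity) h5

end Pool.Agent.Lib.H57M
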