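import Pool.Agent.Lib.H57M.N1
import Pool.Agent.Lib.H57M.N2
import Pool.Agent.Lib.H57M.N3
import Pool.Agent.Lib.H57M.R3

/-!
# Chunk N4: the weight theorem
-/

open Finset

namespace Pool.Agent.Lib.H57M

open Pool.Agent.Lib.H15P Pool.Agent.Lib.H92G

/-- The properties of the weight `f` at the scale `X` with the total mass `S`. -/
structure MW (H : Finset ℕ) (g w X : ℕ) (C : ℝ) (f : ℕ → ℝ) (S : ℝ) : Prop where
  nonneg : ∀ n, 0 ≤ f n
  bdd : ∀ n, f n ≤ Real.log X ^ C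
  supp : ∀ n, f n ≠ 0 → n ≤ 60 * X ∧ g ≤ npr H n
  mass : (X : ℝ) ≤ S * Real.log X ^ C
  upper : ∀ q b : ℕ, Squarefree q → (q : ℝ) ≤ Real.exp (Real.sqrt (Real.log X)) →
    ∑ n ∈ (Icc 1 (60 * X)).filter (fun n => n ≡ b [MOD q]), f n ≤
      C ^ q.primeFactors.card * S / q
  lower : ∀ v : ℕ, (∏ h ∈ H, (v + h)).Coprime (primorial w) →
    S ≤ C * (cF H (primorial w)).card *
      ∑ n ∈ (Icc 1 (60 * X)).filter (fun n => n ≡ v [MOD primorial w]), f n

/-- a sum over a residue class modulo `P` is at least the sum over the residue classes modulo `M` in it -/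
theorem N4_classes (A V : Finset ℕ) (P M v : ℕ) (hP : P ∣ M) (F : ℕ → ℝ) (hF : ∀ n, 0 ≤ F n)
    (hV : ∀ v' ∈ V, v' < M ∧ v' ≡ v [MOD P]) :
    ∑ v' ∈ V, ∑ n ∈ A.filter (fun n => n ≡ v' [MOD M]), F n ≤
      ∑ n ∈ A.filter (fun n => n ≡ v [MOD P]), F n := by
  classical
  have h1 : ∑ v' ∈ V, ∑ n ∈ A.filter (fun n => n ≡ v' [MOD M]), F n =
      ∑ v' ∈ V, ∑ n ∈ (A.filter (fun n => n % M ∈ V)).filter (fun n => n % M = v'), F n := by
    refine sum_congr rfl fun v' hv' => ?_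
    refine sum_congr ?_ fun _ _ => rfl
    ext n
    rw [mem_filter, mem_filter, mem_filter]
    constructor
    · rintro ⟨h2, h3⟩
      have h4 : n % M = v' := by
        have h5 : n % M = v' % M := h3
        rw [h5, Nat.mod_eq_of_lt (hV v' hv').1]
      exact ⟨⟨h2, by rw [h4]; exact hv'⟩, h4⟩
    · rintro ⟨⟨h2, -⟩, h3⟩
      refine ⟨h2, ?_⟩
      show n % M = v' % M
      rw [h3, Nat.mod_eq_of_lt (hV v' hv').1]
  rw [h1, sum_fiberwise_of_maps_to (s := A.filter (fun n => n % M ∈ V)) (t := V)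
    (g := fun n => n % M) (fun n hn => (mem_filter.1 hn).2)]
  refine sum_le_sum_of_subset_of_nonneg ?_ (fun n _ _ => hF n)
  intro n hn
  rw [mem_filter] at hn ⊢
  exact ⟨hn.1, ((Nat.mod_modEq n M).symm.of_dvd hP).trans (hV _ hn.2).2⟩

/-- `regime`, `K = 4000^n`, `f = wf w H M X g T0` with `T0 = (log X)^C`, and
`S = 200 CL (X/M) #(cF H M)`. `T0` satisfies the hypothesis of `wf_lower` for large `X` if
`C ≥ 4 K` (`h ≤ (log X)^3`). `upper` is `wf_class_le`. `mass`: `cF_density`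
(`y ≤ log X`): `M ≤ #(cF H M) (log X)^((K+1)^2)`. `lower`: the good residues `v' ∈ cF H M` with `v' ≡ v mod
primorial w` (`#` of them times `#(cF H (primorial w))` is `#(cF H M)`, `cF_above`), each contributes at least
`X/(K M)` (`wf_lower`), in total at least `S/(200 CL K #(cF H (primorial w)))`. -/
theorem maynard_weight' (g : ℕ) (hg : 1 ≤ g) : ∃ K : ℕ, 1 ≤ K ∧ ∃ C : ℝ, 1 ≤ C ∧
    ∀ H : Finset ℕ, H.card = K → Adm H → ∀ w : ℕ, ∃ X0 : ℕ, ∀ X : ℕ, X0 ≤ X →
      ∃ (f : ℕ → ℝ) (S : ℝ), MW H g w X C f S := by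
  classical
  obtain ⟨n, hn1, C0, hC0, hreg⟩ := regime g hg
  set K : ℕ := 4000 ^ n with hKdef
  have hK1 : 1 ≤ K := Nat.one_le_pow _ _ (by norm_num)
  have hK1R : (1 : ℝ) ≤ K := by exact_mod_cast hK1
  have hK0R : (0 : ℝ) < K := by linarith
  refine ⟨K, hK1, ?_⟩
  set CL0 : ℝ := (2 * ((n : ℝ) + 1)) ^ K with hCL0
  have hCL1 : 1 ≤ CL0 := by
    apply one_le_pow₀
    have : (0 : ℝ) ≤ n := Nat.cast_nonneg _
    linarith
  set A2 : ℝ := 2 * ((n : ℝ) + 1) ^ 4 with hA2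
  have hA20 : 0 < A2 := by positivity
  set C : ℝ := (3 * K + 1) + 2 * C0 * (K + 1) + ((K : ℝ) + 1) ^ 2 + 200 * CL0 * K with hC
  have hp1 : 0 ≤ 2 * C0 * ((K : ℝ) + 1) := by positivity
  have hp2 : 0 ≤ ((K : ℝ) + 1) ^ 2 := by positivity
  have hp3 : 0 ≤ 200 * CL0 * (K : ℝ) := by positivity
  have hCa : (3 * K + 1 : ℝ) ≤ C := by linarith
  have hCb : 2 * C0 * ((K : ℝ) + 1) ≤ C := by linarith
  have hCc : ((K : ℝ) + 1) ^ 2 ≤ C := by linarith
  have hCd : 200 * CL0 * (K : ℝ) ≤ C := by linarith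
  refine ⟨C, by linarith, fun H hHK hH w0 => ?_⟩
  obtain ⟨X0, hX0⟩ := hreg H hHK w0
  refine ⟨max X0 (max 3 ⌈Real.exp (2 * K * A2 ^ K)⌉₊), fun X hX => ?_⟩
  have hXa : X0 ≤ X := (le_max_left _ _).trans hX
  have hXb : 3 ≤ X := ((le_max_left _ _).trans (le_max_right _ _)).trans hX
  have hXc : ⌈Real.exp (2 * K * A2 ^ K)⌉₊ ≤ X :=
    ((le_max_right _ _).trans (le_max_right _ _)).trans hX
  obtain ⟨w, M, y, hS, hPM, hy2, hyL, hyp, hwn, hDt, hh⟩ := hX0 X hXa
  have hM := hS.M0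
  have hMR : (0 : ℝ) < M := by exact_mod_cast hM
  have hXR : (0 : ℝ) < X := by exact_mod_cast hS.X0
  set L : ℝ := Real.log X with hL
  have hL2 : 2 * K * A2 ^ K ≤ L := by
    rw [hL, Real.le_log_iff_exp_le hXR]
    exact (Nat.le_ceil _).trans (by exact_mod_cast hXc)
  have hA2K : 1 ≤ A2 ^ K := by
    apply one_le_pow₀
    rw [hA2]
    have : (1 : ℝ) ≤ ((n : ℝ) + 1) ^ 4 := by
      apply one_le_pow₀
      have : (0 : ℝ) ≤ n := Nat.cast_nonneg _
      linarith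
    linarith
  have hL1 : 1 ≤ L := by nlinarith
  have hL0 : 0 < L := by linarith
  have hCLw : w.CL = CL0 := by
    unfold Par.CL
    rw [hwn]
  -- the threshold
  have hT0 : 2 * K * (((w.n : ℝ) + 1) ^ 4 * (1 + w.h)) ^ K ≤ L ^ C := by
    have h1 : ((w.n : ℝ) + 1) ^ 4 * (1 + w.h) ≤ A2 * L ^ 3 := by
      rw [hwn]
      have h2 : 1 + w.h ≤ 2 * L ^ 3 := by
        have : 1 ≤ L ^ 3 := one_le_pow₀ hL1
        linarith
      calc ((n : ℝ) + 1) ^ 4 * (1 + w.h) ≤ ((n : ℝ) + 1) ^ 4 * (2 * L ^ 3) :=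
            mul_le_mul_of_nonneg_left h2 (by positivity)
        _ = A2 * L ^ 3 := by rw [hA2]; ring
    have h2 : (((w.n : ℝ) + 1) ^ 4 * (1 + w.h)) ^ K ≤ (A2 * L ^ 3) ^ K := by
      apply pow_le_pow_left₀ _ h1
      have := w.h0
      positivity
    calc 2 * K * (((w.n : ℝ) + 1) ^ 4 * (1 + w.h)) ^ K ≤ 2 * K * (A2 * L ^ 3) ^ K :=
          mul_le_mul_of_nonneg_left h2 (by positivity)
      _ = (2 * K * A2 ^ K) * L ^ (3 * K) := by rw [mul_pow, ← pow_mul]; ring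
      _ ≤ L * L ^ (3 * K) := mul_le_mul_of_nonneg_right hL2 (by positivity)
      _ = L ^ ((3 * K + 1 : ℕ) : ℝ) := by rw [Real.rpow_natCast, pow_succ, mul_comm]
      _ ≤ L ^ C := by
          apply Real.rpow_le_rpow_of_exponent_le hL1
          push_cast
          exact hCa
  have hLC0 : 0 < L ^ C := Real.rpow_pos_of_pos hL0 C
  set S : ℝ := 200 * w.CL * ((X : ℝ) / M) * (cF H M).card with hSdef
  have hS0 : 0 ≤ S := by
    rw [hSdef, hCLw]
    positivity
  have hwf0 : ∀ n, 0 ≤ wf w H M X g (L ^ C) n := N3_wf_nonneg w H M X g (L ^ C)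
  refine ⟨wf w H M X g (L ^ C), S, hwf0, ?_, ?_, ?_, ?_, ?_⟩
  · intro m
    unfold wf
    split_ifs with h
    · exact h.2.2.2
    · exact hLC0.le
  · intro m hm
    unfold wf at hm
    split_ifs at hm with h
    · exact ⟨h.1, h.2.2.1⟩
    · exact absurd rfl hm
  · -- mass
    have h1 := cF_density H hH y M hy2 hS.sqf hyp
    rw [hHK] at h1
    have h2 : (y : ℝ) ^ ((K + 1) ^ 2) ≤ L ^ C := by
      calc (y : ℝ) ^ ((K + 1) ^ 2) ≤ L ^ ((K + 1) ^ 2) :=
            pow_le_pow_left₀ (Nat.cast_nonneg _) hyL _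
        _ = L ^ (((K + 1) ^ 2 : ℕ) : ℝ) := (Real.rpow_natCast _ _).symm
        _ ≤ L ^ C := by
            apply Real.rpow_le_rpow_of_exponent_le hL1
            push_cast
            exact hCc
    have h3 : (M : ℝ) ≤ (cF H M).card * L ^ C :=
      h1.trans (mul_le_mul_of_nonneg_left h2 (Nat.cast_nonneg _))
    have h4 : S * L ^ C = (200 * CL0) * (((cF H M).card * L ^ C) * ((X : ℝ) / M)) := by
      rw [hSdef, hCLw]
      ring
    have h5 : (X : ℝ) ≤ ((cF H M).card * L ^ C) * ((X : ℝ) / M) := by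
      calc (X : ℝ) = M * ((X : ℝ) / M) := by field_simp
        _ ≤ _ := mul_le_mul_of_nonneg_right h3 (by positivity)
    rw [h4]
    have h6 : (1 : ℝ) ≤ 200 * CL0 := by linarith
    exact h5.trans (le_mul_of_one_le_left (hXR.le.trans h5) h6)
  · -- upper
    intro q b hq hq2
    have h1 := wf_class_le w H M X g hS hH (L ^ C) q b hq hq2
    refine h1.trans ?_
    have hq0 : (0 : ℝ) < q := by exact_mod_cast Nat.pos_of_ne_zero hq.ne_zero
    apply div_le_div_of_nonneg_right _ hq0.le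
    apply mul_le_mul_of_nonneg_right _ hS0
    have hDt1 := w.Dt1
    apply pow_le_pow_left₀
    · positivity
    · refine le_trans ?_ hCb
      apply mul_le_mul_of_nonneg_right _ (by positivity)
      linarith
  · -- lower
    intro v hv
    set V := (cF H M).filter (fun v' => v' ≡ v [MOD primorial w0]) with hV
    have h1 := N4_classes (Icc 1 (60 * X)) V (primorial w0) M v hPM (wf w H M X g (L ^ C)) hwf0
      (fun v' hv' => by
        rw [hV, mem_filter, N1_mem] at hv'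
        exact ⟨hv'.1.1, hv'.2⟩)
    have h2 : ∀ v' ∈ V, (X : ℝ) / (K * M) ≤
        ∑ n ∈ (Icc 1 (60 * X)).filter (fun n => n ≡ v' [MOD M]), wf w H M X g (L ^ C) n := by
      intro v' hv'
      rw [hV, mem_filter] at hv'
      have h3 := wf_lower w H M X g hS (L ^ C) hT0 v' hv'.1
      rw [div_le_iff₀ (by positivity), mul_comm]
      exact h3
    have h3 : (V.card : ℝ) * ((X : ℝ) / (K * M)) ≤
        ∑ n ∈ (Icc 1 (60 * X)).filter (fun n => n ≡ v [MOD primorial w0]),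
          wf w H M X g (L ^ C) n := by
      refine le_trans ?_ h1
      rw [← nsmul_eq_mul]
      exact card_nsmul_le_sum V _ _ h2
    have h4 := cF_above H (primorial w0) M v hS.sqf hPM hv
    have h5 : ((cF H M).card : ℝ) = V.card * (cF H (primorial w0)).card := by
      rw [← h4]
      push_cast
      rfl
    have hC0' : 0 ≤ C := hp3.trans hCd
    calc S = (200 * CL0 * K) * ((cF H (primorial w0)).card * (V.card * ((X : ℝ) / (K * M)))) := by
          rw [hSdef, hCLw, h5]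
          field_simp
      _ ≤ C * ((cF H (primorial w0)).card * (V.card * ((X : ℝ) / (K * M)))) :=
          mul_le_mul_of_nonneg_right hCd (by positivity)
      _ ≤ C * ((cF H (primorial w0)).card *
          ∑ n ∈ (Icc 1 (60 * X)).filter (fun n => n ≡ v [MOD primorial w0]),
            wf w H M X g (L ^ C) n) := by
          apply mul_le_mul_of_nonneg_left _ hC0'
          exact mul_le_mul_of_nonneg_left h3 (Nat.cast_nonneg _)
      _ = _ := by ring

theorem maynard_weight (g : ℕ) (hg : 1 ≤ g) : ∃ K : ℕ, 1 ≤ K ∧ ∀ H : Finset ℕ, H.card = K →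
    Adm H → ∃ C : ℝ, 1 ≤ C ∧ ∀ w : ℕ, ∃ X0 : ℕ, ∀ X : ℕ, X0 ≤ X →
      ∃ (f : ℕ → ℝ) (S : ℝ), MW H g w X C f S := by
  obtain ⟨K, hK1, C, hC, h⟩ := maynard_weight' g hg
  exact ⟨K, hK1, fun H hH hA => ⟨C, hC, h H hH hA⟩⟩

end Pool.Agent.Lib.H57M
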