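import Pool.Agent.Lib.H57M.Loc
import Pool.Agent.Lib.H57M.N1
import Pool.Agent.Lib.H56G.Crt

/-!
# Chunk P1: the local factors
-/

open Finset Polynomial

namespace Pool.Agent.Lib.H57M

/-- Product formula for a squarefree modulus. -/
theorem P1_sum (P : ℕ) (hP : Squarefree P) (F : ℕ → ℕ → ℝ)
    (hF : ∀ p ∈ P.primeFactors, Function.Periodic (F p) p) :
    ∑ t ∈ range P, ∏ p ∈ P.primeFactors, F p t = ∏ p ∈ P.primeFactors, ∑ t ∈ range p, F p t := by
  have h := H56G.sum_range_prod (ι := {p // p ∈ P.primeFactors}) (fun i => i.1)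
    (fun i => Nat.prime_of_mem_primeFactors i.2) Subtype.val_injective univ
    (fun i => F i.1) (fun i => hF i.1 i.2)
  have e1 : ∏ i : {p // p ∈ P.primeFactors}, i.1 = P := by
    rw [Finset.prod_coe_sort P.primeFactors (fun p => p)]
    exact Nat.prod_primeFactors_of_squarefree hP
  rw [e1, Finset.prod_coe_sort P.primeFactors (fun p => ∑ t ∈ range p, F p t)] at h
  rw [← h]
  refine Finset.sum_congr rfl fun t _ => ?_
  rw [Finset.prod_coe_sort P.primeFactors (fun p => F p t)]

/-- The condition on the residue `v`. -/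
def P1_gd (H : Finset ℕ) (G : ℤ[X]) (N P v : ℕ) : Prop :=
  (∏ h ∈ H, (v + h)).Coprime P ∧ IsCoprime ((N : ℤ) - G.eval (v : ℤ)) (P : ℤ)

theorem P1_aN_eq (H : Finset ℕ) (G : ℤ[X]) (N P : ℕ) :
    (open Classical in aN H G N P = (range P).filter (fun v => P1_gd H G N P v)) := by
  classical
  ext v
  rw [Finset.mem_filter]
  simp only [aN, cF, P1_gd, Finset.mem_filter, and_assoc]

theorem P1_cop_periodic (H : Finset ℕ) (p v : ℕ) :
    (∏ h ∈ H, (v + p + h)).Coprime p ↔ (∏ h ∈ H, (v + h)).Coprime p := by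
  have h : ∏ h ∈ H, (v + p + h) ≡ ∏ h ∈ H, (v + h) [MOD p] := by
    induction H using Finset.induction_on with
    | empty => rfl
    | insert a s ha ih =>
      rw [Finset.prod_insert ha, Finset.prod_insert ha]
      refine Nat.ModEq.mul ?_ ih
      have : v + p + a = v + a + p := by ring
      rw [this]
      exact Nat.add_modEq_right
  unfold Nat.Coprime
  rw [h.gcd_eq]

theorem P1_gd_periodic (H : Finset ℕ) (G : ℤ[X]) (N p v : ℕ) :
    P1_gd H G N p (v + p) ↔ P1_gd H G N p v := by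
  unfold P1_gd
  rw [P1_cop_periodic]
  have h : ((v : ℤ) + p - v) ∣ G.eval ((v : ℤ) + p) - G.eval (v : ℤ) := Polynomial.sub_dvd_eval_sub _ _ _
  rw [add_sub_cancel_left] at h
  obtain ⟨c, hc⟩ := h
  have e : (N : ℤ) - G.eval (((v + p : ℕ) : ℤ)) = (N : ℤ) - G.eval (v : ℤ) + (p : ℤ) * (-c) := by
    push_cast
    linear_combination -hc
  rw [e, IsCoprime.add_mul_left_left_iff]

theorem P1_gd_iff (H : Finset ℕ) (G : ℤ[X]) (N P v : ℕ) (hP : Squarefree P) :
    P1_gd H G N P v ↔ ∀ p ∈ P.primeFactors, P1_gd H G N p v := by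
  unfold P1_gd
  have e := Nat.prod_primeFactors_of_squarefree hP
  constructor
  · rintro ⟨h1, h2⟩ p hp
    have hd := Nat.dvd_of_mem_primeFactors hp
    exact ⟨h1.coprime_dvd_right hd, h2.of_isCoprime_of_dvd_right (Int.natCast_dvd_natCast.2 hd)⟩
  · intro h
    constructor
    · rw [← e]
      exact Nat.Coprime.prod_right fun p hp => (h p hp).1
    · have : (P : ℤ) = ∏ p ∈ P.primeFactors, (p : ℤ) := by
        rw [← Nat.cast_prod, e]
      rw [this]
      exact IsCoprime.prod_right fun p hp => (h p hp).2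

/-- Chinese remainder theorem: the conditions modulo `P` are the conditions modulo all `p ∣ P`. -/
theorem aN_card (H : Finset ℕ) (G : ℤ[X]) (N P : ℕ) (hP : Squarefree P) :
    (aN H G N P).card = ∏ p ∈ P.primeFactors, (aN H G N p).card := by
  classical
  have h := P1_sum P hP (fun p t => if P1_gd H G N p t then 1 else 0) (by
    intro p _ t
    simp only [P1_gd_periodic])
  have e1 : ∀ q : ℕ, ((aN H G N q).card : ℝ) = ∑ t ∈ range q, if P1_gd H G N q t then (1 : ℝ) else 0 := by
    intro q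
    rw [P1_aN_eq, Finset.sum_boole]
  have e2 : ((aN H G N P).card : ℝ) = ((∏ p ∈ P.primeFactors, (aN H G N p).card : ℕ) : ℝ) := by
    rw [Nat.cast_prod, Finset.prod_congr rfl (fun p _ => e1 p), ← h, e1]
    refine Finset.sum_congr rfl fun t _ => ?_
    rw [Finset.prod_boole]
    by_cases hg : P1_gd H G N P t
    · rw [if_pos hg, if_pos ((P1_gd_iff H G N P t hP).1 hg)]
    · rw [if_neg hg, if_neg (fun hh => hg ((P1_gd_iff H G N P t hP).2 hh))]
  exact_mod_cast e2

theorem P1_cF_le (H : Finset ℕ) (p : ℕ) : (cF H p).card ≤ p := by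
  have := Finset.card_filter_le (range p) (fun v => (∏ h ∈ H, (v + h)).Coprime p)
  rw [Finset.card_range] at this
  exact this

/-- All `N`: `sp ≤ p`, since `#(cF H p) ≤ p` and `#aN ≥ 1`. -/
theorem sp_le (H : Finset ℕ) (G : ℤ[X]) (p N : ℕ) (hp : p.Prime) :
    0 ≤ sp H G p N ∧ sp H G p N ≤ p := by
  have hp1 : (1 : ℝ) ≤ p := by exact_mod_cast hp.one_lt.le
  unfold sp
  split_ifs with h
  · exact ⟨le_refl _, by linarith⟩
  · have hc : ((cF H p).card : ℝ) ≤ p := by exact_mod_cast P1_cF_le H p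
    have ha : (1 : ℝ) ≤ (aN H G N p).card := by exact_mod_cast Nat.one_le_iff_ne_zero.2 h
    have hc0 : (0 : ℝ) ≤ (cF H p).card := Nat.cast_nonneg _
    constructor
    · exact div_nonneg (mul_nonneg (by linarith) hc0) (mul_nonneg (by linarith) (by linarith))
    · rw [div_le_iff₀ (mul_pos (by linarith) (by linarith))]
      have h1 : ((p : ℝ) - 1) * (cF H p).card ≤ p * p := by
        apply mul_le_mul (by linarith) hc hc0 (by linarith)
      nlinarith

/-- The number of the `v` modulo `p` with `G(v) ≡ N`. -/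
noncomputable def P1_rho (G : ℤ[X]) (p N : ℕ) : ℕ :=
  ((range p).filter (fun v : ℕ => (p : ℤ) ∣ (N : ℤ) - G.eval (v : ℤ))).card

theorem P1_rho_sum (G : ℤ[X]) (p : ℕ) (hp : 0 < p) :
    ∑ N ∈ range p, P1_rho G p N = p := by
  unfold P1_rho
  simp only [Finset.card_filter]
  rw [Finset.sum_comm]
  have : ∀ v ∈ range p, (∑ N ∈ range p, if (p : ℤ) ∣ (N : ℤ) - G.eval (v : ℤ) then 1 else 0) = 1 := by
    intro v _
    have hp' : (0 : ℤ) < p := by exact_mod_cast hp
    obtain ⟨m, hm⟩ : ∃ m : ℕ, (m : ℤ) = G.eval (v : ℤ) % p :=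
      ⟨(G.eval (v : ℤ) % p).toNat, Int.toNat_of_nonneg (Int.emod_nonneg _ hp'.ne')⟩
    have hmp : m < p := by
      have := Int.emod_lt_of_pos (G.eval (v : ℤ)) hp'
      rw [← hm] at this
      exact_mod_cast this
    rw [Finset.sum_eq_single m]
    · rw [if_pos]
      rw [hm]
      have := Int.emod_add_mul_ediv (G.eval (v : ℤ)) p
      exact ⟨-(G.eval (v : ℤ) / p), by linear_combination this⟩
    · intro b hb hbm
      rw [if_neg]
      intro hd
      apply hbm
      have h1 : (p : ℤ) ∣ (b : ℤ) - m := by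
        have h2 : (p : ℤ) ∣ (m : ℤ) - G.eval (v : ℤ) := by
          rw [hm]
          have := Int.emod_add_mul_ediv (G.eval (v : ℤ)) p
          exact ⟨-(G.eval (v : ℤ) / p), by linear_combination this⟩
        have := dvd_sub hd h2
        rwa [sub_sub_sub_cancel_right] at this
      have h3 : b ≡ m [MOD p] := by
        rw [← Int.natCast_modEq_iff]
        exact (Int.modEq_iff_dvd.2 h1).symm
      exact Nat.ModEq.eq_of_lt_of_lt h3 (Finset.mem_range.1 hb) hmp
    · intro hh
      exact absurd (Finset.mem_range.2 hmp) hh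
  rw [Finset.sum_congr rfl this, Finset.sum_const, Finset.card_range, smul_eq_mul, mul_one]

theorem P1_rho_le (G : ℤ[X]) (hG : 1 ≤ G.natDegree) (p : ℕ) (hp : p.Prime)
    (hlc : ¬ (p : ℤ) ∣ G.leadingCoeff) (N : ℕ) : P1_rho G p N ≤ G.natDegree := by
  classical
  have : Fact p.Prime := ⟨hp⟩
  set f : (ZMod p)[X] := (C (N : ℤ) - G).map (Int.castRingHom (ZMod p)) with hf
  have hdeg : f.natDegree ≤ G.natDegree := by
    refine (Polynomial.natDegree_map_le).trans ?_
    refine (Polynomial.natDegree_sub_le _ _).trans ?_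
    simp
  have hf0 : f ≠ 0 := by
    intro h0
    have h1 : f.coeff G.natDegree = 0 := by rw [h0, Polynomial.coeff_zero]
    rw [hf, Polynomial.coeff_map, Polynomial.coeff_sub, Polynomial.coeff_C,
      if_neg (by omega), zero_sub, map_neg, neg_eq_zero] at h1
    apply hlc
    have : ((G.coeff G.natDegree : ℤ) : ZMod p) = 0 := by simpa using h1
    rwa [ZMod.intCast_zmod_eq_zero_iff_dvd] at this
  have hmap : ((range p).filter (fun v : ℕ => (p : ℤ) ∣ (N : ℤ) - G.eval (v : ℤ))).image
      (fun v : ℕ => (v : ZMod p)) ⊆ f.roots.toFinset := by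
    intro y hy
    obtain ⟨v, hv, rfl⟩ := Finset.mem_image.1 hy
    rw [Finset.mem_filter] at hv
    rw [Multiset.mem_toFinset, Polynomial.mem_roots hf0, Polynomial.IsRoot.def, hf]
    have h1 : ((v : ℕ) : ZMod p) = Int.castRingHom (ZMod p) (v : ℤ) := by simp
    rw [h1, Polynomial.eval_map, Polynomial.eval₂_at_apply]
    have h2 : (((N : ℤ) - G.eval (v : ℤ) : ℤ) : ZMod p) = 0 := by
      rw [ZMod.intCast_zmod_eq_zero_iff_dvd]
      exact hv.2
    simpa using h2
  have hinj : Set.InjOn (fun v : ℕ => (v : ZMod p))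
      ((range p).filter (fun v : ℕ => (p : ℤ) ∣ (N : ℤ) - G.eval (v : ℤ)) : Set ℕ) := by
    intro a ha b hb hab
    have ha' := Finset.mem_range.1 (Finset.mem_filter.1 (Finset.mem_coe.1 ha)).1
    have hb' := Finset.mem_range.1 (Finset.mem_filter.1 (Finset.mem_coe.1 hb)).1
    exact Nat.ModEq.eq_of_lt_of_lt ((ZMod.natCast_eq_natCast_iff a b p).1 hab) ha' hb'
  unfold P1_rho
  rw [← Finset.card_image_of_injOn hinj]
  refine (Finset.card_le_card hmap).trans ?_
  refine (Multiset.toFinset_card_le _).trans ?_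
  exact (Polynomial.card_roots' f).trans hdeg

theorem P1_cF_ge (H : Finset ℕ) (p : ℕ) (hp : p.Prime) : p ≤ (cF H p).card + H.card := by
  classical
  have h1 : range p ⊆ cF H p ∪ H.biUnion (fun h => (range p).filter (fun v => p ∣ v + h)) := by
    intro v hv
    rw [Finset.mem_union]
    by_cases hc : (∏ h ∈ H, (v + h)).Coprime p
    · left
      exact Finset.mem_filter.2 ⟨hv, hc⟩
    · right
      rw [Nat.coprime_comm, hp.coprime_iff_not_dvd, not_not, hp.prime.dvd_finsetProd_iff] at hc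
      obtain ⟨h, hh, hd⟩ := hc
      exact Finset.mem_biUnion.2 ⟨h, hh, Finset.mem_filter.2 ⟨hv, hd⟩⟩
  have h2 := Finset.card_le_card h1
  rw [Finset.card_range] at h2
  refine h2.trans ((Finset.card_union_le _ _).trans ?_)
  have h3 : (H.biUnion (fun h => (range p).filter (fun v => p ∣ v + h))).card ≤ H.card * 1 := by
    refine Finset.card_biUnion_le_card_mul _ _ _ fun h _ => ?_
    rw [Finset.card_le_one]
    intro a ha b hb
    rw [Finset.mem_filter, Finset.mem_range] at ha hb
    have hm : a ≡ b [MOD p] := by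
      have h4 : a + h ≡ b + h [MOD p] :=
        (Nat.modEq_zero_iff_dvd.2 ha.2).trans (Nat.modEq_zero_iff_dvd.2 hb.2).symm
      exact Nat.ModEq.add_right_cancel' h h4
    exact Nat.ModEq.eq_of_lt_of_lt hm ha.1 hb.1
  rw [mul_one] at h3
  omega

theorem P1_aN_ge (H : Finset ℕ) (G : ℤ[X]) (p N : ℕ) (hp : p.Prime) :
    (cF H p).card ≤ (aN H G N p).card + P1_rho G p N := by
  classical
  have h1 : cF H p ⊆ aN H G N p ∪ (range p).filter (fun v : ℕ => (p : ℤ) ∣ (N : ℤ) - G.eval (v : ℤ)) := by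
    intro v hv
    rw [Finset.mem_union]
    by_cases hc : IsCoprime ((N : ℤ) - G.eval (v : ℤ)) (p : ℤ)
    · left
      exact Finset.mem_filter.2 ⟨hv, hc⟩
    · right
      refine Finset.mem_filter.2 ⟨(Finset.mem_filter.1 hv).1, ?_⟩
      by_contra hd
      exact hc (((Nat.prime_iff_prime_int.1 hp).coprime_iff_not_dvd.2 hd).symm)
  exact (Finset.card_le_card h1).trans (Finset.card_union_le _ _)

/-- For large `p` the mean value of `sp` over the residues `N` is at most `1 + C/p^2`. -/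
theorem sp_mean (H : Finset ℕ) (G : ℤ[X]) (hG : 1 ≤ G.natDegree) :
    ∃ p0 : ℕ, ∃ C : ℝ, 0 ≤ C ∧ ∀ p : ℕ, p.Prime → p0 ≤ p →
      ∑ N ∈ range p, sp H G p N ≤ p * (1 + C / (p : ℝ) ^ 2) := by
  set a : ℕ := H.card + G.natDegree with ha
  refine ⟨2 * a + G.leadingCoeff.natAbs + 1, 2 * a, by positivity, fun p hp hp0 => ?_⟩
  have hlc : ¬ (p : ℤ) ∣ G.leadingCoeff := by
    intro hd
    have h0 : G.leadingCoeff ≠ 0 := by
      rw [Ne, Polynomial.leadingCoeff_eq_zero]
      rintro rfl
      simp at hG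
    have := Nat.le_of_dvd (Int.natAbs_pos.2 h0) (Int.natCast_dvd.1 hd)
    omega
  have hpa : (2 * a : ℝ) + 1 ≤ p := by
    have : 2 * a + 1 ≤ p := by omega
    exact_mod_cast this
  have ha1 : (1 : ℝ) ≤ a := by
    have : 1 ≤ a := by omega
    exact_mod_cast this
  have hppos : (0 : ℝ) < p := by linarith
  have hpa0 : (0 : ℝ) < p - a := by linarith
  have hB : (p : ℝ) ≤ (cF H p).card + H.card := by exact_mod_cast P1_cF_ge H p hp
  have hB' : ((cF H p).card : ℝ) ≤ p := by exact_mod_cast P1_cF_le H p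
  have key : ∀ N ∈ range p, sp H G p N ≤ ((p : ℝ) - 1) / p * (1 + P1_rho G p N / (p - a)) := by
    intro N _
    have hA : ((cF H p).card : ℝ) ≤ (aN H G N p).card + P1_rho G p N := by
      exact_mod_cast P1_aN_ge H G p N hp
    have hr : (P1_rho G p N : ℝ) ≤ G.natDegree := by exact_mod_cast P1_rho_le G hG p hp hlc N
    have hr0 : (0 : ℝ) ≤ P1_rho G p N := Nat.cast_nonneg _
    have haN : (p : ℝ) - a ≤ (aN H G N p).card := by
      have : (a : ℝ) = H.card + G.natDegree := by rw [ha]; push_cast; ring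
      linarith
    have haN0 : (0 : ℝ) < (aN H G N p).card := by linarith
    unfold sp
    rw [if_neg (by intro h; rw [h] at haN0; simp at haN0)]
    have e : ((p : ℝ) - 1) * (cF H p).card / (p * (aN H G N p).card) =
        ((p : ℝ) - 1) / p * ((cF H p).card / (aN H G N p).card) := by
      field_simp
    rw [e]
    apply mul_le_mul_of_nonneg_left _ (div_nonneg (by linarith) hppos.le)
    rw [div_le_iff₀ haN0]
    have h1 : (P1_rho G p N : ℝ) ≤ P1_rho G p N / (p - a) * (aN H G N p).card := by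
      rw [div_mul_eq_mul_div, le_div_iff₀ hpa0]
      exact mul_le_mul_of_nonneg_left haN hr0
    linarith
  refine (Finset.sum_le_sum key).trans ?_
  rw [← Finset.mul_sum, Finset.sum_add_distrib, ← Finset.sum_div]
  have hs : ∑ N ∈ range p, (P1_rho G p N : ℝ) = p := by
    exact_mod_cast P1_rho_sum G p hp.pos
  rw [hs, Finset.sum_const, Finset.card_range, nsmul_eq_mul, mul_one]
  have h2 : ((p : ℝ) - 1) / p * (p + p / (p - a)) = p + (a - 1) / (p - a) := by
    field_simp
    ring
  rw [h2]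
  have h3 : (p : ℝ) * (1 + 2 * a / p ^ 2) = p + 2 * a / p := by
    field_simp
  rw [h3]
  have h4 : ((a : ℝ) - 1) / (p - a) ≤ 2 * a / p := by
    rw [div_le_div_iff₀ hpa0 hppos]
    nlinarith
  linarith

end Pool.Agent.Lib.H57M
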