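import Pool.Agent.Lib.H57M.Eng
import Pool.Agent.Lib.H59.SchinzelCount

/-!
# Chunk Q1: elementary facts on `argCount`
-/

open Finset Polynomial

namespace Pool.Agent.Lib.H57M

open Pool.Agent.Lib.H59

/-- For large `Y` the set `argSet G Y` is `{1, .., argCount G Y}` (`G` is eventually increasing and tends to
infinity: for `n0` beyond which `G` is strictly increasing and larger than all earlier values, and `Y > G(n0)`);
compare `Lib/H59` (`argSet`, `argCount` lemmas in `PolyKey`, `SchinzelUpper`). -/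
theorem argSet_eq (G : ℤ[X]) (hG : 1 ≤ G.natDegree) (hlc : 0 < G.leadingCoeff) :
    ∃ Y0 : ℕ, ∀ Y : ℕ, Y0 ≤ Y → ∀ n : ℕ, n ∈ argSet G Y ↔ 1 ≤ n ∧ n ≤ argCount G Y := by
  obtain ⟨Y0, h⟩ := Filter.eventually_atTop.1 (Pool.Agent.Lib.H59.argSet_eq hG hlc)
  refine ⟨Y0, fun Y hY n => ?_⟩
  have h1 := h Y hY
  constructor
  · intro hn
    rw [h1, Finset.mem_coe, Finset.mem_Icc] at hn
    exact hn
  · intro hn
    rw [h1, Finset.mem_coe, Finset.mem_Icc]
    exact hn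

theorem Q1_low (G : ℤ[X]) (hlc : 0 < G.leadingCoeff) :
    ∃ n0 : ℕ, ∀ n : ℕ, n0 ≤ n →
      (n : ℝ) ^ G.natDegree / 2 ≤ ((G.eval (n : ℤ) : ℤ) : ℝ) := by
  set P : ℝ[X] := G.map (Int.castRingHom ℝ) with hP
  have hinj : Function.Injective (Int.castRingHom ℝ) := RingHom.injective_int _
  have hdeg : P.natDegree = G.natDegree := natDegree_map_eq_of_injective hinj _
  have hlcP : P.leadingCoeff = (G.leadingCoeff : ℝ) := by
    rw [hP, leadingCoeff_map_of_injective hinj]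
    simp
  have h1 : (1 : ℝ) ≤ P.leadingCoeff := by
    rw [hlcP]
    exact_mod_cast hlc
  have h2 := (P.isEquivalent_atTop_lead).isLittleO.def (c := 1 / 2) (by norm_num)
  obtain ⟨x0, hx0⟩ := Filter.eventually_atTop.1 h2
  refine ⟨⌈x0⌉₊, fun n hn => ?_⟩
  have h3 := hx0 (n : ℝ) ((Nat.le_ceil x0).trans (by exact_mod_cast hn))
  simp only [Pi.sub_apply] at h3
  rw [Real.norm_eq_abs, Real.norm_eq_abs, hdeg] at h3
  have h4 : 0 ≤ P.leadingCoeff * (n : ℝ) ^ G.natDegree := by positivity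
  rw [abs_of_nonneg h4] at h3
  have h5 := (abs_le.1 h3).1
  have h6 : P.eval (n : ℝ) = ((G.eval (n : ℤ) : ℤ) : ℝ) := eval_map_real G n
  rw [h6] at h5
  have h7 : (n : ℝ) ^ G.natDegree ≤ P.leadingCoeff * (n : ℝ) ^ G.natDegree :=
    le_mul_of_one_le_left (by positivity) h1
  linarith

/-- two sided bounds for `argCount` -/
theorem Q1_two (G : ℤ[X]) (hG : 1 ≤ G.natDegree) (hlc : 0 < G.leadingCoeff) (m : ℕ) :
    ∃ N0 : ℕ, ∀ N : ℕ, N0 ≤ N → 1 ≤ argCount G N ∧ m ≤ argCount G N ∧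
      (argCount G N : ℝ) ^ G.natDegree ≤ 2 * N ∧
      (N : ℝ) ≤ coeffSum G * 2 ^ G.natDegree * (argCount G N : ℝ) ^ G.natDegree := by
  obtain ⟨n0, hn0⟩ := Q1_low G hlc
  have hG0 : G ≠ 0 := by rintro rfl; simp at hlc
  have hA : 1 ≤ coeffSum G := one_le_coeffSum hG0
  have hev := (Pool.Agent.Lib.H59.argSet_eq hG hlc).and
    ((argCount_tendsto hG hlc).eventually_ge_atTop (max 1 (max n0 m)))
  obtain ⟨N0, h⟩ := Filter.eventually_atTop.1 hev
  refine ⟨N0, fun N hN => ?_⟩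
  obtain ⟨h1, h2⟩ := h N hN
  set X := argCount G N with hX
  have hX1 : 1 ≤ X := (le_max_left _ _).trans h2
  have hXn : n0 ≤ X := ((le_max_left _ _).trans (le_max_right _ _)).trans h2
  have hXm : m ≤ X := ((le_max_right _ _).trans (le_max_right _ _)).trans h2
  have hmem : X ∈ argSet G N := by
    rw [h1, Finset.mem_coe, Finset.mem_Icc]
    exact ⟨hX1, le_rfl⟩
  have hnot : X + 1 ∉ argSet G N := by
    rw [h1, Finset.mem_coe, Finset.mem_Icc]
    omega
  have hNle : (N : ℤ) ≤ G.eval ((X + 1 : ℕ) : ℤ) := by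
    by_contra hcon
    push Not at hcon
    exact hnot ⟨by omega, by omega⟩
  have hNle' : (N : ℝ) ≤ coeffSum G * ((X + 1 : ℕ) : ℝ) ^ G.natDegree := by
    refine le_trans ?_ (eval_le_coeffSum G (by omega))
    exact_mod_cast hNle
  have hX1' : (1 : ℝ) ≤ X := by exact_mod_cast hX1
  refine ⟨hX1, hXm, ?_, ?_⟩
  · have h3 := hn0 X hXn
    have h4 : G.eval (X : ℤ) ≤ N := by
      have := hmem.2
      omega
    have h5 : ((G.eval (X : ℤ) : ℤ) : ℝ) ≤ N := by exact_mod_cast h4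
    linarith
  · have h3 : ((X + 1 : ℕ) : ℝ) ^ G.natDegree ≤ 2 ^ G.natDegree * (X : ℝ) ^ G.natDegree := by
      rw [← mul_pow]
      push_cast
      exact pow_le_pow_left₀ (by positivity) (by linarith) _
    calc (N : ℝ) ≤ coeffSum G * ((X + 1 : ℕ) : ℝ) ^ G.natDegree := hNle'
      _ ≤ coeffSum G * (2 ^ G.natDegree * (X : ℝ) ^ G.natDegree) :=
          mul_le_mul_of_nonneg_left h3 (by linarith)
      _ = _ := by ring

/-- `c Y ≤ X^k` and `X^k ≤ C Y` for `X = argCount G Y`, `k = deg G`, in the form: `X` tends to infinity,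
`X ≤ Y`-power bounds, and `argCount G Y ≤ C argCount G (Y/2)`. -/
theorem argCount_bounds (G : ℤ[X]) (hG : 1 ≤ G.natDegree) (hlc : 0 < G.leadingCoeff) :
    ∃ (C : ℝ) (Y0 : ℕ), 1 ≤ C ∧ ∀ Y : ℕ, Y0 ≤ Y →
      (argCount G Y : ℝ) ≤ C * argCount G (Y / 2) ∧
      Real.log Y ≤ C * Real.log (argCount G (Y / 2)) ∧
      Real.log (argCount G Y) ≤ C * Real.log Y ∧ (Y : ℝ) ^ (1 / C) ≤ argCount G (Y / 2) := by
  have hG0 : G ≠ 0 := by rintro rfl; simp at hlc
  have hA : 1 ≤ coeffSum G := one_le_coeffSum hG0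
  obtain ⟨D, hD⟩ : ∃ D : ℝ, D = 6 * (coeffSum G * 2 ^ G.natDegree) := ⟨_, rfl⟩
  have hD1 : 1 ≤ D := by
    rw [hD]
    have h2 : (1 : ℝ) ≤ 2 ^ G.natDegree := one_le_pow₀ (by norm_num)
    nlinarith [mul_le_mul hA h2 zero_le_one (by linarith)]
  obtain ⟨m, hm⟩ := exists_nat_ge D
  obtain ⟨N0, hN0⟩ := Q1_two G hG hlc m
  refine ⟨D + (G.natDegree + 2), 2 * N0 + 4, by linarith [Nat.cast_nonneg (α := ℝ) G.natDegree],
    fun Y hY => ?_⟩
  obtain ⟨a1, a2, a3, a4⟩ := hN0 Y (by omega)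
  obtain ⟨b1, b2, b3, b4⟩ := hN0 (Y / 2) (by omega)
  obtain ⟨X, hX⟩ : ∃ X, X = argCount G Y := ⟨_, rfl⟩
  obtain ⟨X', hX'⟩ : ∃ X', X' = argCount G (Y / 2) := ⟨_, rfl⟩
  rw [← hX] at a1 a2 a3 a4
  rw [← hX'] at b1 b2 b3 b4
  rw [← hX, ← hX']
  have c1 : (1 : ℝ) ≤ X := by exact_mod_cast a1
  have c1' : (1 : ℝ) ≤ X' := by exact_mod_cast b1
  have hk : (0 : ℝ) ≤ (G.natDegree : ℝ) := Nat.cast_nonneg _
  have hY3 : (Y : ℝ) ≤ 3 * ((Y / 2 : ℕ) : ℝ) := by
    have : Y ≤ 3 * (Y / 2) := by omega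
    exact_mod_cast this
  have hY4 : (4 : ℝ) ≤ Y := by
    have : 4 ≤ Y := by omega
    exact_mod_cast this
  have hDX : 2 * (Y : ℝ) ≤ D * (X' : ℝ) ^ G.natDegree := by
    rw [hD]
    nlinarith
  have hYX : (Y : ℝ) ≤ (X' : ℝ) ^ (G.natDegree + 1) := by
    have h1 : D ≤ X' := hm.trans (by exact_mod_cast b2)
    calc (Y : ℝ) ≤ D * (X' : ℝ) ^ G.natDegree := by linarith
      _ ≤ X' * (X' : ℝ) ^ G.natDegree := mul_le_mul_of_nonneg_right h1 (by positivity)
      _ = _ := by ring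
  have hlX' : 0 ≤ Real.log X' := Real.log_nonneg c1'
  have hlY : 0 ≤ Real.log Y := Real.log_nonneg (by linarith)
  refine ⟨?_, ?_, ?_, ?_⟩
  · have h1 : (X : ℝ) ^ G.natDegree ≤ (D * X') ^ G.natDegree := by
      rw [mul_pow]
      have h2 : D ≤ D ^ G.natDegree := le_self_pow₀ hD1 (by omega)
      calc (X : ℝ) ^ G.natDegree ≤ 2 * Y := a3
        _ ≤ D * (X' : ℝ) ^ G.natDegree := hDX
        _ ≤ D ^ G.natDegree * (X' : ℝ) ^ G.natDegree :=
            mul_le_mul_of_nonneg_right h2 (by positivity)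
    have h2 : (X : ℝ) ≤ D * X' :=
      (pow_le_pow_iff_left₀ (by positivity) (by positivity) (by omega)).1 h1
    refine h2.trans (mul_le_mul_of_nonneg_right ?_ (by positivity))
    linarith
  · have h1 : Real.log Y ≤ (G.natDegree + 1) * Real.log X' := by
      have h2 := Real.log_le_log (by linarith) hYX
      rw [Real.log_pow] at h2
      push_cast at h2
      exact h2
    refine h1.trans (mul_le_mul_of_nonneg_right ?_ hlX')
    linarith
  · have h1 : (X : ℝ) ≤ (Y : ℝ) ^ 2 := by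
      have h2 : (X : ℝ) ≤ (X : ℝ) ^ G.natDegree := le_self_pow₀ c1 (by omega)
      nlinarith
    have h2 := Real.log_le_log (by linarith) h1
    rw [Real.log_pow] at h2
    push_cast at h2
    refine h2.trans (mul_le_mul_of_nonneg_right ?_ hlY)
    linarith
  · have hC : (0 : ℝ) < D + (G.natDegree + 2) := by linarith
    calc (Y : ℝ) ^ (1 / (D + (G.natDegree + 2)))
        ≤ ((X' : ℝ) ^ (G.natDegree + 1)) ^ (1 / (D + (G.natDegree + 2))) :=
          Real.rpow_le_rpow (by positivity) hYX (by positivity)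
      _ = (X' : ℝ) ^ (((G.natDegree + 1 : ℕ) : ℝ) * (1 / (D + (G.natDegree + 2)))) := by
          rw [← Real.rpow_natCast, ← Real.rpow_mul (by positivity)]
      _ ≤ (X' : ℝ) ^ (1 : ℝ) := by
          refine Real.rpow_le_rpow_of_exponent_le c1' ?_
          rw [mul_one_div, div_le_one hC]
          push_cast
          linarith
      _ = X' := Real.rpow_one _

end Pool.Agent.Lib.H57M
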