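import Pool.Agent.Lib.H57M.Q1

/-!
# Chunk Q2: one dyadic block, weighted form
-/

open Finset Polynomial

namespace Pool.Agent.Lib.H57M

open Pool.Agent.Lib.H59

/-- `∏_{h ∈ H} (x + h) (N - G)` has no fixed prime divisor. -/
def NFD (H : Finset ℕ) (G : ℤ[X]) (N : ℕ) : Prop :=
  ∀ p : ℕ, p.Prime → ¬ ∀ n : ℤ, (p : ℤ) ∣ ((∏ h ∈ H, (X + C (h : ℤ))) * (C (N : ℤ) - G)).eval n

theorem Q2_eval (H : Finset ℕ) (G : ℤ[X]) (N : ℕ) (n : ℤ) :
    ((∏ h ∈ H, (X + C (h : ℤ))) * (C (N : ℤ) - G)).eval n =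
      (∏ h ∈ H, (n + h)) * ((N : ℤ) - G.eval n) := by
  rw [Polynomial.eval_mul, Polynomial.eval_prod, Polynomial.eval_sub, Polynomial.eval_C]
  congr 1
  refine Finset.prod_congr rfl fun h _ => ?_
  rw [Polynomial.eval_add, Polynomial.eval_X, Polynomial.eval_C]

/-- If `NFD` holds then `#aN > 0` for every squarefree modulus (`aN_card`). -/
theorem NFD.aN_pos {H : Finset ℕ} {G : ℤ[X]} {N : ℕ} (h : NFD H G N) (P : ℕ)
    (hP : Squarefree P) : 0 < (aN H G N P).card := by
  rw [aN_card H G N P hP]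
  refine Finset.prod_pos fun p hp => ?_
  have hpp := Nat.prime_of_mem_primeFactors hp
  have h1 := h p hpp
  rw [not_forall] at h1
  obtain ⟨n, hn⟩ := h1
  have hp' : (0 : ℤ) < p := by exact_mod_cast hpp.pos
  obtain ⟨v, hv⟩ : ∃ v : ℕ, (v : ℤ) = n % p :=
    ⟨(n % p).toNat, Int.toNat_of_nonneg (Int.emod_nonneg _ hp'.ne')⟩
  have hvp : v < p := by
    have := Int.emod_lt_of_pos n hp'
    rw [← hv] at this
    exact_mod_cast this
  have hd : (p : ℤ) ∣ (v : ℤ) - n := by
    rw [hv]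
    have := Int.emod_add_mul_ediv n p
    exact ⟨-(n / p), by linear_combination this⟩
  have hd2 := hd.trans (Polynomial.sub_dvd_eval_sub (v : ℤ) n
    ((∏ h ∈ H, (X + C (h : ℤ))) * (C (N : ℤ) - G)))
  have hn2 : ¬ (p : ℤ) ∣ ((∏ h ∈ H, (X + C (h : ℤ))) * (C (N : ℤ) - G)).eval (v : ℤ) := by
    intro hh
    exact hn ((dvd_sub_right hh).1 hd2)
  rw [Q2_eval] at hn2
  have hprime := Nat.prime_iff_prime_int.1 hpp
  refine Finset.card_pos.2 ⟨v, Finset.mem_filter.2 ⟨Finset.mem_filter.2 ⟨Finset.mem_range.2 hvp, ?_⟩, ?_⟩⟩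
  · rw [Nat.coprime_comm, hpp.coprime_iff_not_dvd]
    intro hh
    apply hn2
    apply Dvd.dvd.mul_right
    have : ((∏ h ∈ H, (v + h) : ℕ) : ℤ) = ∏ h ∈ H, ((v : ℤ) + h) := by push_cast; rfl
    rw [← this]
    exact_mod_cast hh
  · refine (hprime.coprime_iff_not_dvd.2 fun hh => hn2 ?_).symm
    exact Dvd.dvd.mul_left hh _

theorem Q2_exp (A K : ℝ) (hA : 0 ≤ A) :
    ∃ l0 : ℝ, ∀ l : ℝ, l0 ≤ l → (A * l) ^ K ≤ Real.exp (Real.sqrt l) := by
  have h := (isLittleO_rpow_exp_atTop (2 * K)).def (c := 1 / (A ^ K + 1)) (by positivity)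
  have h2 := Real.tendsto_sqrt_atTop.eventually h
  obtain ⟨l1, hl1⟩ := Filter.eventually_atTop.1 h2
  refine ⟨max l1 0, fun l hl => ?_⟩
  have hl0 : 0 ≤ l := le_trans (le_max_right _ _) hl
  have h3 := hl1 l (le_trans (le_max_left _ _) hl)
  have h4 : (Real.sqrt l) ^ (2 * K) = l ^ K := by
    rw [Real.sqrt_eq_rpow, ← Real.rpow_mul hl0]
    congr 1
    ring
  rw [h4, Real.norm_eq_abs, Real.norm_eq_abs, abs_of_nonneg (Real.rpow_nonneg hl0 _),
    abs_of_pos (Real.exp_pos _)] at h3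
  rw [Real.mul_rpow hA hl0]
  have hAK : 0 ≤ A ^ K := Real.rpow_nonneg hA _
  calc A ^ K * l ^ K ≤ A ^ K * (1 / (A ^ K + 1) * Real.exp (Real.sqrt l)) :=
        mul_le_mul_of_nonneg_left h3 hAK
    _ = (A ^ K / (A ^ K + 1)) * Real.exp (Real.sqrt l) := by ring
    _ ≤ 1 * Real.exp (Real.sqrt l) := by
        apply mul_le_mul_of_nonneg_right _ (Real.exp_pos _).le
        rw [div_le_one (by positivity)]
        linarith
    _ = _ := one_mul _

/-- Facts on the scale `X = argCount G (Y/2)/60` for large `Y`. -/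
theorem Q2_scale (G : ℤ[X]) (hG : 1 ≤ G.natDegree) (hlc : 0 < G.leadingCoeff) :
    ∃ A : ℝ, 1 ≤ A ∧ ∀ L0 : ℝ, ∃ Y0 : ℕ, ∀ Y : ℕ, Y0 ≤ Y →
      L0 ≤ ((argCount G (Y / 2) / 60 : ℕ) : ℝ) ∧
      L0 ≤ Real.log ((argCount G (Y / 2) / 60 : ℕ) : ℝ) ∧
      (argCount G Y : ℝ) ≤ A * ((argCount G (Y / 2) / 60 : ℕ) : ℝ) ∧
      Real.log ((argCount G (Y / 2) / 60 : ℕ) : ℝ) ≤ A * Real.log Y ∧
      Real.log Y ≤ A * Real.log ((argCount G (Y / 2) / 60 : ℕ) : ℝ) ∧
      (∀ n : ℕ, 1 ≤ n → n ≤ 60 * (argCount G (Y / 2) / 60) → G.eval (n : ℤ) < (Y / 2 : ℕ)) ∧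
      (∀ N : ℕ, Y / 2 ≤ N → N ≤ Y → argCount G (Y / 2) ≤ argCount G N ∧
        argCount G N ≤ argCount G Y ∧ (argSet G N).Finite) := by
  obtain ⟨Y1, h1⟩ := argSet_eq G hG hlc
  obtain ⟨A, Y2, hA, h2⟩ := argCount_bounds G hG hlc
  have hmono : ∀ N N' : ℕ, Y1 ≤ N → N ≤ N' → argCount G N ≤ argCount G N' := by
    intro N N' hN hNN'
    rcases Nat.eq_zero_or_pos (argCount G N) with h0 | h0
    · omega
    · have h3 := (h1 N hN (argCount G N)).2 ⟨h0, le_refl _⟩
      have h4 : argCount G N ∈ argSet G N' := by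
        refine ⟨h3.1, ?_⟩
        have h5 := h3.2
        have : (N : ℤ) ≤ N' := by exact_mod_cast hNN'
        linarith
      exact ((h1 N' (hN.trans hNN') _).1 h4).2
  refine ⟨120 * A, by linarith, fun L0 => ?_⟩
  -- threshold for X
  set B : ℝ := max (max L0 (Real.exp L0)) 120 + 1 with hB
  have hB120 : (121 : ℝ) ≤ B := by
    have := le_max_right (max L0 (Real.exp L0)) 120
    rw [hB]; linarith
  have hBL : L0 ≤ B := by
    have := (le_max_left L0 (Real.exp L0)).trans (le_max_left (max L0 (Real.exp L0)) 120)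
    rw [hB]; linarith
  have hBe : Real.exp L0 ≤ B := by
    have := (le_max_right L0 (Real.exp L0)).trans (le_max_left (max L0 (Real.exp L0)) 120)
    rw [hB]; linarith
  have hApos : 0 < A := by linarith
  have htend : Filter.Tendsto (fun Y : ℕ => (Y : ℝ) ^ (1 / A)) Filter.atTop Filter.atTop :=
    (tendsto_rpow_atTop (by positivity)).comp tendsto_natCast_atTop_atTop
  obtain ⟨Y3, h3⟩ := Filter.eventually_atTop.1 (htend.eventually_ge_atTop (60 * (B + 1)))
  refine ⟨max (max (2 * Y1 + 2) Y2) (max Y3 2), fun Y hY => ?_⟩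
  have hYa : 2 * Y1 + 2 ≤ Y := le_trans ((le_max_left _ _).trans (le_max_left _ _)) hY
  have hYb : Y2 ≤ Y := le_trans ((le_max_right _ _).trans (le_max_left _ _)) hY
  have hYc : Y3 ≤ Y := le_trans ((le_max_left _ _).trans (le_max_right _ _)) hY
  have hY1 : Y1 ≤ Y / 2 := by omega
  obtain ⟨g1, g2, g3, g4⟩ := h2 Y hYb
  have g5 := h3 Y hYc
  set X1 := argCount G (Y / 2) with hX1
  set X := X1 / 60 with hX
  have hX1B : 60 * (B + 1) ≤ (X1 : ℝ) := le_trans g5 g4
  have hXd : X1 < 60 * X + 60 := by omega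
  have hXd' : (X1 : ℝ) < 60 * X + 60 := by exact_mod_cast hXd
  have hXle : 60 * X ≤ X1 := by omega
  have hXB : B ≤ (X : ℝ) := by nlinarith
  have hX0 : (0 : ℝ) < X := by linarith
  have hX1X : (X1 : ℝ) ≤ 120 * X := by linarith
  have hm : X1 ≤ argCount G Y := hmono _ _ hY1 (Nat.div_le_self _ _)
  have hXX1 : (X : ℝ) ≤ X1 := by
    have : X ≤ X1 := by omega
    exact_mod_cast this
  have hX1Y : (X1 : ℝ) ≤ argCount G Y := by exact_mod_cast hm
  have hlogY : 0 ≤ Real.log Y := Real.log_natCast_nonneg _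
  have hlX : Real.log X ≤ Real.log (argCount G Y) :=
    Real.log_le_log hX0 (hXX1.trans hX1Y)
  refine ⟨hBL.trans hXB, ?_, ?_, ?_, ?_, ?_, ?_⟩
  · rw [Real.le_log_iff_exp_le hX0]
    exact hBe.trans hXB
  · calc (argCount G Y : ℝ) ≤ A * X1 := g1
      _ ≤ A * (120 * X) := mul_le_mul_of_nonneg_left hX1X hApos.le
      _ = 120 * A * X := by ring
  · refine hlX.trans (g3.trans ?_)
    have : 0 ≤ A * Real.log Y := mul_nonneg hApos.le hlogY
    nlinarith
  · have hl1 : Real.log X1 ≤ Real.log (120 * X) := Real.log_le_log (by linarith) hX1X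
    have hl2 : Real.log (120 * (X : ℝ)) = Real.log 120 + Real.log X :=
      Real.log_mul (by norm_num) hX0.ne'
    have hl3 : Real.log 120 ≤ Real.log X := Real.log_le_log (by norm_num) (by linarith)
    have hl4 : 0 ≤ Real.log (X : ℝ) := Real.log_natCast_nonneg _
    calc Real.log Y ≤ A * Real.log X1 := g2
      _ ≤ A * (2 * Real.log X) := mul_le_mul_of_nonneg_left (by linarith) hApos.le
      _ ≤ 120 * A * Real.log X := by nlinarith [mul_nonneg hApos.le hl4]
  · intro n hn1 hn2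
    have := ((h1 (Y / 2) hY1 n).2 ⟨hn1, hn2.trans hXle⟩).2
    linarith
  · intro N hN1 hN2
    refine ⟨hmono _ _ hY1 hN1, hmono _ _ (hY1.trans hN1) hN2, ?_⟩
    refine (Set.finite_Icc 1 (argCount G N)).subset fun n hn => ?_
    exact Set.mem_Icc.2 ((h1 N (hY1.trans hN1) n).1 hn)

theorem Q2_aN_mod (H : Finset ℕ) (G : ℤ[X]) (N P : ℕ) : aN H G (N % P) P = aN H G N P := by
  unfold aN
  refine Finset.filter_congr fun v _ => ?_
  have h := Nat.mod_add_div N P
  have e : (N : ℤ) - G.eval (v : ℤ) = ((N % P : ℕ) : ℤ) - G.eval (v : ℤ) + (P : ℤ) * ((N / P : ℕ) : ℤ) := by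
    have : (N : ℤ) = ((N % P : ℕ) : ℤ) + (P : ℤ) * ((N / P : ℕ) : ℤ) := by exact_mod_cast h.symm
    linear_combination this
  rw [e, IsCoprime.add_mul_left_left_iff]

/-- The number of the `N ≤ Y` with residue in `E`. -/
theorem Q2_count (P Y : ℕ) (hP : 0 < P) (E : Finset ℕ) :
    ((Icc 1 Y).filter (fun N => N % P ∈ E)).card ≤ E.card * (Y / P + 1) := by
  have : ((Icc 1 Y).filter (fun N => N % P ∈ E)).card ≤ (E ×ˢ range (Y / P + 1)).card := by
    refine Finset.card_le_card_of_injOn (fun N => (N % P, N / P)) ?_ ?_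
    · intro N hN
      rw [Finset.mem_coe, Finset.mem_filter, Finset.mem_Icc] at hN
      rw [Finset.mem_coe, Finset.mem_product, Finset.mem_range]
      exact ⟨hN.2, Nat.lt_succ_of_le (Nat.div_le_div_right hN.1.2)⟩
    · intro a _ b _ hab
      rw [Prod.mk.injEq] at hab
      rw [← Nat.mod_add_div a P, ← Nat.mod_add_div b P, hab.1, hab.2]
  rwa [Finset.card_product, Finset.card_range] at this

/-- The lower bound for the main term. -/
theorem Q2_main (H : Finset ℕ) (G : ℤ[X]) (g w X : ℕ) (C : ℝ) (hC : 1 ≤ C) (f : ℕ → ℝ) (S : ℝ)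
    (hM : MW H g w X C f S) (N : ℕ) (ha : 0 < (aN H G N (primorial w)).card) :
    ((primorial w : ℝ) * (aN H G N (primorial w)).card) * S ≤
      ((primorial w).totient * (cF H (primorial w)).card) * (C *
        ∑ n ∈ Icc 1 (60 * X), f n * Lam w ((N : ℤ) - G.eval (n : ℤ))) := by
  classical
  set P := primorial w with hP
  have hP0 : 0 < P := primorial_pos w
  have hPr : (0 : ℝ) < P := by exact_mod_cast hP0
  have hφ : (0 : ℝ) < P.totient := by exact_mod_cast Nat.totient_pos.2 hP0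
  have hcF : ∀ v ∈ aN H G N P, v ∈ cF H P := fun v hv => (Finset.mem_filter.1 hv).1
  obtain ⟨v0, hv0⟩ := Finset.card_pos.1 ha
  have hc0 : (0 : ℝ) < (cF H P).card := by
    exact_mod_cast Finset.card_pos.2 ⟨v0, hcF v0 hv0⟩
  -- the sum over the good classes
  have h1 : ∑ v ∈ aN H G N P, ∑ n ∈ (Icc 1 (60 * X)).filter (fun n => n ≡ v [MOD P]),
      f n * ((P : ℝ) / P.totient) ≤
      ∑ n ∈ Icc 1 (60 * X), f n * Lam w ((N : ℤ) - G.eval (n : ℤ)) := by
    have h2 := Finset.sum_fiberwise_of_maps_to (s := Icc 1 (60 * X)) (t := range P)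
      (g := fun n => n % P) (fun n _ => Finset.mem_range.2 (Nat.mod_lt _ hP0))
      (fun n : ℕ => f n * Lam w ((N : ℤ) - G.eval (n : ℤ)))
    rw [← h2]
    have hnn : ∀ n : ℕ, 0 ≤ f n * Lam w ((N : ℤ) - G.eval (n : ℤ)) := by
      intro n
      refine mul_nonneg (hM.nonneg n) ?_
      unfold Lam
      split_ifs
      · positivity
      · exact le_refl _
    refine le_trans ?_ (Finset.sum_le_sum_of_subset_of_nonneg (s := aN H G N P) (t := range P) ?_ ?_)
    · refine Finset.sum_le_sum fun v hv => ?_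
      have hvP : v < P := Finset.mem_range.1 (Finset.mem_filter.1 (hcF v hv)).1
      have e : (Icc 1 (60 * X)).filter (fun n => n ≡ v [MOD P]) =
          (Icc 1 (60 * X)).filter (fun n => n % P = v) := by
        refine Finset.filter_congr fun n _ => ?_
        unfold Nat.ModEq
        rw [Nat.mod_eq_of_lt hvP]
      rw [e]
      refine Finset.sum_le_sum fun n hn => ?_
      have hnv := (Finset.mem_filter.1 hn).2
      apply mul_le_mul_of_nonneg_left _ (hM.nonneg n)
      have hcop : IsCoprime ((N : ℤ) - G.eval (n : ℤ)) (P : ℤ) := by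
        have hv2 := (Finset.mem_filter.1 hv).2
        have hd : (P : ℤ) ∣ (n : ℤ) - v := by
          have h := Nat.mod_add_div n P
          rw [hnv] at h
          exact ⟨((n / P : ℕ) : ℤ), by
            have : (n : ℤ) = (v : ℤ) + (P : ℤ) * ((n / P : ℕ) : ℤ) := by exact_mod_cast h.symm
            linear_combination this⟩
        obtain ⟨c, hc⟩ := hd.trans (Polynomial.sub_dvd_eval_sub (n : ℤ) (v : ℤ) G)
        have e2 : (N : ℤ) - G.eval (n : ℤ) = (N : ℤ) - G.eval (v : ℤ) + (P : ℤ) * (-c) := by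
          linear_combination -hc
        rw [e2, IsCoprime.add_mul_left_left_iff]
        exact hv2
      unfold Lam
      rw [if_pos hcop]
    · intro v hv
      exact (Finset.mem_filter.1 (hcF v hv)).1
    · intro v _ _
      exact Finset.sum_nonneg fun n _ => hnn n
  have h3 : ∀ v ∈ aN H G N P, S ≤ C * (cF H P).card *
      ∑ n ∈ (Icc 1 (60 * X)).filter (fun n => n ≡ v [MOD P]), f n := fun v hv =>
    hM.lower v (Finset.mem_filter.1 (hcF v hv)).2
  have h4 : ((aN H G N P).card : ℝ) * S ≤ C * (cF H P).card *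
      ∑ v ∈ aN H G N P, ∑ n ∈ (Icc 1 (60 * X)).filter (fun n => n ≡ v [MOD P]), f n := by
    rw [Finset.mul_sum, ← nsmul_eq_mul, ← Finset.sum_const]
    exact Finset.sum_le_sum h3
  have h5 : ∑ v ∈ aN H G N P, ∑ n ∈ (Icc 1 (60 * X)).filter (fun n => n ≡ v [MOD P]),
      f n * ((P : ℝ) / P.totient) =
      (∑ v ∈ aN H G N P, ∑ n ∈ (Icc 1 (60 * X)).filter (fun n => n ≡ v [MOD P]), f n) *
        ((P : ℝ) / P.totient) := by
    rw [Finset.sum_mul]
    refine Finset.sum_congr rfl fun v _ => ?_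
    rw [Finset.sum_mul]
  rw [h5] at h1
  set Sg1 := ∑ v ∈ aN H G N P, ∑ n ∈ (Icc 1 (60 * X)).filter (fun n => n ≡ v [MOD P]), f n with hSg1
  have hC0 : 0 < C := by linarith
  calc (P : ℝ) * (aN H G N P).card * S = P * ((aN H G N P).card * S) := by ring
    _ ≤ P * (C * (cF H P).card * Sg1) := mul_le_mul_of_nonneg_left h4 hPr.le
    _ = (P.totient * (cF H P).card) * (C * (Sg1 * ((P : ℝ) / P.totient))) := by
        field_simp
    _ ≤ _ := by
        apply mul_le_mul_of_nonneg_left _ (by positivity)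
        exact mul_le_mul_of_nonneg_left h1 hC0.le

theorem block_weighted (G : ℤ[X]) (hG : 1 ≤ G.natDegree) (hlc : 0 < G.leadingCoeff)
    (hE : Engine G) (g : ℕ) (H : Finset ℕ) (C : ℝ) (hC : 1 ≤ C)
    (hW : ∀ w : ℕ, ∃ X0 : ℕ, ∀ X : ℕ, X0 ≤ X → ∃ (f : ℕ → ℝ) (S : ℝ), MW H g w X C f S)
    (η : ℝ) (hη : 0 < η) :
    ∃ c : ℝ, 0 < c ∧ ∃ Y0 : ℕ, ∀ Y : ℕ, Y0 ≤ Y → ∃ (f : ℕ → ℝ) (S : ℝ) (w : ℕ),
      MW H g w (argCount G (Y / 2) / 60) C f S ∧
      (open Classical in
      (((Ioc (Y / 2) Y).filter (fun N => NFD H G N ∧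
        ∑ n ∈ Icc 1 (60 * (argCount G (Y / 2) / 60)),
          f n * H68T.lp ((N : ℤ) - G.eval (n : ℤ)) < c * S)).card : ℝ) ≤ η * Y) := by
  classical
  obtain ⟨A, hA, hsc⟩ := Q2_scale G hG hlc
  obtain ⟨σ0, hσ0, hloc⟩ := local_avg H G hG (η / 4) (by linarith)
  obtain ⟨K', hK'⟩ := hE (C + 1) C (by linarith) hC
  have hC0 : 0 < C := by linarith
  obtain ⟨w, hw⟩ := hK' (η * σ0 / (4 * C)) (by positivity)
  obtain ⟨Ye, hYe⟩ := hw w (le_refl _)
  obtain ⟨X0, hX0⟩ := hW w
  obtain ⟨l0, hl0⟩ := Q2_exp A (max K' 0) (by linarith)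
  obtain ⟨Ys, hYs⟩ := hsc (max (max (X0 : ℝ) l0) (A * (A ^ (C + 1) + 1)))
  set P := primorial w with hPdef
  have hP0 : 0 < P := primorial_pos w
  refine ⟨σ0 / (2 * C), by positivity, max (max Ye Ys) P, fun Y hY => ?_⟩
  have hY1 : Ye ≤ Y := le_trans ((le_max_left _ _).trans (le_max_left _ _)) hY
  have hY2 : Ys ≤ Y := le_trans ((le_max_right _ _).trans (le_max_left _ _)) hY
  have hYP : P ≤ Y := le_trans (le_max_right _ _) hY
  obtain ⟨s1, s2, s3, s4, s5, s6, s7⟩ := hYs Y hY2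
  set X := argCount G (Y / 2) / 60 with hX
  have hXX0 : X0 ≤ X := by
    have : (X0 : ℝ) ≤ X := le_trans ((le_max_left _ _).trans (le_max_left _ _)) s1
    exact_mod_cast this
  have hlX0 : l0 ≤ Real.log X := le_trans ((le_max_right _ _).trans (le_max_left _ _)) s2
  have hlX1 : A * (A ^ (C + 1) + 1) ≤ Real.log X := le_trans (le_max_right _ _) s2
  obtain ⟨f, S, hM⟩ := hX0 X hXX0
  have hA0 : 0 < A := by linarith
  have hAC : 1 ≤ A ^ (C + 1) := Real.one_le_rpow hA (by linarith)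
  have hlY : A ^ (C + 1) + 1 ≤ Real.log Y := by
    have := hlX1.trans s4
    exact le_of_mul_le_mul_left this hA0
  have hlY1 : 1 ≤ Real.log Y := by linarith
  have hlX2 : 0 ≤ Real.log X := by
    have : 0 ≤ A * (A ^ (C + 1) + 1) := by positivity
    linarith
  have hXpos : (0 : ℝ) < X := by
    have : 0 ≤ A * (A ^ (C + 1) + 1) := by positivity
    have h1 : (0 : ℝ) < A * (A ^ (C + 1) + 1) := by positivity
    exact lt_of_lt_of_le h1 (le_trans (le_max_right _ _) s1)
  -- S > 0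
  have hlpos : 0 < Real.log X := by
    have h1 : (0 : ℝ) < A * (A ^ (C + 1) + 1) := by positivity
    linarith
  have hS : 0 < S := by
    have h1 := hM.mass
    have h2 : 0 < Real.log (X : ℝ) ^ C := Real.rpow_pos_of_pos hlpos _
    by_contra hneg
    have : S * Real.log (X : ℝ) ^ C ≤ 0 :=
      mul_nonpos_of_nonpos_of_nonneg (not_lt.1 hneg) h2.le
    linarith
  -- powers of logarithms
  have hlogC : Real.log (X : ℝ) ^ C ≤ A ^ C * Real.log Y ^ C := by
    rw [← Real.mul_rpow hA0.le (by linarith)]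
    exact Real.rpow_le_rpow hlX2 s4 hC0.le
  have hsplit : Real.log (Y : ℝ) ^ (C + 1) = Real.log Y ^ C * Real.log Y := by
    rw [Real.rpow_add (by linarith), Real.rpow_one]
  have hYC : 0 < Real.log (Y : ℝ) ^ C := Real.rpow_pos_of_pos (by linarith) _
  have hAsplit : A ^ (C + 1) = A ^ C * A := by
    rw [Real.rpow_add hA0, Real.rpow_one]
  have hAC' : 0 < A ^ C := Real.rpow_pos_of_pos hA0 _
  have hb1 : Real.log (X : ℝ) ^ C ≤ Real.log Y ^ (C + 1) := by
    rw [hsplit]
    refine hlogC.trans ?_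
    rw [mul_comm]
    apply mul_le_mul_of_nonneg_left _ hYC.le
    have : A ^ C ≤ A ^ (C + 1) := by rw [hAsplit]; nlinarith
    linarith
  have hm60 : 60 * X ≤ argCount G (Y / 2) := by omega
  have hmY : argCount G (Y / 2) ≤ argCount G Y := (s7 Y (Nat.div_le_self _ _) (le_refl _)).1
  have hEng := hYe Y hY1 f S hM.nonneg (fun n => (hM.bdd n).trans hb1) (by
    refine s3.trans ?_
    calc A * (X : ℝ) ≤ A * (S * Real.log X ^ C) := mul_le_mul_of_nonneg_left hM.mass hA0.le
      _ ≤ A * (S * (A ^ C * Real.log Y ^ C)) := by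
          apply mul_le_mul_of_nonneg_left _ hA0.le
          exact mul_le_mul_of_nonneg_left hlogC hS.le
      _ = S * ((A ^ C * A) * Real.log Y ^ C) := by ring
      _ ≤ S * Real.log Y ^ (C + 1) := by
          apply mul_le_mul_of_nonneg_left _ hS.le
          rw [hsplit, ← hAsplit, mul_comm]
          apply mul_le_mul_of_nonneg_left _ hYC.le
          linarith) (by
    intro q b hq hqb
    have e : ∑ n ∈ (Icc 1 (argCount G Y)).filter (fun n => n ≡ b [MOD q]), f n =
        ∑ n ∈ (Icc 1 (60 * X)).filter (fun n => n ≡ b [MOD q]), f n := by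
      symm
      refine Finset.sum_subset ?_ ?_
      · refine Finset.filter_subset_filter _ (Finset.Icc_subset_Icc_right (hm60.trans hmY))
      · intro n hn hn2
        by_contra h0
        apply hn2
        rw [Finset.mem_filter, Finset.mem_Icc] at hn ⊢
        exact ⟨⟨hn.1.1, (hM.supp n h0).1⟩, hn.2⟩
    rw [e]
    refine hM.upper q b hq (hqb.trans ?_)
    calc Real.log (Y : ℝ) ^ K' ≤ Real.log Y ^ (max K' 0) :=
          Real.rpow_le_rpow_of_exponent_le hlY1 (le_max_left _ _)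
      _ ≤ (A * Real.log X) ^ (max K' 0) :=
          Real.rpow_le_rpow (by linarith) s5 (le_max_right _ _)
      _ ≤ _ := hl0 _ hlX0)
  refine ⟨f, S, w, hM, ?_⟩
  -- notation
  set R : ℕ → ℝ := fun N => ∑ n ∈ Icc 1 (60 * X), f n * H68T.lp ((N : ℤ) - G.eval (n : ℤ)) with hR
  set M : ℕ → ℝ := fun N => ∑ n ∈ Icc 1 (60 * X), f n * Lam w ((N : ℤ) - G.eval (n : ℤ)) with hMd
  have hdiff : ∀ N ∈ Ioc (Y / 2) Y,
      ∑ n ∈ (Icc 1 (argCount G Y)).filter (fun n : ℕ => G.eval (n : ℤ) < N),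
          f n * (H68T.lp ((N : ℤ) - G.eval (n : ℤ)) - Lam w ((N : ℤ) - G.eval (n : ℤ))) =
        R N - M N := by
    intro N hN
    rw [Finset.mem_Ioc] at hN
    have e : R N - M N = ∑ n ∈ Icc 1 (60 * X),
        f n * (H68T.lp ((N : ℤ) - G.eval (n : ℤ)) - Lam w ((N : ℤ) - G.eval (n : ℤ))) := by
      rw [hR, hMd]
      simp only
      rw [← Finset.sum_sub_distrib]
      exact Finset.sum_congr rfl fun n _ => by ring
    rw [e]
    symm
    refine Finset.sum_subset ?_ ?_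
    · intro n hn
      rw [Finset.mem_Icc] at hn
      rw [Finset.mem_filter, Finset.mem_Icc]
      refine ⟨⟨hn.1, hn.2.trans (hm60.trans hmY)⟩, ?_⟩
      have h1 := s6 n hn.1 hn.2
      have h2 : ((Y / 2 : ℕ) : ℤ) < N := by exact_mod_cast hN.1
      linarith
    · intro n hn hn2
      have : f n = 0 := by
        by_contra h0
        apply hn2
        rw [Finset.mem_filter, Finset.mem_Icc] at hn
        rw [Finset.mem_Icc]
        exact ⟨hn.1.1, (hM.supp n h0).1⟩
      rw [this, zero_mul]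
  set E := (range P).filter (fun N => 0 < (aN H G N P).card ∧
        (P : ℝ) * (aN H G N P).card < σ0 * (P.totient * (cF H P).card)) with hEdef
  have hEcard : (E.card : ℝ) ≤ η / 4 * P := hloc w
  set B1 := (Icc 1 Y).filter (fun N => N % P ∈ E) with hB1
  set B2 := (Ioc (Y / 2) Y).filter (fun N => σ0 / (2 * C) * S ≤ |R N - M N|) with hB2
  have hsub : (Ioc (Y / 2) Y).filter (fun N => NFD H G N ∧ R N < σ0 / (2 * C) * S) ⊆ B1 ∪ B2 := by
    intro N hN
    obtain ⟨hN1, hN2, hN3⟩ := Finset.mem_filter.1 hN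
    rw [Finset.mem_union]
    have ha : 0 < (aN H G N P).card := hN2.aN_pos P (P2_primorial_sqf w)
    have hN1' := Finset.mem_Ioc.1 hN1
    by_cases hr : N % P ∈ E
    · left
      exact Finset.mem_filter.2 ⟨Finset.mem_Icc.2 ⟨by omega, hN1'.2⟩, hr⟩
    · right
      refine Finset.mem_filter.2 ⟨hN1, ?_⟩
      have hge : σ0 * (P.totient * (cF H P).card) ≤ (P : ℝ) * (aN H G N P).card := by
        by_contra hlt
        apply hr
        rw [hEdef, Finset.mem_filter, Q2_aN_mod]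
        exact ⟨Finset.mem_range.2 (Nat.mod_lt _ hP0), ha, not_le.1 hlt⟩
      have hmain := Q2_main H G g w X C hC f S hM N ha
      have hcF0 : (0 : ℝ) < P.totient * (cF H P).card := by
        have h1 : 0 < P.totient := Nat.totient_pos.2 hP0
        have h2 : 0 < (cF H P).card := lt_of_lt_of_le ha (Finset.card_filter_le _ _)
        exact_mod_cast Nat.mul_pos h1 h2
      have hm2 : (P.totient * (cF H P).card : ℝ) * (σ0 * S) ≤
          (P.totient * (cF H P).card) * (C * M N) := by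
        calc (P.totient * (cF H P).card : ℝ) * (σ0 * S) =
              (σ0 * (P.totient * (cF H P).card)) * S := by ring
          _ ≤ ((P : ℝ) * (aN H G N P).card) * S := mul_le_mul_of_nonneg_right hge hS.le
          _ ≤ _ := hmain
      have hm3 : σ0 * S ≤ C * M N := le_of_mul_le_mul_left hm2 hcF0
      have hm4 : σ0 / C * S ≤ M N := by
        rw [div_mul_eq_mul_div, div_le_iff₀ hC0]
        linarith
      have h5 : σ0 / (2 * C) * S = σ0 / C * S / 2 := by
        field_simp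
      rw [abs_sub_comm]
      refine le_trans ?_ (le_abs_self _)
      rw [h5] at hN3 ⊢
      linarith
  have hc1 : (B1.card : ℝ) ≤ η / 2 * Y := by
    have h1 : (B1.card : ℝ) ≤ E.card * ((Y / P : ℕ) + 1) := by
      exact_mod_cast Q2_count P Y hP0 E
    have hPr : (0 : ℝ) < P := by exact_mod_cast hP0
    have h2 : ((Y / P : ℕ) : ℝ) * P ≤ Y := by
      exact_mod_cast Nat.div_mul_le_self Y P
    have h3 : (P : ℝ) ≤ Y := by exact_mod_cast hYP
    calc (B1.card : ℝ) ≤ E.card * ((Y / P : ℕ) + 1) := h1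
      _ ≤ (η / 4 * P) * ((Y / P : ℕ) + 1) :=
          mul_le_mul_of_nonneg_right hEcard (by positivity)
      _ = η / 4 * (((Y / P : ℕ) : ℝ) * P + P) := by ring
      _ ≤ η / 4 * (Y + Y) := by
          apply mul_le_mul_of_nonneg_left (by linarith) (by linarith)
      _ = η / 2 * Y := by ring
  have hc2 : (B2.card : ℝ) ≤ η / 2 * Y := by
    have h1 : (B2.card : ℝ) * (σ0 / (2 * C) * S) ≤ η * σ0 / (4 * C) * Y * S := by
      calc (B2.card : ℝ) * (σ0 / (2 * C) * S) = ∑ N ∈ B2, σ0 / (2 * C) * S := by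
            rw [Finset.sum_const, nsmul_eq_mul]
        _ ≤ ∑ N ∈ B2, |R N - M N| := Finset.sum_le_sum fun N hN => (Finset.mem_filter.1 hN).2
        _ = ∑ N ∈ B2, |∑ n ∈ (Icc 1 (argCount G Y)).filter (fun n : ℕ => G.eval (n : ℤ) < N),
              f n * (H68T.lp ((N : ℤ) - G.eval (n : ℤ)) - Lam w ((N : ℤ) - G.eval (n : ℤ)))| := by
            refine Finset.sum_congr rfl fun N hN => ?_
            rw [hdiff N (Finset.mem_filter.1 hN).1]
        _ ≤ ∑ N ∈ Icc 1 Y, |∑ n ∈ (Icc 1 (argCount G Y)).filter (fun n : ℕ => G.eval (n : ℤ) < N),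
              f n * (H68T.lp ((N : ℤ) - G.eval (n : ℤ)) - Lam w ((N : ℤ) - G.eval (n : ℤ)))| := by
            refine Finset.sum_le_sum_of_subset_of_nonneg ?_ fun _ _ _ => abs_nonneg _
            intro N hN
            have := Finset.mem_Ioc.1 (Finset.mem_filter.1 hN).1
            exact Finset.mem_Icc.2 ⟨by omega, this.2⟩
        _ ≤ _ := hEng
    have h2 : η * σ0 / (4 * C) * Y * S = (η / 2 * Y) * (σ0 / (2 * C) * S) := by
      field_simp
      ring
    rw [h2] at h1
    exact le_of_mul_le_mul_right h1 (by positivity)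
  have h6 : (((Ioc (Y / 2) Y).filter (fun N => NFD H G N ∧ R N < σ0 / (2 * C) * S)).card : ℝ) ≤
      B1.card + B2.card := by
    exact_mod_cast (Finset.card_le_card hsub).trans (Finset.card_union_le _ _)
  calc _ ≤ (B1.card : ℝ) + B2.card := h6
    _ ≤ η * Y := by linarith

end Pool.Agent.Lib.H57M
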