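import Pool.Agent.Lib.H57M.Q2

/-!
# Chunk Q3: from weights to numbers, one dyadic block
-/

open Finset Polynomial

namespace Pool.Agent.Lib.H57M

open Pool.Agent.Lib.H59

/-- The system `x + h_1, .., x + h_g`. -/
noncomputable def sysF {g : ℕ} (h : Fin g → ℕ) : Fin g → ℤ[X] := fun i => X + C (h i : ℤ)

/-- `N` is good: for some `g` elements of `H` the number `Q_1(N)` is at least `X/(log X)^C`. -/
def GoodT (g : ℕ) (H : Finset ℕ) (G : ℤ[X]) (C : ℝ) (N : ℕ) : Prop :=
  ∃ h : Fin g → ℕ, StrictMono h ∧ (∀ i, h i ∈ H) ∧ Admissible (sysF h) G N ∧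
    (argCount G N : ℝ) / Real.log (argCount G N) ^ C ≤ primeCount (sysF h) G N

theorem Q3_sub {H : Finset ℕ} {G : ℤ[X]} {N g : ℕ} (h : Fin g → ℕ) (hh : StrictMono h)
    (hH : ∀ i, h i ∈ H) (hN : NFD H G N) :
    ∀ p : ℕ, p.Prime → ¬ ∀ n : ℤ, (p : ℤ) ∣ ((∏ i, sysF h i) * (C (N : ℤ) - G)).eval n := by
  classical
  intro p hp hall
  apply hN p hp
  intro n
  refine (hall n).trans ?_
  rw [Q2_eval, Polynomial.eval_mul, Polynomial.eval_prod, Polynomial.eval_sub, Polynomial.eval_C]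
  refine mul_dvd_mul ?_ (dvd_refl _)
  have e : ∏ i, (sysF h i).eval n = ∏ t ∈ univ.image h, (n + (t : ℤ)) := by
    rw [Finset.prod_image (fun a _ b _ hab => hh.injective hab)]
    refine Finset.prod_congr rfl fun i _ => ?_
    unfold sysF
    rw [Polynomial.eval_add, Polynomial.eval_X, Polynomial.eval_C]
  rw [e]
  refine Finset.prod_dvd_prod_of_subset _ _ _ ?_
  intro t ht
  obtain ⟨i, -, rfl⟩ := Finset.mem_image.1 ht
  exact hH i

theorem Q3_const {H : Finset ℕ} {G : ℤ[X]} {N : ℕ} (hN : NFD H G N) (a b : ℤ[X])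
    (hab : C (N : ℤ) - G = a * b) (ha : a.natDegree = 0) : IsUnit a := by
  obtain ⟨z, hz⟩ : ∃ z, C z = a := ⟨a.coeff 0, (Polynomial.eq_C_of_natDegree_eq_zero ha).symm⟩
  rw [← hz]
  refine (Int.isUnit_iff_natAbs_eq.2 ?_).map C
  by_contra h1
  obtain ⟨p, hp, hpz⟩ := Nat.exists_prime_and_dvd h1
  apply hN p hp
  intro n
  rw [Polynomial.eval_mul, hab, ← hz, Polynomial.eval_mul, Polynomial.eval_C]
  exact Dvd.dvd.mul_left (Dvd.dvd.mul_right (Int.natCast_dvd.2 hpz) _) _

theorem Q3_count (a : ℤ[X]) (ha : 1 ≤ a.natDegree) (A : Finset ℕ)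
    (hA : ∀ n ∈ A, IsUnit (a.eval (n : ℤ))) : A.card ≤ 2 * a.natDegree := by
  classical
  have hne : ∀ z : ℤ, a - C z ≠ 0 := by
    intro z h0
    have : a.natDegree = 0 := by
      rw [sub_eq_zero.1 h0, Polynomial.natDegree_C]
    omega
  have hsub : A.image (fun n : ℕ => (n : ℤ)) ⊆
      (a - C 1).roots.toFinset ∪ (a - C (-1)).roots.toFinset := by
    intro y hy
    obtain ⟨n, hn, rfl⟩ := Finset.mem_image.1 hy
    rw [Finset.mem_union, Multiset.mem_toFinset, Multiset.mem_toFinset,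
      Polynomial.mem_roots (hne 1), Polynomial.mem_roots (hne (-1)), Polynomial.IsRoot.def,
      Polynomial.IsRoot.def, Polynomial.eval_sub, Polynomial.eval_sub, Polynomial.eval_C,
      Polynomial.eval_C]
    rcases Int.isUnit_iff.1 (hA n hn) with h | h
    · left; rw [h]; ring
    · right; rw [h]; ring
  rw [← Finset.card_image_of_injective A (f := fun n : ℕ => (n : ℤ)) Nat.cast_injective]
  refine (Finset.card_le_card hsub).trans ((Finset.card_union_le _ _).trans ?_)
  have hc : ∀ z : ℤ, (a - C z).roots.toFinset.card ≤ a.natDegree := by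
    intro z
    refine (Multiset.toFinset_card_le _).trans ((Polynomial.card_roots' _).trans ?_)
    rw [Polynomial.natDegree_sub_C]
  have h1 := hc 1
  have h2 := hc (-1)
  omega

theorem Q3_irr {H : Finset ℕ} {G : ℤ[X]} {N : ℕ} (hG : 1 ≤ G.natDegree) (hN : NFD H G N)
    (A : Finset ℕ) (hA : ∀ n ∈ A, ∃ q : ℕ, q.Prime ∧ (N : ℤ) - G.eval (n : ℤ) = q)
    (hcard : 2 * G.natDegree < A.card) : Irreducible (C (N : ℤ) - G) := by
  classical
  have hdeg : (C (N : ℤ) - G).natDegree = G.natDegree := by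
    rw [← neg_sub, Polynomial.natDegree_neg, Polynomial.natDegree_sub_C]
  have hne : C (N : ℤ) - G ≠ 0 := by
    intro h0
    rw [h0, Polynomial.natDegree_zero] at hdeg
    omega
  refine ⟨fun hu => ?_, fun a b hab => ?_⟩
  · have := Polynomial.natDegree_eq_zero_of_isUnit hu
    omega
  · by_cases ha : a.natDegree = 0
    · exact Or.inl (Q3_const hN a b hab ha)
    by_cases hb : b.natDegree = 0
    · exact Or.inr (Q3_const hN b a (by rw [hab, mul_comm]) hb)
    exfalso
    have ha0 : a ≠ 0 := by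
      rintro rfl
      exact ha Polynomial.natDegree_zero
    have hb0 : b ≠ 0 := by
      rintro rfl
      exact hb Polynomial.natDegree_zero
    have hsum : a.natDegree + b.natDegree = G.natDegree := by
      rw [← Polynomial.natDegree_mul ha0 hb0, ← hab, hdeg]
    have h1 := Q3_count a (by omega) (A.filter (fun n : ℕ => IsUnit (a.eval (n : ℤ))))
      (fun n hn => (Finset.mem_filter.1 hn).2)
    have h2 := Q3_count b (by omega) (A.filter (fun n : ℕ => IsUnit (b.eval (n : ℤ))))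
      (fun n hn => (Finset.mem_filter.1 hn).2)
    have h3 : A ⊆ A.filter (fun n : ℕ => IsUnit (a.eval (n : ℤ))) ∪
        A.filter (fun n : ℕ => IsUnit (b.eval (n : ℤ))) := by
      intro n hn
      obtain ⟨q, hq, he⟩ := hA n hn
      have he2 : (q : ℤ) = a.eval (n : ℤ) * b.eval (n : ℤ) := by
        rw [← he, ← Polynomial.eval_mul, ← hab, Polynomial.eval_sub, Polynomial.eval_C]
      rw [Finset.mem_union, Finset.mem_filter, Finset.mem_filter]
      rcases (Nat.prime_iff_prime_int.1 hq).irreducible.isUnit_or_isUnit he2 with h | h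
      · exact Or.inl ⟨hn, h⟩
      · exact Or.inr ⟨hn, h⟩
    have h4 := (Finset.card_le_card h3).trans (Finset.card_union_le _ _)
    omega

/-- `G` is bounded from below on the nonnegative integers. -/
theorem Q3_below (G : ℤ[X]) (hG : 1 ≤ G.natDegree) (hlc : 0 < G.leadingCoeff) :
    ∃ m : ℕ, ∀ n : ℕ, -(m : ℤ) ≤ G.eval (n : ℤ) := by
  set Q : ℝ[X] := G.map (Int.castRingHom ℝ) with hQ
  have hinj : Function.Injective (Int.castRingHom ℝ) := by
    intro a b hab
    simpa using hab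
  have hdeg : Q.natDegree = G.natDegree := Polynomial.natDegree_map_eq_of_injective hinj G
  have hlcQ : Q.leadingCoeff = (G.leadingCoeff : ℝ) := by
    rw [hQ, Polynomial.leadingCoeff_map_of_injective hinj]
    simp
  have hQ0 : 0 < Q.degree := by
    rw [← Polynomial.natDegree_pos_iff_degree_pos]
    omega
  have ht := Polynomial.tendsto_atTop_of_leadingCoeff_nonneg Q hQ0 (by
    rw [hlcQ]
    exact_mod_cast hlc.le)
  have ht2 := (ht.comp tendsto_natCast_atTop_atTop).eventually_ge_atTop 0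
  obtain ⟨n0, hn0⟩ := Filter.eventually_atTop.1 ht2
  refine ⟨∑ n ∈ range n0, (G.eval (n : ℤ)).natAbs, fun n => ?_⟩
  rcases Nat.lt_or_ge n n0 with h | h
  · have h1 : (G.eval (n : ℤ)).natAbs ≤ ∑ n ∈ range n0, (G.eval (n : ℤ)).natAbs :=
      Finset.single_le_sum (f := fun n : ℕ => (G.eval (n : ℤ)).natAbs)
        (fun _ _ => Nat.zero_le _) (Finset.mem_range.2 h)
    have h2 : ((G.eval (n : ℤ)).natAbs : ℤ) ≤
        ((∑ n ∈ range n0, (G.eval (n : ℤ)).natAbs : ℕ) : ℤ) := by exact_mod_cast h1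
    have h3 := neg_abs_le (G.eval (n : ℤ))
    rw [Int.abs_eq_natAbs] at h3
    linarith
  · have h1 := hn0 n h
    simp only [Function.comp] at h1
    have h2 : Q.eval (n : ℝ) = ((G.eval (n : ℤ) : ℤ) : ℝ) := by
      rw [hQ, show (n : ℝ) = Int.castRingHom ℝ (n : ℤ) by simp, Polynomial.eval_map,
        Polynomial.eval₂_at_apply]
      simp
    rw [h2] at h1
    have h3 : 0 ≤ G.eval (n : ℤ) := by exact_mod_cast h1
    have h4 : (0 : ℤ) ≤ ((∑ n ∈ range n0, (G.eval (n : ℤ)).natAbs : ℕ) : ℤ) := Int.natCast_nonneg _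
    linarith

theorem Q3_log (s B : ℝ) : ∃ x0 : ℝ, ∀ x : ℝ, x0 ≤ x → B * Real.log x ^ s ≤ x := by
  have h := (isLittleO_log_rpow_rpow_atTop s (zero_lt_one)).def (c := 1 / (|B| + 1)) (by positivity)
  obtain ⟨x1, hx1⟩ := Filter.eventually_atTop.1 h
  refine ⟨max x1 1, fun x hx => ?_⟩
  have h1 := hx1 x ((le_max_left _ _).trans hx)
  have hx0 : 1 ≤ x := (le_max_right _ _).trans hx
  have hl : 0 ≤ Real.log x := Real.log_nonneg hx0
  have hx0' : (0 : ℝ) ≤ x := by linarith
  rw [Real.rpow_one, Real.norm_eq_abs, Real.norm_eq_abs, abs_of_nonneg (Real.rpow_nonneg hl _),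
    abs_of_nonneg hx0'] at h1
  have hls : 0 ≤ Real.log x ^ s := Real.rpow_nonneg hl _
  calc B * Real.log x ^ s ≤ |B| * Real.log x ^ s := mul_le_mul_of_nonneg_right (le_abs_self _) hls
    _ ≤ |B| * (1 / (|B| + 1) * x) := mul_le_mul_of_nonneg_left h1 (abs_nonneg _)
    _ = (|B| / (|B| + 1)) * x := by ring
    _ ≤ 1 * x := by
        apply mul_le_mul_of_nonneg_right _ (by linarith)
        rw [div_le_one (by positivity)]
        linarith
    _ = x := one_mul x

theorem goodT_of_weighted (G : ℤ[X]) (hG : 1 ≤ G.natDegree) (hlc : 0 < G.leadingCoeff)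
    (g : ℕ) (H : Finset ℕ) (C c : ℝ) (hC : 1 ≤ C) (hc : 0 < c) :
    ∃ Y0 : ℕ, ∀ Y : ℕ, Y0 ≤ Y → ∀ (f : ℕ → ℝ) (S : ℝ) (w : ℕ),
      MW H g w (argCount G (Y / 2) / 60) C f S → ∀ N ∈ Ioc (Y / 2) Y, NFD H G N →
        c * S ≤ ∑ n ∈ Icc 1 (60 * (argCount G (Y / 2) / 60)),
          f n * H68T.lp ((N : ℤ) - G.eval (n : ℤ)) →
        GoodT g H G (2 * C + 2) N := by
  classical
  obtain ⟨A, hA, hsc⟩ := Q2_scale G hG hlc
  obtain ⟨m, hm⟩ := Q3_below G hG hlc
  obtain ⟨x0, hx0⟩ := Q3_log (2 * C + 2) (2 * G.natDegree + 1)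
  obtain ⟨Ys, hYs⟩ := hsc (max (max x0 (2 * A ^ 2 * 2 ^ H.card / c)) 1)
  refine ⟨max Ys (max 2 m), fun Y hY f S w hM N hN hNFD hsum => ?_⟩
  have hY1 : Ys ≤ Y := (le_max_left _ _).trans hY
  have hY2 : 2 ≤ Y := ((le_max_left _ _).trans (le_max_right _ _)).trans hY
  have hY3 : m ≤ Y := ((le_max_right _ _).trans (le_max_right _ _)).trans hY
  obtain ⟨s1, s2, s3, s4, s5, s6, s7⟩ := hYs Y hY1
  set X := argCount G (Y / 2) / 60 with hX
  rw [Finset.mem_Ioc] at hN
  obtain ⟨t1, t2, t3⟩ := s7 N hN.1.le hN.2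
  have hA0 : 0 < A := by linarith
  have hXx0 : x0 ≤ (X : ℝ) := ((le_max_left _ _).trans (le_max_left _ _)).trans s1
  have hX1 : (1 : ℝ) ≤ X := (le_max_right _ _).trans s1
  have hl1 : (1 : ℝ) ≤ Real.log X := (le_max_right _ _).trans s2
  have hlb : 2 * A ^ 2 * 2 ^ H.card / c ≤ Real.log X :=
    ((le_max_right _ _).trans (le_max_left _ _)).trans s2
  set l := Real.log (X : ℝ) with hl
  set L := Real.log (Y : ℝ) with hL
  have hl0 : 0 < l := by linarith
  have hL0 : 0 < L := by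
    rw [hL]
    exact Real.log_pos (by exact_mod_cast hY2)
  -- the set of good n
  set AN := (Icc 1 (60 * X)).filter (fun n : ℕ => f n ≠ 0 ∧ ((N : ℤ) - G.eval (n : ℤ)).toNat.Prime)
    with hAN
  have hlp : ∀ n : ℕ, 0 ≤ H68T.lp ((N : ℤ) - G.eval (n : ℤ)) ∧
      H68T.lp ((N : ℤ) - G.eval (n : ℤ)) ≤ 2 * L := by
    intro n
    unfold H68T.lp
    split_ifs with hp
    · have h1 : 0 < (N : ℤ) - G.eval (n : ℤ) := by
        by_contra hneg
        rw [Int.toNat_of_nonpos (not_lt.1 hneg)] at hp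
        exact Nat.not_prime_zero hp
      have h2 : (N : ℤ) - G.eval (n : ℤ) ≤ (Y : ℤ) * Y := by
        have h3 := hm n
        have h4 : (N : ℤ) ≤ Y := by exact_mod_cast hN.2
        have h5 : (m : ℤ) ≤ Y := by exact_mod_cast hY3
        have h6 : (2 : ℤ) ≤ Y := by exact_mod_cast hY2
        nlinarith
      have h1' : (1 : ℝ) ≤ (((N : ℤ) - G.eval (n : ℤ) : ℤ) : ℝ) := by exact_mod_cast h1
      have h2' : (((N : ℤ) - G.eval (n : ℤ) : ℤ) : ℝ) ≤ (Y : ℝ) * Y := by exact_mod_cast h2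
      refine ⟨Real.log_nonneg h1', ?_⟩
      have hYr : (0 : ℝ) < Y := by
        have : 0 < Y := by omega
        exact_mod_cast this
      calc Real.log (((N : ℤ) - G.eval (n : ℤ) : ℤ) : ℝ) ≤ Real.log ((Y : ℝ) * Y) :=
            Real.log_le_log (by linarith) h2'
        _ = 2 * L := by rw [Real.log_mul hYr.ne' hYr.ne']; ring
    · exact ⟨le_refl _, by linarith⟩
  have hS1 : c * S ≤ AN.card * (l ^ C * (2 * L)) := by
    refine hsum.trans ?_
    have e : ∑ n ∈ Icc 1 (60 * X), f n * H68T.lp ((N : ℤ) - G.eval (n : ℤ)) =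
        ∑ n ∈ AN, f n * H68T.lp ((N : ℤ) - G.eval (n : ℤ)) := by
      symm
      refine Finset.sum_subset (Finset.filter_subset _ _) ?_
      intro n hn hn2
      by_cases hf : f n = 0
      · rw [hf, zero_mul]
      · have hp : ¬ ((N : ℤ) - G.eval (n : ℤ)).toNat.Prime := by
          intro hp
          exact hn2 (Finset.mem_filter.2 ⟨hn, hf, hp⟩)
        have : H68T.lp ((N : ℤ) - G.eval (n : ℤ)) = 0 := if_neg hp
        rw [this, mul_zero]
    rw [e, ← nsmul_eq_mul, ← Finset.sum_const]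
    refine Finset.sum_le_sum fun n _ => ?_
    exact mul_le_mul (hM.bdd n) (hlp n).2 (hlp n).1 (Real.rpow_nonneg hl0.le _)
  have hlC : 0 < l ^ C := Real.rpow_pos_of_pos hl0 _
  have hS2 : c * X ≤ AN.card * (l ^ (2 * C + 1) * (2 * A)) := by
    have e : l ^ (2 * C + 1) = l ^ C * l ^ C * l := by
      rw [Real.rpow_add hl0, Real.rpow_one, show 2 * C = C + C by ring, Real.rpow_add hl0]
    have hcard : (0 : ℝ) ≤ AN.card := Nat.cast_nonneg _
    calc c * (X : ℝ) ≤ c * (S * l ^ C) := mul_le_mul_of_nonneg_left hM.mass hc.le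
      _ = (c * S) * l ^ C := by ring
      _ ≤ (AN.card * (l ^ C * (2 * L))) * l ^ C := mul_le_mul_of_nonneg_right hS1 hlC.le
      _ ≤ (AN.card * (l ^ C * (2 * (A * l)))) * l ^ C := by
          apply mul_le_mul_of_nonneg_right _ hlC.le
          apply mul_le_mul_of_nonneg_left _ hcard
          apply mul_le_mul_of_nonneg_left _ hlC.le
          linarith
      _ = AN.card * (l ^ (2 * C + 1) * (2 * A)) := by rw [e]; ring
  -- pigeonhole
  set AT : Finset ℕ → Finset ℕ := fun T => AN.filter (fun n => ∀ h ∈ T, (n + h).Prime) with hAT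
  have hcover : AN ⊆ (H.powersetCard g).biUnion AT := by
    intro n hn
    have h1 := (Finset.mem_filter.1 hn).2.1
    have h2 := (hM.supp n h1).2
    unfold npr at h2
    obtain ⟨T, hT1, hT2⟩ := Finset.exists_subset_card_eq h2
    refine Finset.mem_biUnion.2 ⟨T, Finset.mem_powersetCard.2 ⟨hT1.trans (Finset.filter_subset _ _), hT2⟩, ?_⟩
    exact Finset.mem_filter.2 ⟨hn, fun h hh => (Finset.mem_filter.1 (hT1 hh)).2⟩
  have hANpos : 0 < AN.card := by
    by_contra h0
    have : AN.card = 0 := by omega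
    rw [this, Nat.cast_zero, zero_mul] at hS2
    have : 0 < c * (X : ℝ) := by positivity
    linarith
  have hne : (H.powersetCard g).Nonempty := by
    obtain ⟨n, hn⟩ := Finset.card_pos.1 hANpos
    obtain ⟨T, hT, -⟩ := Finset.mem_biUnion.1 (hcover hn)
    exact ⟨T, hT⟩
  obtain ⟨T, hT, hTmax⟩ := Finset.exists_max_image (H.powersetCard g) (fun T => (AT T).card) hne
  obtain ⟨hTH, hTg⟩ := Finset.mem_powersetCard.1 hT
  have hAT1 : AN.card ≤ 2 ^ H.card * (AT T).card := by
    calc AN.card ≤ ((H.powersetCard g).biUnion AT).card := Finset.card_le_card hcover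
      _ ≤ ∑ T' ∈ H.powersetCard g, (AT T').card := Finset.card_biUnion_le
      _ ≤ (H.powersetCard g).card • (AT T).card :=
          Finset.sum_le_card_nsmul _ _ _ fun T' hT' => hTmax T' hT'
      _ = (H.powersetCard g).card * (AT T).card := by rw [smul_eq_mul]
      _ ≤ 2 ^ H.card * (AT T).card := by
          apply Nat.mul_le_mul_right
          rw [← Finset.card_powerset]
          refine Finset.card_le_card fun T' hT' => ?_
          exact Finset.mem_powerset.2 (Finset.mem_powersetCard.1 hT').1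
  have hAT1r : (AN.card : ℝ) ≤ 2 ^ H.card * (AT T).card := by exact_mod_cast hAT1
  have hlow : A * X / l ^ (2 * C + 2) ≤ (AT T).card := by
    have e : l ^ (2 * C + 2) = l ^ (2 * C + 1) * l := by
      rw [show 2 * C + 2 = (2 * C + 1) + 1 by ring, Real.rpow_add hl0 (2 * C + 1), Real.rpow_one]
    have hp : 0 < l ^ (2 * C + 1) := Real.rpow_pos_of_pos hl0 _
    rw [div_le_iff₀ (Real.rpow_pos_of_pos hl0 _), e]
    rw [div_le_iff₀ hc] at hlb
    have hATn : (0 : ℝ) ≤ (AT T).card := Nat.cast_nonneg _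
    have h2 : (0 : ℝ) < 2 ^ H.card := by positivity
    -- c X ≤ 2^|H| #AT l^(2C+1) 2 A
    have h3 : c * X ≤ (2 ^ H.card * (AT T).card) * (l ^ (2 * C + 1) * (2 * A)) :=
      hS2.trans (mul_le_mul_of_nonneg_right hAT1r (by positivity))
    have h4 : c * (A * X) ≤ c * ((AT T).card * (l ^ (2 * C + 1) * l)) := by
      calc c * (A * X) = A * (c * X) := by ring
        _ ≤ A * ((2 ^ H.card * (AT T).card) * (l ^ (2 * C + 1) * (2 * A))) :=
            mul_le_mul_of_nonneg_left h3 hA0.le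
        _ = (2 * A ^ 2 * 2 ^ H.card) * ((AT T).card * l ^ (2 * C + 1)) := by ring
        _ ≤ (l * c) * ((AT T).card * l ^ (2 * C + 1)) :=
            mul_le_mul_of_nonneg_right hlb (by positivity)
        _ = _ := by ring
    exact le_of_mul_le_mul_left h4 hc
  have hXN : (X : ℝ) ≤ argCount G N := by
    have : X ≤ argCount G N := by omega
    exact_mod_cast this
  have hNA : (argCount G N : ℝ) ≤ A * X := by
    have : (argCount G N : ℝ) ≤ argCount G Y := by exact_mod_cast t2
    linarith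
  have hq : ∀ n ∈ AN, ∃ q : ℕ, q.Prime ∧ (N : ℤ) - G.eval (n : ℤ) = q := by
    intro n hn
    have hp := (Finset.mem_filter.1 hn).2.2
    refine ⟨_, hp, (Int.toNat_of_nonneg ?_).symm⟩
    by_contra hneg
    rw [Int.toNat_of_nonpos (by omega)] at hp
    exact Nat.not_prime_zero hp
  refine ⟨T.orderEmbOfFin hTg, (T.orderEmbOfFin hTg).strictMono,
    fun i => hTH (Finset.orderEmbOfFin_mem T hTg i), ⟨?_, ?_⟩, ?_⟩
  · -- irreducible
    refine Q3_irr hG hNFD (AT T) (fun n hn => hq n (Finset.mem_filter.1 hn).1) ?_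
    have h1 := hx0 X hXx0
    have h2 : (2 * G.natDegree + 1 : ℝ) ≤ A * X / l ^ (2 * C + 2) := by
      rw [le_div_iff₀ (Real.rpow_pos_of_pos hl0 _)]
      refine h1.trans ?_
      nlinarith
    have h3 : (2 * G.natDegree + 1 : ℝ) ≤ (AT T).card := h2.trans hlow
    have h4 : 2 * G.natDegree + 1 ≤ (AT T).card := by exact_mod_cast h3
    omega
  · exact Q3_sub _ (T.orderEmbOfFin hTg).strictMono
      (fun i => hTH (Finset.orderEmbOfFin_mem T hTg i)) hNFD
  · -- the count
    have h1 : ((AT T).card : ℝ) ≤ primeCount (sysF (T.orderEmbOfFin hTg)) G N := by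
      have : (AT T).card ≤ primeCount (sysF (T.orderEmbOfFin hTg)) G N := by
        unfold primeCount
        rw [← Set.ncard_coe_finset]
        refine Set.ncard_le_ncard ?_ (t3.subset fun n hn => hn.1)
        intro n hn
        rw [Finset.mem_coe] at hn
        obtain ⟨hn1, hn2⟩ := Finset.mem_filter.1 hn
        have hn3 := Finset.mem_Icc.1 (Finset.mem_filter.1 hn1).1
        refine ⟨⟨hn3.1, ?_⟩, fun i => ?_, hq n hn1⟩
        · have h5 := s6 n hn3.1 hn3.2
          have h6 : ((Y / 2 : ℕ) : ℤ) < N := by exact_mod_cast hN.1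
          linarith
        · refine ⟨n + T.orderEmbOfFin hTg i, hn2 _ (Finset.orderEmbOfFin_mem T hTg i), ?_⟩
          unfold sysF
          rw [Polynomial.eval_add, Polynomial.eval_X, Polynomial.eval_C]
          push_cast
          rfl
      exact_mod_cast this
    refine le_trans ?_ (hlow.trans h1)
    have hlN : l ≤ Real.log (argCount G N) := Real.log_le_log (by linarith) hXN
    exact div_le_div₀ (by positivity) hNA (Real.rpow_pos_of_pos hl0 _)
      (Real.rpow_le_rpow hl0.le hlN (by linarith))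

end Pool.Agent.Lib.H57M
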