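import Pool.Agent.Lib.H57M.Q3

/-!
# Chunk Q4: the theorem for almost all `N`
-/

open Finset Polynomial

namespace Pool.Agent.Lib.H57M

open Pool.Agent.Lib.H59

theorem Q4_eval (H : Finset ℕ) (G : ℤ[X]) (N : ℕ) (n : ℤ) :
    ((∏ h ∈ H, (X + C (h : ℤ))) * (C (N : ℤ) - G)).eval n =
      (∏ h ∈ H, (n + (h : ℤ))) * ((N : ℤ) - G.eval n) := by
  rw [eval_mul, eval_prod, eval_sub, eval_C]
  simp

theorem Q4_adm {H H' : Finset ℕ} (hH : H' ⊆ H) {G : ℤ[X]} {N : ℕ} (h : NFD H G N) : Adm H' := by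
  intro p hp
  by_contra hcon
  push Not at hcon
  apply h p hp
  intro n
  rw [Q4_eval]
  apply Dvd.dvd.mul_right
  have hp0 : (0 : ℤ) < p := by exact_mod_cast hp.pos
  obtain ⟨v, hv⟩ : ∃ v : ℕ, (v : ℤ) = n % p :=
    ⟨(n % p).toNat, Int.toNat_of_nonneg (Int.emod_nonneg _ hp0.ne')⟩
  have h1 := hcon v
  have h2 : (p : ℤ) ∣ ∏ h ∈ H', ((v : ℤ) + (h : ℤ)) := by
    have : ((p : ℕ) : ℤ) ∣ ((∏ h ∈ H', (v + h) : ℕ) : ℤ) := by exact_mod_cast h1
    push_cast at this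
    exact this
  have hpp : Prime (p : ℤ) := Nat.prime_iff_prime_int.1 hp
  obtain ⟨k, hk, h3⟩ := hpp.exists_mem_finset_dvd h2
  refine Dvd.dvd.trans ?_ (Finset.dvd_prod_of_mem _ (hH hk))
  have h4 : n + (k : ℤ) = ((v : ℤ) + k) + p * (n / p) := by
    rw [hv]
    have := Int.emod_add_mul_ediv n p
    linarith
  rw [h4]
  exact dvd_add h3 (dvd_mul_right _ _)

theorem Q4_nfd {H H' : Finset ℕ} (hH : H' ⊆ H) {G : ℤ[X]} {N : ℕ} (h : NFD H G N) :
    NFD H' G N := by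
  intro p hp hcon
  apply h p hp
  intro n
  have h1 := hcon n
  rw [Q4_eval] at h1 ⊢
  have h2 : (∏ k ∈ H', (n + (k : ℤ))) ∣ ∏ k ∈ H, (n + (k : ℤ)) :=
    Finset.prod_dvd_prod_of_subset _ _ _ hH
  exact h1.trans (mul_dvd_mul_right h2 _)

theorem Q4_good {g : ℕ} {H H' : Finset ℕ} (hH : H' ⊆ H) {G : ℤ[X]} {C : ℝ} {N : ℕ}
    (h : GoodT g H' G C N) : GoodT g H G C N := by
  obtain ⟨k, h1, h2, h3, h4⟩ := h
  exact ⟨k, h1, fun i => hH (h2 i), h3, h4⟩

/-- from dyadic blocks to the initial segment -/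
theorem Q4_dyadic (P : ℕ → Prop) [DecidablePred P] (η : ℝ) (hη : 0 < η) (Y1 : ℕ)
    (h : ∀ Y : ℕ, Y1 ≤ Y → (((Ioc (Y / 2) Y).filter P).card : ℝ) ≤ η * Y) (Y : ℕ) :
    (((Icc 1 Y).filter P).card : ℝ) ≤ 2 * η * Y + Y1 := by
  induction Y using Nat.strong_induction_on with
  | _ Y ih =>
    rcases Nat.lt_or_ge Y Y1 with h1 | h1
    · have h2 : ((Icc 1 Y).filter P).card ≤ Y := by
        refine (card_filter_le _ _).trans ?_
        rw [Nat.card_Icc]
        omega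
      have h3 : (((Icc 1 Y).filter P).card : ℝ) ≤ Y := by exact_mod_cast h2
      have h4 : (Y : ℝ) ≤ Y1 := by exact_mod_cast h1.le
      have h5 : 0 ≤ 2 * η * Y := by positivity
      linarith
    · rcases Nat.eq_zero_or_pos Y with rfl | hY
      · simp
      · have h2 := ih (Y / 2) (by omega)
        have h3 := h Y h1
        have h4 : ((Icc 1 Y).filter P).card ≤
            ((Ioc (Y / 2) Y).filter P).card + ((Icc 1 (Y / 2)).filter P).card := by
          rw [← card_union_of_disjoint]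
          · refine card_le_card ?_
            intro x hx
            rw [mem_filter, mem_Icc] at hx
            rw [mem_union, mem_filter, mem_filter, mem_Ioc, mem_Icc]
            by_cases hxy : x ≤ Y / 2
            · exact Or.inr ⟨⟨hx.1.1, hxy⟩, hx.2⟩
            · exact Or.inl ⟨⟨by omega, hx.1.2⟩, hx.2⟩
          · rw [disjoint_left]
            intro x hx hx'
            rw [mem_filter, mem_Ioc] at hx
            rw [mem_filter, mem_Icc] at hx'
            omega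
        have h5 : (((Icc 1 Y).filter P).card : ℝ) ≤
            ((Ioc (Y / 2) Y).filter P).card + ((Icc 1 (Y / 2)).filter P).card := by
          exact_mod_cast h4
        have h6 : ((Y / 2 : ℕ) : ℝ) ≤ Y / 2 := Nat.cast_div_le
        have h7 : 2 * η * ((Y / 2 : ℕ) : ℝ) ≤ 2 * η * (Y / 2) :=
          mul_le_mul_of_nonneg_left h6 (by positivity)
        linarith

/-- Let `K` be the number of `maynard_weight g`. Let `H' ⊆ H` have `K` elements. If some `N` satisfies `NFD H G N`,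
then `Adm H'` (otherwise there is nothing to prove); `NFD H G N` implies `NFD H' G N`, and `GoodT g H' ..` implies
`GoodT g H ..`. `block_weighted` with `η = ε/8` and `goodT_of_weighted`: for `Y ≥ Y1` at most `η Y` integers
`N ∈ (Y/2, Y]` with `NFD` are not good. Sum over the blocks `Y, Y/2, Y/4, .. ≥ Y1`: at most
`2 η Y + Y1 ≤ ε Y` for `Y ≥ Y0`. -/
theorem almost_all' (g : ℕ) (hg : 1 ≤ g) : ∃ K : ℕ, 1 ≤ K ∧ ∃ C : ℝ, 0 < C ∧
    ∀ H : Finset ℕ, K ≤ H.card →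
    ∀ G : ℤ[X], 1 ≤ G.natDegree → 0 < G.leadingCoeff → Engine G →
      ∀ ε : ℝ, 0 < ε → ∃ Y0 : ℕ, ∀ Y : ℕ, Y0 ≤ Y →
        (open Classical in
        (((Icc 1 Y).filter (fun N => NFD H G N ∧ ¬ GoodT g H G C N)).card : ℝ) ≤ ε * Y) := by
  classical
  obtain ⟨K, hK1, C, hC, hK⟩ := maynard_weight' g hg
  refine ⟨K, hK1, 2 * C + 2, by linarith, fun H hH G hG hlc hE ε hε => ?_⟩
  obtain ⟨H', hsub, hcard⟩ := Finset.exists_subset_card_eq hH
  by_cases hex : ∃ N, NFD H G N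
  swap
  · push Not at hex
    refine ⟨0, fun Y _ => ?_⟩
    have h1 : (Icc 1 Y).filter (fun N => NFD H G N ∧ ¬ GoodT g H G (2 * C + 2) N) = ∅ := by
      rw [filter_eq_empty_iff]
      intro N _ h
      exact hex N h.1
    rw [h1]
    simp only [card_empty, Nat.cast_zero]
    positivity
  obtain ⟨N1, hN1⟩ := hex
  have hadm : Adm H' := Q4_adm hsub hN1
  have hW := hK H' hcard hadm
  obtain ⟨c, hc, Y1, hY1⟩ := block_weighted G hG hlc hE g H' C hC hW (ε / 4) (by positivity)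
  obtain ⟨Y2, hY2⟩ := goodT_of_weighted G hG hlc g H' C c hC hc
  have hblock : ∀ Y : ℕ, max Y1 Y2 ≤ Y → (((Ioc (Y / 2) Y).filter
      (fun N => NFD H G N ∧ ¬ GoodT g H G (2 * C + 2) N)).card : ℝ) ≤ ε / 4 * Y := by
    intro Y hY
    obtain ⟨f, S, w, hMW, hcnt⟩ := hY1 Y ((le_max_left _ _).trans hY)
    refine le_trans ?_ hcnt
    have h1 : ((Ioc (Y / 2) Y).filter
        (fun N => NFD H G N ∧ ¬ GoodT g H G (2 * C + 2) N)).card ≤
        ((Ioc (Y / 2) Y).filter (fun N => NFD H' G N ∧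
          ∑ n ∈ Icc 1 (60 * (argCount G (Y / 2) / 60)),
            f n * H68T.lp ((N : ℤ) - G.eval (n : ℤ)) < c * S)).card := by
      refine card_le_card ?_
      intro N hN
      rw [mem_filter] at hN ⊢
      refine ⟨hN.1, Q4_nfd hsub hN.2.1, ?_⟩
      by_contra hcon
      push Not at hcon
      exact hN.2.2 (Q4_good hsub (hY2 Y ((le_max_right _ _).trans hY) f S w hMW N hN.1
        (Q4_nfd hsub hN.2.1) hcon))
    exact_mod_cast h1
  have hall := Q4_dyadic (fun N => NFD H G N ∧ ¬ GoodT g H G (2 * C + 2) N) (ε / 4)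
    (by positivity) (max Y1 Y2) hblock
  obtain ⟨Y0, hY0⟩ := exists_nat_ge (2 * ((max Y1 Y2 : ℕ) : ℝ) / ε)
  refine ⟨Y0, fun Y hY => ?_⟩
  refine (hall Y).trans ?_
  have h1 : 2 * ((max Y1 Y2 : ℕ) : ℝ) / ε ≤ Y := hY0.trans (by exact_mod_cast hY)
  rw [div_le_iff₀ hε] at h1
  linarith

theorem almost_all (g : ℕ) (hg : 1 ≤ g) : ∃ K : ℕ, 1 ≤ K ∧ ∀ H : Finset ℕ, K ≤ H.card →
    ∀ G : ℤ[X], 1 ≤ G.natDegree → 0 < G.leadingCoeff → Engine G →
      ∃ C : ℝ, ∀ ε : ℝ, 0 < ε → ∃ Y0 : ℕ, ∀ Y : ℕ, Y0 ≤ Y →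
        (open Classical in
        (((Icc 1 Y).filter (fun N => NFD H G N ∧ ¬ GoodT g H G C N)).card : ℝ) ≤ ε * Y) := by
  obtain ⟨K, hK1, C, hC, h⟩ := almost_all' g hg
  exact ⟨K, hK1, fun H hH G hG hl hE => ⟨C, h H hH G hG hl hE⟩⟩

end Pool.Agent.Lib.H57M
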