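import Pool.Agent.Lib.H57M.Q4

/-!
# Chunk Q5: one fixed system, positive upper density
-/

open Finset Polynomial

namespace Pool.Agent.Lib.H57M

open Pool.Agent.Lib.H59

/-- residues modulo a squarefree product of primes -/
theorem Q5_crt (S : Finset ℕ) (hS : ∀ p ∈ S, p.Prime) (r : ℕ → ℕ) :
    ∃ a : ℕ, ∀ p ∈ S, a ≡ r p [MOD p] := by
  have hc : Set.Pairwise (S : Set ℕ) (Function.onFun Nat.Coprime (fun p : ℕ => p)) := by
    intro p hp q hq hpq
    exact (Nat.coprime_primes (hS p hp) (hS q hq)).2 hpq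
  obtain ⟨a, ha⟩ := Nat.chineseRemainderOfFinset r (fun p => p) S
    (fun p hp => (hS p hp).ne_zero) hc
  exact ⟨a, ha⟩

/-- large primes -/
theorem Q5_large (H : Finset ℕ) (G : ℤ[X]) (N p : ℕ) (hp : p.Prime)
    (hB : H.card + G.natDegree < p) (hlc : ¬ (p : ℤ) ∣ G.leadingCoeff) (hG : 1 ≤ G.natDegree) :
    ¬ ∀ n : ℤ, (p : ℤ) ∣ ((∏ h ∈ H, (X + C (h : ℤ))) * (C (N : ℤ) - G)).eval n := by
  intro hall
  have : Fact p.Prime := ⟨hp⟩
  set f : ℤ[X] := (∏ h ∈ H, (X + C (h : ℤ))) * (C (N : ℤ) - G) with hf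
  have hdeg : (C (N : ℤ) - G).natDegree = G.natDegree := natDegree_C_sub' G N
  have hmon : (∏ h ∈ H, (X + C (h : ℤ))).Monic := monic_prod_of_monic _ _ fun h _ => monic_X_add_C _
  have hnd : (∏ h ∈ H, (X + C (h : ℤ)) : ℤ[X]).natDegree = H.card := by
    rw [natDegree_prod_of_monic _ _ fun h _ => monic_X_add_C _]
    simp only [natDegree_X_add_C, sum_const, smul_eq_mul, mul_one]
  have hG0 : C (N : ℤ) - G ≠ 0 := by
    intro h0
    rw [h0] at hdeg
    simp at hdeg
    omega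
  have hfd : f.natDegree = H.card + G.natDegree := by
    rw [hf, natDegree_mul hmon.ne_zero hG0, hnd, hdeg]
  have hflc : f.leadingCoeff = -G.leadingCoeff := by
    rw [hf, leadingCoeff_mul, hmon.leadingCoeff, one_mul, leadingCoeff, hdeg, coeff_sub,
      coeff_C_of_ne_zero (by omega), zero_sub]
    rfl
  set F : (ZMod p)[X] := f.map (Int.castRingHom (ZMod p)) with hF
  have hF0 : F ≠ 0 := by
    intro h0
    have h1 : F.coeff (H.card + G.natDegree) = 0 := by rw [h0, coeff_zero]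
    rw [hF, coeff_map] at h1
    have h2 : f.coeff (H.card + G.natDegree) = -G.leadingCoeff := by
      rw [← hflc, leadingCoeff, hfd]
    rw [h2] at h1
    rw [map_neg, neg_eq_zero] at h1
    have h3 : ((G.leadingCoeff : ℤ) : ZMod p) = 0 := h1
    exact hlc ((ZMod.intCast_zmod_eq_zero_iff_dvd _ _).1 h3)
  apply hF0
  refine eq_zero_of_natDegree_lt_card_of_eval_eq_zero' F Finset.univ ?_ ?_
  · intro x _
    obtain ⟨n, rfl⟩ : ∃ n : ℤ, (n : ZMod p) = x := ZMod.intCast_surjective x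
    have h1 := hall n
    have h2 : F.eval ((n : ℤ) : ZMod p) = ((f.eval n : ℤ) : ZMod p) := by
      rw [hF, eval_intCast_map]
      simp
    rw [h2]
    exact (ZMod.intCast_zmod_eq_zero_iff_dvd _ _).2 h1
  · rw [Finset.card_univ, ZMod.card]
    refine lt_of_le_of_lt natDegree_map_le ?_
    rw [hfd]
    exact hB

/-- For admissible `H` a positive proportion of the `N` satisfies `NFD H G N`: let
`B = |H| + deg G + 1`. For every prime `p ≤ B` let `v_p` be a residue with `p ∤ ∏ (v_p + h)`, and `N_p` a residue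
`≢ G(v_p)`; if `N ≡ N_p` for all `p ≤ B` then no `p ≤ B` is a fixed divisor. For `p > B` the polynomial
`∏ (x + h) (N - G)` modulo `p` has degree `< p`; it is `≠ 0` modulo `p` unless `N - G ≡ 0`, which is excluded if `p` does
not divide all the non-constant coefficients of `G`; for the finitely many other primes `p` (dividing the leading
coefficient) choose `N ≢ G(v_p)` modulo `p` as well. -/
theorem NFD_density (H : Finset ℕ) (hH : Adm H) (G : ℤ[X]) (hG : 1 ≤ G.natDegree) :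
    ∃ a q : ℕ, 0 < q ∧ ∀ N : ℕ, N ≡ a [MOD q] → NFD H G N := by
  classical
  have hlc0 : G.leadingCoeff ≠ 0 := by
    rw [Ne, leadingCoeff_eq_zero]
    rintro rfl
    simp at hG
  obtain ⟨B, hB⟩ : ∃ B, B = H.card + G.natDegree + G.leadingCoeff.natAbs := ⟨_, rfl⟩
  obtain ⟨S, hS⟩ : ∃ S : Finset ℕ, S = (Finset.range (B + 1)).filter Nat.Prime := ⟨_, rfl⟩
  have hSp : ∀ p ∈ S, p.Prime := fun p hp => by
    rw [hS, mem_filter] at hp
    exact hp.2
  choose v hv using hH
  -- the residues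
  obtain ⟨a, ha⟩ := Q5_crt S hSp (fun p => if hp : p.Prime then
    ((G.eval ((v p hp : ℕ) : ℤ) + 1) % (p : ℤ)).toNat else 0)
  refine ⟨a, ∏ p ∈ S, p, Finset.prod_pos fun p hp => (hSp p hp).pos, fun N hN p hp => ?_⟩
  by_cases hpS : p ∈ S
  · intro hall
    have h1 := hall (v p hp : ℕ)
    rw [Q4_eval] at h1
    have hpp : Prime (p : ℤ) := Nat.prime_iff_prime_int.1 hp
    have hp0 : (0 : ℤ) < p := by exact_mod_cast hp.pos
    have h2 : N ≡ a [MOD p] := hN.of_dvd (Finset.dvd_prod_of_mem _ hpS)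
    have h3 := h2.trans (ha p hpS)
    rw [dif_pos hp] at h3
    have h4 : (N : ℤ) ≡ G.eval ((v p hp : ℕ) : ℤ) + 1 [ZMOD p] := by
      have h5 := (Int.natCast_modEq_iff.2 h3)
      rw [Int.toNat_of_nonneg (Int.emod_nonneg _ hp0.ne')] at h5
      exact h5.trans (Int.mod_modEq _ _)
    rcases hpp.dvd_or_dvd h1 with h5 | h5
    · apply hv p hp
      have h6 : (p : ℤ) ∣ ((∏ h ∈ H, (v p hp + h) : ℕ) : ℤ) := by
        push_cast
        exact h5
      exact_mod_cast h6
    · have h6 : (p : ℤ) ∣ (N : ℤ) - G.eval ((v p hp : ℕ) : ℤ) - 1 := by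
        have := h4.symm.dvd
        have e : (N : ℤ) - (G.eval ((v p hp : ℕ) : ℤ) + 1) =
            (N : ℤ) - G.eval ((v p hp : ℕ) : ℤ) - 1 := by ring
        rwa [e] at this
      have h7 : (p : ℤ) ∣ 1 := by
        have := dvd_sub h5 h6
        simpa using this
      exact hpp.not_isUnit (isUnit_of_dvd_one h7)
  · have h1 : B < p := by
      by_contra hcon
      apply hpS
      rw [hS, mem_filter, mem_range]
      exact ⟨by omega, hp⟩
    refine Q5_large H G N p hp (by omega) ?_ hG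
    intro hdvd
    have h2 := Int.natAbs_dvd_natAbs.2 hdvd
    rw [Int.natAbs_natCast] at h2
    have h3 := Nat.le_of_dvd (Int.natAbs_pos.2 hlc0) h2
    omega

/-- the number of the elements of a progression -/
theorem Q5_count (a q Y : ℕ) (hq : 0 < q) (hY : 2 * q ≤ Y) :
    (Y : ℝ) / (2 * q) ≤ ((Icc 1 Y).filter (fun N => N ≡ a [MOD q])).card := by
  have h1 : ((Finset.range (Y / q)).image (fun k => q * k + (if a % q = 0 then q else a % q))).card
      = Y / q := by
    rw [card_image_of_injective, card_range]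
    intro x y hxy
    simp only [Nat.add_right_cancel_iff] at hxy
    exact Nat.eq_of_mul_eq_mul_left hq hxy
  have h2 : (Finset.range (Y / q)).image (fun k => q * k + (if a % q = 0 then q else a % q)) ⊆
      (Icc 1 Y).filter (fun N => N ≡ a [MOD q]) := by
    intro x hx
    rw [mem_image] at hx
    obtain ⟨k, hk, rfl⟩ := hx
    rw [mem_range] at hk
    rw [mem_filter, mem_Icc]
    have h3 : a % q < q := Nat.mod_lt _ hq
    have h4 : q * k + q ≤ Y := by
      have h5 : q * (k + 1) ≤ q * (Y / q) := Nat.mul_le_mul_left _ hk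
      have h6 : q * (Y / q) ≤ Y := Nat.mul_div_le Y q
      rw [Nat.mul_add, Nat.mul_one] at h5
      omega
    refine ⟨⟨?_, ?_⟩, ?_⟩
    · split_ifs with h
      · omega
      · omega
    · split_ifs with h
      · omega
      · omega
    · unfold Nat.ModEq
      split_ifs with h
      · rw [h]
        simp
      · rw [Nat.mul_add_mod, Nat.mod_mod]
  have h3 := card_le_card h2
  rw [h1] at h3
  have h4 : (Y : ℝ) / (2 * q) ≤ ((Y / q : ℕ) : ℝ) := by
    have hq' : (0 : ℝ) < q := by exact_mod_cast hq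
    rw [div_le_iff₀ (by positivity)]
    have h5 : Y < q * (Y / q) + q := by
      have := Nat.div_add_mod Y q
      have h6 := Nat.mod_lt Y hq
      omega
    have h6 : 2 ≤ Y / q := (Nat.le_div_iff_mul_le hq).2 hY
    have h7 : Y ≤ (Y / q) * (2 * q) := by nlinarith
    exact_mod_cast h7
  exact h4.trans (by exact_mod_cast h3)

/-- `NFD_density`, `almost_all` with `ε = 1/(4 q)`: for large `Y` at least `Y/(2 q)` integers `N ≤ Y` are good; the
number of the functions `h : Fin g → H` is finite, so by the pigeonhole principle one of them occurs for at least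
`δ Y` integers `N ≤ Y`, for infinitely many `Y`. -/
theorem fixed_system' (g : ℕ) (K : ℕ) (C : ℝ)
    (hK : ∀ H : Finset ℕ, K ≤ H.card →
    ∀ G : ℤ[X], 1 ≤ G.natDegree → 0 < G.leadingCoeff → Engine G →
      ∀ ε : ℝ, 0 < ε → ∃ Y0 : ℕ, ∀ Y : ℕ, Y0 ≤ Y →
        (open Classical in
        (((Icc 1 Y).filter (fun N => NFD H G N ∧ ¬ GoodT g H G C N)).card : ℝ) ≤ ε * Y)) :
    ∀ H : Finset ℕ, K ≤ H.card →
    Adm H → ∀ G : ℤ[X], 1 ≤ G.natDegree → 0 < G.leadingCoeff → Engine G →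
      ∃ h : Fin g → ℕ, StrictMono h ∧ (∀ i, h i ∈ H) ∧ ∃ δ : ℝ, 0 < δ ∧
        ∀ Y1 : ℕ, ∃ Y : ℕ, Y1 ≤ Y ∧
          (open Classical in
          δ * Y ≤ (((Icc 1 Y).filter (fun N => Admissible (sysF h) G N ∧
            (argCount G N : ℝ) / Real.log (argCount G N) ^ C ≤
              primeCount (sysF h) G N)).card : ℝ)) := by
  classical
  refine fun H hHK hAdm G hG hlc hE => ?_
  have hC := hK H hHK G hG hlc hE
  obtain ⟨a, q, hq, hN⟩ := NFD_density H hAdm G hG
  have hq' : (0 : ℝ) < q := by exact_mod_cast hq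
  obtain ⟨Y0, hY0⟩ := hC (1 / (4 * q)) (by positivity)
  obtain ⟨P, hP⟩ : ∃ P : (Fin g → ℕ) → ℕ → Prop, P = fun h N => Admissible (sysF h) G N ∧
      (argCount G N : ℝ) / Real.log (argCount G N) ^ C ≤ primeCount (sysF h) G N := ⟨_, rfl⟩
  obtain ⟨T, hT⟩ : ∃ T : Finset (Fin g → ℕ),
      T = (Fintype.piFinset (fun _ : Fin g => H)).filter StrictMono := ⟨_, rfl⟩
  have hTm : ∀ h, h ∈ T ↔ (∀ i, h i ∈ H) ∧ StrictMono h := fun h => by
    rw [hT, mem_filter, Fintype.mem_piFinset]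
  obtain ⟨δ, hδ⟩ : ∃ δ : ℝ, δ = 1 / (4 * q * (T.card + 1)) := ⟨_, rfl⟩
  have hδ0 : 0 < δ := by rw [hδ]; positivity
  by_contra hcon
  have h1 : ∀ h ∈ T, ∃ Y1 : ℕ, ∀ Y : ℕ, Y1 ≤ Y →
      (((Icc 1 Y).filter (P h)).card : ℝ) < δ * Y := by
    intro h hh
    by_contra hcon2
    push Not at hcon2
    apply hcon
    refine ⟨h, ((hTm h).1 hh).2, ((hTm h).1 hh).1, δ, hδ0, fun Y1 => ?_⟩
    obtain ⟨Y, hY, hY'⟩ := hcon2 Y1
    refine ⟨Y, hY, ?_⟩
    refine hY'.trans ?_
    have hsub : (Icc 1 Y).filter (P h) ⊆ (Icc 1 Y).filter (fun N => Admissible (sysF h) G N ∧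
        (argCount G N : ℝ) / Real.log (argCount G N) ^ C ≤ primeCount (sysF h) G N) := by
      intro N hN1
      rw [mem_filter] at hN1 ⊢
      refine ⟨hN1.1, ?_⟩
      have h2 := hN1.2
      rw [hP] at h2
      exact h2
    have hle := card_le_card hsub
    exact_mod_cast hle
  choose! Y1 hY1 using h1
  obtain ⟨Y, hY⟩ : ∃ Y, Y = Y0 + 2 * q + 1 + ∑ h ∈ T, Y1 h := ⟨_, rfl⟩
  have hYpos : (0 : ℝ) < Y := by
    have : 0 < Y := by omega
    exact_mod_cast this
  have h2 : ∀ h ∈ T, (((Icc 1 Y).filter (P h)).card : ℝ) ≤ δ * Y := by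
    intro h hh
    refine (hY1 h hh Y ?_).le
    have := Finset.single_le_sum (f := Y1) (fun i _ => Nat.zero_le _) hh
    omega
  have h3 := hY0 Y (by omega)
  have h4 := Q5_count a q Y hq (by omega)
  -- the union
  have h5 : ((Icc 1 Y).filter (fun N => N ≡ a [MOD q])).card ≤
      ((Icc 1 Y).filter (fun N => NFD H G N ∧ ¬ GoodT g H G C N)).card +
        ∑ h ∈ T, ((Icc 1 Y).filter (P h)).card := by
    refine le_trans (card_le_card (t := (Icc 1 Y).filter (fun N => NFD H G N ∧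
      ¬ GoodT g H G C N) ∪ T.biUnion (fun h => (Icc 1 Y).filter (P h))) ?_) ?_
    · intro N hN'
      rw [mem_filter] at hN'
      rw [mem_union, mem_filter, mem_biUnion]
      by_cases hg' : GoodT g H G C N
      · right
        obtain ⟨h, ha, hb, hc, hd⟩ := hg'
        refine ⟨h, (hTm h).2 ⟨hb, ha⟩, ?_⟩
        rw [mem_filter, hP]
        exact ⟨hN'.1, hc, hd⟩
      · left
        exact ⟨hN'.1, hN N hN'.2, hg'⟩
    · refine (card_union_le _ _).trans (Nat.add_le_add_left card_biUnion_le _)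
  have h6 : (((Icc 1 Y).filter (fun N => N ≡ a [MOD q])).card : ℝ) ≤
      ((Icc 1 Y).filter (fun N => NFD H G N ∧ ¬ GoodT g H G C N)).card +
        ∑ h ∈ T, (((Icc 1 Y).filter (P h)).card : ℝ) := by exact_mod_cast h5
  have h7 : ∑ h ∈ T, (((Icc 1 Y).filter (P h)).card : ℝ) ≤ T.card * (δ * Y) := by
    rw [← nsmul_eq_mul]
    exact Finset.sum_le_card_nsmul _ _ _ h2
  have h8 : (T.card : ℝ) * (δ * Y) < 1 / (4 * q) * Y := by
    rw [hδ]
    have hc0 : (0 : ℝ) ≤ T.card := Nat.cast_nonneg _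
    have e : (T.card : ℝ) * (1 / (4 * q * (T.card + 1)) * Y) =
        (T.card / (T.card + 1)) * (1 / (4 * q) * Y) := by
      field_simp
    rw [e]
    have h9 : (T.card : ℝ) / (T.card + 1) < 1 := by
      rw [div_lt_one (by positivity)]
      linarith
    have h10 : 0 < 1 / (4 * (q : ℝ)) * Y := by positivity
    nlinarith
  have h9 : (Y : ℝ) / (2 * q) = 1 / (4 * q) * Y + 1 / (4 * q) * Y := by
    field_simp
    ring
  linarith

theorem fixed_system (g : ℕ) (hg : 1 ≤ g) : ∃ K : ℕ, 1 ≤ K ∧ ∀ H : Finset ℕ, K ≤ H.card →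
    Adm H → ∀ G : ℤ[X], 1 ≤ G.natDegree → 0 < G.leadingCoeff → Engine G →
      ∃ C : ℝ, ∃ h : Fin g → ℕ, StrictMono h ∧ (∀ i, h i ∈ H) ∧ ∃ δ : ℝ, 0 < δ ∧
        ∀ Y1 : ℕ, ∃ Y : ℕ, Y1 ≤ Y ∧
          (open Classical in
          δ * Y ≤ (((Icc 1 Y).filter (fun N => Admissible (sysF h) G N ∧
            (argCount G N : ℝ) / Real.log (argCount G N) ^ C ≤
              primeCount (sysF h) G N)).card : ℝ)) := by
  obtain ⟨K, hK1, C, hC, h⟩ := almost_all' g hg
  exact ⟨K, hK1, fun H hH hA G hG hl hE => ⟨C, fixed_system' g K C h H hH hA G hG hl hE⟩⟩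

end Pool.Agent.Lib.H57M
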