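import Pool.Agent.Lib.H57M.Defs

/-!
# Chunk Q6: a positive proportion of the systems
-/

open Finset

namespace Pool.Agent.Lib.H57M

/-- sets of multiples of `K!` with at most `K` elements are admissible -/
theorem Q6_adm (K : ℕ) (H : Finset ℕ) (hK : H.card ≤ K) (hH : ∀ h ∈ H, K.factorial ∣ h) :
    Adm H := by
  intro p hp
  by_cases hpK : p ≤ K
  · refine ⟨1, fun hd => ?_⟩
    obtain ⟨h, hh, h1⟩ := (Prime.dvd_finsetProd_iff hp.prime _).1 hd
    have h2 : p ∣ h := ((Nat.Prime.dvd_factorial hp).2 hpK).trans (hH h hh)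
    have h3 : p ∣ 1 := (Nat.dvd_add_left h2).1 h1
    exact hp.one_lt.ne' (Nat.dvd_one.1 h3)
  · push Not at hpK
    by_contra hcon
    push Not at hcon
    have h1 : range p ⊆ H.image (fun h => (p - h % p) % p) := by
      intro v hv
      rw [mem_range] at hv
      obtain ⟨h, hh, h1⟩ := (Prime.dvd_finsetProd_iff hp.prime _).1 (hcon v)
      rw [mem_image]
      refine ⟨h, hh, ?_⟩
      have h2 : (v + h % p) % p = 0 := by
        rw [Nat.add_mod, Nat.mod_mod, ← Nat.add_mod]
        exact Nat.mod_eq_zero_of_dvd h1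
      have h3 : h % p < p := Nat.mod_lt _ hp.pos
      obtain ⟨k, hk⟩ := Nat.dvd_of_mod_eq_zero h2
      have h4 : k < 2 := by
        by_contra hk2
        push Not at hk2
        have : p * 2 ≤ p * k := Nat.mul_le_mul_left _ hk2
        omega
      interval_cases k
      · have h5 : v = 0 := by omega
        have h6 : h % p = 0 := by omega
        rw [h6, h5, Nat.sub_zero, Nat.mod_self]
      · have h5 : p - h % p = v := by omega
        rw [h5]
        exact Nat.mod_eq_of_lt hv
    have h2 := card_le_card h1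
    rw [card_range] at h2
    have h3 := card_image_le (s := H) (f := fun h => (p - h % p) % p)
    omega

/-- the sets above a given set -/
theorem Q6_fiber (m K : ℕ) (B : Finset ℕ) (hB : B ⊆ range m) :
    ((powersetCard K (range m)).filter (fun A => B ⊆ A)).card ≤ (m - B.card).choose (K - B.card) := by
  classical
  have h1 : ((powersetCard K (range m)).filter (fun A => B ⊆ A)).card ≤
      (powersetCard (K - B.card) (range m \ B)).card := by
    refine card_le_card_of_injOn (fun A => A \ B) ?_ ?_
    · intro A hA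
      simp only [coe_filter, mem_powersetCard, Set.mem_ofPred_eq] at hA
      simp only [mem_coe, mem_powersetCard]
      refine ⟨sdiff_subset_sdiff hA.1.1 (Subset.refl _), ?_⟩
      rw [card_sdiff_of_subset hA.2, hA.1.2]
    · intro A hA A' hA' h
      simp only [coe_filter, mem_powersetCard, Set.mem_ofPred_eq] at hA hA'
      have h2 : A \ B = A' \ B := h
      rw [← sdiff_union_of_subset hA.2, ← sdiff_union_of_subset hA'.2, h2]
  refine h1.trans ?_
  rw [card_powersetCard, card_sdiff_of_subset hB, card_range]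

/-- A positive proportion of the `g`-tuples has the property `P` if every admissible set with at least `K` elements
contains a `g`-tuple with `P`. -/
theorem many_tuples (g K : ℕ) (hgK : g ≤ K) : ∃ c : ℝ, 0 < c ∧ ∃ T0 : ℕ,
    ∀ P : (Fin g → ℕ) → Prop, (∀ H : Finset ℕ, K ≤ H.card → Adm H →
      ∃ h : Fin g → ℕ, StrictMono h ∧ (∀ i, h i ∈ H) ∧ P h) →
      ∀ T : ℕ, T0 ≤ T → (open Classical in
        c * (T : ℝ) ^ g ≤ (((Fintype.piFinset (fun _ : Fin g => range T)).filter
          (fun h => StrictMono h ∧ P h)).card : ℝ)) := by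
  classical
  obtain ⟨W, hW⟩ : ∃ W : ℕ, W = K.factorial := ⟨_, rfl⟩
  have hW0 : 0 < W := by rw [hW]; exact Nat.factorial_pos K
  have hWr : (0 : ℝ) < W := by exact_mod_cast hW0
  have hKg : 0 < K.choose g := Nat.choose_pos hgK
  have hKgr : (0 : ℝ) < K.choose g := by exact_mod_cast hKg
  have hgf : (0 : ℝ) < g.factorial := by exact_mod_cast Nat.factorial_pos g
  refine ⟨1 / ((2 * W) ^ g * (g.factorial * K.choose g)), by positivity,
    2 * W * (g + K + 1), fun P hP T hT => ?_⟩
  obtain ⟨m, hm⟩ : ∃ m : ℕ, m = T / W := ⟨_, rfl⟩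
  have hmT : m * W ≤ T := by rw [hm]; exact Nat.div_mul_le_self T W
  have hmT' : T < m * W + W := by
    have h1 := Nat.div_add_mod T W
    have h2 := Nat.mod_lt T hW0
    rw [← hm] at h1
    nlinarith
  have hmK : 2 * (g + K + 1) ≤ m := by
    rw [hm, Nat.le_div_iff_mul_le hW0]
    nlinarith
  obtain ⟨t, ht⟩ : ∃ t : Finset (Fin g → ℕ), t = (Fintype.piFinset (fun _ : Fin g => range T)).filter
      (fun h => StrictMono h ∧ P h) := ⟨_, rfl⟩
  -- the tuples
  have h1 : ∀ A ∈ powersetCard K (range m), ∃ h : Fin g → ℕ, h ∈ t ∧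
      ∀ i, ∃ a ∈ A, h i = W * a := by
    intro A hA
    rw [mem_powersetCard] at hA
    have hcard : (A.image (fun a => W * a)).card = K := by
      rw [card_image_of_injective _ (fun a b hab => Nat.eq_of_mul_eq_mul_left hW0 hab), hA.2]
    obtain ⟨h, h1, h2, h3⟩ := hP (A.image (fun a => W * a)) hcard.ge
      (Q6_adm K _ hcard.le (by
        intro x hx
        rw [mem_image] at hx
        obtain ⟨a, _, rfl⟩ := hx
        rw [hW]
        exact dvd_mul_right _ _))
    refine ⟨h, ?_, ?_⟩
    · rw [ht, mem_filter, Fintype.mem_piFinset]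
      refine ⟨fun i => ?_, h1, h3⟩
      obtain ⟨a, ha, h4⟩ := mem_image.1 (h2 i)
      rw [mem_range, ← h4]
      have h5 : a < m := mem_range.1 (hA.1 ha)
      have h6 : W * a + W ≤ m * W := by nlinarith
      omega
    · intro i
      obtain ⟨a, ha, h4⟩ := mem_image.1 (h2 i)
      exact ⟨a, ha, h4.symm⟩
  choose! F hF1 hF2 using h1
  -- the fibres
  have h2 : ∀ h ∈ t, ((powersetCard K (range m)).filter (fun A => F A = h)).card ≤
      (m - g).choose (K - g) := by
    intro h hh
    by_cases hex : ∃ A ∈ powersetCard K (range m), F A = h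
    · obtain ⟨A0, hA0, hA0'⟩ := hex
      have hmono : StrictMono h := by
        rw [ht, mem_filter] at hh
        exact hh.2.1
      obtain ⟨B, hB⟩ : ∃ B : Finset ℕ, B = univ.image (fun i => h i / W) := ⟨_, rfl⟩
      have hmul : ∀ i, ∃ a ∈ A0, h i = W * a := by
        have := hF2 A0 hA0
        rw [hA0'] at this
        exact this
      have hBc : B.card = g := by
        rw [hB, card_image_of_injective, card_univ, Fintype.card_fin]
        intro i j hij
        obtain ⟨a, _, ha⟩ := hmul i
        obtain ⟨b, _, hb⟩ := hmul j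
        apply hmono.injective
        have h3 : h i / W = h j / W := hij
        rw [ha, hb, Nat.mul_div_cancel_left _ hW0, Nat.mul_div_cancel_left _ hW0] at h3
        rw [ha, hb, h3]
      have hBA : ∀ A ∈ powersetCard K (range m), F A = h → B ⊆ A := by
        intro A hA hAh x hx
        rw [hB, mem_image] at hx
        obtain ⟨i, _, rfl⟩ := hx
        obtain ⟨a, ha, ha'⟩ := hF2 A hA i
        rw [hAh] at ha'
        rw [ha', Nat.mul_div_cancel_left _ hW0]
        exact ha
      have hBm : B ⊆ range m := (hBA A0 hA0 hA0').trans (mem_powersetCard.1 hA0).1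
      have h4 := Q6_fiber m K B hBm
      rw [hBc] at h4
      refine le_trans (card_le_card ?_) h4
      intro A hA
      rw [mem_filter] at hA ⊢
      exact ⟨hA.1, hBA A hA.1 hA.2⟩
    · have h3 : (powersetCard K (range m)).filter (fun A => F A = h) = ∅ := by
        rw [filter_eq_empty_iff]
        intro A hA hAh
        exact hex ⟨A, hA, hAh⟩
      rw [h3, card_empty]
      exact Nat.zero_le _
  have h3 := card_le_mul_card_image_of_maps_to hF1 _ h2
  rw [card_powersetCard, card_range] at h3
  have h4 : m.choose K * K.choose g = m.choose g * (m - g).choose (K - g) :=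
    Nat.choose_mul hgK
  have h5 : 0 < (m - g).choose (K - g) := Nat.choose_pos (by omega)
  have h6 : m.choose g ≤ K.choose g * t.card := by
    refine Nat.le_of_mul_le_mul_right ?_ h5
    calc m.choose g * (m - g).choose (K - g) = m.choose K * K.choose g := h4.symm
      _ ≤ ((m - g).choose (K - g) * t.card) * K.choose g := Nat.mul_le_mul_right _ h3
      _ = K.choose g * t.card * (m - g).choose (K - g) := by ring
  have h7 : ((m + 1 - g : ℕ) : ℝ) ^ g ≤ g.factorial * m.choose g := by
    have := Nat.pow_le_choose (α := ℝ) g m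
    rw [div_le_iff₀ hgf] at this
    rw [mul_comm]
    exact_mod_cast this
  have h8 : (m.choose g : ℝ) ≤ K.choose g * t.card := by exact_mod_cast h6
  have h9 : (T : ℝ) / (2 * W) ≤ ((m + 1 - g : ℕ) : ℝ) := by
    rw [div_le_iff₀ (by positivity)]
    have h10 : T ≤ (m + 1 - g) * (2 * W) := by
      have h11 : m + 1 ≤ 2 * (m + 1 - g) := by omega
      have h12 : (m + 1) * W ≤ 2 * (m + 1 - g) * W := Nat.mul_le_mul_right _ h11
      have h13 : T < (m + 1) * W := by
        rw [Nat.add_mul, Nat.one_mul]
        exact hmT'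
      calc T ≤ 2 * (m + 1 - g) * W := (h13.trans_le h12).le
        _ = (m + 1 - g) * (2 * W) := by ring
    exact_mod_cast h10
  have h10 : ((T : ℝ) / (2 * W)) ^ g ≤ g.factorial * (K.choose g * t.card) := by
    refine (pow_le_pow_left₀ (by positivity) h9 g).trans (h7.trans ?_)
    exact mul_le_mul_of_nonneg_left h8 hgf.le
  rw [← ht]
  rw [div_pow, div_le_iff₀ (by positivity)] at h10
  rw [div_mul_eq_mul_div, one_mul, div_le_iff₀ (by positivity)]
  refine h10.trans (le_of_eq ?_)
  ring

end Pool.Agent.Lib.H57M
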