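import Pool.Agent.Lib.H57M.Defs

/-!
# Everything that is needed at one scale, and the weight `wf`
-/

open Finset

namespace Pool.Agent.Lib.H57M

open Pool.Agent.Lib.H15P Pool.Agent.Lib.H92G

/-- The forms `v + h + M t`. -/
structure Sc {K : ℕ} (w : Par K) (H : Finset ℕ) (M X g : ℕ) : Prop where
  cardH : H.card = K
  g1 : 1 ≤ g
  M0 : 0 < M
  X0 : 0 < X
  sqf : Squarefree M
  cop : ∀ p ∈ w.P, ¬ p ∣ M
  HW : ∀ h ∈ H, h ≤ w.W
  HX : ∀ h ∈ H, 8 * (M + h) ≤ X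
  KW : 400 * K ^ 2 ≤ w.W
  long : 100 * K * w.lv ^ 4 * M * Real.exp (2 * Real.sqrt (Real.log X)) ≤ X
  prime : ∀ v ∈ cF H M, ∀ h0 ∈ H, w.z ^ K * (1 + w.n * w.c) ^ 2 / (16 * (M.totient : ℝ)) ≤
    ∑ t ∈ range (60 * X / M + 1),
      w.L (fun h : {h // h ∈ H} => hit w.P (v + h.1 + M * t)) ^ 2 * lpv X (v + h0 + M * t)
  gain : 10 ^ 5 * g * Real.log (60 * X) * M.totient ≤ K * (1 + w.n * w.c) ^ 2 * M

/-- The weight of the theorem: the Maynard weight on the `n ≤ 60 X` with `∏ (n + h)` prime to `M`,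
at least `g` primes among the `n + h`, and weight at most `T0`. -/
noncomputable def wf {K : ℕ} (w : Par K) (H : Finset ℕ) (M X g : ℕ) (T0 : ℝ) (n : ℕ) : ℝ :=
  if n ≤ 60 * X ∧ (∏ h ∈ H, (n + h)).Coprime M ∧ g ≤ npr H n ∧ w.nu H n ≤ T0 then w.nu H n else 0

/-- The hypotheses `Forms` for the forms `v + h + M t`: distinct `h, h'` differ by at most
`W < p`. -/
theorem Sc.forms {K : ℕ} {w : Par K} {H : Finset ℕ} {M X g : ℕ} (hS : Sc w H M X g) (v : ℕ) :
    Forms w.P w.W K M (fun h : {h // h ∈ H} => v + h.1) := by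
  refine ⟨w.prime, w.big, hS.cop, ?_, w.Kpos, ?_, w.KW⟩
  · intro p hp j j' hne hm
    apply hne
    apply Subtype.ext
    have h1 := hS.HW j.1 j.2
    have h2 := hS.HW j'.1 j'.2
    have h3 := w.big p hp
    have h4 : j.1 ≡ j'.1 [MOD p] := Nat.ModEq.add_left_cancel' v hm
    have h5 : j.1 % p = j.1 := Nat.mod_eq_of_lt (by omega)
    have h6 : j'.1 % p = j'.1 := Nat.mod_eq_of_lt (by omega)
    unfold Nat.ModEq at h4
    omega
  · rw [Fintype.card_coe, hS.cardH]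

theorem Sc.card {K : ℕ} {w : Par K} {H : Finset ℕ} {M X g : ℕ} (hS : Sc w H M X g) :
    Fintype.card {h // h ∈ H} = K := by
  rw [Fintype.card_coe, hS.cardH]

/-- The weight of `n = v + M t`. -/
theorem nu_eq {K : ℕ} (w : Par K) (H : Finset ℕ) (M v t : ℕ) :
    w.nu H (v + M * t) =
      w.L (fun h : {h // h ∈ H} => hit w.P (v + h.1 + M * t)) ^ 2 / w.z ^ K := by
  unfold Par.nu
  have : (fun h : {h // h ∈ H} => hit w.P (v + M * t + h.1)) =
      fun h : {h // h ∈ H} => hit w.P (v + h.1 + M * t) := by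
    funext h
    congr 1
    ring
  rw [this]

end Pool.Agent.Lib.H57M
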